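import Pool.Agent.Lib.MP_438f30_pr.AGram
import Pool.Agent.Lib.MP_a0a493_pr.Field

/-! Branch codes, their Kraft sum and the union bound. -/

namespace Pool.Agent.GLA

open Real MeasureTheory Pool.Agent.Lib.MP_a0a493_pr
open scoped InnerProductSpace

/-- one step of a branch: four lattice displacements and the choice of a child -/
abbrev St : Type := (Fin 4 → Zd 2) × Bool

/-- segments -/
abbrev Sg : Type := E 2 × E 2

/-- the cost of a step -/
noncomputable def hc (z : Fin 4 → Zd 2) : ℝ := 17 + ∑ i, ∑ j, |(z i j : ℝ)|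

/-- the cost of a branch -/
noncomputable def hh : List St → ℝ
  | [] => 0
  | c :: L => hh L + hc c.1

/-- bounded steps -/
noncomputable def Steps (Z : ℤ) : Finset St :=
  (Fintype.piFinset fun _ => Fintype.piFinset fun _ => Finset.Icc (-Z) Z) ×ˢ Finset.univ

/-- branches of a given length -/
noncomputable def Ls (Z : ℤ) : ℕ → Finset (List St)
  | 0 => {[]}
  | k + 1 => (Steps Z ×ˢ Ls Z k).map ⟨fun p => p.1 :: p.2, fun _ _ h =>
      Prod.ext (List.cons.inj h).1 (List.cons.inj h).2⟩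

theorem cons_mem {Z : ℤ} {k : ℕ} {z : Fin 4 → Zd 2} (hz : ∀ i j, |z i j| ≤ Z) (b : Bool)
    {L : List St} (hL : L ∈ Ls Z k) : (z, b) :: L ∈ Ls Z (k + 1) := by
  refine Finset.mem_map.2 ⟨((z, b), L), Finset.mem_product.2 ⟨Finset.mem_product.2
    ⟨?_, Finset.mem_univ _⟩, hL⟩, rfl⟩
  simp only [Fintype.mem_piFinset, Finset.mem_Icc]
  exact fun i j => abs_le.1 (hz i j)

theorem sum_abs (s : Finset ℤ) : ∑ z ∈ s, exp (-|(z : ℝ)|) ≤ 4 := by
  have r1 : exp (-1) ≤ 1 / 2 := by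
    rw [exp_neg, one_div]; exact inv_anti₀ two_pos (by linarith [add_one_le_exp 1])
  have key : ∀ t : Finset ℤ, Set.InjOn Int.natAbs (t : Set ℤ) → ∑ z ∈ t, exp (-|(z : ℝ)|) ≤ 2 := by
    intro t ht
    have e : ∀ z : ℤ, exp (-|(z : ℝ)|) = exp (-1) ^ z.natAbs := fun z => by
      rw [← exp_nat_mul, Nat.cast_natAbs, Int.cast_abs]; ring_nf
    simp only [e]
    rw [← Finset.sum_image (f := fun j => exp (-1) ^ j) ht]
    refine (geo_le (exp_pos _).le (by linarith) _ (g := id) (Set.injOn_id _)).trans ?_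
    rw [inv_le_comm₀ (by linarith) two_pos]
    linarith
  rw [← Finset.sum_filter_add_sum_filter_not _ (fun z => 0 ≤ z)]
  have a := key (s.filter fun z => 0 ≤ z) fun a ha b hb h => by
    have := (Finset.mem_filter.1 ha).2
    have := (Finset.mem_filter.1 hb).2
    omega
  have b := key (s.filter fun z => ¬ 0 ≤ z) fun a ha b hb h => by
    have := (Finset.mem_filter.1 ha).2
    have := (Finset.mem_filter.1 hb).2
    omega
  linarith

theorem kraft1 (Z : ℤ) : ∑ c ∈ Steps Z, exp (-hc c.1) ≤ 1 := by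
  have e : ∀ z : Fin 4 → Zd 2, exp (-hc z) = exp (-17) * ∏ i, ∏ j, exp (-|(z i j : ℝ)|) := by
    intro z
    simp only [hc, ← exp_sum, ← exp_add, Finset.sum_neg_distrib, neg_add]
  rw [Steps, Finset.sum_product]
  simp only [e, Finset.sum_const, Finset.card_univ, Fintype.card_bool, nsmul_eq_mul,
    ← Finset.mul_sum]
  rw [← Finset.prod_univ_sum (fun _ : Fin 4 => Fintype.piFinset fun _ : Fin 2 => Finset.Icc (-Z) Z)
    (fun _ (y : Zd 2) => ∏ j, exp (-|(y j : ℝ)|)),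
    ← Finset.prod_univ_sum (fun _ : Fin 2 => Finset.Icc (-Z) Z) (fun _ (y : ℤ) => exp (-|(y : ℝ)|))]
  simp only [Finset.prod_const, Finset.card_univ, Fintype.card_fin]
  have a := pow_le_pow_left₀ (by positivity) (pow_le_pow_left₀
    (Finset.sum_nonneg fun _ _ => (exp_pos _).le) (sum_abs (Finset.Icc (-Z) Z)) 2) 4
  have b : exp (-17) ≤ (2 ^ 17)⁻¹ := by
    rw [exp_neg, show (17 : ℝ) = (17 : ℕ) * 1 by norm_num, exp_nat_mul]
    exact inv_anti₀ (by positivity) (pow_le_pow_left₀ two_pos.le (by linarith [add_one_le_exp 1]) 17)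
  have c := mul_le_mul b a (by positivity) (by positivity)
  norm_num at c ⊢
  linarith

theorem kraft (Z : ℤ) (k : ℕ) : ∑ L ∈ Ls Z k, exp (-hh L) ≤ 1 := by
  induction k with
  | zero => simp [Ls, hh]
  | succ k ih =>
    rw [Ls, Finset.sum_map, Finset.sum_product]
    simp only [Function.Embedding.coeFn_mk, hh, neg_add, exp_add, ← Finset.sum_mul, ← Finset.mul_sum]
    exact mul_le_one₀ ih (Finset.sum_nonneg fun _ _ => (exp_pos _).le) (kraft1 Z)

variable {H : Type*} [NormedAddCommGroup H] [InnerProductSpace ℝ H]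

theorem union_le {Ω ι : Type*} [MeasurableSpace Ω] {P : Measure Ω} [IsProbabilityMeasure P]
    {W : H →ₗ[ℝ] (Ω → ℝ)} (h : Iso P W) (I : Finset ι) (u : ι → H) (g : ι → ℝ) {s : ℝ} (hs : 0 < s)
    (t : ℝ) : P.real {ω | ∃ i ∈ I, s * ‖u i‖ ^ 2 / 2 + (g i + t) / s ≤ W (-u i) ω} ≤
      exp (-t) * ∑ i ∈ I, exp (-g i) := by
  have e : {ω | ∃ i ∈ I, s * ‖u i‖ ^ 2 / 2 + (g i + t) / s ≤ W (-u i) ω} =
      ⋃ i ∈ I, {ω | s * ‖u i‖ ^ 2 / 2 + (g i + t) / s ≤ W (-u i) ω} := by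
    ext ω; simp
  rw [e, Finset.mul_sum]
  refine (measureReal_biUnion_finset_le _ _).trans (Finset.sum_le_sum fun i _ =>
    (h.tail (V := ‖u i‖ ^ 2) (by rw [norm_neg]) hs.le _).trans (le_of_eq ?_))
  rw [← exp_add]
  congr 1
  field_simp
  ring

/-- the mesh at a node -/
noncomputable def mu (θ : ℝ) (σ : Sg) : ℝ := θ * ‖σ.2 - σ.1‖ / 4

/-- the two children of a segment -/
noncomputable def chd (θ : ℝ) (σ : Sg) (z : Fin 4 → Zd 2) : Bool → Sg
  | false => (σ.1 + mu θ σ • pt (z 0), midpoint ℝ σ.1 σ.2 + mu θ σ • pt (z 1))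
  | true => (midpoint ℝ σ.1 σ.2 + mu θ σ • pt (z 2), σ.2 + mu θ σ • pt (z 3))

/-- the last segment of a branch -/
noncomputable def seg (θ : ℝ) (σ : Sg) : List St → Sg
  | [] => σ
  | c :: L => chd θ (seg θ σ L) c.1 c.2

/-- the increment of the averages at a node -/
noncomputable def nu (Ev : E 2 → H) (θ : ℝ) (m : ℕ) (σ : Sg) (z : Fin 4 → Zd 2) : H :=
  (1 / 2 : ℝ) • (V Ev m (chd θ σ z false).1 (chd θ σ z false).2 +
    V Ev m (chd θ σ z true).1 (chd θ σ z true).2) - V Ev (2 * m) σ.1 σ.2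

/-- the sum of the increments along a branch -/
noncomputable def SS (Ev : E 2 → H) (θ : ℝ) (N : ℕ) (σ : Sg) : List St → H
  | [] => 0
  | c :: L => SS Ev θ N σ L + nu Ev θ (2 ^ (N - (L.length + 1))) (seg θ σ L) c.1

/-- the vector of a branch ending at a point -/
noncomputable def uu (Ev : E 2 → H) (θ : ℝ) (N : ℕ) (σ : Sg) (L : List St) (y : E 2) : H :=
  V Ev (2 ^ N) σ.1 σ.2 + SS Ev θ N σ L +
    (Ev y - V Ev (2 ^ (N - L.length)) (seg θ σ L).1 (seg θ σ L).2)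

/-- no branch is exceptional -/
def Good (Ev : E 2 → H) (θ : ℝ) (N K : ℕ) (Z : ℤ) (G : Finset (E 2)) (σ : Sg) (s t : ℝ)
    (w : H → ℝ) : Prop :=
  ∀ k ≤ K, ∀ L ∈ Ls Z k, ∀ y ∈ G,
    w (-uu Ev θ N σ L y) ≤ s * ‖uu Ev θ N σ L y‖ ^ 2 / 2 + (hh L + t) / s

theorem prob_good {Ω : Type*} [MeasurableSpace Ω] {P : Measure Ω} [IsProbabilityMeasure P]
    {W : H →ₗ[ℝ] (Ω → ℝ)} (h : Iso P W) (Ev : E 2 → H) (θ : ℝ) (N K : ℕ) (Z : ℤ)
    (G : Finset (E 2)) (p : E 2) {s : ℝ} (hs : 0 < s) (t : ℝ) :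
    P.real {ω | ∃ q ∈ G, ¬ Good Ev θ N K Z G (p, q) s t fun v => W v ω} ≤
      exp (-t) * ((K + 1) * G.card ^ 2) := by
  have a := union_le h ((Finset.range (K + 1)).sigma fun k => Ls Z k ×ˢ G ×ˢ G)
    (fun i => uu Ev θ N (p, i.2.2.1) i.2.1 i.2.2.2) (fun i => hh i.2.1) hs t
  refine (measureReal_mono ?_).trans (a.trans (mul_le_mul_of_nonneg_left ?_ (exp_pos _).le))
  · rintro ω ⟨q, hq, hω⟩
    simp only [Good, not_forall, not_le] at hω
    obtain ⟨k, hk, L, hL, y, hy, hω⟩ := hω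
    exact ⟨⟨k, L, q, y⟩, Finset.mem_sigma.2 ⟨Finset.mem_range.2 (by simpa using Nat.lt_succ_of_le hk),
      Finset.mem_product.2 ⟨hL, Finset.mem_product.2 ⟨hq, hy⟩⟩⟩, hω.le⟩
  · rw [Finset.sum_sigma]
    have b : ∀ k ∈ Finset.range (K + 1), ∑ i ∈ Ls Z k ×ˢ G ×ˢ G, exp (-hh i.1) ≤ (G.card : ℝ) ^ 2 := by
      intro k _
      rw [Finset.sum_product]
      simp only [Finset.sum_const, Finset.card_product, nsmul_eq_mul, ← Finset.mul_sum]
      push_cast
      nlinarith [kraft Z k, mul_self_nonneg (G.card : ℝ)]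
    simpa using Finset.sum_le_sum b

end Pool.Agent.GLA
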