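import Pool.Agent.Lib.MP_438f30_pr.AKer

/-! Covariances of averages of the field over segments. -/

namespace Pool.Agent.GLA

open Real MeasureTheory Set Pool.Agent.Lib.MP_a0a493_pr
open scoped InnerProductSpace

variable {d : ℕ} {H : Type*} [NormedAddCommGroup H] [InnerProductSpace ℝ H] {β : ℝ}
  {Ev : E d → H}

/-- the covariance of the band field -/
def Ker (β : ℝ) (Ev : E d → H) : Prop :=
  ∀ x y, ⟪Ev x, Ev y⟫_ℝ = ∫ s in Ioc 0 β, kg (exp (-s) • (y - x))

theorem int_le {f : ℝ → ℝ} (hf : Continuous f) {M c : ℝ} (hM : 0 ≤ M)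
    (h : ∀ s ∈ Ioc 0 β, f s ≤ M * exp (-|s - c| / 2)) : ∫ s in Ioc 0 β, f s ≤ 64 * M := by
  have i1 : Integrable fun s : ℝ => 16 * M * (1 + (s - c) ^ 2)⁻¹ :=
    (integrable_inv_one_add_sq.comp_sub_right c).const_mul _
  refine (setIntegral_mono_on hf.integrableOn_Ioc i1.integrableOn measurableSet_Ioc
    fun s hs => (h s hs).trans ?_).trans ((setIntegral_le_integral i1
    (Filter.Eventually.of_forall fun s => by positivity)).trans ?_)
  · have a : exp (-|s - c| / 2) ≤ 16 * (1 + (s - c) ^ 2)⁻¹ := by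
      have b := add_one_le_exp (|s - c| / 4)
      have e : exp (-|s - c| / 2) = (exp (|s - c| / 4) ^ 2)⁻¹ := by
        rw [← exp_nat_mul, ← exp_neg]; ring_nf
      have n := abs_nonneg (s - c)
      rw [e, ← div_eq_mul_inv, inv_eq_one_div, div_le_div_iff₀ (by positivity) (by positivity),
        ← sq_abs (s - c)]
      nlinarith [pow_le_pow_left₀ (by positivity) b 2]
    nlinarith [mul_le_mul_of_nonneg_left a hM]
  · rw [integral_const_mul, integral_sub_right_eq_self (fun s : ℝ => (1 + s ^ 2)⁻¹) c,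
      integral_univ_inv_one_add_sq]
    nlinarith [pi_le_four]

theorem int_four {f1 f2 f3 f4 : ℝ → ℝ} (h1 : Continuous f1) (h2 : Continuous f2) (h3 : Continuous f3)
    (h4 : Continuous f4) : (∫ s in Ioc 0 β, f1 s) - (∫ s in Ioc 0 β, f2 s) -
      ((∫ s in Ioc 0 β, f3 s) - ∫ s in Ioc 0 β, f4 s) =
      ∫ s in Ioc 0 β, (f1 s - f2 s - (f3 s - f4 s)) := by
  rw [← integral_sub h1.integrableOn_Ioc h2.integrableOn_Ioc,
    ← integral_sub h3.integrableOn_Ioc h4.integrableOn_Ioc,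
    ← integral_sub (f := fun s => f1 s - f2 s) (g := fun s => f3 s - f4 s)
      (h1.sub h2).integrableOn_Ioc (h3.sub h4).integrableOn_Ioc]

/-- the average of the field over a segment -/
noncomputable def V (Ev : E d → H) (m : ℕ) (A B : E d) : H :=
  (m : ℝ)⁻¹ • ∑ i ∈ Finset.range m, Ev (sp m A B i)

/-- the covariance of two averages at one scale -/
noncomputable def Q (m m' : ℕ) (A B C D : E d) (s : ℝ) : ℝ :=
  (m : ℝ)⁻¹ * (m' : ℝ)⁻¹ * ∑ j ∈ Finset.range m', ∑ i ∈ Finset.range m,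
    kg (exp (-s) • sp m' C D j - exp (-s) • sp m A B i)

theorem cont_Q (m m' : ℕ) (A B C D : E d) : Continuous (Q m m' A B C D) := by
  unfold Q; fun_prop

theorem inner_V (h : Ker β Ev) (m m' : ℕ) (A B C D : E d) :
    ⟪V Ev m A B, V Ev m' C D⟫_ℝ = ∫ s in Ioc 0 β, Q m m' A B C D s := by
  unfold V Q
  rw [real_inner_smul_left, real_inner_smul_right, inner_sum, integral_const_mul, mul_assoc,
    integral_finsetSum _ fun j _ => Continuous.integrableOn_Ioc (by fun_prop)]
  congr 2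
  refine Finset.sum_congr rfl fun j _ => ?_
  rw [sum_inner, integral_finsetSum _ fun j _ => Continuous.integrableOn_Ioc (by fun_prop)]
  refine Finset.sum_congr rfl fun i _ => ?_
  simp only [h _ _, smul_sub]

theorem sp_sub {m i : ℕ} (hi : i ∈ Finset.range m) {A B A' B' : E d} {w : ℝ} (h1 : ‖A' - A‖ ≤ w)
    (h2 : ‖B' - B‖ ≤ w) : ‖sp m A' B' i - sp m A B i‖ ≤ w := by
  have hi' := Finset.mem_range.1 hi
  have m0 : (0 : ℝ) < m := Nat.cast_pos.2 (by omega)
  have t0 : (0 : ℝ) ≤ i / m := by positivity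
  have t1 : (i : ℝ) / m ≤ 1 := (div_le_one m0).2 (Nat.cast_le.2 hi'.le)
  have e : sp m A' B' i - sp m A B i = (1 - (i : ℝ) / m) • (A' - A) + ((i : ℝ) / m) • (B' - B) := by
    unfold sp; module
  rw [e]
  refine (norm_add_le _ _).trans ?_
  rw [norm_smul, norm_smul, Real.norm_of_nonneg t0, Real.norm_of_nonneg (by linarith)]
  nlinarith [mul_le_mul_of_nonneg_left h1 (sub_nonneg.2 t1), mul_le_mul_of_nonneg_left h2 t0]

theorem min_min (s : ℝ) {a b : ℝ} (ha : 0 ≤ a) (hb : 0 < b) :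
    min 1 (exp (-s) * a ^ 2) * min 1 (exp (-s) * b ^ 2) / exp (-s) ≤
      a * b * exp (-|s - 2 * log b| / 2) := by
  obtain ⟨r, hr⟩ : ∃ r, r = exp (-s / 2) := ⟨_, rfl⟩
  have r0 : 0 < r := by rw [hr]; positivity
  have e : exp (-s) = r ^ 2 := by rw [hr, ← exp_nat_mul]; ring_nf
  have a1 : min 1 (r ^ 2 * a ^ 2) ≤ r * a := by
    rcases le_total 1 (r * a) with h | h
    · exact (min_le_left _ _).trans h
    · exact (min_le_right _ _).trans (by nlinarith [mul_nonneg r0.le ha])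
  rw [e, div_le_iff₀ (by positivity)]
  rcases le_total s (2 * log b) with h | h
  · have f : exp (-|s - 2 * log b| / 2) = (r * b)⁻¹ := by
      rw [abs_of_nonpos (by linarith), hr, ← exp_log hb, ← exp_add, ← exp_neg, log_exp]; ring_nf
    rw [f]
    refine (mul_le_mul a1 (min_le_left _ _) (by positivity) (by positivity)).trans (le_of_eq ?_)
    field_simp
  · have f : exp (-|s - 2 * log b| / 2) = r * b := by
      rw [abs_of_nonneg (by linarith), hr, ← exp_log hb, ← exp_add, log_exp]; ring_nf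
    rw [f]
    refine (mul_le_mul a1 (min_le_right _ _) (by positivity) (by positivity)).trans (le_of_eq ?_)
    ring

theorem sc_le {s x : ℝ} {m : ℕ} (hs : s ∈ Ioc 0 β) (x0 : 0 ≤ x) (h : x ≤ m) :
    exp (-s) * x ≤ m := by
  have a : exp (-s) ≤ 1 := exp_le_one_iff.2 (by linarith [hs.1])
  nlinarith

/-- the constant of the covariance bounds -/
noncomputable def CG : ℝ := 3072 * exp 15

theorem CG_pos : 0 < CG := by unfold CG; positivity

theorem gram (h : Ker β Ev) {m m' : ℕ} (hm : 0 < m) (hm' : 0 < m') {A B A' B' C D C' D' : E d}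
    {a b l : ℝ} (ha : 0 ≤ a) (hb : 0 < b) (hl : 0 < l) (h1 : ‖A' - A‖ ≤ a ^ 2)
    (h2 : ‖B' - B‖ ≤ a ^ 2) (h3 : ‖C' - C‖ ≤ b ^ 2) (h4 : ‖D' - D‖ ≤ b ^ 2) (l1 : l ≤ ‖B - A‖)
    (l2 : l ≤ ‖B' - A'‖) (u1 : ‖B - A‖ ≤ m) (u2 : ‖B' - A'‖ ≤ m) :
    ⟪V Ev m A' B' - V Ev m A B, V Ev m' C' D' - V Ev m' C D⟫_ℝ ≤ CG * (a * b / l) := by
  have m0 : (0 : ℝ) < m := Nat.cast_pos.2 hm
  have m0' : (0 : ℝ) < m' := Nat.cast_pos.2 hm'
  rw [inner_sub_left, inner_sub_right, inner_sub_right, inner_V h, inner_V h, inner_V h, inner_V h,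
    int_four (cont_Q ..) (cont_Q ..) (cont_Q ..) (cont_Q ..)]
  refine (int_le (((cont_Q ..).sub (cont_Q ..)).sub ((cont_Q ..).sub (cont_Q ..)))
    (M := 48 * exp 15 * (a * b / l)) (c := 2 * log b) (by positivity) fun s hs => ?_).trans
    (le_of_eq (by unfold CG; ring))
  have c0 := exp_pos (-s)
  obtain ⟨K, hK⟩ : ∃ K, K = 2 * exp 15 * (min 1 (exp (-s) * a ^ 2) * min 1 (exp (-s) * b ^ 2)) :=
    ⟨_, rfl⟩
  have K0 : 0 ≤ K := by rw [hK]; positivity
  have e : Q m m' A' B' C' D' s - Q m m' A' B' C D s - (Q m m' A B C' D' s - Q m m' A B C D s) =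
      (m : ℝ)⁻¹ * (m' : ℝ)⁻¹ * ∑ j ∈ Finset.range m', ∑ i ∈ Finset.range m,
        (kg (exp (-s) • sp m' C' D' j - exp (-s) • sp m A' B' i) -
          kg (exp (-s) • sp m' C D j - exp (-s) • sp m A' B' i) -
          kg (exp (-s) • sp m' C' D' j - exp (-s) • sp m A B i) +
          kg (exp (-s) • sp m' C D j - exp (-s) • sp m A B i)) := by
    simp only [Q, Finset.sum_add_distrib, Finset.sum_sub_distrib]; ring
  have f : ∀ j ∈ Finset.range m', ∑ i ∈ Finset.range m,
        (kg (exp (-s) • sp m' C' D' j - exp (-s) • sp m A' B' i) -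
          kg (exp (-s) • sp m' C D j - exp (-s) • sp m A' B' i) -
          kg (exp (-s) • sp m' C' D' j - exp (-s) • sp m A B i) +
          kg (exp (-s) • sp m' C D j - exp (-s) • sp m A B i)) ≤
        K * (24 * m / (exp (-s) * l)) := by
    intro j hj
    refine (Finset.sum_le_sum fun i hi => mix (w := exp (-s) * a ^ 2) (w' := exp (-s) * b ^ 2)
      ?_ ?_).trans ?_
    · rw [← smul_sub, norm_smul, Real.norm_of_nonneg c0.le]
      exact mul_le_mul_of_nonneg_left (sp_sub hi h1 h2) c0.le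
    · rw [← smul_sub, norm_smul, Real.norm_of_nonneg c0.le]
      exact mul_le_mul_of_nonneg_left (sp_sub hj h3 h4) c0.le
    · rw [← hK, ← Finset.mul_sum]
      refine mul_le_mul_of_nonneg_left ?_ K0
      simp only [Finset.sum_add_distrib]
      have d1 := fun z => dens hm z c0 hl l1 (sc_le hs (norm_nonneg _) u1)
      have d2 := fun z => dens hm z c0 hl l2 (sc_le hs (norm_nonneg _) u2)
      have : 24 * m / (exp (-s) * l) = 4 * (6 * m / (exp (-s) * l)) := by ring
      linarith [d1 (sp m' C D j), d1 (sp m' C' D' j), d2 (sp m' C D j), d2 (sp m' C' D' j)]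
  have g := Finset.sum_le_sum f
  rw [Finset.sum_const, Finset.card_range, nsmul_eq_mul] at g
  refine (le_of_eq e).trans ((mul_le_mul_of_nonneg_left g (by positivity)).trans ?_)
  have k := mul_le_mul_of_nonneg_left (min_min s ha hb) (show 0 ≤ 48 * exp 15 / l by positivity)
  refine le_trans (le_of_eq ?_) (k.trans (le_of_eq (by ring)))
  rw [hK]
  field_simp
  ring

theorem V_sq (h : Ker β Ev) {m : ℕ} (hm : 0 < m) {A B : E d} (l1 : exp β ≤ ‖B - A‖)
    (u1 : ‖B - A‖ ≤ m) : ‖V Ev m A B‖ ^ 2 ≤ CG := by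
  have m0 : (0 : ℝ) < m := Nat.cast_pos.2 hm
  rw [← real_inner_self_eq_norm_sq, inner_V h]
  refine (int_le (cont_Q ..) (M := 6 * exp 15) (c := β) (by positivity) fun s hs => ?_).trans
    (by unfold CG; linarith [exp_pos 15])
  have c0 := exp_pos (-s)
  have f : ∀ j ∈ Finset.range m, ∑ i ∈ Finset.range m,
      kg (exp (-s) • sp m A B j - exp (-s) • sp m A B i) ≤ exp 15 * (6 * m / (exp (-s) * exp β)) := by
    intro j hj
    refine (Finset.sum_le_sum fun i hi => k0 _).trans ?_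
    rw [← Finset.mul_sum]
    exact mul_le_mul_of_nonneg_left (dens hm _ c0 (exp_pos β) l1 (sc_le hs (norm_nonneg _) u1))
      (exp_pos _).le
  have g := Finset.sum_le_sum f
  rw [Finset.sum_const, Finset.card_range, nsmul_eq_mul] at g
  refine (mul_le_mul_of_nonneg_left g (by positivity)).trans ?_
  have k : (exp (-s) * exp β)⁻¹ ≤ exp (-|s - β| / 2) := by
    rw [← exp_add, ← exp_neg, abs_of_nonpos (by linarith [hs.2])]
    exact exp_le_exp.2 (by linarith [hs.2])
  refine le_trans (le_of_eq ?_) (mul_le_mul_of_nonneg_left k (by positivity))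
  field_simp

theorem Ev_sub (h : Ker β Ev) {x y : E d} (hxy : ‖y - x‖ ≤ 200) : ‖Ev x - Ev y‖ ≤ 1600 := by
  refine abs_le_of_sq_le_sq' ?_ (by norm_num) |>.2
  rw [← real_inner_self_eq_norm_sq, inner_sub_left, inner_sub_right, inner_sub_right, h, h, h, h,
    int_four (by fun_prop) (by fun_prop) (by fun_prop) (by fun_prop)]
  refine (int_le (by fun_prop) (M := 40000) (c := 0) (by norm_num) fun s hs => ?_).trans
    (by norm_num)
  have a := one_sub_kg (exp (-s) • (y - x))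
  have b : kg (exp (-s) • (x - y)) = kg (exp (-s) • (y - x)) := by
    rw [← kg_neg, ← smul_neg, neg_sub]
  have c : ‖exp (-s) • (y - x)‖ ≤ 200 * exp (-s) := by
    rw [norm_smul, Real.norm_of_nonneg (exp_pos _).le]
    nlinarith [mul_le_mul_of_nonneg_left hxy (exp_pos (-s)).le]
  have e : exp (-s) ^ 2 ≤ exp (-|s - 0| / 2) := by
    rw [← exp_nat_mul, abs_of_nonneg (by linarith [hs.1])]
    exact exp_le_exp.2 (by push_cast; linarith [hs.1])
  have k : kg (0 : E d) = 1 := by simp [kg]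
  simp only [sub_self, smul_zero, k, b]
  nlinarith [pow_le_pow_left₀ (norm_nonneg _) c 2]

theorem Ev_V (h : Ker β Ev) {m : ℕ} (hm : 0 < m) {x A B : E d} (h1 : ‖A - x‖ ≤ 200)
    (h2 : ‖B - x‖ ≤ 200) : ‖Ev x - V Ev m A B‖ ≤ 1600 := by
  have m0 : (0 : ℝ) < m := Nat.cast_pos.2 hm
  have e : Ev x - V Ev m A B = (m : ℝ)⁻¹ • ∑ i ∈ Finset.range m, (Ev x - Ev (sp m A B i)) := by
    rw [Finset.sum_sub_distrib, Finset.sum_const, Finset.card_range, smul_sub, V,
      ← Nat.cast_smul_eq_nsmul ℝ, smul_smul, inv_mul_cancel₀ m0.ne', one_smul]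
  have f : ∀ i ∈ Finset.range m, ‖Ev x - Ev (sp m A B i)‖ ≤ 1600 := fun i hi =>
    Ev_sub h (by simpa [sp] using sp_sub hi (A := x) (B := x) h1 h2)
  have g := (norm_sum_le _ _).trans (Finset.sum_le_sum f)
  rw [Finset.sum_const, Finset.card_range, nsmul_eq_mul] at g
  rw [e, norm_smul, Real.norm_of_nonneg (by positivity), inv_mul_le_iff₀ m0]
  exact g

theorem V_two {m : ℕ} (hm : 0 < m) (A B : E d) : V Ev (2 * m) A B =
    (1 / 2 : ℝ) • (V Ev m A (midpoint ℝ A B) + V Ev m (midpoint ℝ A B) B) := by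
  have m0 : (m : ℝ) ≠ 0 := Nat.cast_ne_zero.2 hm.ne'
  have e1 : ∀ i, sp (2 * m) A B i = sp m A (midpoint ℝ A B) i := by
    intro i
    unfold sp
    rw [midpoint_eq_smul_add, invOf_eq_inv]
    match_scalars <;> field_simp <;> ring
  have e2 : ∀ i, sp (2 * m) A B (m + i) = sp m (midpoint ℝ A B) B i := by
    intro i
    unfold sp
    rw [midpoint_eq_smul_add, invOf_eq_inv]
    match_scalars <;> field_simp <;> ring
  unfold V
  rw [two_mul m, Finset.sum_range_add, ← two_mul m]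
  simp only [e2]
  simp only [e1]
  rw [← smul_add, smul_smul]
  congr 1
  push_cast
  field_simp

end Pool.Agent.GLA
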