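import Pool.Agent.Lib.MP_438f30_pr.AInv
import Pool.Agent.Lib.MP_438f30_pr.ASplit

/-! The induction over the bisector tree. -/

namespace Pool.Agent.GLA

open Real Pool.Agent.Lib.MP_a0a493_pr
open scoped InnerProductSpace

variable {H : Type*} [NormedAddCommGroup H] [InnerProductSpace ℝ H] {β θ : ℝ} {Ev : E 2 → H}

theorem log_two_sum {f : ℕ → ℝ} (hf : ∀ i, 0 < f i) {a b c1 c2 : ℕ} (h1 : a < c1) (h2 : c1 ≤ c2)
    (h3 : c2 < b) : log 2 + (log (∑ i ∈ Finset.Ico a c1, f i) + log (∑ i ∈ Finset.Ico c2 b, f i)) / 2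
      ≤ log (∑ i ∈ Finset.Ico a b, f i) := by
  have p1 : 0 < ∑ i ∈ Finset.Ico a c1, f i :=
    Finset.sum_pos (fun i _ => hf i) (Finset.nonempty_Ico.2 h1)
  have p2 : 0 < ∑ i ∈ Finset.Ico c2 b, f i :=
    Finset.sum_pos (fun i _ => hf i) (Finset.nonempty_Ico.2 h3)
  have p3 : 0 ≤ ∑ i ∈ Finset.Ico c1 c2, f i := Finset.sum_nonneg fun i _ => (hf i).le
  rw [← Finset.sum_Ico_consecutive f (m := a) (n := c2) (by omega) h3.le,
    ← Finset.sum_Ico_consecutive f h1.le h2]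
  generalize ∑ i ∈ Finset.Ico a c1, f i = S1 at *
  generalize ∑ i ∈ Finset.Ico c2 b, f i = S2 at *
  generalize ∑ i ∈ Finset.Ico c1 c2, f i = S3 at *
  rw [le_log_iff_exp_le (by positivity), exp_add, exp_log two_pos, add_div, exp_add]
  have e1 : exp (log S1 / 2) ^ 2 = S1 := by
    rw [← exp_nat_mul, show ((2 : ℕ) : ℝ) * (log S1 / 2) = log S1 by push_cast; ring, exp_log p1]
  have e2 : exp (log S2 / 2) ^ 2 = S2 := by
    rw [← exp_nat_mul, show ((2 : ℕ) : ℝ) * (log S2 / 2) = log S2 by push_cast; ring, exp_log p2]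
  nlinarith [sq_nonneg (exp (log S1 / 2) - exp (log S2 / 2))]

theorem Ph_le {l : ℝ} (h1 : 40 ≤ l) (h2 : l ≤ 100) : Ph 1 l ≤ 6 := by
  have a : log l ≤ 5 := by
    rw [log_le_iff_le_exp (by linarith), show (5 : ℝ) = (5 : ℕ) * 1 by norm_num, exp_nat_mul]
    have := pow_le_pow_left₀ (by norm_num) exp_one_gt_d9.le 5
    norm_num at this ⊢
    linarith
  have b : 15 * 1 ^ 2 / l ^ 2 ≤ 1 := by rw [div_le_one (by positivity)]; nlinarith
  unfold Ph
  rw [div_one]
  linarith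

theorem main_ind (h : Ker β Ev) (h0 : 0 < θ) (h1 : θ ≤ 1 / 100) {Z : ℤ} (hZ : 9 / θ + 5 ≤ Z)
    {N K T : ℕ} (hKN : K ≤ N) {σ : Sg} {l0 : ℝ} (l00 : 0 ≤ l0) (hl0 : l0 ≤ 2 ^ (N - K))
    (hK : 0.85 ^ K * l0 ≤ 39) {x : ℕ → E 2} (hx : ∀ i < T, dist (x i) (x (i + 1)) ≤ 1)
    (w : H →ₗ[ℝ] ℝ) {Bd lam : ℝ}
    (hB : ∀ (L : List St) (a : ℕ) (Eh : ℝ), a ≤ T → L ∈ Ls Z L.length → L.length ≤ K →
      ‖SS Ev θ N σ L‖ ^ 2 ≤ 20 * CG * (θ * hh L) →
      ‖Ev (x a) - V Ev (2 ^ (N - L.length)) (seg θ σ L).1 (seg θ σ L).2‖ ≤ 1600 →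
      hh L ≤ 62 * L.length + 85 * Eh / θ ^ 2 → -Bd ≤ w (uu Ev θ N σ L (x a)) + lam * Eh)
    (n : ℕ) : ∀ (a b : ℕ) (L : List St) (Eh l : ℝ), b - a ≤ n → a ≤ b → b ≤ T →
      L ∈ Ls Z L.length → l = ‖(seg θ σ L).2 - (seg θ σ L).1‖ → l ≤ 0.85 ^ L.length * l0 →
      ‖x a - (seg θ σ L).1‖ ≤ θ * l → ‖x b - (seg θ σ L).2‖ ≤ θ * l → 40 ≤ dist (x a) (x b) →
      Inv Ev (SS Ev θ N σ L) l (θ * hh L) → hh L ≤ 62 * L.length + 85 * Eh / θ ^ 2 →
      ∃ D F : ℝ, 0 ≤ D ∧ (∀ ξ, 0 ≤ ξ → Ph 1 (dist (x a) (x b)) - 6 + D +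
        ξ * (w (V Ev (2 ^ (N - L.length)) (seg θ σ L).1 (seg θ σ L).2) + F) ≤
          log (∑ i ∈ Finset.Ico a b, exp (ξ * w (Ev (x i))))) ∧
        -Bd ≤ w (V Ev (2 ^ N) σ.1 σ.2 + SS Ev θ N σ L) + F + lam * (Eh + D) := by
  induction n with
  | zero =>
    intro a b L Eh l h1 h2 _ _ _ _ _ _ h3
    rw [show a = b by omega, dist_self] at h3
    linarith
  | succ n ih =>
    intro a b L Eh l hn hab hT hL hl hl1 ha hb h40 hI hE
    obtain ⟨n1, n2⟩ := norm_near ha hb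
    rw [← hl] at n1 n2
    have l1 : 0 ≤ l := hl ▸ norm_nonneg _
    have tl : θ * l ≤ l / 100 := by nlinarith
    have kK : L.length < K := by
      by_contra c
      have := mul_le_mul_of_nonneg_right
        (pow_le_pow_of_le_one (a := (0.85 : ℝ)) (by norm_num) (by norm_num) (not_lt.1 c)) l00
      linarith
    by_cases hs : dist (x a) (x b) ≤ 100
    · have hab' : a < b := lt_of_le_of_ne hab fun e => by rw [e, dist_self] at h40; linarith
      refine ⟨0, w (Ev (x a)) - w (V Ev (2 ^ (N - L.length)) (seg θ σ L).1 (seg θ σ L).2), le_rfl,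
        fun ξ _ => ?_, ?_⟩
      · have s1 := Finset.single_le_sum (f := fun i => exp (ξ * w (Ev (x i))))
          (fun i _ => (exp_pos _).le) (Finset.left_mem_Ico.2 hab')
        have s2 := log_le_log (exp_pos _) s1
        rw [log_exp] at s2
        rw [add_sub_cancel]
        linarith [Ph_le h40 hs]
      · have s1 := hB L a Eh (by omega) hL kK.le (hI.sq l1) (Ev_V h (by positivity)
          (by rw [norm_sub_rev]; linarith) (by
            have := norm_sub_le_norm_sub_add_norm_sub (seg θ σ L).2 (seg θ σ L).1 (x a)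
            rw [← hl, norm_sub_rev (seg θ σ L).1] at this
            linarith)) hE
        rw [uu, map_add, map_sub] at s1
        rw [add_zero]
        linarith
    · push Not at hs
      obtain ⟨c1, c2, τ, k1, k2, k3, t0, t2, a1, a2, b1, b2, d1, d2, hP⟩ :=
        split (x := x) one_pos hab (fun i _ hi => hx i (by omega)) (by linarith)
      obtain ⟨z, z1, z2, z3, z4, r0, r1, r2, r3⟩ :=
        geo_step h0 h1 hZ hl (by linarith) ha hb t0 t2 a1 a2 b1 b2 d1 d2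
      have lm : l ≤ ((2 ^ (N - (L.length + 1)) : ℕ) : ℝ) := by
        have q1 := mul_le_mul_of_nonneg_right
          (pow_le_one₀ (a := (0.85 : ℝ)) (n := L.length) (by norm_num) (by norm_num)) l00
        have q2 : (2 : ℝ) ^ (N - K) ≤ 2 ^ (N - (L.length + 1)) :=
          pow_le_pow_right₀ one_le_two (by omega)
        push_cast
        linarith
      have key : ∀ (c : Bool) (a' b' : ℕ), b' - a' ≤ n → a' ≤ b' → b' ≤ T →
          ‖x a' - (chd θ (seg θ σ L) z c).1‖ ≤ θ * l / 4 →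
          ‖x b' - (chd θ (seg θ σ L) z c).2‖ ≤ θ * l / 4 → 40 ≤ dist (x a') (x b') →
          ∃ D F : ℝ, 0 ≤ D ∧ (∀ ξ, 0 ≤ ξ → Ph 1 (dist (x a') (x b')) - 6 + D +
            ξ * (w (V Ev (2 ^ (N - (L.length + 1))) (chd θ (seg θ σ L) z c).1
              (chd θ (seg θ σ L) z c).2) + F) ≤
              log (∑ i ∈ Finset.Ico a' b', exp (ξ * w (Ev (x i))))) ∧
            -Bd ≤ w (V Ev (2 ^ N) σ.1 σ.2 + (SS Ev θ N σ L +
              nu Ev θ (2 ^ (N - (L.length + 1))) (seg θ σ L) z)) + F +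
                lam * (Eh + τ ^ 2 / 10 + D) := by
        intro c a' b' e1 e2 e3 e4 e5 e6
        have q := mul_le_mul_of_nonneg_left (z3 c) h0.le
        have q0 : 0 ≤ θ * l := by positivity
        refine ih a' b' ((z, c) :: L) (Eh + τ ^ 2 / 10) _ e1 e2 e3 (cons_mem z1 c hL) rfl ?_
          (e4.trans ?_) (e5.trans ?_) e6 ?_ ?_
        · refine (z4 c).trans ?_
          rw [List.length_cons, pow_succ]
          linarith
        · simp only [seg]; linarith
        · simp only [seg]; linarith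
        · have := inv_step h h0 (by positivity) z hl (by linarith) lm z3 z4 (z4 c) hI
          rw [← mul_add] at this
          exact this
        · simp only [hh, List.length_cons]
          push_cast
          rw [mul_add 85, add_div]
          linarith
      obtain ⟨D1, F1, p1, p2, p3⟩ := key false a c1 (by omega) k1.le (by omega) r0 r1 (by linarith)
      obtain ⟨D2, F2, q1, q2, q3⟩ := key true c2 b (by omega) k3.le hT r2 r3 (by linarith)
      refine ⟨τ ^ 2 / 10 + (D1 + D2) / 2, w (nu Ev θ (2 ^ (N - (L.length + 1))) (seg θ σ L) z) +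
        (F1 + F2) / 2, by positivity, fun ξ hξ => ?_, ?_⟩
      · have s := log_two_sum (f := fun i => exp (ξ * w (Ev (x i)))) (fun i => exp_pos _) k1 k2 k3
        have e : 2 * 2 ^ (N - (L.length + 1)) = 2 ^ (N - L.length) := by
          rw [← pow_succ']; congr 1; omega
        rw [nu, e, map_sub, map_smul, map_add, smul_eq_mul]
        linarith [p2 ξ hξ, q2 ξ hξ]
      · simp only [map_add] at p3 q3 ⊢
        linarith

theorem sq_three (u v y : H) : ‖u + v + y‖ ^ 2 ≤ 3 * (‖u‖ ^ 2 + ‖v‖ ^ 2 + ‖y‖ ^ 2) := by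
  have := pow_le_pow_left₀ (norm_nonneg _) (norm_add₃_le (a := u) (b := v) (c := y)) 2
  nlinarith [sq_nonneg (‖u‖ - ‖v‖), sq_nonneg (‖u‖ - ‖y‖), sq_nonneg (‖v‖ - ‖y‖)]

/-- the constant of the trade-off -/
noncomputable def CA : ℝ := 85 * (30 * CG + 1) + 2 * 1600 ^ 2

theorem CA_pos : 0 < CA := by have := CG_pos; unfold CA; positivity

/-- the trade-off between length and cost on the good event -/
theorem trade (h : Ker β Ev) {s t : ℝ} (hs : 10 ≤ s) (ht : 0 ≤ t) {Z : ℤ} (hZ : 9 * s ^ 2 + 5 ≤ Z)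
    {N K T : ℕ} (hKN : K ≤ N) {x : ℕ → E 2} (hx : ∀ i < T, dist (x i) (x (i + 1)) ≤ 1)
    {G : Finset (E 2)} (hG : ∀ i ≤ T, x i ∈ G) (l1 : 40 ≤ dist (x 0) (x T))
    (l2 : exp β ≤ dist (x 0) (x T)) (l3 : dist (x 0) (x T) ≤ 2 ^ (N - K))
    (l4 : 0.85 ^ K * dist (x 0) (x T) ≤ 39) (w : H →ₗ[ℝ] ℝ)
    (hw : Good Ev (s ^ 2)⁻¹ N K Z G (x 0, x T) s t w) :
    ∃ D : ℝ, 0 ≤ D ∧ ∀ ξ, 0 ≤ ξ → β - 6 + D - ξ * (CA * (s + (t + K) / s + s ^ 3 * D)) ≤
      log (∑ i ∈ Finset.range T, exp (ξ * w (Ev (x i)))) := by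
  have s0 : 0 < s := by linarith
  have C0 := CG_pos
  have el : dist (x 0) (x T) = ‖x T - x 0‖ := by rw [dist_comm, dist_eq_norm]
  have v0 : ‖V Ev (2 ^ N) (x 0) (x T)‖ ^ 2 ≤ CG := V_sq h (by positivity) (el ▸ l2) (by
    rw [← el]; push_cast; exact l3.trans (pow_le_pow_right₀ one_le_two (by omega)))
  obtain ⟨D, F, D0, h1, h2⟩ := main_ind h (θ := (s ^ 2)⁻¹) (by positivity)
    (by rw [one_div]; exact inv_anti₀ (by norm_num) (by nlinarith)) (Z := Z)
    (by rwa [div_inv_eq_mul]) hKN (σ := (x 0, x T)) dist_nonneg l3 l4 hx w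
    (Bd := CA * (s + (t + K) / s)) (lam := 85 * (30 * CG + 1) * s ^ 3) (fun L a Eh ha hL hk e1 e2 e3 => by
      have g := hw _ hk L hL _ (hG a ha)
      have g1 : ‖uu Ev (s ^ 2)⁻¹ N (x 0, x T) L (x a)‖ ^ 2 ≤
          3 * (CG + 20 * CG * ((s ^ 2)⁻¹ * hh L) + 1600 ^ 2) :=
        (sq_three _ _ _).trans (by linarith [pow_le_pow_left₀ (norm_nonneg _) e2 2])
      have g2 := mul_le_mul_of_nonneg_left g1 s0.le
      have g3 : s * (3 * (CG + 20 * CG * ((s ^ 2)⁻¹ * hh L) + 1600 ^ 2)) =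
          3 * (CG + 1600 ^ 2) * s + 60 * CG * (hh L / s) := by field_simp; ring
      have k0 : (L.length : ℝ) ≤ K := Nat.cast_le.2 hk
      have K0 : (0 : ℝ) ≤ K := Nat.cast_nonneg _
      have hn := hh_nonneg L
      have g4 : hh L / s ≤ 62 * (K / s) + 85 * (s ^ 3 * Eh) := by
        have : 62 * (K / s) + 85 * (s ^ 3 * Eh) = (62 * K + 85 * Eh / (s ^ 2)⁻¹ ^ 2) / s := by
          field_simp
        rw [this]
        exact div_le_div_of_nonneg_right (by linarith) s0.le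
      have g5 := mul_le_mul_of_nonneg_left g4 (show 0 ≤ 30 * CG + 1 by positivity)
      have g6 : 0 ≤ CG * s := by positivity
      have g7 : 0 ≤ CG * (t / s) := by positivity
      have g8 : 0 ≤ CG * (K / s) := by positivity
      have g9 : 0 ≤ t / s := by positivity
      have g10 : 0 ≤ K / s := by positivity
      rw [map_neg, add_div] at g
      rw [add_div, CA]
      linarith) T 0 T [] 0 _ (by omega) (by omega) le_rfl (by simp [Ls]) rfl
    (by simp [seg, el]) (by simp only [seg, sub_self, norm_zero]; positivity)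
    (by simp only [seg, sub_self, norm_zero]; positivity) l1
    (by simpa [SS, hh] using inv_zero _) (by simp [hh])
  refine ⟨D, D0, fun ξ hξ => ?_⟩
  have a := h1 ξ hξ
  have b : β ≤ Ph 1 (dist (x 0) (x T)) := by
    have := (le_log_iff_exp_le (by linarith)).2 l2
    have c : 0 ≤ 15 * 1 ^ 2 / dist (x 0) (x T) ^ 2 := by positivity
    unfold Ph
    rw [div_one]
    linarith
  simp only [SS, seg, add_zero, zero_add, List.length_nil, Nat.sub_zero] at a h2
  rw [Finset.range_eq_Ico]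
  have c : 85 * (30 * CG + 1) * s ^ 3 * D ≤ CA * (s ^ 3 * D) := by
    rw [mul_assoc]
    exact mul_le_mul_of_nonneg_right (by unfold CA; norm_num) (by positivity)
  nlinarith [mul_le_mul_of_nonneg_left h2 hξ, mul_le_mul_of_nonneg_left c hξ]

end Pool.Agent.GLA
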