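import Pool.Agent.Lib.MP_438f30_pr.ACode

/-! The variance of a branch and the geometry of one step. -/

namespace Pool.Agent.GLA

open Real Pool.Agent.Lib.MP_a0a493_pr
open scoped InnerProductSpace

variable {H : Type*} [NormedAddCommGroup H] [InnerProductSpace ℝ H] {β θ : ℝ} {Ev : E 2 → H}

/-- differences of averages over two close segments -/
def Adm (Ev : E 2 → H) (ν : H) (b : ℝ) : Prop :=
  0 < b ∧ ∃ m, 0 < m ∧ ∃ C D C' D', ‖C' - C‖ ≤ b ^ 2 ∧ ‖D' - D‖ ≤ b ^ 2 ∧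
    ν = V Ev m C' D' - V Ev m C D

/-- the invariant of the sum along a branch -/
def Inv (Ev : E 2 → H) (S : H) (l T : ℝ) : Prop :=
  ∃ Y, 0 ≤ Y ∧ (∀ ν b, Adm Ev ν b → ⟪S, ν⟫_ℝ ≤ CG * (b * Y)) ∧
    ‖S‖ ^ 2 + CG * (l * Y ^ 2) ≤ 20 * CG * T

theorem inv_zero (l : ℝ) : Inv Ev 0 l 0 := ⟨0, le_rfl, fun ν b _ => by simp, by simp⟩

theorem Inv.sq {S : H} {l T : ℝ} (h : Inv Ev S l T) (hl : 0 ≤ l) : ‖S‖ ^ 2 ≤ 20 * CG * T := by
  obtain ⟨Y, -, -, h⟩ := h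
  have := CG_pos
  have : 0 ≤ CG * (l * Y ^ 2) := by positivity
  linarith

theorem norm_pt (z : Zd 2) : ‖pt z‖ ≤ ∑ j, |(z j : ℝ)| := by
  rw [EuclideanSpace.norm_eq]
  refine sqrt_le_iff.2 ⟨by positivity, ?_⟩
  simp only [Fin.sum_univ_two, pt_apply, Real.norm_eq_abs]
  nlinarith [mul_nonneg (abs_nonneg (z 0 : ℝ)) (abs_nonneg (z 1 : ℝ))]

theorem pt_le (z : Fin 4 → Zd 2) (i : Fin 4) : ‖pt (z i)‖ ≤ hc z := by
  have := Finset.single_le_sum (f := fun i => ∑ j, |(z i j : ℝ)|)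
    (fun i _ => by positivity) (Finset.mem_univ i)
  unfold hc
  linarith [norm_pt (z i)]

theorem hc_pos (z : Fin 4 → Zd 2) : 0 < hc z := by unfold hc; positivity

theorem hh_nonneg : ∀ L : List St, 0 ≤ hh L
  | [] => le_rfl
  | c :: L => add_nonneg (hh_nonneg L) (hc_pos _).le

theorem inv_step (h : Ker β Ev) (hθ : 0 < θ) {m : ℕ} (hm : 0 < m) {σ : Sg} (z : Fin 4 → Zd 2)
    {l l' T : ℝ} (hl : l = ‖σ.2 - σ.1‖) (l0 : 0 < l) (lm : l ≤ m)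
    (hc1 : ∀ b, 0.4 * l ≤ ‖(chd θ σ z b).2 - (chd θ σ z b).1‖)
    (hc2 : ∀ b, ‖(chd θ σ z b).2 - (chd θ σ z b).1‖ ≤ 0.85 * l) (hl' : l' ≤ 0.85 * l)
    {S : H} (hS : Inv Ev S l T) : Inv Ev (S + nu Ev θ m σ z) l' (T + θ * hc z) := by
  obtain ⟨Y, Y0, hY, hS⟩ := hS
  have c0 := hc_pos z
  have C0 := CG_pos
  have m0 : 0 < mu θ σ := by unfold mu; rw [← hl]; positivity
  obtain ⟨a, ha⟩ : ∃ a, a = √(mu θ σ * hc z) := ⟨_, rfl⟩
  have a0 : 0 < a := by rw [ha]; positivity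
  have a2 : a ^ 2 = mu θ σ * hc z := by rw [ha, sq_sqrt (by positivity)]
  have dz : ∀ (p : E 2) i, ‖p + mu θ σ • pt (z i) - p‖ ≤ a ^ 2 := fun p i => by
    rw [add_sub_cancel_left, norm_smul, Real.norm_of_nonneg m0.le, a2]
    exact mul_le_mul_of_nonneg_left (pt_le z i) m0.le
  have e1 : ‖midpoint ℝ σ.1 σ.2 - σ.1‖ = l / 2 := by
    rw [← dist_eq_norm, dist_midpoint_left, dist_eq_norm, norm_sub_rev, ← hl]; norm_num; ring
  have e2 : ‖σ.2 - midpoint ℝ σ.1 σ.2‖ = l / 2 := by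
    rw [← dist_eq_norm, dist_right_midpoint, dist_eq_norm, norm_sub_rev, ← hl]; norm_num; ring
  obtain ⟨ν1, h1⟩ : ∃ ν1, ν1 = V Ev m (chd θ σ z false).1 (chd θ σ z false).2 -
    V Ev m σ.1 (midpoint ℝ σ.1 σ.2) := ⟨_, rfl⟩
  obtain ⟨ν2, h2⟩ : ∃ ν2, ν2 = V Ev m (chd θ σ z true).1 (chd θ σ z true).2 -
    V Ev m (midpoint ℝ σ.1 σ.2) σ.2 := ⟨_, rfl⟩
  have e : nu Ev θ m σ z = (1 / 2 : ℝ) • (ν1 + ν2) := by
    rw [nu, V_two hm, h1, h2]; module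
  have A1 : Adm Ev ν1 a := ⟨a0, m, hm, _, _, _, _, dz _ 0, dz _ 1, h1⟩
  have A2 : Adm Ev ν2 a := ⟨a0, m, hm, _, _, _, _, dz _ 2, dz _ 3, h2⟩
  have g : ∀ ν b, Adm Ev ν b → ⟪nu Ev θ m σ z, ν⟫_ℝ ≤ CG * (a * b / (0.4 * l)) := by
    rintro ν b ⟨b0, m', hm', C, D, C', D', k1, k2, rfl⟩
    have g1 := gram h hm hm' a0.le b0 (l := 0.4 * l) (by positivity) (dz _ 0) (dz _ 1) k1 k2
      (by rw [e1]; linarith) (hc1 false) (by rw [e1]; linarith) ((hc2 false).trans (by linarith))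
    have g2 := gram h hm hm' a0.le b0 (l := 0.4 * l) (by positivity) (dz _ 2) (dz _ 3) k1 k2
      (by rw [e2]; linarith) (hc1 true) (by rw [e2]; linarith) ((hc2 true).trans (by linarith))
    rw [e, real_inner_smul_left, inner_add_left, h1, h2]
    simp only [chd]
    linarith
  have half : ∀ (u : H) (c : ℝ), ⟪u, ν1⟫_ℝ ≤ c → ⟪u, ν2⟫_ℝ ≤ c → ⟪u, nu Ev θ m σ z⟫_ℝ ≤ c := by
    intro u c k1 k2
    rw [e, real_inner_smul_right, inner_add_right]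
    linarith
  have n1 := half _ _ (hY _ _ A1) (hY _ _ A2)
  have n2 := half _ _ (g _ _ A1) (g _ _ A2)
  rw [real_inner_self_eq_norm_sq] at n2
  obtain ⟨ρ, hρ⟩ : ∃ ρ, ρ = a / l := ⟨_, rfl⟩
  have ρ0 : 0 < ρ := by rw [hρ]; positivity
  have ea : a = ρ * l := by rw [hρ]; field_simp
  refine ⟨Y + 2.5 * ρ, by positivity, fun ν b hb => ?_, ?_⟩
  · have k : a * b / (0.4 * l) = b * (2.5 * ρ) := by rw [ea]; field_simp; ring
    have := g ν b hb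
    rw [k] at this
    rw [inner_add_left]
    linarith [hY ν b hb]
  · have k : a * a / (0.4 * l) = l * (2.5 * ρ ^ 2) := by rw [ea]; field_simp; norm_num
    have k2 : θ * hc z = 4 * (l * ρ ^ 2) := by
      have : ρ ^ 2 * l * l = θ * hc z / 4 * l := by
        rw [ea, mu, ← hl] at a2; linarith
      have := mul_right_cancel₀ l0.ne' this
      linarith
    have k3 : 2 * (ρ * l * Y) + l * (2.5 * ρ ^ 2) + l' * (Y + 2.5 * ρ) ^ 2 ≤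
        l * Y ^ 2 + 80 * (l * ρ ^ 2) := by
      have q1 := mul_le_mul_of_nonneg_right hl' (sq_nonneg (Y + 2.5 * ρ))
      have q2 : 2 * (ρ * Y) + 2.5 * ρ ^ 2 + 0.85 * (Y + 2.5 * ρ) ^ 2 ≤ Y ^ 2 + 80 * ρ ^ 2 := by
        nlinarith [sq_nonneg (Y - 21 * ρ), sq_nonneg ρ]
      nlinarith [mul_le_mul_of_nonneg_left q2 l0.le]
    rw [k] at n2
    rw [ea] at n1
    rw [norm_add_sq_real, k2]
    nlinarith [mul_le_mul_of_nonneg_left k3 C0.le]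

theorem round_ex {μ : ℝ} (hμ : 0 < μ) (y : E 2) :
    ∃ z : Zd 2, ‖y - μ • pt z‖ ≤ μ ∧ ∀ j, |(z j : ℝ)| ≤ ‖y‖ / μ + 1 / 2 := by
  have a : ∀ j, |y j / μ - round (y j / μ)| ≤ 1 / 2 := fun j => abs_sub_round _
  refine ⟨fun j => round (y j / μ), ?_, fun j => ?_⟩
  · have := dist_le_of (u := y) (v := μ • pt fun j => round (y j / μ)) (r := μ / 2) (by positivity)
      fun j => by
        have e : y j - (μ • pt fun j => round (y j / μ)) j = μ * (y j / μ - round (y j / μ)) := by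
          simp only [PiLp.smul_apply, pt_apply, smul_eq_mul]; field_simp
        rw [e, abs_mul, abs_of_pos hμ]
        nlinarith [a j]
    rw [dist_eq_norm] at this
    push_cast at this
    linarith
  · have b : |y j / μ| ≤ ‖y‖ / μ := by
      rw [abs_div, abs_of_pos hμ]
      exact div_le_div_of_nonneg_right (PiLp.norm_apply_le y j) hμ.le
    have c := abs_sub_abs_le_abs_sub ((round (y j / μ) : ℤ) : ℝ) (y j / μ)
    rw [abs_sub_comm] at c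
    linarith [a j]

theorem norm_near {p q A B : E 2} {r : ℝ} (h1 : ‖p - A‖ ≤ r) (h2 : ‖q - B‖ ≤ r) :
    dist p q ≤ ‖B - A‖ + 2 * r ∧ ‖B - A‖ ≤ dist p q + 2 * r := by
  rw [← dist_eq_norm] at *
  have a := dist_triangle4 p A B q
  have b := dist_triangle4 B q p A
  rw [dist_comm A B, dist_comm B q] at a
  rw [dist_comm B q, dist_comm q p] at b
  constructor <;> linarith

theorem geo_step (h0 : 0 < θ) (h1 : θ ≤ 1 / 100) {Z : ℤ} (hZ : 9 / θ + 5 ≤ Z) {σ : Sg}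
    {xa xb x1 x2 : E 2} {τ l : ℝ} (hl : l = ‖σ.2 - σ.1‖) (p0 : 0 < dist xa xb)
    (ha : ‖xa - σ.1‖ ≤ θ * l) (hb : ‖xb - σ.2‖ ≤ θ * l) (t0 : 0 ≤ τ) (t2 : τ ≤ 2)
    (a1 : 0.45 * dist xa xb ≤ dist xa x1) (a2 : dist xa x1 ≤ 0.8 * dist xa xb)
    (b1 : 0.45 * dist xa xb ≤ dist x2 xb) (b2 : dist x2 xb ≤ 0.8 * dist xa xb)
    (c1 : dist x1 (midpoint ℝ xa xb) ≤ τ * dist xa xb)
    (c2 : dist x2 (midpoint ℝ xa xb) ≤ τ * dist xa xb) :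
    ∃ z : Fin 4 → Zd 2, (∀ i j, |z i j| ≤ Z) ∧ hc z ≤ 62 + 85 * (τ ^ 2 / 10) / θ ^ 2 ∧
      (∀ b, 0.4 * l ≤ ‖(chd θ σ z b).2 - (chd θ σ z b).1‖) ∧
      (∀ b, ‖(chd θ σ z b).2 - (chd θ σ z b).1‖ ≤ 0.85 * l) ∧
      ‖xa - (chd θ σ z false).1‖ ≤ θ * l / 4 ∧ ‖x1 - (chd θ σ z false).2‖ ≤ θ * l / 4 ∧
      ‖x2 - (chd θ σ z true).1‖ ≤ θ * l / 4 ∧ ‖xb - (chd θ σ z true).2‖ ≤ θ * l / 4 := by
  obtain ⟨n1, n2⟩ := norm_near ha hb
  rw [← hl] at n1 n2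
  have l00 : 0 ≤ l := hl ▸ norm_nonneg _
  have tl : θ * l ≤ l / 100 := by nlinarith
  have l0 : 0 < l := by linarith
  have em : mu θ σ = θ * l / 4 := by rw [mu, hl]
  have m0 : 0 < θ * l / 4 := by positivity
  have mm : dist (midpoint ℝ xa xb) (midpoint ℝ σ.1 σ.2) ≤ θ * l := by
    have := dist_midpoint_midpoint_le xa xb σ.1 σ.2
    rw [dist_eq_norm xa, dist_eq_norm xb] at this
    linarith
  obtain ⟨ρ, hρ⟩ : ∃ ρ, ρ = τ / θ := ⟨_, rfl⟩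
  have ρ0 : 0 ≤ ρ := by rw [hρ]; positivity
  have eτ : τ = ρ * θ := by rw [hρ]; field_simp
  have y0 : ∀ y : E 2, ‖y‖ ≤ θ * l → ‖y‖ / (θ * l / 4) + 1 / 2 ≤ 4.5 := fun y hy => by
    have : ‖y‖ / (θ * l / 4) ≤ 4 := by rw [div_le_iff₀ m0]; linarith
    linarith
  have y1 : ∀ x : E 2, dist x (midpoint ℝ xa xb) ≤ τ * dist xa xb →
      ‖x - midpoint ℝ σ.1 σ.2‖ / (θ * l / 4) + 1 / 2 ≤ 4.08 * ρ + 4.5 := fun x hx => by
    have : ‖x - midpoint ℝ σ.1 σ.2‖ / (θ * l / 4) ≤ 4.08 * ρ + 4 := by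
      rw [div_le_iff₀ m0, ← dist_eq_norm]
      have q := mul_le_mul_of_nonneg_left (show dist xa xb ≤ 1.02 * l by linarith) t0
      have q2 : τ * (1.02 * l) = 4.08 * ρ * (θ * l / 4) := by rw [eτ]; ring
      linarith [dist_triangle x (midpoint ℝ xa xb) (midpoint ℝ σ.1 σ.2)]
    linarith
  obtain ⟨z0, r0, s0⟩ := round_ex m0 (xa - σ.1)
  obtain ⟨z1, r1, s1⟩ := round_ex m0 (x1 - midpoint ℝ σ.1 σ.2)
  obtain ⟨z2, r2, s2⟩ := round_ex m0 (x2 - midpoint ℝ σ.1 σ.2)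
  obtain ⟨z3, r3, s3⟩ := round_ex m0 (xb - σ.2)
  replace s0 := fun j => (s0 j).trans (y0 _ ha)
  replace s1 := fun j => (s1 j).trans (y1 _ c1)
  replace s2 := fun j => (s2 j).trans (y1 _ c2)
  replace s3 := fun j => (s3 j).trans (y0 _ hb)
  rw [sub_sub] at r0 r1 r2 r3
  have hZ' : 4.08 * ρ + 4.5 ≤ Z := by
    have : ρ ≤ 2 / θ := by rw [hρ]; gcongr
    have e : 9 / θ = 4.5 * (2 / θ) := by ring
    have : 0 ≤ 2 / θ := by positivity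
    linarith
  obtain ⟨u1, u2⟩ := norm_near r0 r1
  obtain ⟨v1, v2⟩ := norm_near r2 r3
  refine ⟨![z0, z1, z2, z3], fun i j => ?_, ?_, fun b => ?_, fun b => ?_, ?_⟩
  · have k : ∀ y : ℤ, |(y : ℝ)| ≤ 4.08 * ρ + 4.5 → |y| ≤ Z := fun y hy => by
      exact_mod_cast hy.trans hZ'
    fin_cases i
    exacts [k _ ((s0 j).trans (by linarith)), k _ (s1 j), k _ (s2 j), k _ ((s3 j).trans (by linarith))]
  · have e : 85 * (τ ^ 2 / 10) / θ ^ 2 = 8.5 * ρ ^ 2 := by rw [eτ]; field_simp; ring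
    simp only [hc, Fin.sum_univ_four, Fin.sum_univ_two, e, Matrix.cons_val]
    nlinarith [s0 0, s0 1, s1 0, s1 1, s2 0, s2 1, s3 0, s3 1, sq_nonneg (ρ - 1)]
  · cases b <;> simp only [chd, em, Matrix.cons_val] <;> linarith
  · cases b <;> simp only [chd, em, Matrix.cons_val] <;> linarith
  · simp only [chd, em, Matrix.cons_val]
    exact ⟨r0, r1, r2, r3⟩

end Pool.Agent.GLA
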