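import Pool.Agent.Lib.MP_a0a493_pr.GH

/-! Differences of the Gaussian kernel and sums over equally spaced points. -/

namespace Pool.Agent.GLA

open Real Pool.Agent.Lib.MP_a0a493_pr
open scoped InnerProductSpace

variable {d : ℕ}

theorem abs_exp_sub (B : ℝ) : |exp B - 1| ≤ |B| * exp |B| := by
  rcases le_total 0 B with h | h
  · rw [abs_of_nonneg h, abs_of_nonneg (by linarith [add_one_le_exp B])]
    have a := mul_le_mul_of_nonneg_right (add_one_le_exp (-B)) (exp_pos B).le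
    rw [← exp_add, neg_add_cancel, exp_zero] at a
    linarith
  · rw [abs_of_nonpos h, abs_of_nonpos (by linarith [exp_le_one_iff.2 h])]
    nlinarith [add_one_le_exp B, add_one_le_exp (-B)]

theorem kg_add (u β : E d) : kg (u + β) = kg u * exp (-⟪u, β⟫_ℝ - ‖β‖ ^ 2 / 2) := by
  unfold kg
  rw [← exp_add, norm_add_sq_real]
  ring_nf

theorem kg_neg (u : E d) : kg (-u) = kg u := by unfold kg; rw [norm_neg]

theorem ex_abs {u β : E d} {w : ℝ} (h : ‖β‖ ≤ w) (h1 : w ≤ 1) :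
    |-⟪u, β⟫_ℝ - ‖β‖ ^ 2 / 2| ≤ w * (‖u‖ + 1 / 2) := by
  have a := abs_le.1 (abs_real_inner_le_norm u β)
  have b := norm_nonneg β
  have c := mul_le_mul_of_nonneg_left h (norm_nonneg u)
  rw [abs_le]
  constructor <;> nlinarith [norm_nonneg u]

theorem ex_sub {u β : E d} {w : ℝ} (h : ‖β‖ ≤ w) (h1 : w ≤ 1) :
    |exp (-⟪u, β⟫_ℝ - ‖β‖ ^ 2 / 2) - 1| ≤ w * exp (2 * ‖u‖ + 1 / 2) := by
  have a := ex_abs (u := u) h h1
  have w0 : 0 ≤ w := (norm_nonneg _).trans h
  have b : w * (‖u‖ + 1 / 2) ≤ ‖u‖ + 1 / 2 := by nlinarith [norm_nonneg u]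
  refine (abs_exp_sub _).trans ((mul_le_mul a (exp_le_exp.2 (a.trans b)) (exp_pos _).le
    (by positivity)).trans ?_)
  have e : exp (2 * ‖u‖ + 1 / 2) = exp ‖u‖ * exp (‖u‖ + 1 / 2) := by rw [← exp_add]; ring_nf
  rw [mul_assoc, e]
  exact mul_le_mul_of_nonneg_left (mul_le_mul_of_nonneg_right
    (by linarith [add_one_le_exp ‖u‖]) (exp_pos _).le) w0

theorem kg_mul (u : E d) {a b : ℝ} (h : (a + 1) ^ 2 / 2 + b ≤ 15) :
    kg u * exp (a * ‖u‖ + b) ≤ exp 15 * exp (-‖u‖) := by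
  unfold kg
  rw [← exp_add, ← exp_add]
  exact exp_le_exp.2 (by nlinarith [sq_nonneg (‖u‖ - (a + 1))])

theorem k0 (u : E d) : kg u ≤ exp 15 * exp (-‖u‖) := by
  simpa using kg_mul u (a := 0) (b := 0) (by norm_num)

theorem k1 {u β : E d} {w : ℝ} (h : ‖β‖ ≤ w) (h1 : w ≤ 1) :
    |kg (u + β) - kg u| ≤ w * (exp 15 * exp (-‖u‖)) := by
  have w0 : 0 ≤ w := (norm_nonneg _).trans h
  rw [kg_add, ← mul_sub_one, abs_mul, abs_of_pos (kg_pos u)]
  refine (mul_le_mul_of_nonneg_left (ex_sub h h1) (kg_pos u).le).trans ?_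
  rw [mul_left_comm]
  exact mul_le_mul_of_nonneg_left (kg_mul u (by norm_num)) w0

theorem k2 {u α β : E d} {w w' : ℝ} (h : ‖α‖ ≤ w) (h1 : w ≤ 1) (h' : ‖β‖ ≤ w') (h1' : w' ≤ 1) :
    kg (u + α + β) - kg (u + α) - kg (u + β) + kg u ≤ 2 * (w * w') * (exp 15 * exp (-‖u‖)) := by
  have w0 : 0 ≤ w := (norm_nonneg _).trans h
  have w0' : 0 ≤ w' := (norm_nonneg _).trans h'
  have a1 := ex_sub (u := u) h h1
  have a2 := ex_sub (u := u) h' h1'
  have b1 := (le_abs_self _).trans (ex_abs (u := u) h h1)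
  have b2 := (le_abs_self _).trans (ex_abs (u := u) h' h1')
  have g : |-⟪α, β⟫_ℝ| ≤ w * w' := by
    rw [abs_neg]
    exact (abs_real_inner_le_norm _ _).trans (mul_le_mul h h' (norm_nonneg _) w0)
  have g1 : w * w' ≤ 1 := by nlinarith
  have a3 : exp (-⟪α, β⟫_ℝ) - 1 ≤ w * w' * exp 1 := (le_abs_self _).trans
    ((abs_exp_sub _).trans (mul_le_mul g (exp_le_exp.2 (g.trans g1)) (exp_pos _).le (by positivity)))
  have e : kg (u + α + β) = kg u * (exp (-⟪u, α⟫_ℝ - ‖α‖ ^ 2 / 2) *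
      exp (-⟪u, β⟫_ℝ - ‖β‖ ^ 2 / 2) * exp (-⟪α, β⟫_ℝ)) := by
    rw [kg_add, kg_add, inner_add_left, mul_assoc, ← exp_add, ← exp_add, ← exp_add]
    ring_nf
  rw [e, kg_add u α, kg_add u β]
  generalize -⟪u, α⟫_ℝ - ‖α‖ ^ 2 / 2 = A at *
  generalize -⟪u, β⟫_ℝ - ‖β‖ ^ 2 / 2 = B at *
  generalize -⟪α, β⟫_ℝ = G at *
  have u0 := norm_nonneg u
  have c1 : (exp A - 1) * (exp B - 1) ≤ w * w' * exp (4 * ‖u‖ + 2) := by
    refine (le_abs_self _).trans ?_
    rw [abs_mul]
    refine (mul_le_mul a1 a2 (abs_nonneg _) (by positivity)).trans ?_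
    rw [mul_mul_mul_comm, ← exp_add]
    exact mul_le_mul_of_nonneg_left (exp_le_exp.2 (by linarith)) (by positivity)
  have c2 : exp A * exp B * (exp G - 1) ≤ w * w' * exp (4 * ‖u‖ + 2) := by
    refine (mul_le_mul_of_nonneg_left a3 (by positivity)).trans ?_
    rw [mul_left_comm, ← exp_add, ← exp_add]
    exact mul_le_mul_of_nonneg_left (exp_le_exp.2 (by nlinarith)) (by positivity)
  have c3 := mul_le_mul_of_nonneg_left (kg_mul u (a := 4) (b := 2) (by norm_num))
    (mul_nonneg w0 w0')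
  have c4 := mul_le_mul_of_nonneg_left (add_le_add c1 c2) (kg_pos u).le
  nlinarith

/-- the mixed difference of the kernel -/
theorem mix {p q p' q' : E d} {w w' : ℝ} (h : ‖q - p‖ ≤ w) (h' : ‖q' - p'‖ ≤ w') :
    kg (q' - q) - kg (p' - q) - kg (q' - p) + kg (p' - p) ≤ 2 * exp 15 * (min 1 w * min 1 w') *
      (exp (-‖p' - p‖) + exp (-‖q' - p‖) + exp (-‖p' - q‖) + exp (-‖q' - q‖)) := by
  have w0 : 0 ≤ w := (norm_nonneg _).trans h
  have w0' : 0 ≤ w' := (norm_nonneg _).trans h'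
  have n1 := mul_pos (exp_pos 15) (exp_pos (-‖p' - p‖))
  have n2 := mul_pos (exp_pos 15) (exp_pos (-‖q' - p‖))
  have n3 := mul_pos (exp_pos 15) (exp_pos (-‖p' - q‖))
  have n4 := mul_pos (exp_pos 15) (exp_pos (-‖q' - q‖))
  rcases le_total w 1 with a | a <;> rcases le_total w' 1 with a' | a'
  · have := k2 (u := p' - p) (α := p - q) (β := q' - p') (by rwa [norm_sub_rev]) a h' a'
    rw [show p' - p + (p - q) + (q' - p') = q' - q by abel, show p' - p + (p - q) = p' - q by abel,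
      show p' - p + (q' - p') = q' - p by abel] at this
    rw [min_eq_right a, min_eq_right a']
    nlinarith [mul_nonneg (mul_nonneg w0 w0') (add_pos (add_pos n2 n3) n4).le]
  · have b1 := abs_le.1 (k1 (u := p' - p) (β := p - q) (by rwa [norm_sub_rev]) a)
    have b2 := abs_le.1 (k1 (u := q' - p) (β := p - q) (by rwa [norm_sub_rev]) a)
    rw [show p' - p + (p - q) = p' - q by abel] at b1
    rw [show q' - p + (p - q) = q' - q by abel] at b2
    rw [min_eq_right a, min_eq_left a']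
    nlinarith [mul_nonneg w0 (add_pos (add_pos n1 n2) (add_pos n3 n4)).le,
      mul_nonneg w0 (add_pos n3 n4).le]
  · have b1 := abs_le.1 (k1 (u := p' - p) (β := q' - p') h' a')
    have b2 := abs_le.1 (k1 (u := p' - q) (β := q' - p') h' a')
    rw [show p' - p + (q' - p') = q' - p by abel] at b1
    rw [show p' - q + (q' - p') = q' - q by abel] at b2
    rw [min_eq_left a, min_eq_right a']
    nlinarith [mul_nonneg w0' (add_pos (add_pos n1 n2) (add_pos n3 n4)).le,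
      mul_nonneg w0' (add_pos n2 n4).le]
  · rw [min_eq_left a, min_eq_left a']
    nlinarith [k0 (q' - q), k0 (p' - p), kg_pos (p' - q), kg_pos (q' - p)]

theorem geo_le {r : ℝ} (h0 : 0 ≤ r) (h1 : r < 1) (s : Finset ℕ) {g : ℕ → ℕ} (hg : Set.InjOn g s) :
    ∑ i ∈ s, r ^ g i ≤ (1 - r)⁻¹ := by
  rw [← Finset.sum_image (f := fun j => r ^ j) hg, ← tsum_geometric_of_lt_one h0 h1]
  exact (summable_geometric_of_lt_one h0 h1).sum_le_tsum _ fun _ _ => pow_nonneg h0 _

/-- equally spaced points of a segment -/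
noncomputable def sp (m : ℕ) (A B : E d) (i : ℕ) : E d := A + ((i : ℝ) / m) • (B - A)

theorem dens {m : ℕ} (hm : 0 < m) {A B : E d} (z : E d) {c l : ℝ} (hc : 0 < c) (hl : 0 < l)
    (h1 : l ≤ ‖B - A‖) (h2 : c * ‖B - A‖ ≤ m) :
    ∑ i ∈ Finset.range m, exp (-‖c • z - c • sp m A B i‖) ≤ 6 * m / (c * l) := by
  obtain ⟨j, hj, hmin⟩ := Finset.exists_min_image (Finset.range m) (fun i => ‖z - sp m A B i‖)
    ⟨0, Finset.mem_range.2 hm⟩
  have m0 : (0 : ℝ) < m := Nat.cast_pos.2 hm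
  have n0 : 0 < ‖B - A‖ := hl.trans_le h1
  obtain ⟨y, hy⟩ : ∃ y, y = c * ‖B - A‖ / m / 2 := ⟨_, rfl⟩
  have y0 : 0 < y := by rw [hy]; positivity
  have y1 : y ≤ 1 / 2 := by
    rw [hy]; linarith [(div_le_one m0).2 h2]
  have r1 : exp (-y) < 1 := exp_lt_one_iff.2 (by linarith)
  have key : ∀ i ∈ Finset.range m, ∀ k : ℕ, (k : ℝ) = |(i : ℝ) - j| →
      exp (-‖c • z - c • sp m A B i‖) ≤ exp (-y) ^ k := by
    intro i hi k hk
    rw [← exp_nat_mul, ← smul_sub, norm_smul, Real.norm_of_nonneg hc.le]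
    refine exp_le_exp.2 ?_
    have e : (z - sp m A B j) - (z - sp m A B i) = (((i : ℝ) - j) / m) • (B - A) := by
      unfold sp; rw [sub_div]; module
    have a := norm_sub_le (z - sp m A B j) (z - sp m A B i)
    rw [e, norm_smul, Real.norm_eq_abs, abs_div, abs_of_pos m0, ← hk] at a
    have b := hmin i hi
    have f : k * y = c * (k / m * ‖B - A‖) / 2 := by rw [hy]; ring
    nlinarith [mul_le_mul_of_nonneg_left (show k / m * ‖B - A‖ ≤ 2 * ‖z - sp m A B i‖ by linarith) hc.le]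
  have s1 : ∑ i ∈ (Finset.range m).filter (fun i => i ≤ j), exp (-‖c • z - c • sp m A B i‖) ≤
      (1 - exp (-y))⁻¹ := by
    refine le_trans (Finset.sum_le_sum fun i hi => ?_) (geo_le (exp_pos _).le r1 _ (g := fun i => j - i) ?_)
    · have := Finset.mem_filter.1 hi
      refine key i this.1 _ ?_
      rw [Nat.cast_sub this.2, abs_sub_comm, abs_of_nonneg (sub_nonneg.2 (Nat.cast_le.2 this.2))]
    · intro a ha b hb hab
      have := (Finset.mem_filter.1 ha).2
      have := (Finset.mem_filter.1 hb).2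
      simp only at hab
      omega
  have s2 : ∑ i ∈ (Finset.range m).filter (fun i => ¬ i ≤ j), exp (-‖c • z - c • sp m A B i‖) ≤
      (1 - exp (-y))⁻¹ := by
    refine le_trans (Finset.sum_le_sum fun i hi => ?_) (geo_le (exp_pos _).le r1 _ (g := fun i => i - j) ?_)
    · have := Finset.mem_filter.1 hi
      have h3 : j ≤ i := by omega
      refine key i this.1 _ ?_
      rw [Nat.cast_sub h3, abs_of_nonneg (sub_nonneg.2 (Nat.cast_le.2 h3))]
    · intro a ha b hb hab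
      have := (Finset.mem_filter.1 ha).2
      have := (Finset.mem_filter.1 hb).2
      simp only at hab
      omega
  have s3 : (1 - exp (-y))⁻¹ ≤ 3 * m / (c * l) := by
    have a : exp (-y) ≤ (1 + y)⁻¹ := by
      rw [exp_neg]; exact inv_anti₀ (by linarith) (by linarith [add_one_le_exp y])
    have b : y / (1 + y) ≤ 1 - exp (-y) := by
      have : y / (1 + y) = 1 - (1 + y)⁻¹ := by field_simp; ring
      linarith
    refine (inv_anti₀ (by positivity) b).trans ?_
    rw [inv_div, div_le_div_iff₀ y0 (by positivity)]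
    have f : m * y = c * ‖B - A‖ / 2 := by rw [hy]; field_simp
    nlinarith [mul_le_mul_of_nonneg_left h1 hc.le, mul_pos hc hl]
  rw [← Finset.sum_filter_add_sum_filter_not _ (fun i => i ≤ j)]
  have : 6 * m / (c * l) = 2 * (3 * m / (c * l)) := by ring
  linarith

end Pool.Agent.GLA
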