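import Pool.Agent.Lib.MP_438f30_pr.St

namespace Pool.Agent.GL
open MeasureTheory ProbabilityTheory Real Finset Filter Topology Pool.Agent.Lib.MP_a0a493_pr
open scoped InnerProductSpace

/-- the rectangle in the normalised coordinate -/
def ar_R (a : ℝ) : Set ℂ := {w | 5 / 16 ≤ w.re ∧ w.re ≤ 11 / 16 ∧ |w.im| ≤ 2 * a}

theorem ar_R_eq (a : ℝ) : ar_R a = Complex.measurableEquivRealProd ⁻¹'
    (Set.Icc (5 / 16 : ℝ) (11 / 16) ×ˢ Set.Icc (-(2 * a)) (2 * a)) := by
  ext w
  simp only [ar_R, Set.mem_setOf_eq, Set.mem_preimage, Complex.measurableEquivRealProd_apply,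
    Set.mem_prod, Set.mem_Icc, abs_le, and_assoc]

theorem ar_R_meas (a : ℝ) : MeasurableSet (ar_R a) := by
  rw [ar_R_eq]
  exact Complex.measurableEquivRealProd.measurable (measurableSet_Icc.prod measurableSet_Icc)

theorem ar_R_vol (a : ℝ) : volume (ar_R a) = ENNReal.ofReal (3 / 8) * ENNReal.ofReal (4 * a) := by
  rw [ar_R_eq, Complex.volume_preserving_equiv_real_prod.measure_preimage
    (measurableSet_Icc.prod measurableSet_Icc).nullMeasurableSet, Measure.volume_eq_prod,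
    Measure.prod_prod, Real.volume_Icc, Real.volume_Icc]
  congr 2
  · norm_num
  · ring

theorem ar_mul (v : ℂ) (hv : v ≠ 0) (s : Set ℂ) :
    volume ((fun z : ℂ => z / v) ⁻¹' s) = ENNReal.ofReal (‖v‖ ^ 2) * volume s := by
  have hdet : LinearMap.det (Algebra.lmul ℝ ℂ v⁻¹) = (‖v‖ ^ 2)⁻¹ := by
    rw [← Algebra.norm_apply, Algebra.norm_complex_apply, Complex.normSq_eq_norm_sq, norm_inv,
      inv_pow]
  have hpos : 0 < ‖v‖ ^ 2 := pow_pos (norm_pos_iff.mpr hv) 2
  have h := Measure.addHaar_preimage_linearMap (volume : Measure ℂ)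
    (f := Algebra.lmul ℝ ℂ v⁻¹) (by rw [hdet]; exact (inv_pos.mpr hpos).ne') s
  rw [hdet, inv_inv, abs_of_pos hpos] at h
  rw [← h]
  congr 1
  ext z
  simp [div_eq_inv_mul]

theorem ar : sAr := by
  intro a N ha hN
  have hm : MeasurableSet ((fun z : ℂ => z + -N.1) ⁻¹' ((fun z : ℂ => z / N.2) ⁻¹' ar_R a)) :=
    (measurable_add_const _) ((measurable_div_const _) (ar_R_meas a))
  have he : {u : E 2 | 5 / 16 ≤ (zt N u).re ∧ (zt N u).re ≤ 11 / 16 ∧ |(zt N u).im| ≤ 2 * a} =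
      Complex.orthonormalBasisOneI.repr.symm ⁻¹'
        ((fun z : ℂ => z + -N.1) ⁻¹' ((fun z : ℂ => z / N.2) ⁻¹' ar_R a)) := by
    ext u
    simp only [ar_R, zt, ce, Set.mem_setOf_eq, Set.mem_preimage,
      Complex.orthonormalBasisOneI_repr_symm_apply, sub_eq_add_neg]
  rw [he, Complex.orthonormalBasisOneI.measurePreserving_repr_symm.measure_preimage
    hm.nullMeasurableSet, measure_preimage_add_right, ar_mul _ hN, ar_R_vol,
    ← ENNReal.ofReal_mul (by norm_num), ← ENNReal.ofReal_mul (by positivity)]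
  exact le_of_eq (by congr 1; ring)

end Pool.Agent.GL
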