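import Pool.Agent.Lib.MP_438f30_pr.St

/-! The expected weighted cost of the tree. -/

namespace Pool.Agent.GL

open MeasureTheory ProbabilityTheory Real Finset Filter Topology Pool.Agent.Lib.MP_a0a493_pr
open scoped InnerProductSpace

theorem b2_nonneg (σ : Bool) (u v : ℝ) : 0 ≤ 1 - sn σ * exp (-u ^ 2 / 2) * sin v := by
  have h1 : exp (-u ^ 2 / 2) ≤ 1 := exp_le_one_iff.2 (by nlinarith [sq_nonneg u])
  have h2 := exp_pos (-u ^ 2 / 2)
  have h3 := sin_le_one v
  have h4 := neg_one_le_sin v
  cases σ <;> simp only [sn, if_true, Bool.false_eq_true, if_false] <;> nlinarith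

theorem b2_prod {α : Type} (F : ℝ → α → ℝ) (j : ℕ) (s : ℕ → ℝ) (z : ℕ → α) (t : ℝ) (w : α) :
    ∏ i ∈ range (j + 1), F (Function.update s j t i) (Function.update z j w i) =
      (∏ i ∈ range j, F (s i) (z i)) * F t w := by
  rw [prod_range_succ, Function.update_self, Function.update_self]
  congr 1
  refine prod_congr rfl fun i hi => ?_
  have h := (mem_range.1 hi).ne
  rw [Function.update_of_ne h, Function.update_of_ne h]

theorem b2 (hg : sGF) (hc : CH) : sB2 := by
  intro Ω _ P _ H _ _ W hW a l₀ l₁ V Λ z g b T x ha ha' hΛ hb hV hz hs hT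
  obtain ⟨t1, t2⟩ := hc.th1 a ha ha'
  have key : ∀ (m : ℕ) (N : ℂ × ℂ), l₀ = th a ^ m * ‖N.2‖ → ‖N.2‖ ≤ l₁ →
      ∀ (j : ℕ) (s : ℕ → ℝ) (z' : ℕ → H) (B : ℝ), 0 ≤ B →
      (∀ i < j, ∀ i' < j, i ≠ i' → ⟪z' i, z' i'⟫_ℝ = 0) →
      (∀ i < j, ∀ N' : ℂ × ℂ, ‖N'.2‖ ≤ ‖N.2‖ → ⟪z' i, z N'⟫_ℝ = 0) →
      (∀ y ∈ RegZ a N,
        ∏ i ∈ range j, (1 - s i * exp (-‖z' i‖ ^ 2 / 2) * sin ⟪z' i, g y⟫_ℝ) ≤ B) →
      Integrable (fun ω => (∏ i ∈ range j, (1 - s i * sin (W (z' i) ω))) *
        Cst a (fun N' => sin (W (z N') ω))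
          (fun N' => cost (fun y => W (g y) ω) (T N') (x N')) m N) P ∧
      ∫ ω, (∏ i ∈ range j, (1 - s i * sin (W (z' i) ω))) *
        Cst a (fun N' => sin (W (z N') ω))
          (fun N' => cost (fun y => W (g y) ω) (T N') (x N')) m N ∂P ≤
        B * ((∑ c ∈ range 8, b c) ^ m * Λ * exp (V / 2)) := by
    intro m
    induction m with
    | zero =>
      intro N h0 _ j s z' B hB h1 _ h3
      rw [pow_zero, one_mul] at h0
      obtain ⟨k1, k2⟩ := hT N h0.symm
      have e : (fun ω => (∏ i ∈ range j, (1 - s i * sin (W (z' i) ω))) *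
          Cst a (fun N' => sin (W (z N') ω))
            (fun N' => cost (fun y => W (g y) ω) (T N') (x N')) 0 N) =
          fun ω => ∑ i ∈ range (T N + 1), exp (W (g (x N i)) ω) *
            ∏ i ∈ range j, (1 - s i * sin (W (z' i) ω)) := by
        funext ω
        rw [Cst, cost, mul_comm, sum_mul]
      have hi := fun i => hg Ω P H W hW (g (x N i)) j s z' h1
      rw [e]
      refine ⟨integrable_finsetSum _ fun i _ => (hi i).1, ?_⟩
      rw [integral_finsetSum _ fun i _ => (hi i).1]
      have h4 : ∀ i ∈ range (T N + 1), ∫ ω, exp (W (g (x N i)) ω) *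
          ∏ i ∈ range j, (1 - s i * sin (W (z' i) ω)) ∂P ≤ exp (V / 2) * B := by
        intro i hi'
        rw [(hi i).2]
        refine (mul_le_mul_of_nonneg_left (h3 _ (k2 i (by
          have := mem_range.1 hi'
          omega))) (exp_pos _).le).trans (mul_le_mul_of_nonneg_right (exp_le_exp.2 ?_) hB)
        linarith [hV (x N i)]
      refine (sum_le_card_nsmul _ _ _ h4).trans ?_
      rw [card_range, nsmul_eq_mul, pow_zero, one_mul]
      push_cast
      have h5 : 0 ≤ exp (V / 2) * B := by positivity
      nlinarith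
    | succ m ih =>
      intro N h0 h0' j s z' B hB h1 h2 h3
      have hN := norm_nonneg N.2
      have t3 : th a * ‖N.2‖ ≤ ‖N.2‖ := by nlinarith
      have t4 : l₀ ≤ th a * ‖N.2‖ := by
        have h5 : th a ^ m ≤ 1 := pow_le_one₀ (by linarith) (by linarith)
        have h6 : 0 ≤ th a * ‖N.2‖ := mul_nonneg (by linarith) hN
        rw [h0, pow_succ, mul_assoc]
        nlinarith
      have hi := fun (σ : Bool) (c : ℕ) (hc8 : c ∈ range 8) =>
        ih (chd a N σ c) (by rw [hc.len a N σ c (mem_range.1 hc8), h0]; ring)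
          (by rw [hc.len a N σ c (mem_range.1 hc8)]; linarith) (j + 1)
          (Function.update s j (sn σ)) (Function.update z' j (z N)) (B * b c)
          (mul_nonneg hB (hb c))
          (by
            intro i hi i' hi' hne
            rcases eq_or_ne i j with rfl | e1
            · rw [Function.update_self, Function.update_of_ne hne.symm, real_inner_comm]
              exact h2 i' (by omega) N le_rfl
            · rcases eq_or_ne i' j with rfl | e2
              · rw [Function.update_self, Function.update_of_ne e1]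
                exact h2 i (by omega) N le_rfl
              · rw [Function.update_of_ne e1, Function.update_of_ne e2]
                exact h1 i (by omega) i' (by omega) hne)
          (by
            intro i hi N' hN'
            rw [hc.len a N σ c (mem_range.1 hc8)] at hN'
            rcases eq_or_ne i j with rfl | e1
            · rw [Function.update_self]
              exact hz N N' hN'
            · rw [Function.update_of_ne e1]
              exact h2 i (by omega) N' (hN'.trans t3))
          (by
            intro y hy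
            rw [b2_prod (fun t w => 1 - t * exp (-‖w‖ ^ 2 / 2) * sin ⟪w, g y⟫_ℝ)]
            exact mul_le_mul (h3 y (hc.sub a N σ ha ha' c (mem_range.1 hc8) hy))
              (hs N t4 h0' σ c (mem_range.1 hc8) y hy) (b2_nonneg _ _ _) hB)
      have e : (fun ω => (∏ i ∈ range j, (1 - s i * sin (W (z' i) ω))) *
          Cst a (fun N' => sin (W (z N') ω))
            (fun N' => cost (fun y => W (g y) ω) (T N') (x N')) (m + 1) N) =
          fun ω => ∑ σ : Bool, ∑ c ∈ range 8, 1 / 2 *
            ((∏ i ∈ range (j + 1), (1 - Function.update s j (sn σ) i *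
              sin (W (Function.update z' j (z N) i) ω))) *
            Cst a (fun N' => sin (W (z N') ω))
              (fun N' => cost (fun y => W (g y) ω) (T N') (x N')) m (chd a N σ c)) := by
        funext ω
        rw [Cst, mul_sum]
        refine sum_congr rfl fun σ _ => ?_
        rw [b2_prod (fun t w => 1 - t * sin (W w ω)), mul_sum, mul_sum]
        exact sum_congr rfl fun c _ => by ring
      have hj := fun (σ : Bool) =>
        integrable_finsetSum (range 8) fun c hc8 => ((hi σ c hc8).1.const_mul (1 / 2))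
      rw [e]
      refine ⟨integrable_finsetSum _ fun σ _ => hj σ, ?_⟩
      rw [integral_finsetSum _ fun σ _ => hj σ]
      refine (sum_le_sum (g := fun _ => ∑ c ∈ range 8, 1 / 2 *
        (B * b c * ((∑ c ∈ range 8, b c) ^ m * Λ * exp (V / 2)))) fun σ _ => ?_).trans_eq ?_
      · rw [integral_finsetSum _ fun c hc8 => ((hi σ c hc8).1.const_mul (1 / 2))]
        refine sum_le_sum fun c hc8 => ?_
        rw [integral_const_mul]
        exact mul_le_mul_of_nonneg_left (hi σ c hc8).2 (by norm_num)
      · rw [Fintype.sum_bool, ← mul_sum, ← sum_mul, ← mul_sum, pow_succ]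
        ring
  intro m N h0 h1
  have h := key m N h0 h1 0 (fun _ => 0) (fun _ => 0) 1 zero_le_one (fun i hi => absurd hi (by omega))
    (fun i hi => absurd hi (by omega)) (fun y _ => by simp)
  simpa only [range_zero, prod_empty, one_mul] using h

end Pool.Agent.GL
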