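import Pool.Agent.Lib.MP_438f30_pr.St

/-! The test direction of a node: measurability, norm and orthogonality. -/

namespace Pool.Agent.GL

open MeasureTheory ProbabilityTheory Real Finset Filter Topology Pool.Agent.Lib.MP_a0a493_pr
open scoped InnerProductSpace

/-- the rectangle of a node -/
def b3aR (a : ℝ) (N : ℂ × ℂ) : Set (E 2) :=
  {u : E 2 | 5 / 16 ≤ (zt N u).re ∧ (zt N u).re ≤ 11 / 16 ∧ |(zt N u).im| ≤ 2 * a}

theorem b3a_zt (N : ℂ × ℂ) : Measurable (zt N) := by
  have : Continuous (zt N) := (continuous_ce.sub continuous_const).div_const _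
  exact this.measurable

theorem b3a_R (a : ℝ) (N : ℂ × ℂ) : MeasurableSet (b3aR a N) := by
  have h1 : Measurable fun u => (zt N u).re := Complex.measurable_re.comp (b3a_zt N)
  have h2 : Measurable fun u => (zt N u).im := Complex.measurable_im.comp (b3a_zt N)
  exact (measurableSet_le measurable_const h1).inter
    ((measurableSet_le h1 measurable_const).inter (measurableSet_le h2.abs measurable_const))

theorem b3a_meas (a : ℝ) (N : ℂ × ℂ) : Measurable (Uf a N) := by
  have h2 : Measurable fun p : ℝ × E 2 => (zt N p.2).im :=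
    Complex.measurable_im.comp ((b3a_zt N).comp measurable_snd)
  refine Measurable.ite ?_ (Measurable.ite (measurableSet_le measurable_const h2)
    measurable_const measurable_const) measurable_const
  exact (measurableSet_lt measurable_const measurable_fst).inter
    ((measurableSet_le measurable_fst measurable_const).inter (measurable_snd (b3a_R a N)))

theorem b3a_zero (a : ℝ) {N : ℂ × ℂ} (h : N.2 = 0) (p : ℝ × E 2) : Uf a N p = 0 := by
  unfold Uf
  rw [if_neg]
  rintro ⟨h1, h2, -⟩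
  rw [h, norm_zero, mul_zero, zero_div] at h1 h2
  linarith

theorem b3a_in (a : ℝ) (N : ℂ × ℂ) {s : ℝ}
    (h : s ∈ Set.Ioc (log (th a * a * ‖N.2‖ / 5)) (log (a * ‖N.2‖ / 5))) (u : E 2) :
    Uf a N (s, u) * Uf a N (s, u) = (b3aR a N).indicator 1 u := by
  unfold Uf
  by_cases hu : u ∈ b3aR a N
  · rw [Set.indicator_of_mem hu, if_pos ⟨h.1, h.2, hu⟩]
    split_ifs <;> simp
  · rw [Set.indicator_of_notMem hu, if_neg fun c => hu c.2.2, mul_zero]

theorem b3a_out (a : ℝ) (N : ℂ × ℂ) {s : ℝ}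
    (h : s ∉ Set.Ioc (log (th a * a * ‖N.2‖ / 5)) (log (a * ‖N.2‖ / 5))) (u : E 2) :
    Uf a N (s, u) = 0 := by
  unfold Uf
  exact if_neg fun c => h ⟨c.1, c.2.1⟩

theorem b3a_V1 : 3 ≤ V1 2 := by
  rw [V1, EuclideanSpace.volume_ball_fin_two]
  simp only [ENNReal.ofReal_one, one_pow, one_mul, ENNReal.toReal_ofReal pi_pos.le]
  exact pi_gt_three.le

theorem b3a_ok (ha : sAr) {a : ℝ} {N : ℂ × ℂ} (a0 : 0 < a) (t1 : 1 / 8 ≤ th a) (t2 : th a ≤ 1)
    (hN : N.2 ≠ 0) : Ok (Uf a N) ∧ ‖vec (Uf a N)‖ ^ 2 ≤ 2500 / a := by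
  have hv : 0 < ‖N.2‖ := norm_pos_iff.2 hN
  have t0 : 0 < th a := by linarith
  have hA : volume (b3aR a N) ≤ ENNReal.ofReal (3 / 2 * a * ‖N.2‖ ^ 2) := ha a N a0 hN
  have hfin : volume (b3aR a N) ≠ ⊤ := ne_top_of_le_ne_top ENNReal.ofReal_ne_top hA
  have hA' : volume.real (b3aR a N) ≤ 3 / 2 * a * ‖N.2‖ ^ 2 :=
    ENNReal.toReal_le_of_le_ofReal (by positivity) hA
  have hlen : log (a * ‖N.2‖ / 5) - log (th a * a * ‖N.2‖ / 5) = -log (th a) := by
    rw [show th a * a * ‖N.2‖ / 5 = th a * (a * ‖N.2‖ / 5) by ring,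
      log_mul t0.ne' (by positivity)]
    ring
  have l0 : log (th a) ≤ 0 := log_nonpos t0.le t2
  have l1 : -log (th a) ≤ 3 := by
    have h1 : log (1 / 8 : ℝ) ≤ log (th a) := log_le_log (by norm_num) t1
    rw [show (1 / 8 : ℝ) = (2 ^ 3)⁻¹ by norm_num, log_inv, log_pow] at h1
    have := log_two_lt_d9
    push_cast at h1
    linarith
  have key := ok_of_bound (b3a_meas a N) (G := (Set.Ioc (log (th a * a * ‖N.2‖ / 5))
      (log (a * ‖N.2‖ / 5))).indicator fun _ => 800 / a) (fun s => ?_)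
    ((integrable_indicator_iff measurableSet_Ioc).2 (integrableOn_const measure_Ioc_lt_top.ne))
    (fun s => ?_)
  · refine ⟨key.1, key.2.trans ?_⟩
    rw [integral_indicator measurableSet_Ioc, setIntegral_const, Real.volume_real_Ioc_of_le
      (by linarith), hlen, smul_eq_mul, ← mul_div_assoc]
    exact div_le_div_of_nonneg_right (by linarith) a0.le
  · by_cases h : s ∈ Set.Ioc (log (th a * a * ‖N.2‖ / 5)) (log (a * ‖N.2‖ / 5))
    · simp only [b3a_in a N h]
      exact (integrable_indicator_iff (b3a_R a N)).2 (integrableOn_const hfin)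
    · simp only [b3a_out a N h, mul_zero]
      exact integrable_zero _ _ _
  · by_cases h : s ∈ Set.Ioc (log (th a * a * ‖N.2‖ / 5)) (log (a * ‖N.2‖ / 5))
    · simp only [b3a_in a N h]
      rw [integral_indicator_one (b3a_R a N), Set.indicator_of_mem h]
      refine hA'.trans ?_
      have e1 : th a * a * ‖N.2‖ / 5 < exp s := (log_lt_iff_lt_exp (by positivity)).1 h.1
      have e2 : a * ‖N.2‖ / 40 ≤ exp s := by
        have : 1 / 8 * (a * ‖N.2‖) ≤ th a * (a * ‖N.2‖) :=
          mul_le_mul_of_nonneg_right t1 (by positivity)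
        linarith
      have e3 : (a * ‖N.2‖ / 40) ^ 2 ≤ exp s ^ 2 := pow_le_pow_left₀ (by positivity) e2 2
      have e4 : 3 * (a * ‖N.2‖ / 40) ^ 2 ≤ vb 2 s :=
        mul_le_mul b3a_V1 e3 (by positivity) (V1_pos 2).le
      calc 3 / 2 * a * ‖N.2‖ ^ 2 = 3 * (a * ‖N.2‖ / 40) ^ 2 * (800 / a) := by
            field_simp; ring
        _ ≤ _ := mul_le_mul_of_nonneg_right e4 (by positivity)
    · simp only [b3a_out a N h, mul_zero, integral_zero]
      rw [Set.indicator_of_notMem h, mul_zero]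

theorem b3a (ha : sAr) (hc : CH) : sB3a := by
  intro a N a0 a1
  obtain ⟨t1, t2⟩ := hc.th1 a a0 a1
  refine ⟨b3a_meas a N, ?_, ?_, fun N' hN' => ?_⟩
  · by_cases hN : N.2 = 0
    · rw [show Uf a N = fun _ => 0 from funext (b3a_zero a hN)]
      exact ok_zero
    · exact (b3a_ok ha a0 t1 (by linarith) hN).1
  · by_cases hN : N.2 = 0
    · rw [zN, show Uf a N = fun _ => 0 from funext (b3a_zero a hN), vec_zero]
      simp
    · have h := (b3a_ok ha a0 t1 (by linarith) hN).2
      refine (sq_le_one_iff₀ (norm_nonneg _)).1 ?_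
      rw [zN, norm_smul, mul_pow, Real.norm_eq_abs, sq_abs, div_pow, sq_sqrt a0.le]
      calc a / 50 ^ 2 * ‖vec (Uf a N)‖ ^ 2 ≤ a / 50 ^ 2 * (2500 / a) :=
            mul_le_mul_of_nonneg_left h (by positivity)
        _ = 1 := by field_simp; norm_num
  · rw [zN, zN, real_inner_smul_left, real_inner_smul_right, inner_vec_zero, mul_zero, mul_zero]
    rintro ⟨s, u⟩
    by_cases h0 : N'.2 = 0
    · rw [b3a_zero a h0, mul_zero]
    by_cases h : s ∈ Set.Ioc (log (th a * a * ‖N.2‖ / 5)) (log (a * ‖N.2‖ / 5))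
    · rw [b3a_out a N' fun c => ?_, mul_zero]
      have hv : 0 < ‖N'.2‖ := norm_pos_iff.2 h0
      have e : a * ‖N'.2‖ / 5 ≤ th a * a * ‖N.2‖ / 5 := by
        have := mul_le_mul_of_nonneg_left hN' a0.le
        linarith
      linarith [log_le_log (by positivity) e, h.1, c.2]
    · rw [b3a_out a N h, zero_mul]

end Pool.Agent.GL
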