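import Pool.Agent.Lib.MP_438f30_pr.St

/-! The pairing of the test direction of a node with the field at a point of a child region. -/

namespace Pool.Agent.GL

open MeasureTheory ProbabilityTheory Real Finset Filter Topology Pool.Agent.Lib.MP_a0a493_pr
open scoped InnerProductSpace

theorem b3b_sign {a t X Y : ℝ} {σ : Bool} (ha : 0 < a) (ha' : a ≤ 1 / 10)
    (h1 : |X - t| ≤ 46 / 100 * a) (h2 : |sn σ * Y - 2 * a * min t (1 - t)| ≤ 46 / 100 * a)
    (h3 : 5 / 16 ≤ X) (h4 : X ≤ 11 / 16) : sn σ * (if 0 ≤ Y then 1 else -1) = 1 := by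
  have k1 := abs_le.1 h1
  have k2 := abs_le.1 h2
  have k3 : 1 / 4 ≤ min t (1 - t) := le_min (by linarith) (by linarith)
  have k4 : 0 < sn σ * Y := by nlinarith
  cases σ
  · simp only [sn, Bool.false_eq_true, if_false] at k4 ⊢
    rw [if_neg (by linarith)]; norm_num
  · simp only [sn, if_true] at k4 ⊢
    rw [if_pos (by linarith)]; norm_num

theorem b3b_abs (σ : Bool) (Y : ℝ) : |sn σ * Y| = |Y| := by
  cases σ <;> simp [sn]

theorem b3b_pt (hc : CH) {a β : ℝ} {N : ℂ × ℂ} {σ : Bool} (ha : 0 < a) (ha' : a ≤ 1 / 10)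
    (h5 : 5 ≤ th a * a * ‖N.2‖) (hβ : a * ‖N.2‖ / 5 ≤ exp β) {c : ℕ} (hc8 : c < 8) {y : Zd 2}
    (hy : y ∈ RegZ a (chd a N σ c)) (s : ℝ) (u : E 2) :
    0 ≤ sn σ * (Uf a N (s, u) * ev 0 β (pt y) (s, u)) ∧
    sn σ * (Uf a N (s, u) * ev 0 β (pt y) (s, u)) ≤
      (Set.Ioc (log (th a * a * ‖N.2‖ / 5)) (log (a * ‖N.2‖ / 5))).indicator 1 s *
        bi (exp s) (pt y) u ∧
    (c = 3 ∨ c = 4 → sn σ * (Uf a N (s, u) * ev 0 β (pt y) (s, u)) =
      (Set.Ioc (log (th a * a * ‖N.2‖ / 5)) (log (a * ‖N.2‖ / 5))).indicator 1 s *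
        bi (exp s) (pt y) u) := by
  have hN : N.2 ≠ 0 := by
    rintro h
    rw [h, norm_zero] at h5
    linarith
  have hn : 0 < ‖N.2‖ := norm_pos_iff.2 hN
  by_cases hb : s ∈ Set.Ioc (log (th a * a * ‖N.2‖ / 5)) (log (a * ‖N.2‖ / 5))
  swap
  · have : Uf a N (s, u) = 0 := if_neg fun h => hb ⟨h.1, h.2.1⟩
    simp [this, Set.indicator_of_notMem hb]
  by_cases hd : dist (pt y) u < exp s
  swap
  · have e1 : bi (exp s) (pt y) u = 0 := bi_zero (not_lt.1 hd)
    have e2 : ev 0 β (pt y) (s, u) = 0 := by simp [ev, e1]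
    simp [e1, e2]
  have l0 : 0 ≤ log (th a * a * ‖N.2‖ / 5) := log_nonneg (by linarith)
  have l1 : exp s ≤ a * ‖N.2‖ / 5 := (le_log_iff_exp_le (by positivity)).1 hb.2
  have e2 : ev 0 β (pt y) (s, u) = 1 := by
    unfold ev
    rw [if_pos ⟨l0.trans_lt hb.1, exp_le_exp.1 (l1.trans hβ)⟩]
    exact bi_one hd
  rw [e2, bi_one hd, Set.indicator_of_mem hb, Pi.one_apply, mul_one, mul_one]
  have d1 : ‖zt N u - zt N (pt y)‖ ≤ a / 5 := by
    rw [hc.dst N _ _ hN, div_le_iff₀ hn, dist_comm]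
    linarith
  obtain ⟨t, t1, t2, t3, t4⟩ := hc.crd a N σ ha ha' hN c hc8 y hy
  have r1 : |(zt N u).re - t| ≤ 46 / 100 * a := by
    have := (Complex.abs_re_le_norm _).trans d1
    rw [Complex.sub_re] at this
    have := abs_sub_le (zt N u).re (zt N (pt y)).re t
    linarith
  have r2 : |sn σ * (zt N u).im - 2 * a * min t (1 - t)| ≤ 46 / 100 * a := by
    have := (Complex.abs_im_le_norm _).trans d1
    rw [Complex.sub_im, ← b3b_abs σ, mul_sub] at this
    have := abs_sub_le (sn σ * (zt N u).im) (sn σ * (zt N (pt y)).im) (2 * a * min t (1 - t))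
    linarith
  unfold Uf
  by_cases hU : log (th a * a * ‖N.2‖ / 5) < s ∧ s ≤ log (a * ‖N.2‖ / 5) ∧
      5 / 16 ≤ (zt N u).re ∧ (zt N u).re ≤ 11 / 16 ∧ |(zt N u).im| ≤ 2 * a
  · rw [if_pos hU, b3b_sign ha ha' r1 r2 hU.2.2.1 hU.2.2.2.1]
    simp
  · rw [if_neg hU]
    refine ⟨by simp, by simp, fun h => absurd ?_ hU⟩
    have k0 : 3 / 8 ≤ t ∧ t ≤ 5 / 8 := by
      rcases h with rfl | rfl <;> push_cast at t1 t2 <;> constructor <;> linarith
    have k1 := abs_le.1 r1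
    have k2 := abs_le.1 r2
    have k3 : min t (1 - t) ≤ 1 / 2 := by
      have := min_le_left t (1 - t)
      have := min_le_right t (1 - t)
      linarith
    have k4 : 0 ≤ min t (1 - t) := le_min (by linarith) (by linarith)
    refine ⟨hb.1, hb.2, by linarith, by linarith, ?_⟩
    rw [← b3b_abs σ, abs_le]
    constructor <;> nlinarith

theorem b3b (h3 : sB3a) (hc : CH) : sB3b := by
  intro a β N σ ha ha' h5 hβ c hc8 y hy
  have hp := b3b_pt hc ha ha' h5 hβ hc8 hy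
  obtain ⟨t1, t2⟩ := hc.th1 a ha ha'
  have hn : 0 < ‖N.2‖ := by
    refine (norm_nonneg _).lt_of_ne fun h => ?_
    rw [← h] at h5
    linarith
  have hl : log (a * ‖N.2‖ / 5) - log (th a * a * ‖N.2‖ / 5) = -log (th a) := by
    rw [show th a * a * ‖N.2‖ / 5 = th a * (a * ‖N.2‖ / 5) by ring,
      log_mul (by linarith) (by positivity)]
    ring
  have b1 : 2 ≤ -log (th a) := by
    have e1 := exp_one_lt_d9
    have e2 : exp 2 = exp 1 * exp 1 := by rw [← exp_add]; norm_num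
    have e3 : exp 2 * exp (-2) = 1 := by rw [← exp_add]; norm_num
    have e4 := exp_pos 1
    have e5 := exp_pos (-2)
    have : log (th a) ≤ -2 := (log_le_iff_le_exp (by linarith)).2 (by nlinarith)
    linarith
  have b2 : -log (th a) ≤ 3 := by
    have e1 : log (1 / 8) ≤ log (th a) := log_le_log (by norm_num) t1
    rw [show (1 / 8 : ℝ) = (2 ^ 3)⁻¹ by norm_num, log_inv, log_pow] at e1
    have := log_two_lt_d9
    push_cast at e1
    linarith
  generalize log (th a * a * ‖N.2‖ / 5) = lo at hp hl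
  generalize log (a * ‖N.2‖ / 5) = hi at hp hl
  have iI : Integrable ((Set.Ioc lo hi).indicator (1 : ℝ → ℝ)) :=
    (integrable_indicator_iff measurableSet_Ioc).2 (integrableOn_const measure_Ioc_lt_top.ne)
  have vI : ∫ s, (Set.Ioc lo hi).indicator (1 : ℝ → ℝ) s = -log (th a) := by
    rw [integral_indicator_one measurableSet_Ioc, Real.volume_real_Ioc, hl,
      max_eq_left (by linarith)]
  have vB : ∀ s, (vb 2 s)⁻¹ * ∫ u, (Set.Ioc lo hi).indicator 1 s * bi (exp s) (pt y) u =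
      (Set.Ioc lo hi).indicator (1 : ℝ → ℝ) s := fun s => by
    rw [integral_const_mul, integral_bi (exp_pos s), mul_left_comm]
    exact (congrArg _ (inv_mul_cancel₀ (vb_pos 2 s).ne')).trans (mul_one _)
  have e : sn σ * ⟪vec (Uf a N), Ev 0 β (pt y)⟫_ℝ =
      ∫ s, (vb 2 s)⁻¹ * ∫ u, sn σ * (Uf a N (s, u) * ev 0 β (pt y) (s, u)) := by
    rw [Ev, inner_vec' (h3 a N ha ha').2.1 (ok_ev _ _ _), ← integral_const_mul]
    simp only [integral_const_mul, mul_left_comm]
  have p0 : ∀ s, 0 ≤ (vb 2 s)⁻¹ * ∫ u, sn σ * (Uf a N (s, u) * ev 0 β (pt y) (s, u)) := fun s =>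
    mul_nonneg (inv_pos.2 (vb_pos 2 s)).le (integral_nonneg fun u => (hp s u).1)
  rw [e]
  refine ⟨integral_nonneg p0, le_trans (integral_mono_of_nonneg (.of_forall p0) iI
    (.of_forall fun s => ?_)) (vI.le.trans b2), fun h => ?_⟩
  · rw [← vB s]
    exact mul_le_mul_of_nonneg_left (integral_mono_of_nonneg (.of_forall fun u => (hp s u).1)
      ((integrable_bi _ _).const_mul _) (.of_forall fun u => (hp s u).2.1))
      (inv_pos.2 (vb_pos 2 s)).le
  · simp only [fun s u => (hp s u).2.2 h, vB]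
    exact b1.trans vI.ge

end Pool.Agent.GL
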