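import Pool.Agent.Lib.MP_438f30_pr.B2

/-! The weighted cost of the tree dominates the cost of some walk. -/

namespace Pool.Agent.GL

open MeasureTheory ProbabilityTheory Real Finset Filter Topology Pool.Agent.Lib.MP_a0a493_pr
open scoped InnerProductSpace

theorem b4_cat (hw : sWk) (S : Set (Zd 2)) (f : Zd 2 → ℝ) (p : ℕ → Zd 2) (B : ℕ → ℝ) (k : ℕ)
    (h : ∀ c < k + 1, ∃ T x, Wk S (p c) (p (c + 1)) T x ∧ cost f T x ≤ B c) :
    ∃ T x, Wk S (p 0) (p (k + 1)) T x ∧ cost f T x ≤ ∑ c ∈ range (k + 1), B c := by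
  induction k with
  | zero => simpa using h 0 one_pos
  | succ k ih =>
    obtain ⟨T, x, h1, h2⟩ := ih fun c hc => h c (by omega)
    obtain ⟨T', x', h3, h4⟩ := h (k + 1) (by omega)
    obtain ⟨x'', h5, h6⟩ := hw S _ _ _ T T' x x' h1 h3
    refine ⟨_, x'', h5, (h6 f).trans ?_⟩
    rw [sum_range_succ]
    exact add_le_add h2 h4

theorem b4 (hw : sWk) (hc : CH) : sB4 := by
  intro a l₀ f s T x h0 h1 hs hx m
  induction m with
  | zero => exact fun N h => ⟨T N, x N, hx N (by simpa using h.symm), le_rfl⟩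
  | succ m ih =>
    intro N h
    have key : ∀ σ, ∃ T' x', Wk (RegZ a N) (rnd N.1) (rnd (N.1 + N.2)) T' x' ∧ cost f T' x' ≤
        ∑ c ∈ range 8, Cst a s (fun N' => cost f (T N') (x N')) m (chd a N σ c) := fun σ => by
      have h2 := b4_cat hw (RegZ a N) f (fun c => rnd (chd a N σ c).1)
        (fun c => Cst a s (fun N' => cost f (T N') (x N')) m (chd a N σ c)) 7 fun c hc8 => by
        obtain ⟨T', x', h3, h4⟩ := ih (chd a N σ c) (by rw [hc.len a N σ c hc8, h]; ring)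
        rw [hc.nxt] at h3
        exact ⟨T', x', h3.mono (hc.sub a N σ h0 h1 c hc8), h4⟩
      rwa [(hc.fst a N σ).1, (hc.fst a N σ).2] at h2
    obtain ⟨T1, x1, a1, a2⟩ := key true
    obtain ⟨T2, x2, b1, b2⟩ := key false
    obtain ⟨s1, s2⟩ := abs_le.1 (hs N)
    have e1 : sn true = 1 := rfl
    have e2 : sn false = -1 := rfl
    rw [Cst, Fintype.sum_bool, e1, e2]
    rcases le_total (cost f T1 x1) (cost f T2 x2) with h2 | h2
    · exact ⟨T1, x1, a1, by nlinarith⟩
    · exact ⟨T2, x2, b1, by nlinarith⟩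

end Pool.Agent.GL
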