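import Pool.Agent.Lib.MP_438f30_pr.St

/-! The expected cost of the tree of tents. -/

namespace Pool.Agent.GL

open MeasureTheory ProbabilityTheory Real Finset Filter Topology Pool.Agent.Lib.MP_a0a493_pr
open scoped InnerProductSpace

theorem b5_sn (σ : Bool) (u : ℝ) : sn σ * sin u = sin (sn σ * u) := by
  cases σ <;> simp [sn]

/-- the gain at one node -/
theorem b5_gain {r τ : ℝ} (hr : r ^ 2 ≤ 1) (h0 : 0 ≤ τ) (h1 : τ ≤ 1) :
    τ / 4 ≤ exp (-r ^ 2 / 2) * sin τ := by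
  have e1 : 1 / 2 ≤ exp (-r ^ 2 / 2) := by linarith [add_one_le_exp (-r ^ 2 / 2)]
  have e2 : 2 / π * τ ≤ sin τ := mul_le_sin h0 (by linarith [pi_gt_three])
  have e3 : 1 / 2 ≤ 2 / π := by
    rw [le_div_iff₀ pi_pos]; linarith [pi_lt_four]
  have e4 : τ / 2 ≤ sin τ := by nlinarith
  nlinarith

theorem b5_rate {x : ℝ} (h0 : 0 < x) (h1 : x ≤ 1) :
    (8 - 2 * (x ^ 4 / 1200)) * th ((x / 12) ^ 2) ≤ exp (-(x ^ 4 / 9000)) := by
  have t0 : 0 ≤ x ^ 4 := by positivity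
  have t1 : x ^ 4 ≤ 1 := pow_le_one₀ h0.le h1
  have e1 : √(1 + 4 * ((x / 12) ^ 2) ^ 2) ≤ 1 + x ^ 4 / 10368 := by
    refine sqrt_le_iff.2 ⟨by positivity, ?_⟩
    nlinarith [sq_nonneg (x ^ 4)]
  have e2 := add_one_le_exp (-(x ^ 4 / 9000))
  have e3 := mul_le_mul_of_nonneg_left e1 (show 0 ≤ 8 - 2 * (x ^ 4 / 1200) by linarith)
  unfold th
  nlinarith [sq_nonneg (x ^ 4)]

theorem b5 (hs : sSeg) (hc : CH) (h2 : sB2) (h3 : sB3a) (h3b : sB3b) (h4 : sB4) : sB5 := by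
  intro x n m h0 h1 h5 Ω _ P _ W hW
  have hr := b5_rate h0 h1
  have hsq : √((x / 12) ^ 2) = x / 12 := sqrt_sq (by positivity)
  have t1 : x ^ 4 ≤ 1 := pow_le_one₀ h0.le h1
  have t0 : 0 < x ^ 4 := by positivity
  have a0 : 0 < (x / 12) ^ 2 := by positivity
  have a1 : (x / 12) ^ 2 ≤ 1 / 10 := by nlinarith
  generalize (x / 12) ^ 2 = a at h5 hr hsq a0 a1
  obtain ⟨l, hl⟩ : ∃ l : ℝ, l = th a ^ m * 2 ^ n := ⟨_, rfl⟩
  rw [← hl] at h5
  have l0 : 0 < l := (mul_pos_iff_of_pos_left a0).1 (by linarith)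
  have l3 : 3 ≤ l := by nlinarith
  choose T y hT using hs
  have hw : ∀ N : ℂ × ℂ, ‖N.2‖ = l → Wk (RegZ a N) (rnd N.1) (rnd (N.1 + N.2)) (T N) (y N) :=
    fun N hN => (hT N).1.mono fun v ⟨t, p1, p2, p3⟩ =>
      ⟨t, p1, p2, p3.trans (by rw [hN]; linarith)⟩
  have hn : ‖((0, 2 ^ n) : ℂ × ℂ).2‖ = 2 ^ n := by simp
  have hb : 0 ≤ (n : ℝ) * log 2 := mul_nonneg (Nat.cast_nonneg _) (log_nonneg one_le_two)
  obtain ⟨i1, i2⟩ := h2 Ω P (HH 2) W hW a l (2 ^ n) (x ^ 6 * n) (3 * l) (zN a)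
    (fun v => x ^ 3 • Ev 0 (n * log 2) (pt v))
    (fun c => if c = 3 ∨ c = 4 then 1 - x ^ 4 / 1200 else 1) T y a0 a1 (by linarith)
    (fun c => by split_ifs <;> linarith)
    (fun v => by
      rw [norm_smul, mul_pow, norm_eq_abs, sq_abs, ← pow_mul]
      refine mul_le_mul_of_nonneg_left ((norm_Ev hb _).trans ?_) (by positivity)
      rw [sub_zero]
      exact mul_le_of_le_one_right (Nat.cast_nonneg _) (by linarith [log_two_lt_d9]))
    (fun N N' h => (h3 a N a0 a1).2.2.2 N' h)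
    (fun N p1 p2 σ c hc8 v hv => by
      obtain ⟨q1, q2, q3⟩ := h3b a (n * log 2) N σ a0 a1 (by nlinarith) (by
        rw [mul_comm (n : ℝ), exp_mul, exp_log two_pos, rpow_natCast]
        nlinarith [norm_nonneg N.2]) c hc8 v hv
      have e : sn σ * ⟪zN a N, x ^ 3 • Ev 0 (n * log 2) (pt v)⟫_ℝ =
          x ^ 4 / 600 * (sn σ * ⟪vec (Uf a N), Ev 0 (n * log 2) (pt v)⟫_ℝ) := by
        rw [zN, real_inner_smul_left, real_inner_smul_right, hsq]; ring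
      have g := b5_gain (r := ‖zN a N‖) (τ := sn σ * ⟪zN a N, x ^ 3 • Ev 0 (n * log 2) (pt v)⟫_ℝ)
        (pow_le_one₀ (norm_nonneg _) (h3 a N a0 a1).2.2.1) (by rw [e]; positivity)
        (by rw [e]; nlinarith)
      rw [mul_right_comm, b5_sn, mul_comm (sin _)]
      rw [e] at g ⊢
      split_ifs with h
      · nlinarith [q3 h]
      · nlinarith)
    (fun N hN => ⟨by linarith [(hT N).2], (hw N hN).2.2.2⟩) m (0, 2 ^ n) (by rw [hn, hl]) hn.le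
  refine ⟨_, i1, fun ω => ?_, i2.trans ?_⟩
  · obtain ⟨T', y', w1, w2⟩ := h4 a l (fun v => W (x ^ 3 • Ev 0 (n * log 2) (pt v)) ω)
      (fun N => sin (W (zN a N) ω)) T y a0 a1 (fun N => abs_sin_le_one _) hw m (0, 2 ^ n)
      (by rw [hn, hl])
    obtain ⟨w3, w4⟩ := hc.root a n a0 a1 T' y' w1
    refine ⟨T', y', w3, w4, le_of_eq_of_le ?_ w2⟩
    simp only [map_smul, Pi.smul_apply, smul_eq_mul]
  · have e : ∑ c ∈ range 8, (if c = 3 ∨ c = 4 then 1 - x ^ 4 / 1200 else 1) =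
        8 - 2 * (x ^ 4 / 1200) := by
      simp [sum_range_succ]; ring
    have th0 : 0 ≤ th a := by linarith [(hc.th1 a a0 a1).1]
    have e2 := pow_le_pow_left₀ (mul_nonneg (by linarith) th0) hr m
    rw [← exp_nat_mul, mul_pow] at e2
    rw [e, exp_add, hl, show -(x ^ 4 * m / 9000) = m * -(x ^ 4 / 9000) by ring]
    calc _ = 3 * 2 ^ n * ((8 - 2 * (x ^ 4 / 1200)) ^ m * th a ^ m * exp (x ^ 6 * n / 2)) := by ring
      _ ≤ _ := by gcongr

end Pool.Agent.GL
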