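import Pool.Agent.Lib.MP_438f30_pr.St

/-! Part B from the expectation bound, by the Markov inequality. -/

namespace Pool.Agent.GL

open MeasureTheory ProbabilityTheory Real Finset Filter Topology Pool.Agent.Lib.MP_a0a493_pr
open scoped InnerProductSpace

theorem bf_size {a t : ℝ} (ha : 0 < a) (ht : 1 / 8 ≤ t) {k n : ℕ} (hk : 5 ≤ a * 8 ^ k)
    (hn : 3 * k ≤ n) : 5 ≤ a * (t ^ (n / 3 - k) * 2 ^ n) := by
  refine hk.trans (mul_le_mul_of_nonneg_left ?_ ha.le)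
  have h1 : (1 / 8 : ℝ) ^ (n / 3 - k) ≤ t ^ (n / 3 - k) := pow_le_pow_left₀ (by norm_num) ht _
  have h2 : (8 : ℝ) ^ k * 8 ^ (n / 3 - k) ≤ 2 ^ n := by
    rw [← pow_add, show (8 : ℝ) = 2 ^ 3 by norm_num, ← pow_mul]
    exact pow_le_pow_right₀ (by norm_num) (by omega)
  have h3 : (0 : ℝ) < 8 ^ (n / 3 - k) := by positivity
  calc (8 : ℝ) ^ k = (1 / 8 : ℝ) ^ (n / 3 - k) * (8 ^ k * 8 ^ (n / 3 - k)) := by
        rw [one_div, inv_pow]; field_simp
    _ ≤ t ^ (n / 3 - k) * 2 ^ n := by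
        exact mul_le_mul h1 h2 (by positivity) ((by positivity : (0 : ℝ) ≤ _).trans h1)

theorem bf_exp {x : ℝ} (hx : 0 < x) (hx0 : x ≤ 1 / 200) {k n : ℕ} (hn : 3 * k ≤ n) :
    -(x ^ 4 * ((n / 3 - k : ℕ) : ℝ) / 9000) + x ^ 6 * n / 2 ≤
      x ^ 4 * (k + 1) / 9000 - x ^ 4 / 108000 * n - 1 / 108000 * x ^ 4 * n := by
  have h1 : (n : ℝ) ≤ 3 * ((n / 3 - k : ℕ) : ℝ) + 3 * (k + 1) := by
    have : n ≤ 3 * (n / 3 - k) + 3 * (k + 1) := by omega
    exact_mod_cast this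
  have h4 : 0 < x ^ 4 := by positivity
  have h2 : x ^ 2 ≤ 1 / 40000 := by nlinarith
  have hn0 : (0 : ℝ) ≤ n := by positivity
  have h3 : x ^ 6 * n ≤ 1 / 40000 * (x ^ 4 * n) := by
    have : x ^ 6 * n = x ^ 2 * (x ^ 4 * n) := by ring
    rw [this]
    exact mul_le_mul_of_nonneg_right h2 (by positivity)
  have h5 := mul_le_mul_of_nonneg_left h1 h4.le
  have h6 : 0 ≤ x ^ 4 * n := by positivity
  nlinarith

theorem partB (hc : CH) (h5 : sB5) : sB := by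
  refine ⟨1 / 108000, 1 / 200, by norm_num, by norm_num, ?_⟩
  intro x hx hx0 Ω _ P _ W hW
  have ha : 0 < (x / 12) ^ 2 := by positivity
  have ha1 : (x / 12) ^ 2 ≤ 1 / 10 := by nlinarith
  obtain ⟨k, hk⟩ : ∃ k : ℕ, 5 ≤ (x / 12) ^ 2 * 8 ^ k := by
    obtain ⟨k, hk⟩ := pow_unbounded_of_one_lt (5 / (x / 12) ^ 2) (show (1 : ℝ) < 8 by norm_num)
    exact ⟨k, by rw [div_lt_iff₀ ha] at hk; linarith⟩
  have hlim : Tendsto (fun n : ℕ => 3 * exp (x ^ 4 * (k + 1) / 9000) *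
      exp (-(x ^ 4 / 108000 * n))) atTop (𝓝 0) := by
    have h1 : Tendsto (fun n : ℕ => x ^ 4 / 108000 * (n : ℝ)) atTop atTop :=
      Tendsto.const_mul_atTop (by positivity) tendsto_natCast_atTop_atTop
    simpa using (tendsto_exp_neg_atTop_nhds_zero.comp h1).const_mul
      (3 * exp (x ^ 4 * (k + 1) / 9000))
  refine squeeze_zero' (Eventually.of_forall fun n => measureReal_nonneg) ?_ hlim
  filter_upwards [eventually_ge_atTop (3 * k)] with n hn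
  obtain ⟨Z, hZ, hw, hE⟩ := h5 x n (n / 3 - k) hx (by linarith)
    (bf_size ha (hc.th1 _ ha ha1).1 hk hn) Ω P W hW
  have h0 : 0 ≤ᵐ[P] Z := by
    refine Eventually.of_forall fun ω => ?_
    obtain ⟨T, y, -, -, h⟩ := hw ω
    exact (sum_nonneg fun i _ => (exp_pos _).le).trans h
  have hM := mul_meas_ge_le_integral_of_nonneg h0 hZ (exp ((log 2 - 1 / 108000 * x ^ 4) * n))
  have hsub : P.real {ω | ¬ Chp n (IsWalk n) (exp ((log 2 - 1 / 108000 * x ^ 4) * n))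
      fun v => x ^ 3 * W (Ev 0 (n * log 2) (pt v)) ω} ≤
      P.real {ω | exp ((log 2 - 1 / 108000 * x ^ 4) * n) ≤ Z ω} := by
    refine measureReal_mono (fun ω hω => ?_)
    obtain ⟨T, y, h1, h2, h⟩ := hw ω
    by_contra hlt
    exact hω ⟨T, y, h2, h1, h.trans_lt (not_le.1 hlt)⟩
  refine hsub.trans (le_of_mul_le_mul_left (hM.trans (hE.trans ?_)) (exp_pos _))
  have h2 : (2 : ℝ) ^ n = exp (log 2 * n) := by
    rw [mul_comm, exp_nat_mul, exp_log (by norm_num)]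
  have h3 := exp_le_exp.2 (bf_exp hx hx0 hn)
  calc 3 * 2 ^ n * exp (-(x ^ 4 * ((n / 3 - k : ℕ) : ℝ) / 9000) + x ^ 6 * n / 2)
      ≤ 3 * 2 ^ n * exp (x ^ 4 * (k + 1) / 9000 - x ^ 4 / 108000 * n -
          1 / 108000 * x ^ 4 * n) := mul_le_mul_of_nonneg_left h3 (by positivity)
    _ = _ := by
        rw [h2, mul_assoc 3, mul_assoc 3, ← exp_add, ← exp_add, mul_left_comm, ← exp_add]
        congr 2
        ring

end Pool.Agent.GL
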