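import Pool.Agent.Lib.MP_438f30_pr.St

/-! Geometry of the children of a node. -/

namespace Pool.Agent.GL
open MeasureTheory ProbabilityTheory Real Finset Filter Topology Pool.Agent.Lib.MP_a0a493_pr
open scoped InnerProductSpace

theorem ch_sq (σ : Bool) : sn σ * sn σ = 1 := by cases σ <;> simp [sn]

theorem ch_abs (σ : Bool) : |sn σ| = 1 := by cases σ <;> simp [sn]

theorem ch_th (a : ℝ) (h0 : 0 < a) (h1 : a ≤ 1 / 10) : 1 / 8 ≤ th a ∧ th a ≤ 13 / 100 := by
  have k1 : 1 ≤ √(1 + 4 * a ^ 2) := Real.le_sqrt_of_sq_le (by nlinarith)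
  have k2 : √(1 + 4 * a ^ 2) ≤ 26 / 25 := Real.sqrt_le_iff.2 ⟨by norm_num, by nlinarith⟩
  unfold th
  constructor <;> linarith

theorem ch_step (a : ℝ) (σ : Bool) (c : ℕ) (hc : c < 8) :
    ∃ e : ℝ, e * e = 1 ∧
      tau a σ (c + 1) - tau a σ c = ((1 / 8 : ℝ) : ℂ) + ((e * a / 4 : ℝ) : ℂ) * Complex.I := by
  by_cases h : c < 4
  · refine ⟨sn σ, ch_sq σ, ?_⟩
    unfold tau
    rw [show min (c + 1) (8 - (c + 1)) = c + 1 by omega, show min c (8 - c) = c by omega]
    push_cast; ring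
  · refine ⟨-sn σ, by rw [neg_mul_neg, ch_sq], ?_⟩
    obtain ⟨d, hd⟩ : ∃ d, 8 - c = d + 1 := ⟨7 - c, by omega⟩
    unfold tau
    rw [show min (c + 1) (8 - (c + 1)) = d by omega, show min c (8 - c) = d + 1 by omega]
    push_cast; ring

theorem ch_len (a : ℝ) (N : ℂ × ℂ) (σ : Bool) (c : ℕ) (hc : c < 8) :
    ‖(chd a N σ c).2‖ = th a * ‖N.2‖ := by
  obtain ⟨e, he, h⟩ := ch_step a σ c hc
  have : ‖tau a σ (c + 1) - tau a σ c‖ = th a := by
    rw [h, Complex.norm_add_mul_I, th,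
      show (1 / 8 : ℝ) ^ 2 + (e * a / 4) ^ 2 = (1 + 4 * a ^ 2) * (1 / 8) ^ 2 by
        linear_combination (a ^ 2 / 16) * he,
      Real.sqrt_mul' _ (by positivity), Real.sqrt_sq (by norm_num)]
    ring
  simp only [chd, norm_mul, this, mul_comm]

theorem ch_pt (a : ℝ) (N : ℂ × ℂ) (σ : Bool) (c : ℕ) (hc : c < 8) (s : ℝ) (h0 : 0 ≤ s)
    (h1 : s ≤ 1) :
    (chd a N σ c).1 + s * (chd a N σ c).2 = N.1 + N.2 * ((((c + s) / 8 : ℝ) : ℂ) +
      ((sn σ * (2 * a * min ((c + s) / 8) (1 - (c + s) / 8)) : ℝ) : ℂ) * Complex.I) := by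
  by_cases h : c < 4
  · have k : (c : ℝ) ≤ 3 := by exact_mod_cast (by omega : c ≤ 3)
    rw [min_eq_left (by linarith)]
    simp only [chd, tau]
    rw [show min (c + 1) (8 - (c + 1)) = c + 1 by omega, show min c (8 - c) = c by omega]
    push_cast; ring
  · have k : (4 : ℝ) ≤ c := by exact_mod_cast (by omega : 4 ≤ c)
    rw [min_eq_right (by linarith)]
    obtain ⟨d, hd⟩ : ∃ d, 8 - c = d + 1 := ⟨7 - c, by omega⟩
    have e : (d : ℂ) = 7 - c := by
      have : d + c = 7 := by omega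
      rw [eq_sub_iff_add_eq]; exact_mod_cast this
    simp only [chd, tau]
    rw [show min (c + 1) (8 - (c + 1)) = d by omega, show min c (8 - c) = d + 1 by omega]
    push_cast; rw [e]; ring

theorem ch_key (a : ℝ) (N : ℂ × ℂ) (σ : Bool) (h0 : 0 < a) (h1 : a ≤ 1 / 10) (c : ℕ) (hc : c < 8)
    (y : Zd 2) (hy : y ∈ RegZ a (chd a N σ c)) : ∃ t : ℝ, c / 8 ≤ t ∧ t ≤ (c + 1) / 8 ∧
      ‖ce (pt y) - (N.1 + N.2 * ((t : ℂ) + ((sn σ * (2 * a * min t (1 - t)) : ℝ) : ℂ) *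
        Complex.I))‖ ≤ 26 / 100 * a * ‖N.2‖ := by
  obtain ⟨s, k0, k1, k2⟩ := hy
  rw [ch_pt a N σ c hc s k0 k1, ch_len a N σ c hc] at k2
  refine ⟨(c + s) / 8, by linarith, by linarith, k2.trans ?_⟩
  have := mul_le_mul_of_nonneg_left (ch_th a h0 h1).2 (mul_nonneg h0.le (norm_nonneg N.2))
  linarith

theorem chh : CH where
  th1 := ch_th
  len := ch_len
  fst a N σ := by simp [chd, tau]
  nxt a N σ c := by simp only [chd]; ring
  sub a N σ h0 h1 c hc y hy := by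
    obtain ⟨t, k0, k1, k2⟩ := ch_key a N σ h0 h1 c hc y hy
    have c0 : (0 : ℝ) ≤ c := Nat.cast_nonneg c
    have c1 : (c : ℝ) ≤ 7 := by exact_mod_cast (by omega : c ≤ 7)
    have m0 : 0 ≤ min t (1 - t) := le_min (by linarith) (by linarith)
    have m1 : min t (1 - t) ≤ 1 / 2 := by
      have := min_le_left t (1 - t)
      have := min_le_right t (1 - t)
      linarith
    refine ⟨t, by linarith, by linarith, ?_⟩
    generalize min t (1 - t) = μ at k2 m0 m1
    have e : ce (pt y) - (N.1 + t * N.2) = (ce (pt y) - (N.1 + N.2 * ((t : ℂ) +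
        ((sn σ * (2 * a * μ) : ℝ) : ℂ) * Complex.I))) +
        N.2 * (((sn σ * (2 * a * μ) : ℝ) : ℂ) * Complex.I) := by ring
    have k3 : ‖N.2 * (((sn σ * (2 * a * μ) : ℝ) : ℂ) * Complex.I)‖ = ‖N.2‖ * (2 * a * μ) := by
      rw [norm_mul, norm_mul, Complex.norm_I, Complex.norm_real, Real.norm_eq_abs, abs_mul, ch_abs,
        abs_of_nonneg (by positivity)]
      ring
    rw [e]
    refine (norm_add_le _ _).trans ?_
    rw [k3]
    have k4 := mul_nonneg h0.le (norm_nonneg N.2)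
    nlinarith [mul_le_mul_of_nonneg_left m1 k4]
  crd a N σ h0 h1 hN c hc y hy := by
    obtain ⟨t, k0, k1, k2⟩ := ch_key a N σ h0 h1 c hc y hy
    refine ⟨t, k0, k1, ?_⟩
    generalize min t (1 - t) = μ at k2 ⊢
    have e : ce (pt y) - (N.1 + N.2 * ((t : ℂ) + ((sn σ * (2 * a * μ) : ℝ) : ℂ) * Complex.I)) =
        (zt N (pt y) - ((t : ℂ) + ((sn σ * (2 * a * μ) : ℝ) : ℂ) * Complex.I)) * N.2 := by
      unfold zt; field_simp; ring
    rw [e, norm_mul] at k2
    have k3 := le_of_mul_le_mul_right k2 (norm_pos_iff.2 hN)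
    have k4 := (Complex.abs_re_le_norm _).trans k3
    have k5 := (Complex.abs_im_le_norm _).trans k3
    simp only [Complex.sub_re, Complex.add_re, Complex.ofReal_re, Complex.mul_re, Complex.I_re,
      Complex.I_im, Complex.ofReal_im, Complex.sub_im, Complex.add_im, Complex.mul_im, mul_zero,
      mul_one, sub_zero, add_zero, zero_add] at k4 k5
    refine ⟨k4, ?_⟩
    have e2 : sn σ * (zt N (pt y)).im - 2 * a * μ =
        sn σ * ((zt N (pt y)).im - sn σ * (2 * a * μ)) := by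
      linear_combination (2 * a * μ) * ch_sq σ
    rwa [e2, abs_mul, ch_abs, one_mul]
  dst N u v hN := by
    rw [← norm_ce_sub, ← norm_div]
    unfold zt
    congr 1
    ring
  root a n h0 h1 T x h := by
    obtain ⟨k0, k1, k2, k3⟩ := h
    have e : ((0 : ℂ) + 2 ^ n) = (((2 ^ n : ℤ) : ℝ) : ℂ) := by push_cast; ring
    refine ⟨⟨?_, ?_, k2⟩, fun i hi j => ?_⟩
    · rw [k0]; funext j; fin_cases j <;> simp [rnd]
    · rw [k1, e, rnd, Complex.ofReal_re, Complex.ofReal_im, Int.floor_intCast, Int.floor_zero]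
    · obtain ⟨t, t0, t1, t2⟩ := k3 i hi
      have n1 : ‖(2 : ℂ) ^ n‖ = 2 ^ n := by simp
      have n2 : ‖(0 : ℂ) + t * 2 ^ n‖ = t * 2 ^ n := by
        rw [zero_add, norm_mul, n1, Complex.norm_real, Real.norm_of_nonneg t0]
      have n3 := norm_le_norm_add_norm_sub' (ce (pt (x i))) ((0 : ℂ) + t * 2 ^ n)
      have p : (0 : ℝ) < 2 ^ n := by positivity
      simp only [n1] at t2
      have n4 : ‖ce (pt (x i))‖ ≤ 2 ^ (n + 1) := by rw [pow_succ]; nlinarith
      have n5 : |((x i j : ℤ) : ℝ)| ≤ 2 ^ (n + 1) := by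
        fin_cases j
        · have := (Complex.abs_re_le_norm _).trans n4
          rwa [ce_re] at this
        · have := (Complex.abs_im_le_norm _).trans n4
          rwa [ce_im] at this
      exact_mod_cast n5

end Pool.Agent.GL
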