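import Pool.Agent.Lib.MP_438f30_pr.St

/-! The vectors that represent the mollified field. -/

namespace Pool.Agent.GL

open MeasureTheory ProbabilityTheory Real Finset Filter Topology Pool.Agent.Lib.MP_a0a493_pr
open scoped InnerProductSpace

theorem ps_pt (n : ℕ) (v : Zd 2) :
    (WithLp.toLp 2 fun j => (v j : ℝ) / 2 ^ n : E 2) = ((2 : ℝ) ^ n)⁻¹ • pt v := by
  ext j
  simp [pt_apply, div_eq_inv_mul]

theorem ps_back (n : ℕ) (v : Zd 2) :
    exp (n * log 2) • ((2 : ℝ) ^ n)⁻¹ • pt v + 0 = pt v := by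
  rw [exp_jlog, smul_inv_smul₀ (by positivity), add_zero]

theorem ps_norm {n : ℕ} {v : Zd 2} (h : v ∈ box 2 (2 ^ n)) : ‖((2 : ℝ) ^ n)⁻¹ • pt v‖ ≤ 4 := by
  refine (norm_le_two (r := 2) zero_le_two fun j => ?_).trans_eq (by norm_num)
  have e : |(v j : ℝ)| ≤ 2 * 2 ^ n := by exact_mod_cast mem_box.1 h j
  rw [PiLp.smul_apply, pt_apply, smul_eq_mul, abs_mul, abs_of_pos (by positivity),
    inv_mul_le_iff₀ (by positivity)]
  linarith

theorem pss : sPs := by
  intro Ω _ P _ Φ ρ hΦ h h1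
  obtain ⟨b, R, hn⟩ := h.nice
  have l : ∀ n : ℕ, -(n * log 2) ≤ (0 : ℝ) := fun n =>
    neg_nonpos.2 (mul_nonneg n.cast_nonneg (log_nonneg one_le_two))
  refine ⟨fun n => ?_, ⟨max (4 * (b ^ 2 * Kc 2 (R + 4))) (4 * (b ^ 2 * KG 2 (R + 4))),
    fun n v hv => ⟨le_max_of_le_left (dm_var one_le_two h h1 hn n (by simp; positivity)
      (ps_norm hv)), le_max_of_le_right (vG_var one_le_two h h1 hn n (ps_norm hv))⟩⟩,
    fun n v v' => (innerG le_rfl (test_dm h _ _) (test_dm h _ _) (int_dm h _ _)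
      (int_dm h _ _)).symm, fun n v v' => ?_, fun n v v' => ?_⟩
  · refine hΦ.gf le_rfl (fun j => test_dm h _ _) (fun j => int_dm h _ _) fun j => ?_
    filter_upwards [hΦ.lin _ _ (test_mol h n (((2 : ℝ) ^ n)⁻¹ • pt j.1)) (test_mol h 0 0) 1 (-1)]
      with ω e
    rw [dm, e, psi, phi, ps_pt]
    ring
  · rw [← inner_Ev_shift (l n) (n * log 2) _ _ 0, ps_back, ps_back, neg_add_cancel, zero_add]
  · rw [← inner_EG_shift (l n) (n * log 2) _ _ 0, ps_back, ps_back, neg_add_cancel, zero_add]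

end Pool.Agent.GL
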