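import Pool.Agent.Lib.MP_438f30_pr.St

/-! Transfer of the cheap walk to the mollified field. -/

namespace Pool.Agent.GL
open MeasureTheory ProbabilityTheory Real Finset Filter Topology Pool.Agent.Lib.MP_a0a493_pr
open scoped InnerProductSpace

theorem tb (hB : sB) (ht : sTr) (hl : LW) (hp : sPs) : sTB := by
  obtain ⟨c, x₀, hc, hx₀, hB⟩ := hB
  refine ⟨c / 2, x₀, by positivity, hx₀, fun x h0 h1 Ω _ P _ Φ ρ hΦ hρ h2 => ?_⟩
  obtain ⟨p1, ⟨V, p2⟩, -, p3, -⟩ := hp Ω P Φ ρ hΦ hρ h2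
  obtain ⟨Ω', _, P', _, W, hW⟩ := exists_iso (HH 2)
  have t1 := (hB x h0 h1 Ω' P' W hW).add (ht Ω' P' _ W hW
    (fun n v => Ev (-(n * log 2)) 0 (((2 : ℝ) ^ n)⁻¹ • pt v)) (vp ρ) V (c * x / 2) (by positivity)
    fun n v hv => (p2 n v hv).1)
  rw [add_zero] at t1
  refine squeeze_zero (fun n => measureReal_nonneg) (fun n => ?_) t1
  rw [(hl.law n (fun v ω => psi Φ ρ n ω v) (vp ρ n) (fun v => W (vp ρ n v)) (vp ρ n) (p1 n)
      (hW.gf _) (fun _ _ => rfl) _ _ _).2,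
    ← (hl.law n (fun v => W (Ev (-(n * log 2)) 0 (((2 : ℝ) ^ n)⁻¹ • pt v))) _
      (fun v => W (Ev 0 (n * log 2) (pt v))) _ (hW.gf _) (hW.gf _) (p3 n) _ _ _).2]
  refine (measureReal_mono fun ω hω => ?_).trans (measureReal_union_le _ _)
  by_contra h
  simp only [Set.mem_union, Set.mem_ofPred_eq, not_or, not_not, not_exists, not_and, not_lt] at h
  refine hω ?_
  rw [show (log 2 - c / 2 * x ^ 4) * n = (log 2 - c * x ^ 4) * n + x ^ 3 * (c * x / 2 * n) by ring]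
  refine hl.cmp n _ _ _ _ _ (fun v hv => ?_) h.1
  rw [← mul_add]
  exact mul_le_mul_of_nonneg_left (by linarith [(abs_le.1 (h.2 v hv)).1]) (by positivity)

end Pool.Agent.GL
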