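import Pool.Agent.Lib.MP_438f30_pr.St

/-! A union bound over the box. -/

namespace Pool.Agent.GL

open MeasureTheory ProbabilityTheory Real Finset Filter Topology Pool.Agent.Lib.MP_a0a493_pr
open scoped InnerProductSpace

theorem tr : sTr := by
  intro Ω _ P _ H _ _ W hW u u' V ε hε hV
  have ht : 0 ≤ 2 / ε := by positivity
  set K := exp (V * (2 / ε) ^ 2 / 2) with hK
  have h4 : (4 : ℝ) * exp (-2) < 1 := by
    have h1 : (2 : ℝ) < exp 1 := by linarith [Real.exp_one_gt_d9]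
    have h2 : exp (2 : ℝ) = exp 1 * exp 1 := by rw [← exp_add]; norm_num
    rw [exp_neg, ← div_eq_mul_inv, div_lt_one (exp_pos _), h2]
    nlinarith
  have hlim : Tendsto (fun n : ℕ => 50 * K * (4 * exp (-2)) ^ n) atTop (𝓝 0) := by
    simpa using (tendsto_pow_atTop_nhds_zero_of_lt_one (by positivity) h4).const_mul (50 * K)
  refine squeeze_zero (fun n => measureReal_nonneg) (fun n => ?_) hlim
  have e : exp (-(2 / ε) * (ε * n) + V * (2 / ε) ^ 2 / 2) = exp (-2) ^ n * K := by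
    rw [exp_add, ← exp_nat_mul]
    congr 2
    field_simp
  have one : ∀ v ∈ box 2 (2 ^ n),
      P.real {ω | ε * n < |W (u n v) ω - W (u' n v) ω|} ≤ 2 * (exp (-2) ^ n * K) := by
    intro v hv
    have a1 := hW.tail (hV n v hv) ht (ε * n)
    have a2 := hW.tail (v := u' n v - u n v) (V := V) (by rw [norm_sub_rev]; exact hV n v hv) ht (ε * n)
    rw [e] at a1 a2
    refine (measureReal_mono (s₂ := {ω | ε * n ≤ W (u n v - u' n v) ω} ∪
      {ω | ε * n ≤ W (u' n v - u n v) ω}) ?_).trans ((measureReal_union_le _ _).trans (by linarith))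
    intro ω hω
    simp only [map_sub, Set.mem_union, Set.mem_setOf_eq, Pi.sub_apply] at hω ⊢
    rcases lt_abs.1 hω with h | h
    · exact Or.inl h.le
    · exact Or.inr (by linarith)
  have hs : {ω | ∃ v ∈ box 2 (2 ^ n), ε * n < |W (u n v) ω - W (u' n v) ω|} =
      ⋃ v ∈ box 2 (2 ^ n), {ω | ε * n < |W (u n v) ω - W (u' n v) ω|} := by
    ext ω; simp
  rw [hs]
  refine (measureReal_biUnion_finset_le _ _).trans ((sum_le_card_nsmul _ _ _ one).trans ?_)
  rw [card_box, nsmul_eq_mul, mul_pow]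
  have h1 : (1 : ℝ) ≤ 2 ^ n := one_le_pow₀ (by norm_num)
  have h2 : (4 : ℝ) ^ n = 2 ^ n * 2 ^ n := by rw [← mul_pow]; norm_num
  have h3 : (((4 * 2 ^ n + 1) ^ 2 : ℕ) : ℝ) ≤ 25 * 4 ^ n := by
    push_cast
    rw [h2]
    nlinarith
  have h5 : 0 ≤ exp (-2) ^ n * K := by positivity
  nlinarith

end Pool.Agent.GL
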