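import Pool.Agent.Lib.MP_438f30_pr.St

/-! Concatenation of walks, and a walk along a segment. -/

namespace Pool.Agent.GL
open MeasureTheory ProbabilityTheory Real Finset Filter Topology Pool.Agent.Lib.MP_a0a493_pr
open scoped InnerProductSpace

theorem wk : sWk := by
  intro S p q r T T' x x' h h'
  obtain ⟨y, h1, h2⟩ : ∃ y : ℕ → Zd 2, (∀ i ≤ T, y i = x i) ∧ ∀ i, y (T + i) = x' i := by
    refine ⟨fun i => if i ≤ T then x i else x' (i - T), fun i hi => if_pos hi, fun i => ?_⟩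
    by_cases hi : T + i ≤ T
    · have : i = 0 := by omega
      subst this
      simp only [add_zero, le_refl, if_true]
      rw [h.2.1, h'.1]
    · simp only [if_neg hi, Nat.add_sub_cancel_left]
  refine ⟨y, ⟨by rw [h1 0 (Nat.zero_le _), h.1], by rw [h2, h'.2.1], fun i hi => ?_,
    fun i hi => ?_⟩, fun f => ?_⟩
  · by_cases hT : i < T
    · rw [h1 _ hT, h1 _ hT.le]
      exact h.2.2.1 i hT
    · obtain ⟨k, rfl⟩ := Nat.exists_eq_add_of_le (not_lt.1 hT)
      rw [add_assoc, h2, h2]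
      exact h'.2.2.1 k (by omega)
  · by_cases hT : i ≤ T
    · rw [h1 _ hT]
      exact h.2.2.2 i hT
    · obtain ⟨k, rfl⟩ := Nat.exists_eq_add_of_le (not_le.1 hT).le
      rw [h2]
      exact h'.2.2.2 k (by omega)
  · unfold cost
    rw [add_assoc, sum_range_add, sum_range_succ _ T]
    have e1 : ∑ i ∈ range T, exp (f (y i)) = ∑ i ∈ range T, exp (f (x i)) :=
      sum_congr rfl fun i hi => by rw [h1 i (mem_range.1 hi).le]
    have e2 : ∑ i ∈ range (T' + 1), exp (f (y (T + i))) = ∑ i ∈ range (T' + 1), exp (f (x' i)) :=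
      sum_congr rfl fun i _ => by rw [h2]
    rw [e1, e2]
    linarith [exp_pos (f (x T))]

theorem wk_one {S : Set (Zd 2)} {p q : Zd 2} (hp : p ∈ S) (hq : q ∈ S)
    (h : |q 0 - p 0| + |q 1 - p 1| ≤ 1) : ∃ T x, T ≤ 1 ∧ Wk S p q T x := by
  by_cases e : |q 0 - p 0| + |q 1 - p 1| = 1
  · refine ⟨1, fun i => if i = 0 then p else q, le_rfl, rfl, rfl, fun i hi => ?_, fun i _ => ?_⟩
    · have : i = 0 := by omega
      subst this
      simpa [Fin.sum_univ_two] using e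
    · by_cases hi : i = 0 <;> simp [hi, hp, hq]
  · have a0 := abs_nonneg (q 0 - p 0)
    have a1 := abs_nonneg (q 1 - p 1)
    have b0 : q 0 - p 0 = 0 := abs_eq_zero.1 (by omega)
    have b1 : q 1 - p 1 = 0 := abs_eq_zero.1 (by omega)
    have : p = q := by
      funext j
      fin_cases j
      · exact (sub_eq_zero.1 b0).symm
      · exact (sub_eq_zero.1 b1).symm
    exact ⟨0, fun _ => p, Nat.zero_le _, rfl, this, fun i hi => absurd hi (Nat.not_lt_zero _),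
      fun _ _ => hp⟩

theorem wk_near {y : Zd 2} {z : ℂ} (h : |(y 0 : ℝ) - z.re| + |(y 1 : ℝ) - z.im| ≤ 3) :
    ‖ce (pt y) - z‖ ≤ 3 := by
  refine (Complex.norm_le_abs_re_add_abs_im _).trans ?_
  rw [Complex.sub_re, Complex.sub_im, ce_re, ce_im, pt_apply, pt_apply]
  exact h

theorem wk_floor (a : ℝ) : |(⌊a⌋ : ℝ) - a| ≤ 1 :=
  abs_le.2 ⟨by linarith [Int.lt_floor_add_one a], by linarith [Int.floor_le a]⟩

theorem wk_floor2 {a b : ℝ} (h : |b - a| ≤ 1) : |⌊b⌋ - ⌊a⌋| ≤ 1 := by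
  obtain ⟨h1, h2⟩ := abs_le.1 h
  have e1 : ⌊b⌋ ≤ ⌊a + 1⌋ := Int.floor_le_floor (by linarith)
  have e2 : ⌊a⌋ ≤ ⌊b + 1⌋ := Int.floor_le_floor (by linarith)
  rw [Int.floor_add_one] at e1 e2
  exact abs_le.2 ⟨by omega, by omega⟩

theorem wk_rnd (N : ℂ × ℂ) {t : ℝ} (h0 : 0 ≤ t) (h1 : t ≤ 1) : rnd (N.1 + t * N.2) ∈ Tb 3 N := by
  refine ⟨t, h0, h1, wk_near ?_⟩
  have a := wk_floor (N.1 + t * N.2).re
  have b := wk_floor (N.1 + t * N.2).im
  simp only [rnd, Matrix.cons_val_zero, Matrix.cons_val_one]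
  linarith

theorem wk_two (N : ℂ × ℂ) {t t' : ℝ} (h0 : 0 ≤ t) (h1 : t ≤ 1) (h0' : 0 ≤ t') (h1' : t' ≤ 1)
    (h : ‖(N.1 + t' * N.2) - (N.1 + t * N.2)‖ ≤ 1) :
    ∃ T x, T ≤ 2 ∧ Wk (Tb 3 N) (rnd (N.1 + t * N.2)) (rnd (N.1 + t' * N.2)) T x := by
  have hp := wk_rnd N h0 h1
  have hq := wk_rnd N h0' h1'
  have hre : |(N.1 + t' * N.2).re - (N.1 + t * N.2).re| ≤ 1 := by
    rw [← Complex.sub_re]; exact (Complex.abs_re_le_norm _).trans h
  have him : |(N.1 + t' * N.2).im - (N.1 + t * N.2).im| ≤ 1 := by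
    rw [← Complex.sub_im]; exact (Complex.abs_im_le_norm _).trans h
  have hc : (![⌊(N.1 + t' * N.2).re⌋, ⌊(N.1 + t * N.2).im⌋] : Zd 2) ∈ Tb 3 N := by
    refine ⟨t, h0, h1, wk_near ?_⟩
    have a := wk_floor (N.1 + t' * N.2).re
    have b := wk_floor (N.1 + t * N.2).im
    have c := abs_sub_le (⌊(N.1 + t' * N.2).re⌋ : ℝ) (N.1 + t' * N.2).re (N.1 + t * N.2).re
    simp only [Matrix.cons_val_zero, Matrix.cons_val_one]
    linarith
  obtain ⟨T, x, hT, hx⟩ := wk_one hp hc (by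
    simp only [rnd, Matrix.cons_val_zero, Matrix.cons_val_one, sub_self, abs_zero, add_zero]
    exact wk_floor2 hre)
  obtain ⟨T', x', hT', hx'⟩ := wk_one hc hq (by
    simp only [rnd, Matrix.cons_val_zero, Matrix.cons_val_one, sub_self, abs_zero, zero_add]
    exact wk_floor2 him)
  obtain ⟨y, hy, -⟩ := wk _ _ _ _ _ _ _ _ hx hx'
  exact ⟨T + T', y, by omega, hy⟩

theorem seg : sSeg := by
  intro N
  obtain ⟨M, hM0, hM1, hM2⟩ : ∃ M : ℕ, (0 : ℝ) < M ∧ ‖N.2‖ ≤ M ∧ (M : ℝ) ≤ ‖N.2‖ + 1 := by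
    refine ⟨⌊‖N.2‖⌋₊ + 1, by positivity, ?_, ?_⟩ <;> push_cast
    · exact (Nat.lt_floor_add_one _).le
    · linarith [Nat.floor_le (norm_nonneg N.2)]
  have key : ∀ j : ℕ, j ≤ M → ∃ T x, T ≤ 2 * j ∧
      Wk (Tb 3 N) (rnd N.1) (rnd (N.1 + ((j / M : ℝ) : ℂ) * N.2)) T x := by
    intro j
    induction j with
    | zero =>
      intro _
      have := wk_rnd N le_rfl zero_le_one
      simp only [Complex.ofReal_zero, zero_mul, add_zero, Nat.cast_zero, zero_div] at this ⊢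
      exact ⟨0, fun _ => rnd N.1, le_rfl, rfl, rfl, fun i hi => absurd hi (Nat.not_lt_zero _),
        fun _ _ => this⟩
    | succ j ih =>
      intro hj
      obtain ⟨T, x, hT, hx⟩ := ih (by omega)
      have hj' : ((j + 1 : ℕ) : ℝ) ≤ M := by exact_mod_cast hj
      have hj'' : (j : ℝ) ≤ M := by exact_mod_cast (by omega : j ≤ M)
      obtain ⟨T', x', hT', hx'⟩ := wk_two N (t := j / M) (t' := (j + 1 : ℕ) / M) (by positivity)
        ((div_le_one hM0).2 hj'') (by positivity) ((div_le_one hM0).2 hj') (by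
          rw [add_sub_add_left_eq_sub, ← sub_mul, ← Complex.ofReal_sub, norm_mul,
            Complex.norm_real, ← sub_div, Nat.cast_succ, add_sub_cancel_left,
            Real.norm_of_nonneg (by positivity), div_mul_eq_mul_div, one_mul]
          exact (div_le_one hM0).2 hM1)
      obtain ⟨y, hy, -⟩ := wk _ _ _ _ _ _ _ _ hx hx'
      exact ⟨T + T', y, by omega, hy⟩
  obtain ⟨T, x, hT, hx⟩ := key M le_rfl
  rw [div_self hM0.ne', Complex.ofReal_one, one_mul] at hx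
  have : (T : ℝ) ≤ 2 * M := by exact_mod_cast hT
  exact ⟨T, x, hx, by linarith⟩

end Pool.Agent.GL
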