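import Pool.Agent.Lib.MP_438f30_pr.Gf
import Pool.Agent.Lib.MP_438f30_pr.Wk
import Pool.Agent.Lib.MP_438f30_pr.Ch
import Pool.Agent.Lib.MP_438f30_pr.B4
import Pool.Agent.Lib.MP_438f30_pr.B2
import Pool.Agent.Lib.MP_438f30_pr.Ar
import Pool.Agent.Lib.MP_438f30_pr.B3a
import Pool.Agent.Lib.MP_438f30_pr.B3b
import Pool.Agent.Lib.MP_438f30_pr.B5
import Pool.Agent.Lib.MP_438f30_pr.Bf
import Pool.Agent.Lib.MP_438f30_pr.Tr
import Pool.Agent.Lib.MP_438f30_pr.Lw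
import Pool.Agent.Lib.MP_438f30_pr.Ps
import Pool.Agent.Lib.MP_438f30_pr.Tb

/-! Part B, assembled. -/

namespace Pool.Agent.GL

theorem allB : sB :=
  partB chh (b5 seg chh (b2 gf chh) (b3a ar chh) (b3b (b3a ar chh) chh) (b4 wk chh))

theorem allTB : sTB := tb allB tr lw pss

end Pool.Agent.GL
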