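import Pool.Agent.Lib.MP_438f30_pr.Defs
import Pool.Agent.Lib.MP_a0a493_pr.TfG

/-! Basic objects: configurations, the Gaussian kernel bands, rounding. -/

namespace Pool.Agent.GL

open MeasureTheory ProbabilityTheory Real Set Pool.Agent.Lib.MP_a0a493_pr
open scoped InnerProductSpace

/-- finitely supported signed measures on the plane -/
abbrev Cf : Type := E 2 →₀ ℝ

/-- integration of `g` against a configuration -/
noncomputable abbrev lc {H : Type*} [AddCommGroup H] [Module ℝ H] (g : E 2 → H) : Cf →ₗ[ℝ] H :=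
  Finsupp.linearCombination ℝ g

/-- mass `1/m` at each `p i`, `i ∈ S` -/
noncomputable def cf (m : ℕ) (S : Finset ℕ) (p : ℕ → E 2) : Cf :=
  ∑ i ∈ S, Finsupp.single (p i) (m : ℝ)⁻¹

theorem lc_single {H : Type*} [AddCommGroup H] [Module ℝ H] (g : E 2 → H) (z : E 2) (a : ℝ) :
    lc g (Finsupp.single z a) = a • g z := Finsupp.linearCombination_single _ _ _

theorem lc_cf {H : Type*} [AddCommGroup H] [Module ℝ H] (g : E 2 → H) (m : ℕ) (S : Finset ℕ)
    (p : ℕ → E 2) : lc g (cf m S p) = (m : ℝ)⁻¹ • ∑ i ∈ S, g (p i) := by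
  rw [cf, map_sum, Finset.smul_sum]
  exact Finset.sum_congr rfl fun i _ => lc_single _ _ _

theorem lc_map {H Ω : Type*} [AddCommGroup H] [Module ℝ H] (W : H →ₗ[ℝ] (Ω → ℝ)) (g : E 2 → H)
    (ν : Cf) (ω : Ω) : W (lc g ν) ω = lc (fun z => W (g z) ω) ν := by
  induction ν using Finsupp.induction_linear with
  | zero => simp
  | add a b ha hb => simp only [map_add, Pi.add_apply, ha, hb]
  | single z a => simp

theorem lc_gram {H H' : Type*} [NormedAddCommGroup H] [InnerProductSpace ℝ H]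
    [NormedAddCommGroup H'] [InnerProductSpace ℝ H'] {g g₁ : E 2 → H} {g' g₁' : E 2 → H'}
    (h : ∀ x y, ⟪g x, g₁ y⟫_ℝ = ⟪g' x, g₁' y⟫_ℝ) (ν ν' : Cf) :
    ⟪lc g ν, lc g₁ ν'⟫_ℝ = ⟪lc g' ν, lc g₁' ν'⟫_ℝ := by
  simp only [lc, Finsupp.linearCombination_apply, Finsupp.sum, sum_inner, inner_sum,
    real_inner_smul_left, real_inner_smul_right, h]

theorem lc_orth {H : Type*} [NormedAddCommGroup H] [InnerProductSpace ℝ H] {g g₁ : E 2 → H}
    (h : ∀ x y, ⟪g x, g₁ y⟫_ℝ = 0) (ν ν' : Cf) : ⟪lc g ν, lc g₁ ν'⟫_ℝ = 0 := by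
  simp only [lc, Finsupp.linearCombination_apply, Finsupp.sum, sum_inner, inner_sum,
    real_inner_smul_left, real_inner_smul_right, h, mul_zero, Finset.sum_const_zero]

variable {d : ℕ}

theorem inner_EG2 (α β α' β' : ℝ) (x y : E d) : ⟪EG α β x, EG α' β' y⟫_ℝ =
    ∫ s in Ioc α β ∩ Ioc α' β', kg (exp (-s) • (y - x)) := by
  rw [EG, EG, inner_ff (measurable_const.indicator measurableSet_Ioc)
    (mem_ind continuous_const _ _) (measurable_const.indicator measurableSet_Ioc)
    (mem_ind continuous_const _ _) (by fun_prop),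
    ← integral_indicator (measurableSet_Ioc.inter measurableSet_Ioc)]
  congr 1
  funext s
  by_cases h : s ∈ Ioc α β <;> by_cases h' : s ∈ Ioc α' β' <;> simp [indicator, h, h']

theorem inner_EG (α β : ℝ) (x y : E d) :
    ⟪EG α β x, EG α β y⟫_ℝ = ∫ s in Ioc α β, kg (exp (-s) • (y - x)) := by
  rw [inner_EG2, inter_self]

theorem inner_EG_disj {α β α' β' : ℝ} (h : β ≤ α') (x y : E d) :
    ⟪EG α β x, EG α' β' y⟫_ℝ = 0 := by
  rw [inner_EG2, (Ioc_disjoint_Ioc_of_le h).inter_eq, setIntegral_empty]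

theorem inner_EG_shift {α β : ℝ} (h : α ≤ β) (c : ℝ) (x y z : E d) :
    ⟪EG (α + c) (β + c) (exp c • x + z), EG (α + c) (β + c) (exp c • y + z)⟫_ℝ =
      ⟪EG α β x, EG α β y⟫_ℝ := by
  rw [inner_EG, inner_EG, ← intervalIntegral.integral_of_le h,
    ← intervalIntegral.integral_of_le (by linarith), ← intervalIntegral.integral_comp_add_right]
  congr 1
  funext s
  rw [add_sub_add_right_eq_sub, ← smul_sub, smul_smul, ← exp_add]
  congr 3
  ring

theorem EG_self (α : ℝ) (z : E d) : EG α α z = 0 := by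
  have := norm_EG (le_refl α) z
  rw [sub_self] at this
  exact norm_eq_zero.1 (pow_eq_zero_iff two_ne_zero |>.1 this)

theorem norm_EG_sub {α β : ℝ} (h : α ≤ β) (x y : E d) :
    ‖EG α β x - EG α β y‖ ^ 2 ≤ (exp (-α) * ‖x - y‖) ^ 2 / 2 := by
  have c1 : Continuous fun s : ℝ => kg (exp (-s) • (y - x)) := by fun_prop
  have e : ‖EG α β x - EG α β y‖ ^ 2 = ∫ s in α..β, 2 * (1 - kg (exp (-s) • (y - x))) := by
    rw [norm_sub_sq_real, norm_EG h, norm_EG h, inner_EG, ← intervalIntegral.integral_of_le h,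
      intervalIntegral.integral_const_mul, intervalIntegral.integral_sub
        intervalIntegrable_const (c1.intervalIntegrable _ _)]
    simp only [intervalIntegral.integral_const, smul_eq_mul]
    ring
  have dv : ∀ s ∈ uIcc α β, HasDerivAt (fun s : ℝ => -(exp (-s) * ‖x - y‖) ^ 2 / 2)
      ((exp (-s) * ‖x - y‖) ^ 2) s := fun s _ => by
    have := ((((hasDerivAt_neg s).exp.mul_const ‖x - y‖).pow 2).neg).div_const 2
    refine this.congr_deriv ?_
    simp only [Nat.cast_ofNat, Nat.add_one_sub_one, pow_one]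
    ring
  have c2 : Continuous fun s : ℝ => (exp (-s) * ‖x - y‖) ^ 2 := by fun_prop
  have e2 := intervalIntegral.integral_eq_sub_of_hasDerivAt dv (c2.intervalIntegrable _ _)
  rw [e]
  refine (intervalIntegral.integral_mono_on h ((by fun_prop : Continuous _).intervalIntegrable _ _)
    (c2.intervalIntegrable _ _) fun s _ => ?_).trans ?_
  · have := one_sub_kg (exp (-s) • (y - x))
    rw [norm_smul, Real.norm_of_nonneg (exp_pos _).le, norm_sub_rev] at this
    linarith
  · rw [e2]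
    nlinarith [sq_nonneg (exp (-β) * ‖x - y‖)]

theorem norm_le_two {u : E 2} {r : ℝ} (hr : 0 ≤ r) (h : ∀ j, |u j| ≤ r) : ‖u‖ ≤ 2 * r := by
  have := dist_le_of (u := u) (v := 0) hr (by simpa using h)
  simpa using this

theorem abs_le_norm2 (u : E 2) (j : Fin 2) : |u j| ≤ ‖u‖ := by
  simpa using le_dist u 0 j

theorem pt_sub (x y : Zd d) : pt (x - y) = pt x - pt y := by ext i; simp [pt_apply]

theorem pt_zero : pt (0 : Zd d) = 0 := by ext i; simp [pt_apply]

theorem pt_zsmul (c : ℤ) (x : Zd d) : pt (c • x) = (c : ℝ) • pt x := by ext i; simp [pt_apply]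

/-- index of the cell of mesh `μ` -/
noncomputable def rd (μ : ℝ) (y : E 2) : Zd 2 := fun j => ⌊y j / μ⌋

theorem rd_coord {μ : ℝ} (h : 0 < μ) (y : E 2) (j : Fin 2) :
    μ * rd μ y j ≤ y j ∧ y j < μ * rd μ y j + μ := by
  have a := Int.floor_le (y j / μ)
  have b := Int.lt_floor_add_one (y j / μ)
  rw [le_div_iff₀ h] at a
  rw [div_lt_iff₀ h] at b
  unfold rd
  constructor <;> linarith

theorem norm_rd {μ : ℝ} (h : 0 < μ) (y : E 2) : ‖μ • pt (rd μ y) - y‖ ≤ 2 * μ :=
  norm_le_two h.le fun j => by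
    have := rd_coord h y j
    simp only [PiLp.sub_apply, PiLp.smul_apply, pt_apply, smul_eq_mul]
    rw [abs_le]
    constructor <;> linarith [this.1, this.2]

end Pool.Agent.GL
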