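import Pool.Agent.Lib.MP_438f30_pr.HSt

/-! Elementary facts on length metrics. -/

namespace Pool.Agent.GL

open MeasureTheory Real Metric

theorem mg1 : MG1 where
  nonneg := fun {D} h u v => by
    have h1 := h.tri u v u
    rw [h.self, h.symm v u] at h1
    linarith
  cont := fun {D p l} h hp => by
    refine Metric.continuousOn_iff.2 fun t ht ε hε => ?_
    obtain ⟨s, hs, h1⟩ := h.top (p t) ε hε
    refine ⟨s, hs, fun x hx hd => ?_⟩
    rw [dist_comm] at hd ⊢
    exact h1 _ ((hp.2 t ht x hx).trans_lt hd)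
  path := fun {D U u v s} h => by
    unfold wey at h
    simp only [iInf_lt_iff] at h
    obtain ⟨p, l, ⟨h1, h2, h3, h4⟩, h5⟩ := h
    refine ⟨p, l, h1, h2, h3, h4, ?_⟩
    rw [setLIntegral_const, ENNReal.ofReal_one, one_mul, volume_Icc, sub_zero] at h5
    exact (ENNReal.ofReal_lt_ofReal_iff_of_nonneg h1.1).1 h5
  low := fun {D z u v R s m g} _ hc hm hg hu hv => by
    refine le_iInf fun p => le_iInf fun l => le_iInf fun ⟨h1, h2, h3, _⟩ => ?_
    have k : ∀ t ∈ Set.Icc 0 l, p t ∉ closedBall z (2 * R) → s ≤ t := fun t ht hp => by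
      have a := h1.2 0 ⟨le_rfl, h1.1⟩ t ht
      rw [h2, zero_sub, abs_neg, abs_of_nonneg ht.1] at a
      exact (not_lt.1 fun e => hc ⟨u, hu, p t, hp, e⟩).trans a
    have k2 : Set.Ico 0 s ⊆ Set.Icc 0 l := fun t ht =>
      ⟨ht.1, ht.2.le.trans (k l ⟨h1.1, le_rfl⟩ (h3 ▸ hv))⟩
    calc ENNReal.ofReal (m * s) = ∫⁻ _ in Set.Ico 0 s, ENNReal.ofReal m := by
          rw [setLIntegral_const, volume_Ico, sub_zero, ENNReal.ofReal_mul hm]
      _ ≤ ∫⁻ t in Set.Ico 0 s, ENNReal.ofReal (g (p t)) :=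
          setLIntegral_mono' measurableSet_Ico fun t ht => ENNReal.ofReal_le_ofReal
            (hg _ (by_contra fun e => not_lt.2 (k t (k2 ht) e) ht.2))
      _ ≤ _ := lintegral_mono_set k2
  up := fun {D p l M g U} hp s t h0 h1 h2 hg => by
    have k : ∀ r ∈ Set.Icc 0 (t - s), s + r ∈ Set.Icc s t := fun r hr =>
      ⟨by linarith [hr.1], by linarith [hr.2]⟩
    have k' : ∀ r ∈ Set.Icc 0 (t - s), s + r ∈ Set.Icc 0 l := fun r hr =>
      ⟨h0.trans (k r hr).1, (k r hr).2.trans h2⟩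
    have hq : Lip D (fun r => p (s + r)) (t - s) := ⟨sub_nonneg.2 h1, fun a ha b hb => by
      have := hp.2 _ (k' a ha) _ (k' b hb)
      rwa [add_sub_add_left_eq_sub] at this⟩
    unfold wey
    refine iInf_le_of_le (fun r => p (s + r)) (iInf_le_of_le (t - s) (iInf_le_of_le
      ⟨hq, by simp, by simp, fun r hr => (hg _ (k r hr)).2⟩ ?_))
    calc _ ≤ ∫⁻ _ in Set.Icc 0 (t - s), ENNReal.ofReal M :=
          setLIntegral_mono' measurableSet_Icc fun r hr =>
            ENNReal.ofReal_le_ofReal (hg _ (k r hr)).1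
      _ = _ := by
          rw [setLIntegral_const, volume_Icc, sub_zero, ENNReal.ofReal_mul' (sub_nonneg.2 h1)]
  const := fun {D c} h hc u v => by
    have h0 : ENNReal.ofReal c ≠ 0 := by simpa using hc
    rw [ENNReal.ofReal_mul hc.le, h.len]
    unfold wey
    simp only [ENNReal.mul_iInf_of_ne h0 ENNReal.ofReal_ne_top, setLIntegral_const,
      ENNReal.ofReal_one, one_mul]

end Pool.Agent.GL
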