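import Pool.Agent.Lib.MP_438f30_pr.HSt

/-! Crossings of annuli are determined by the metric in a ball. -/

namespace Pool.Agent.GL

open Metric

namespace HMG3

variable {D : R2 → R2 → ℝ} {U : Set R2}

theorem lt_of (h : MG1) {p : ℝ → R2} {l s : ℝ} (hp : Lip D p l) (t : ℝ) (h0 : 0 ≤ t) (h1 : t ≤ l)
    (hU : ∀ r ∈ Set.Icc 0 t, p r ∈ U) (hs : t < s) :
    wey D (fun _ => 1) U (p 0) (p t) < ENNReal.ofReal s :=
  (h.up (M := 1) hp 0 t le_rfl h0 h1 fun r hr => ⟨le_rfl, hU r hr⟩).trans_lt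
    ((ENNReal.ofReal_lt_ofReal_iff (h0.trans_lt hs)).2 (by linarith))

theorem tri (h : MG1) (hD : IsMet D) {a b c : R2} {s t : ℝ}
    (h1 : wey D (fun _ => 1) U a b < ENNReal.ofReal s)
    (h2 : wey D (fun _ => 1) U b c < ENNReal.ofReal t) :
    wey D (fun _ => 1) U a c < ENNReal.ofReal (s + t) := by
  obtain ⟨p, l, hp, p0, p1, pU, hl⟩ := h.path h1
  obtain ⟨q, m, hq, q0, q1, qU, hm⟩ := h.path h2
  have l0 := hp.1
  have m0 := hq.1
  let r : ℝ → R2 := fun x => if x ≤ l then p x else q (x - l)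
  have mix : ∀ x ∈ Set.Icc 0 (l + m), ∀ y ∈ Set.Icc 0 (l + m), x ≤ l → ¬ y ≤ l →
      D (p x) (q (y - l)) ≤ y - x := fun x hx y hy e e' => by
    have e1 := hp.2 x ⟨hx.1, e⟩ l ⟨l0, le_rfl⟩
    have e2 := hq.2 0 ⟨le_rfl, m0⟩ (y - l) ⟨by linarith, by linarith [hy.2]⟩
    have e3 := hD.tri (p x) b (q (y - l))
    rw [p1, abs_of_nonpos (by linarith)] at e1
    rw [q0, abs_of_nonpos (by linarith)] at e2
    linarith
  have hr : Lip D r (l + m) := ⟨by linarith, fun x hx y hy => by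
    simp only [r]
    split_ifs with e e' e'
    · exact hp.2 x ⟨hx.1, e⟩ y ⟨hy.1, e'⟩
    · exact (mix x hx y hy e e').trans (by rw [abs_sub_comm]; exact le_abs_self _)
    · rw [hD.symm]
      exact (mix y hy x hx e' e).trans (le_abs_self _)
    · have := hq.2 (x - l) ⟨by linarith, by linarith [hx.2]⟩ (y - l) ⟨by linarith, by linarith [hy.2]⟩
      rwa [sub_sub_sub_cancel_right] at this⟩
  have := lt_of (U := U) h hr (l + m) (by linarith) le_rfl (fun x hx => by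
    simp only [r]
    split_ifs with e
    exacts [pU x ⟨hx.1, e⟩, qU _ ⟨by linarith, by linarith [hx.2]⟩]) (add_lt_add hl hm)
  have e0 : r 0 = a := by simp [r, l0, p0]
  have e1 : r (l + m) = c := by
    simp only [r]
    split_ifs with e
    · obtain rfl : m = 0 := by linarith
      rw [add_zero, p1, ← q0, q1]
    · rw [add_sub_cancel_left, q1]
  rwa [e0, e1] at this

theorem ex_path (h : MG1) (hD : IsMet D) {u v : R2} {s : ℝ} (hs : D u v < s) :
    ∃ p l, Lip D p l ∧ p 0 = u ∧ p l = v ∧ l < s := by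
  obtain ⟨p, l, a, b, c, -, e⟩ := h.path (U := Set.univ) (D := D) (u := u) (v := v) (s := s) (by
    rw [← hD.len]
    exact (ENNReal.ofReal_lt_ofReal_iff ((h.nonneg hD u v).trans_lt hs)).2 hs)
  exact ⟨p, l, a, b, c, e⟩

theorem near (h : MG1) (hD : IsMet D) (hU : IsOpen U) {a : R2} (ha : a ∈ U) {ε : ℝ} (hε : 0 < ε)
    {S V : Set R2} (hS : Dense S) (hV : IsOpen V) (haV : a ∈ V) : ∃ b ∈ S, b ∈ V ∧
      wey D (fun _ => 1) U a b < ENNReal.ofReal ε ∧ wey D (fun _ => 1) U b a < ENNReal.ofReal ε := by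
  obtain ⟨r, r0, hr⟩ := Metric.isOpen_iff.1 hU a ha
  obtain ⟨s, s0, hs⟩ := hD.top a r r0
  have o : IsOpen {b | D a b < min ε s} :=
    isOpen_lt (hD.cont.comp (continuous_const.prodMk continuous_id)) continuous_const
  obtain ⟨b, ⟨b1, b2⟩, b3⟩ := hS.inter_open_nonempty _ (o.inter hV)
    ⟨a, by simp [hD.self, hε, s0], haV⟩
  have b1 : D a b < min ε s := b1
  refine ⟨b, b3, b2, ?_, ?_⟩
  · obtain ⟨p, l, hp, p0, p1, hl⟩ := ex_path h hD b1
    rw [lt_min_iff] at hl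
    have := lt_of (U := U) h hp l hp.1 le_rfl (fun t ht => hr (by
      have := hp.2 0 ⟨le_rfl, hp.1⟩ t ht
      rw [p0, abs_of_nonpos (by linarith [ht.1])] at this
      rw [mem_ball, dist_comm]
      exact hs _ (by linarith [ht.2]))) hl.1
    rwa [p0, p1] at this
  · rw [hD.symm] at b1
    obtain ⟨p, l, hp, p0, p1, hl⟩ := ex_path h hD b1
    rw [lt_min_iff] at hl
    have := lt_of (U := U) h hp l hp.1 le_rfl (fun t ht => hr (by
      have := hp.2 l ⟨hp.1, le_rfl⟩ t ht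
      rw [p1, abs_of_nonneg (by linarith [ht.2])] at this
      rw [mem_ball, dist_comm]
      exact hs _ (by linarith [ht.1]))) hl.1
    rwa [p0, p1] at this

end HMG3

open HMG3 in
theorem mg3 (h : MG1) : sMG3 := by
  intro D S z R s hD hS
  refine ⟨?_, ?_⟩
  · rintro ⟨u, hu, v, hv, hs⟩
    have R0 : 0 < R := pos_of_mem_ball hu
    rw [mem_closedBall, not_le] at hv
    obtain ⟨p, l, hp, p0, p1, hl⟩ := ex_path h hD hs
    have hc : ContinuousOn (fun t => dist (p t) z) (Set.Icc 0 l) :=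
      (continuous_id.dist continuous_const).comp_continuousOn (h.cont hD hp)
    have u1 : dist (p 0) z < R := p0 ▸ hu
    obtain ⟨ρ, r1, r2, r3⟩ : ∃ ρ, 2 * R < ρ ∧ ρ < 3 * R ∧ ρ ≤ dist (p l) z :=
      ⟨min (dist v z) (5 * R / 2), lt_min hv (by linarith), (min_le_right _ _).trans_lt (by linarith),
        p1 ▸ min_le_left _ _⟩
    have ivt : ∀ t ∈ Set.Icc 0 l, ρ ≤ dist (p t) z → ∃ t' ∈ Set.Icc 0 t, dist (p t') z = ρ :=
      fun t ht e => intermediate_value_Icc ht.1 (hc.mono (Set.Icc_subset_Icc_right ht.2))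
        ⟨by linarith, e⟩
    have cp : IsCompact (Set.Icc 0 l ∩ (fun t => dist (p t) z) ⁻¹' {ρ}) :=
      isCompact_Icc.of_isClosed_subset
        (hc.preimage_isClosed_of_isClosed isClosed_Icc isClosed_singleton) Set.inter_subset_left
    obtain ⟨t, ⟨t1, t2⟩, t3⟩ := cp.exists_isLeast (by
      obtain ⟨t, a, b⟩ := ivt l ⟨hp.1, le_rfl⟩ r3
      exact ⟨t, a, b⟩)
    have t2 : dist (p t) z = ρ := t2
    have hin : ∀ r ∈ Set.Icc 0 t, p r ∈ ball z (3 * R) := fun r hr => by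
      rw [mem_ball]
      by_contra! e
      obtain ⟨t', a, b⟩ := ivt r ⟨hr.1, hr.2.trans t1.2⟩ (by linarith)
      have := t3 ⟨⟨a.1, a.2.trans (hr.2.trans t1.2)⟩, b⟩
      obtain rfl : r = t := le_antisymm hr.2 (this.trans a.2)
      linarith
    have ε0 : 0 < (s - l) / 3 := by linarith
    have w := lt_of h hp t t1.1 t1.2 hin (s := l + (s - l) / 3) (by linarith [t1.2])
    obtain ⟨u', a1, a2, -, a3⟩ := near h hD isOpen_ball (hin 0 ⟨le_rfl, t1.1⟩) ε0 hS isOpen_ball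
      (mem_ball.2 u1)
    obtain ⟨v', b1, b2, b3, -⟩ := near h hD isOpen_ball (hin t ⟨t1.1, le_rfl⟩) ε0 hS
      (isClosed_closedBall (x := z) (ε := 2 * R)).isOpen_compl
      (by rw [Set.mem_compl_iff, mem_closedBall, t2, not_le]; exact r1)
    refine ⟨u', a1, v', b1, a2, b2, ?_⟩
    have := tri h hD (tri h hD a3 w) b3
    rwa [show (s - l) / 3 + (l + (s - l) / 3) + (s - l) / 3 = s by ring] at this
  · rintro ⟨u, -, v, -, hu, hv, hs⟩
    obtain ⟨p, l, hp, p0, p1, -, hl⟩ := h.path hs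
    refine ⟨u, hu, v, hv, ?_⟩
    have := hp.2 0 ⟨le_rfl, hp.1⟩ l ⟨hp.1, le_rfl⟩
    rw [p0, p1, abs_of_nonpos (by linarith [hp.1])] at this
    linarith

end Pool.Agent.GL
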