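import Pool.Agent.Lib.MP_438f30_pr.GSt
import Pool.Agent.Lib.MP_438f30_pr.HMG1
import Pool.Agent.Lib.MP_438f30_pr.HMG3

/-! The internal metric of an annulus is bounded on a smaller annulus. -/

namespace Pool.Agent.GL

open Metric Filter Topology HMG3

namespace GBdd

variable {D : R2 → R2 → ℝ} {U : Set R2}

theorem loc (hD : IsMet D) (hU : IsOpen U) {a : R2} (ha : a ∈ U) : ∀ᶠ b in 𝓝 a,
    wey D (fun _ => 1) U a b < ENNReal.ofReal 1 ∧ wey D (fun _ => 1) U b a < ENNReal.ofReal 1 := by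
  obtain ⟨r, r0, hr⟩ := Metric.isOpen_iff.1 hU a ha
  obtain ⟨s, s0, hs⟩ := hD.top a r r0
  have o : IsOpen {b | D a b < min 1 s} :=
    isOpen_lt (hD.cont.comp (continuous_const.prodMk continuous_id)) continuous_const
  filter_upwards [o.mem_nhds (show D a a < min 1 s by simp [hD.self, s0])] with b b1
  refine ⟨?_, ?_⟩
  · obtain ⟨p, l, hp, p0, p1, hl⟩ := ex_path mg1 hD b1
    rw [lt_min_iff] at hl
    have := lt_of (U := U) mg1 hp l hp.1 le_rfl (fun t ht => hr (by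
      have := hp.2 0 ⟨le_rfl, hp.1⟩ t ht
      rw [p0, abs_of_nonpos (by linarith [ht.1])] at this
      rw [mem_ball, dist_comm]
      exact hs _ (by linarith [ht.2]))) hl.1
    rwa [p0, p1] at this
  · rw [hD.symm] at b1
    obtain ⟨p, l, hp, p0, p1, hl⟩ := ex_path mg1 hD b1
    rw [lt_min_iff] at hl
    have := lt_of (U := U) mg1 hp l hp.1 le_rfl (fun t ht => hr (by
      have := hp.2 l ⟨hp.1, le_rfl⟩ t ht
      rw [p1, abs_of_nonneg (by linarith [ht.2])] at this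
      rw [mem_ball, dist_comm]
      exact hs _ (by linarith [ht.1]))) hl.1
    rwa [p0, p1] at this

theorem opn (z : R2) (a b : ℝ) : IsOpen (An z a b) :=
  (isOpen_lt continuous_const (continuous_id.dist continuous_const)).inter
    (isOpen_lt (continuous_id.dist continuous_const) continuous_const)

theorem con {a b : ℝ} (ha : 0 ≤ a) : IsPreconnected (An 0 a b) := by
  have e : An 0 a b = (fun q : ℝ × R2 => q.1 • q.2) '' (Set.Ioo a b ×ˢ sphere 0 1) := by
    ext x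
    simp only [An, dist_zero_right, Set.mem_ofPred_eq, Set.mem_image, Set.mem_prod,
      mem_sphere_zero_iff_norm, Set.mem_Ioo, Prod.exists]
    constructor
    · intro h
      have x0 : ‖x‖ ≠ 0 := (ha.trans_lt h.1).ne'
      exact ⟨‖x‖, ‖x‖⁻¹ • x, ⟨h, by rw [norm_smul, norm_inv, norm_norm, inv_mul_cancel₀ x0]⟩,
        smul_inv_smul₀ x0 x⟩
    · rintro ⟨r, y, ⟨h, hy⟩, rfl⟩
      rwa [norm_smul, hy, mul_one, Real.norm_of_nonneg (ha.trans h.1.le)]
  rw [e]
  refine (isPreconnected_Ioo.prod (isPreconnected_sphere ?_ 0 1)).image _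
    (continuous_fst.smul continuous_snd).continuousOn
  rw [← Module.finrank_eq_rank, finrank_euclideanSpace_fin]
  exact Nat.one_lt_ofNat

theorem bd (hD : IsMet D) (hU : IsOpen U) (hc : IsPreconnected U) {K : Set R2} (hK : IsCompact K)
    (hKU : K ⊆ U) : ∃ S : ℝ, ∀ u ∈ K, ∀ v ∈ K, wey D (fun _ => 1) U u v ≤ ENNReal.ofReal S := by
  rcases K.eq_empty_or_nonempty with rfl | ⟨o, ho⟩
  · exact ⟨0, fun _ h => h.elim⟩
  have fin : ∀ x ∈ U, ∀ y ∈ U, ∃ s, wey D (fun _ => 1) U x y < ENNReal.ofReal s :=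
    fun x hx y hy => hc.induction₂' (fun x y => ∃ s, wey D (fun _ => 1) U x y < ENNReal.ofReal s)
      (fun a ha => ((loc hD hU ha).filter_mono nhdsWithin_le_nhds).mono fun b h =>
        ⟨⟨1, h.1⟩, 1, h.2⟩)
      (fun _ _ _ _ _ _ ⟨_, h⟩ ⟨_, h'⟩ => ⟨_, tri mg1 hD h h'⟩) hx hy
  obtain ⟨S, hS⟩ := hK.induction_on (p := fun T => ∃ S : ℝ, ∀ x ∈ T,
      wey D (fun _ => 1) U o x < ENNReal.ofReal S ∧ wey D (fun _ => 1) U x o < ENNReal.ofReal S)
    ⟨0, fun _ h => h.elim⟩ (fun _ _ h ⟨S, hS⟩ => ⟨S, fun x hx => hS x (h hx)⟩)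
    (fun _ _ ⟨S, hS⟩ ⟨S', hS'⟩ => ⟨max S S', fun x hx => by
      have a := ENNReal.ofReal_le_ofReal (le_max_left S S')
      have b := ENNReal.ofReal_le_ofReal (le_max_right S S')
      exact hx.elim (fun h => ⟨(hS x h).1.trans_le a, (hS x h).2.trans_le a⟩)
        fun h => ⟨(hS' x h).1.trans_le b, (hS' x h).2.trans_le b⟩⟩)
    fun a ha => by
      obtain ⟨s, hs⟩ := fin o (hKU ho) a (hKU ha)
      obtain ⟨t, ht⟩ := fin a (hKU ha) o (hKU ho)
      exact ⟨_, mem_nhdsWithin_of_mem_nhds (loc hD hU (hKU ha)), max (s + 1) (1 + t), fun x hx =>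
        ⟨(tri mg1 hD hs hx.1).trans_le (ENNReal.ofReal_le_ofReal (le_max_left _ _)),
          (tri mg1 hD hx.2 ht).trans_le (ENNReal.ofReal_le_ofReal (le_max_right _ _))⟩⟩
  exact ⟨S + S, fun u hu v hv => (tri mg1 hD (hS u hu).2 (hS v hv).1).le⟩

end GBdd

open GBdd in
theorem bdd : sBdd := by
  intro D hD
  obtain ⟨S, hS⟩ := bd hD (opn 0 20 36) (con (by norm_num))
    ((isCompact_closedBall (0 : R2) 32).diff (isOpen_ball (x := 0) (ε := 24))) fun x hx => by
      have a := mem_closedBall.1 hx.1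
      have b := not_lt.1 (mt mem_ball.2 hx.2)
      exact ⟨by linarith, by linarith⟩
  exact ⟨S, fun u hu v hv => hS u ⟨hu.2.le, fun h => hu.1.not_gt h⟩ v
    ⟨hv.2.le, fun h => hv.1.not_gt h⟩⟩

end Pool.Agent.GL
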