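import Pool.Agent.Lib.MP_438f30_pr.GSt
import Pool.Agent.Lib.MP_438f30_pr.HMG1
import Pool.Agent.Lib.MP_438f30_pr.HMG3

/-! Shields are determined by the metric in an annulus. -/

namespace Pool.Agent.GL

open Metric HMG3

namespace G8a

variable {d : R2 → R2 → ℝ} {z : R2}

theorem open_An (z : R2) (a b : ℝ) : IsOpen (An z a b) :=
  (isOpen_lt continuous_const (continuous_id.dist continuous_const)).inter
    (isOpen_lt (continuous_id.dist continuous_const) continuous_const)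

/-- the first and the last time at a given level -/
theorem hit {f : ℝ → ℝ} {x y ρ : ℝ} (hxy : x ≤ y) (hf : ContinuousOn f (Set.Icc x y))
    (h1 : f x ≤ ρ) (h2 : ρ ≤ f y) : (∃ t ∈ Set.Icc x y, f t = ρ ∧ ∀ r ∈ Set.Icc x t, f r ≤ ρ) ∧
      ∃ t ∈ Set.Icc x y, f t = ρ ∧ ∀ r ∈ Set.Icc t y, ρ ≤ f r := by
  have cp : IsCompact (Set.Icc x y ∩ f ⁻¹' {ρ}) := isCompact_Icc.of_isClosed_subset
    (hf.preimage_isClosed_of_isClosed isClosed_Icc isClosed_singleton) Set.inter_subset_left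
  have ne : (Set.Icc x y ∩ f ⁻¹' {ρ}).Nonempty := intermediate_value_Icc hxy hf ⟨h1, h2⟩
  obtain ⟨t, ⟨t1, t2⟩, t3⟩ := cp.exists_isLeast ne
  obtain ⟨t', ⟨t1', t2'⟩, t3'⟩ := cp.exists_isGreatest ne
  refine ⟨⟨t, t1, t2, fun r hr => le_of_not_gt fun e => ?_⟩,
    t', t1', t2', fun r hr => le_of_not_gt fun e => ?_⟩
  · obtain ⟨s, a, b⟩ := intermediate_value_Icc hr.1
      (hf.mono (Set.Icc_subset_Icc_right (hr.2.trans t1.2))) ⟨h1, e.le⟩
    obtain rfl : r = t := le_antisymm hr.2 ((t3 ⟨⟨a.1, a.2.trans (hr.2.trans t1.2)⟩, b⟩).trans a.2)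
    exact e.ne' t2
  · obtain ⟨s, a, b⟩ := intermediate_value_Icc hr.2
      (hf.mono (Set.Icc_subset_Icc_left (t1'.1.trans hr.1))) ⟨e.le, h2⟩
    obtain rfl : r = t' :=
      le_antisymm (a.1.trans (t3' ⟨⟨(t1'.1.trans hr.1).trans a.1, a.2⟩, b⟩)) hr.1
    exact e.ne t2'

theorem le_wey (U : Set R2) (u v : R2) : ENNReal.ofReal (d u v) ≤ wey d (fun _ => 1) U u v :=
  le_of_not_gt fun e => by
    obtain ⟨p, l, hp, p0, p1, -, hl⟩ := mg1.path e
    have := hp.2 0 ⟨le_rfl, hp.1⟩ l ⟨hp.1, le_rfl⟩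
    rw [p0, p1, abs_of_nonpos (by linarith [hp.1])] at this
    linarith

/-- a crossing is seen inside any larger annulus -/
theorem crx (hD : IsMet d) {S : Set R2} (hS : Dense S) {R s a b : ℝ} (ha : a < R) (hb : 2 * R < b)
    (h : Crx d z R s) : ∃ u ∈ S, ∃ v ∈ S, (u ∈ ball z R ∧ v ∉ closedBall z (2 * R)) ∧
      wey d (fun _ => 1) (An z a b) u v < ENNReal.ofReal s := by
  obtain ⟨u, hu, v, hv, hs⟩ := h
  have R0 : 0 < R := pos_of_mem_ball hu
  rw [mem_closedBall, not_le] at hv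
  rw [mem_ball] at hu
  obtain ⟨p, l, hp, rfl, rfl, hl⟩ := ex_path mg1 hD hs
  have hc : ContinuousOn (fun t => dist (p t) z) (Set.Icc 0 l) :=
    (continuous_id.dist continuous_const).comp_continuousOn (mg1.cont hD hp)
  obtain ⟨ρ, r1, r2, r3⟩ : ∃ ρ, 2 * R < ρ ∧ ρ < b ∧ ρ ≤ dist (p l) z :=
    ⟨min (dist (p l) z) ((2 * R + b) / 2), lt_min hv (by linarith),
      (min_le_right _ _).trans_lt (by linarith), min_le_left _ _⟩
  obtain ⟨σ, s1, s2, s3⟩ : ∃ σ, a < σ ∧ σ < R ∧ dist (p 0) z ≤ σ :=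
    ⟨max (dist (p 0) z) ((a + R) / 2), lt_of_lt_of_le (by linarith) (le_max_right _ _),
      max_lt hu (by linarith), le_max_left _ _⟩
  obtain ⟨t, t1, t2, t3⟩ := (hit hp.1 hc (by linarith) r3).1
  obtain ⟨r, u1, u2, u3⟩ := (hit t1.1 (hc.mono (Set.Icc_subset_Icc_right t1.2)) s3
    (by linarith)).2
  have hin : ∀ x ∈ Set.Icc r t, p x ∈ An z a b := fun x hx =>
    ⟨s1.trans_le (u3 x hx), (t3 x ⟨u1.1.trans hx.1, hx.2⟩).trans_lt r2⟩
  have ε0 : 0 < (s - l) / 3 := by linarith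
  have w : wey d (fun _ => 1) (An z a b) (p r) (p t) < ENNReal.ofReal (l + (s - l) / 3) :=
    (mg1.up (M := 1) hp r t u1.1 u1.2 t1.2 fun x hx => ⟨le_rfl, hin x hx⟩).trans_lt
      ((ENNReal.ofReal_lt_ofReal_iff (by linarith [hp.1])).2 (by linarith [u1.1, t1.2]))
  obtain ⟨u', a1, a2, -, a3⟩ := near mg1 hD (open_An z a b) (hin r ⟨le_rfl, u1.2⟩) ε0 hS
    isOpen_ball (mem_ball.2 (u2.trans_lt s2))
  obtain ⟨v', b1, b2, b3, -⟩ := near mg1 hD (open_An z a b) (hin t ⟨u1.2, le_rfl⟩) ε0 hS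
    (isClosed_closedBall (x := z) (ε := 2 * R)).isOpen_compl
    (by rw [Set.mem_compl_iff, mem_closedBall, not_le]; exact r1.trans_eq t2.symm)
  refine ⟨u', a1, v', b1, ⟨a2, b2⟩, ?_⟩
  have := tri mg1 hD (tri mg1 hD a3 w) b3
  rwa [show (s - l) / 3 + (l + (s - l) / 3) + (s - l) / 3 = s by ring] at this

end G8a

open G8a in
theorem g8a : sG8a := by
  intro d S κ z R hD hS hκ hR
  have κ0 : 0 < κ := one_pos.trans_le hκ
  refine ⟨?_, ?_⟩
  · rintro ⟨s', s, hs, h1, h2, h3⟩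
    obtain ⟨x, hx⟩ := (NormedSpace.sphere_nonempty (x := z) (r := 7 * R / 2)).2 (by positivity)
    have hx' : x ∈ An z (3 * R) (4 * R) := by
      rw [mem_sphere] at hx
      constructor <;> linarith
    have s0 := h1 x hx' x hx'
    rw [hD.self, mul_zero] at s0
    obtain ⟨q', a1, a2⟩ := exists_rat_btwn hs
    obtain ⟨q, b1, b2⟩ := exists_rat_btwn a2
    refine ⟨q', q, by exact_mod_cast s0.trans a1.le, by exact_mod_cast b1,
      fun u _ v _ hu hv => ?_, fun u _ v _ h => ?_⟩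
    · obtain ⟨p, l, hp, rfl, rfl, hl⟩ := ex_path mg1 hD (u := u) (v := v) (s := q' / κ)
        (by rw [lt_div_iff₀' κ0]; exact (h1 u hu v hv).trans_lt a1)
      have e : (q' : ℝ) / κ ≤ q' := div_le_self (s0.trans a1.le) hκ
      have w := lt_of (U := An z (R / 2) (15 * R)) mg1 hp l hp.1 le_rfl (fun t ht => by
        have k := hp.2 0 ⟨le_rfl, hp.1⟩ t ht
        rw [abs_of_nonpos (by linarith [ht.1])] at k
        have k' : d (p 0) (p t) < s := by linarith [ht.2]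
        refine ⟨lt_of_not_ge fun n => h2 ⟨p t, mem_ball.2 (by linarith), p 0, fun m => ?_,
          hD.symm _ _ ▸ k'⟩, lt_of_not_ge fun n => h3 ⟨p 0, mem_ball.2 (by linarith [hu.2]), p t,
            fun m => ?_, k'⟩⟩
        · linarith [mem_closedBall.1 m, hu.1]
        · linarith [mem_closedBall.1 m]) hl
      refine (mul_le_mul_right w.le _).trans_eq ?_
      rw [← ENNReal.ofReal_mul κ0.le, mul_div_cancel₀ _ κ0.ne']
    · refine (ENNReal.ofReal_le_ofReal (b2.le.trans (le_of_not_gt fun e => ?_))).trans (le_wey _ u v)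
      exact h.elim (fun k => h2 ⟨u, k.1, v, k.2, e⟩) fun k => h3 ⟨u, k.1, v, k.2, e⟩
  · rintro ⟨q', q, h0, hq, h1, h2⟩
    refine ⟨q', q, by exact_mod_cast hq, fun u hu v hv => le_of_not_gt fun e => ?_, fun h => ?_,
      fun h => ?_⟩
    · obtain ⟨x, hx, ⟨a, b⟩, c⟩ := (hS.prod hS).exists_mem_open
        (((open_An z (3 * R) (4 * R)).prod (open_An z (3 * R) (4 * R))).inter
          (isOpen_lt (continuous_const (y := (q' : ℝ))) (continuous_const.mul hD.cont)))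
        ⟨(u, v), ⟨hu, hv⟩, e⟩
      have k := (mul_le_mul_right (le_wey _ _ _) _).trans (h1 _ hx.1 _ hx.2 a b)
      rw [← ENNReal.ofReal_mul κ0.le, ENNReal.ofReal_le_ofReal_iff (by exact_mod_cast h0)] at k
      exact k.not_gt c
    · obtain ⟨u, a, v, b, c, e⟩ := crx hD hS (a := R / 2) (b := 15 * R) (by linarith) (by linarith) h
      exact e.not_ge (h2 u a v b (Or.inl c))
    · obtain ⟨u, a, v, b, c, e⟩ := crx hD hS (a := R / 2) (b := 15 * R) (by linarith) (by linarith) h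
      exact e.not_ge (h2 u a v b (Or.inr c))

end Pool.Agent.GL
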