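import Pool.Agent.Lib.MP_438f30_pr.HSt

/-! The oscillation of the coarse field on the balls of level `j`. -/

namespace Pool.Agent.GL

open MeasureTheory ProbabilityTheory Real Finset Filter Topology Metric
  Pool.Agent.Lib.MP_a0a493_pr

namespace HOsc

theorem ee_pos (j : ℕ) : 0 < ee j := by unfold ee; positivity

theorem ee_mul (j : ℕ) : ee j * 20 ^ kk j = 3 / 2 ^ j := by unfold ee; field_simp

theorem log_ee (j : ℕ) : log (ee j) = log 3 - j * log 2 - kk j * log 20 := by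
  unfold ee
  rw [log_div (by positivity) (by positivity), log_div (by positivity) (by positivity), log_pow,
    log_pow]

theorem log20 : log 20 ≤ 4 := by
  have a : log 20 ≤ log (2 ^ 5) := log_le_log (by norm_num) (by norm_num)
  rw [log_pow] at a
  have := log_two_lt_d9
  push_cast at a
  linarith

theorem log_le (h3 : KK) (j : ℕ) : log (ee j) ≤ -(j * log 2) := by
  have a : (2 : ℝ) ≤ kk j := by exact_mod_cast h3.two j
  have b : log 3 ≤ log 20 := log_le_log (by norm_num) (by norm_num)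
  have c : 0 ≤ log 20 := log_nonneg (by norm_num)
  rw [log_ee]
  nlinarith

theorem log_ge (j : ℕ) : -(j * log 2) - log (ee j) ≤ 4 * kk j := by
  have b : 0 ≤ log 3 := log_nonneg (by norm_num)
  have c := log20
  have a : (0 : ℝ) ≤ kk j := Nat.cast_nonneg _
  rw [log_ee]
  nlinarith

theorem rd_box {μ : ℝ} (h : 0 < μ) {y : E 2} {N : ℕ} (hN : 1 ≤ N) (hy : ∀ i, |y i| ≤ N * μ) :
    rd μ y ∈ box 2 N := mem_box.2 fun i => by
  have a := rd_coord h y i
  have b := abs_le.1 (hy i)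
  have c : (1 : ℝ) ≤ N := by exact_mod_cast hN
  have e1 : (rd μ y i : ℝ) ≤ 2 * N := by
    refine le_of_mul_le_mul_left ?_ h
    nlinarith [a.1, b.2]
  have e2 : -(2 * N : ℝ) ≤ rd μ y i := by
    refine le_of_mul_le_mul_left ?_ h
    nlinarith [a.2, b.1]
  have e3 : |(rd μ y i : ℝ)| ≤ 2 * N := abs_le.2 ⟨e2, e1⟩
  exact_mod_cast e3

theorem norm_box {μ : ℝ} (h : 0 < μ) {N : ℕ} {b : Zd 2} (hb : b ∈ box 2 N) :
    ‖μ • pt b‖ ≤ 2 * (μ * (2 * N)) :=
  norm_le_two (by positivity) fun i => by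
    have a : |(b i : ℝ)| ≤ 2 * N := by exact_mod_cast mem_box.1 hb i
    simp only [PiLp.smul_apply, pt_apply, smul_eq_mul, abs_mul, abs_of_pos h]
    exact mul_le_mul_of_nonneg_left a h.le

/-- a lower bound on the dyadic points of a cell extends to the cell -/
theorem dense {f : E 2 → ℝ} (hf : Continuous f) {z x : E 2} {r m : ℝ} (hr : 0 < r)
    (hx : ∀ i, |(x - z) i| ≤ r)
    (h : ∀ n : ℕ, ∀ a ∈ box 2 (2 ^ n), m ≤ f (z + (r / 2 ^ n) • pt a)) : m ≤ f x := by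
  have t0 : Tendsto (fun n : ℕ => 2 * r * (1 / 2 : ℝ) ^ n) atTop (𝓝 (2 * r * 0)) :=
    (tendsto_pow_atTop_nhds_zero_of_lt_one (by norm_num) (by norm_num)).const_mul _
  rw [mul_zero] at t0
  have t1 : Tendsto (fun n : ℕ => z + (r / 2 ^ n) • pt (rd (r / 2 ^ n) (x - z))) atTop (𝓝 x) := by
    rw [tendsto_iff_norm_sub_tendsto_zero]
    refine squeeze_zero (fun _ => norm_nonneg _) (fun n => ?_) t0
    have a := norm_rd (μ := r / 2 ^ n) (by positivity) (x - z)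
    have e : z + (r / 2 ^ n) • pt (rd (r / 2 ^ n) (x - z)) - x =
        (r / 2 ^ n) • pt (rd (r / 2 ^ n) (x - z)) - (x - z) := by abel
    rw [e]
    refine a.trans (le_of_eq ?_)
    rw [one_div, inv_pow]
    ring
  refine ge_of_tendsto' ((hf.tendsto x).comp t1) fun n => h n _ ?_
  refine rd_box (by positivity) (Nat.one_le_two_pow) fun i => (hx i).trans (le_of_eq ?_)
  push_cast
  field_simp

theorem sq3 {H : Type} [NormedAddCommGroup H] (a b c : H) :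
    ‖a + b + c‖ ^ 2 ≤ 3 * (‖a‖ ^ 2 + ‖b‖ ^ 2 + ‖c‖ ^ 2) := by
  have h : ‖a + b + c‖ ≤ ‖a‖ + ‖b‖ + ‖c‖ := norm_add₃_le
  have h2 := pow_le_pow_left₀ (norm_nonneg _) h 2
  nlinarith [sq_nonneg (‖a‖ - ‖b‖), sq_nonneg (‖a‖ - ‖c‖), sq_nonneg (‖b‖ - ‖c‖)]

/-- the centre of a small cell -/
noncomputable def oc (j : ℕ) (w b : Zd 2) : E 2 := ((2 : ℝ) ^ j)⁻¹ • pt w + ee j • pt b

theorem var (h2 : VF1) (h3 : KK) {ρ : E 2 → ℝ} (hρ : Test ρ) (hi : ∫ x, ρ x = 1) {V : ℝ}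
    (hV : ∀ (n : ℕ) (w : Zd 2),
      ‖crs ρ (-(n * log 2)) (((2 : ℝ) ^ n)⁻¹ • pt w) - vp ρ n w‖ ^ 2 ≤ V)
    (j : ℕ) (w : Zd 2) {b : Zd 2} (hb : b ∈ box 2 (2 * 20 ^ kk j)) {x : E 2}
    (hx : x ∈ closedBall (oc j w b) (4 * ee j)) :
    ‖vp ρ j w - crs ρ (log (ee j)) x‖ ^ 2 ≤ 3 * (V + 144 + 4 * kk j) := by
  have p2 : (0 : ℝ) < 2 ^ j := by positivity
  have hr := ee_pos j
  have a1 := norm_box hr hb
  have a2 : ‖x - oc j w b‖ ≤ 4 * ee j := by rwa [mem_closedBall, dist_eq_norm] at hx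
  have a3 : ee j ≤ 3 / 2 ^ j := by
    rw [← ee_mul]
    exact le_mul_of_one_le_right hr.le (one_le_pow₀ (by norm_num))
  have a4 : ‖((2 : ℝ) ^ j)⁻¹ • pt w - x‖ ≤ 36 / 2 ^ j := by
    have e : ((2 : ℝ) ^ j)⁻¹ • pt w - x = -(x - oc j w b) - ee j • pt b := by unfold oc; abel
    have e2 := ee_mul j
    rw [e]
    refine (norm_sub_le _ _).trans ?_
    rw [norm_neg]
    push_cast at a1
    have e3 : (36 : ℝ) / 2 ^ j = 12 * (3 / 2 ^ j) := by ring
    rw [e3]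
    nlinarith
  have b1 := h2.inc hρ hi (-(j * log 2)) (((2 : ℝ) ^ j)⁻¹ • pt w) x
  have b2 : exp (- -(j * log 2)) = 2 ^ j := by
    rw [neg_neg, ← log_pow, exp_log p2]
  have b3 : ‖crs ρ (-(j * log 2)) (((2 : ℝ) ^ j)⁻¹ • pt w) - crs ρ (-(j * log 2)) x‖ ^ 2 ≤ 144 := by
    refine b1.trans ?_
    rw [b2]
    calc 4 * 2 ^ j * ‖((2 : ℝ) ^ j)⁻¹ • pt w - x‖ ≤ 4 * 2 ^ j * (36 / 2 ^ j) := by gcongr
      _ = 144 := by field_simp; norm_num
  have b4 := (norm_Ev (log_le h3 j) x).trans (log_ge j)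
  have e : vp ρ j w - crs ρ (log (ee j)) x =
      -(crs ρ (-(j * log 2)) (((2 : ℝ) ^ j)⁻¹ • pt w) - vp ρ j w) +
      (crs ρ (-(j * log 2)) (((2 : ℝ) ^ j)⁻¹ • pt w) - crs ρ (-(j * log 2)) x) +
      -Ev (log (ee j)) (-(j * log 2)) x := by
    rw [h2.cut hρ hi _ _ x (log_le h3 j)]
    abel
  rw [e]
  refine (sq3 _ _ _).trans ?_
  rw [norm_neg, norm_neg]
  linarith [hV j w]

theorem count (L j : ℕ) : ((box 2 (L * 2 ^ j) ×ˢ box 2 (2 * 20 ^ kk j)).card : ℝ) ≤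
    (81 * (4 * L + 1) ^ 2) * exp (2 * j + 8 * kk j) := by
  have a1 : (2 : ℝ) ^ j ≤ exp j := by
    rw [← exp_one_pow]
    exact pow_le_pow_left₀ (by norm_num) (by linarith [add_one_le_exp (1 : ℝ)]) _
  have a2 : (20 : ℝ) ^ kk j ≤ exp (4 * kk j) := by
    rw [mul_comm, exp_nat_mul]
    refine pow_le_pow_left₀ (by norm_num) ?_ _
    calc (20 : ℝ) = exp (log 20) := (exp_log (by norm_num)).symm
      _ ≤ exp 4 := exp_le_exp.2 log20
  have a3 : (1 : ℝ) ≤ 2 ^ j := one_le_pow₀ (by norm_num)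
  have a4 : (1 : ℝ) ≤ 20 ^ kk j := one_le_pow₀ (by norm_num)
  have a5 : (0 : ℝ) ≤ L := Nat.cast_nonneg _
  have e : exp (2 * j + 8 * kk j) = (exp j * exp (4 * kk j)) ^ 2 := by
    rw [← exp_add, ← exp_nat_mul]
    congr 1
    push_cast
    ring
  rw [card_product, card_box, card_box, e]
  push_cast
  have b1 : 4 * ((L : ℝ) * 2 ^ j) + 1 ≤ (4 * L + 1) * exp j := by nlinarith
  have b2 : 4 * (2 * (20 : ℝ) ^ kk j) + 1 ≤ 9 * exp (4 * kk j) := by linarith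
  calc (4 * ((L : ℝ) * 2 ^ j) + 1) ^ 2 * (4 * (2 * (20 : ℝ) ^ kk j) + 1) ^ 2
      ≤ ((4 * L + 1) * exp j) ^ 2 * (9 * exp (4 * kk j)) ^ 2 := by gcongr
    _ = _ := by ring

end HOsc

open HOsc in
theorem osc (h1 : sCel) (h2 : VF1) (h3 : KK) : sOsc := by
  intro Ω _ P _ W hW ρ hρ hi F hF L ζ hζ
  obtain ⟨V, hV0, hV⟩ := h2.cmp hρ hi
  obtain ⟨Λ, hΛ⟩ : ∃ Λ : ℝ, Λ = 16 / ζ := ⟨_, rfl⟩
  have pΛ : 0 < Λ := by rw [hΛ]; positivity
  let S : ℕ → Zd 2 × Zd 2 → Set Ω := fun j q => {ω | ∃ n : ℕ, ∃ a ∈ box 2 (2 ^ n),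
    2 * (ζ * j / 4) + 21 / Λ ≤
      W (vp ρ j q.1 - crs ρ (log (ee j)) (oc j q.1 q.2 + (ee j / 2 ^ n) • pt a)) ω}
  let B : ℕ → Set Ω := fun j => ⋃ q ∈ box 2 (L * 2 ^ j) ×ˢ box 2 (2 * 20 ^ kk j), S j q
  have one : ∀ j, ∀ q ∈ box 2 (L * 2 ^ j) ×ˢ box 2 (2 * 20 ^ kk j), P.real (S j q) ≤
      600 * exp (32 * (3 * (V + 144 + 4 * kk j)) * Λ ^ 2) * exp (-Λ * (ζ * j / 4)) := by
    intro j q hq
    have hr := ee_pos j
    have k0 : (0 : ℝ) ≤ kk j := Nat.cast_nonneg _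
    refine h1 Ω P _ W hW (fun x => vp ρ j q.1 - crs ρ (log (ee j)) x) (oc j q.1 q.2) (ee j) _ Λ _
      hr (by positivity) pΛ (by positivity)
      (fun x hx => var h2 h3 hρ hi hV j q.1 (mem_product.1 hq).2 hx) fun x _ y _ => ?_
    have a := h2.inc hρ hi (log (ee j)) y x
    rw [exp_neg, exp_log hr, norm_sub_rev y x] at a
    rw [sub_sub_sub_cancel_left]
    refine a.trans ?_
    rw [mul_assoc, ← div_eq_inv_mul]
    exact mul_le_mul_of_nonneg_right (by linarith) (by positivity)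
  have two : ∀ᶠ j : ℕ in atTop, ‖P.real (B j)‖ ≤
      (81 * (4 * L + 1) ^ 2 * (600 * exp (96 * (V + 144) * Λ ^ 2))) * exp (-1) ^ j := by
    have p1 : 0 < 8 + 384 * Λ ^ 2 := by positivity
    filter_upwards [h3.lim (1 / (8 + 384 * Λ ^ 2)) (by positivity)] with j hj
    rw [Real.norm_of_nonneg measureReal_nonneg]
    refine (measureReal_biUnion_finset_le _ _).trans ?_
    refine (sum_le_card_nsmul _ _ _ (one j)).trans ?_
    rw [nsmul_eq_mul]
    refine (mul_le_mul_of_nonneg_right (count L j) (by positivity)).trans ?_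
    have e1 : Λ * ζ = 16 := by rw [hΛ]; field_simp
    have e2 : (8 + 384 * Λ ^ 2) * kk j ≤ j := by
      rw [one_div, ← div_eq_inv_mul, le_div_iff₀ p1] at hj
      linarith
    have e3 : exp (2 * j + 8 * kk j) * (exp (32 * (3 * (V + 144 + 4 * kk j)) * Λ ^ 2) *
        exp (-Λ * (ζ * j / 4))) ≤ exp (96 * (V + 144) * Λ ^ 2) * exp (-1) ^ j := by
      rw [← exp_nat_mul, ← exp_add, ← exp_add, ← exp_add]
      refine exp_le_exp.2 ?_
      have e4 : -Λ * (ζ * j / 4) = -(4 * j) := by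
        have : -Λ * (ζ * j / 4) = -(Λ * ζ) * j / 4 := by ring
        rw [this, e1]
        ring
      rw [e4]
      nlinarith
    have p2 : (0 : ℝ) ≤ 81 * (4 * L + 1) ^ 2 * 600 := by positivity
    have e5 := mul_le_mul_of_nonneg_left e3 p2
    linarith
  have three : Summable fun j => P.real (B j) :=
    Summable.of_norm_bounded_eventually_nat ((summable_geometric_of_lt_one (exp_pos _).le
      (exp_lt_one_iff.2 (by norm_num))).mul_left _) two
  have four : ∑' j, P (B j) ≠ ⊤ := by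
    have e : (fun j => P (B j)) = fun j => ENNReal.ofReal (P.real (B j)) :=
      funext fun j => (ofReal_measureReal (measure_ne_top _ _)).symm
    rw [e, ← ENNReal.ofReal_tsum_of_nonneg (fun _ => measureReal_nonneg) three]
    exact ENNReal.ofReal_ne_top
  have five : ∀ᵐ ω ∂P, ∀ (j : ℕ) (w b : Zd 2) (n : ℕ) (a : Zd 2),
      F j ω (oc j w b + (ee j / 2 ^ n) • pt a) =
        W (crs ρ (log (ee j)) (oc j w b + (ee j / 2 ^ n) • pt a)) ω := by
    simp only [ae_all_iff]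
    exact fun j w b n a => (hF j).2.2 _
  have six : ∀ᶠ j : ℕ in atTop, 21 / Λ / (ζ / 2) ≤ (j : ℝ) :=
    tendsto_natCast_atTop_atTop.eventually_ge_atTop _
  filter_upwards [ae_eventually_notMem four, five] with ω hω hv
  filter_upwards [hω, six] with j hj hs w hw x hx
  have hr := ee_pos j
  have hb : rd (ee j) (x - ((2 : ℝ) ^ j)⁻¹ • pt w) ∈ box 2 (2 * 20 ^ kk j) := by
    refine rd_box hr (by have : 0 < 20 ^ kk j := by positivity
                         omega) fun i => (abs_le_norm2 _ i).trans ?_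
    rw [mem_closedBall, dist_eq_norm, ← ee_mul] at hx
    push_cast
    linarith
  refine dense ((hF j).1 ω) (z := oc j w (rd (ee j) (x - ((2 : ℝ) ^ j)⁻¹ • pt w))) hr
    (fun i => ?_) fun n a ha => ?_
  · have a := rd_coord hr (x - ((2 : ℝ) ^ j)⁻¹ • pt w) i
    unfold oc
    rw [← sub_sub, PiLp.sub_apply _ (x - _), PiLp.smul_apply, pt_apply, smul_eq_mul, abs_le]
    constructor <;> linarith [a.1, a.2]
  · rw [hv]
    by_contra hc
    refine hj (Set.mem_biUnion (x := (w, rd (ee j) (x - ((2 : ℝ) ^ j)⁻¹ • pt w)))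
      (mem_coe.2 (mem_product.2 ⟨hw, hb⟩)) ⟨n, a, ha, ?_⟩)
    rw [map_sub, Pi.sub_apply]
    rw [div_le_iff₀ (by positivity)] at hs
    simp only [not_le] at hc
    linarith

end Pool.Agent.GL
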