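import Pool.Agent.Lib.MP_438f30_pr.GSt
import Pool.Agent.Lib.MP_438f30_pr.HOsc

/-! The dimension of a quasi-geodesic from the count of thin cells. -/

namespace Pool.Agent.GL

open MeasureTheory ProbabilityTheory Real Finset Filter Topology Metric
  Pool.Agent.Lib.MP_a0a493_pr
open scoped InnerProductSpace NNReal

namespace GDim

/-- box counting -/
theorem cover {X : Set R2} {γ C r : ℝ} (hγ : 0 ≤ γ) (hr : 0 < r)
    (h : ∀ᶠ j : ℕ in atTop, ∃ S : Finset R2, (S.card : ℝ) ≤ C * exp (γ * (j * log 2)) ∧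
      ∀ x ∈ X, ∃ c ∈ S, dist x c ≤ r / 2 ^ j) : dimH X ≤ ENNReal.ofReal γ := by
  obtain ⟨S, hS⟩ := h.choice
  have e (j : ℕ) (c : R2) : ediam (closedBall c (r / 2 ^ j)) ≤ ENNReal.ofReal (2 * r / 2 ^ j) :=
    ediam_le_of_forall_dist_le fun x hx y hy => by
      have := dist_triangle_right x y c
      rw [mem_closedBall] at hx hy
      rw [mul_div_assoc]
      linarith
  have t0 : Tendsto (fun j : ℕ => ENNReal.ofReal (2 * r / 2 ^ j)) atTop (𝓝 0) := by
    rw [← ENNReal.ofReal_zero]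
    exact ENNReal.tendsto_ofReal
      (tendsto_const_nhds.div_atTop (tendsto_pow_atTop_atTop_of_one_lt one_lt_two))
  have key := Measure.hausdorffMeasure_le_liminf_sum (ι := fun j => S j) γ X _ t0
    (fun j c => closedBall (c : R2) (r / 2 ^ j)) (.of_forall fun j c => e j c)
    (hS.mono fun j hj x hx => by
      obtain ⟨c, hc, hd⟩ := hj.2 x hx
      exact Set.mem_iUnion.2 ⟨⟨c, hc⟩, hd⟩)
  have k2 : (Measure.hausdorffMeasure γ X) ≤ ENNReal.ofReal (C * (2 * r) ^ γ) := by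
    refine key.trans (liminf_le_of_frequently_le' (hS.mono fun j hj => ?_).frequently)
    have p : (0 : ℝ) < 2 * r / 2 ^ j := by positivity
    calc _ ≤ ∑ _c : S j, ENNReal.ofReal ((2 * r / 2 ^ j) ^ γ) := sum_le_sum fun c _ => by
          rw [← ENNReal.ofReal_rpow_of_pos p]
          exact ENNReal.rpow_le_rpow (e j c) hγ
      _ = ENNReal.ofReal ((S j).card * (2 * r / 2 ^ j) ^ γ) := by
          rw [sum_const, card_univ, Fintype.card_coe, nsmul_eq_mul,
            ENNReal.ofReal_mul (Nat.cast_nonneg _), ENNReal.ofReal_natCast]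
      _ ≤ _ := ENNReal.ofReal_le_ofReal ((mul_le_mul_of_nonneg_right hj.1
          (rpow_nonneg p.le _)).trans (le_of_eq ?_))
    rw [div_rpow (by positivity) (by positivity),
      rpow_def_of_pos (x := (2 : ℝ) ^ j) (by positivity), log_pow, mul_comm γ]
    field_simp
  exact dimH_le_of_hausdorffMeasure_ne_top (d := γ.toNNReal)
    (by rw [Real.coe_toNNReal _ hγ]; exact ne_top_of_le_ne_top ENNReal.ofReal_ne_top k2)

end GDim

theorem dimu (h : sG2) : sDim := by
  classical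
  intro d y ξ a b β L p l hd hξ hL hF hq hb
  have l0 : 0 ≤ l := hq.1.1
  obtain ⟨γ, hγ⟩ : ∃ γ, γ = max (max β (b + ξ * a)) 0 := ⟨_, rfl⟩
  have g0 : 0 ≤ γ := hγ ▸ le_max_right _ _
  have g1 : β ≤ γ := hγ ▸ (le_max_left _ _).trans (le_max_left _ _)
  have g2 : b + ξ * a ≤ γ := hγ ▸ (le_max_right _ _).trans (le_max_left _ _)
  have key (j₁ : ℕ) : dimH {x ∈ p '' Set.Icc 0 l | 6 / 2 ^ j₁ ≤ dist x (p 0) ∧
      6 / 2 ^ j₁ ≤ dist x (p l)} ≤ ENNReal.ofReal γ := by
    refine GDim.cover (C := l + 2) (r := 9) g0 (by norm_num) ?_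
    filter_upwards [hL, hF j₁, eventually_ge_atTop j₁] with j h1 h2 hj
    have J0 : (0 : ℝ) ≤ j * log 2 := mul_nonneg j.cast_nonneg (log_nonneg one_le_two)
    obtain ⟨τ, hτ⟩ : ∃ τ, τ = exp (-((b + ξ * a) * (j * log 2))) := ⟨_, rfl⟩
    have τ0 : 0 < τ := hτ ▸ exp_pos _
    have q0 : (0 : ℝ) < (2 ^ j)⁻¹ := by positivity
    refine ⟨((box 2 ((L + 2) * 2 ^ j)).filter fun w => Thn a j₁ d (y j w) j w).image
      (fun w => ((2 : ℝ) ^ j)⁻¹ • pt w) ∪ (range (⌊l / τ⌋₊ + 1)).image fun i : ℕ => p (i * τ),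
      ?_, ?_⟩
    · have a1 := exp_le_exp.2 (mul_le_mul_of_nonneg_right g1 J0)
      have a2 := exp_le_exp.2 (mul_le_mul_of_nonneg_right g2 J0)
      have a3 := one_le_exp (mul_nonneg g0 J0)
      have a4 : (⌊l / τ⌋₊ : ℝ) ≤ l * exp ((b + ξ * a) * (j * log 2)) := by
        refine (Nat.floor_le (by positivity)).trans (le_of_eq ?_)
        rw [hτ, exp_neg, div_inv_eq_mul]
      refine (Nat.cast_le.2 ((card_union_le _ _).trans
        (add_le_add card_image_le card_image_le))).trans ?_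
      rw [card_range]
      push_cast
      nlinarith [mul_le_mul_of_nonneg_left a2 l0]
    · rintro _ ⟨⟨t, ht, rfl⟩, d0, d1⟩
      obtain ⟨w, hw⟩ : ∃ w, w = rd ((2 : ℝ) ^ j)⁻¹ (p t) := ⟨_, rfl⟩
      have n1 : dist (p t) (((2 : ℝ) ^ j)⁻¹ • pt w) ≤ 2 * (2 ^ j)⁻¹ := by
        rw [dist_comm, dist_eq_norm, hw]
        exact norm_rd q0 _
      have wb : w ∈ box 2 ((L + 2) * 2 ^ j) := hw ▸ HOsc.rd_box q0
        (Nat.one_le_iff_ne_zero.2 (by positivity)) fun i => by
          have a1 := PiLp.norm_apply_le (p t) i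
          have a2 := hb t ht
          push_cast
          rw [mul_inv_cancel_right₀ (by positivity)]
          rw [Real.norm_eq_abs] at a1
          linarith
      by_cases hy : y j w ≤ -a * (j * log 2)
      · refine ⟨_, mem_union_left _ (mem_image_of_mem _ (mem_filter.2 ⟨wb, hy, fun k hk hs => ?_⟩)),
          n1.trans (by rw [div_eq_mul_inv]; linarith)⟩
        have b1 : ((2 : ℝ) ^ j)⁻¹ ≤ (2 ^ j₁)⁻¹ :=
          inv_anti₀ (by positivity) (pow_le_pow_right₀ one_le_two hj)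
        have b2 : ((2 : ℝ) ^ j₁)⁻¹ / 256 ^ k ≤ (2 ^ j₁)⁻¹ :=
          div_le_self (by positivity) (one_le_pow₀ (by norm_num))
        have b3 : 4 * ((2 : ℝ) ^ j)⁻¹ ≤ (2 ^ j₁)⁻¹ / 256 ^ k := by
          have : (2 : ℝ) ^ (j₁ + 8 * k + 2) ≤ 2 ^ j := pow_le_pow_right₀ one_le_two (by omega)
          rw [pow_add, pow_add, pow_mul] at this
          field_simp
          norm_num at this ⊢
          linarith
        rw [div_eq_mul_inv] at d0 d1
        refine h d p l _ _ hd hq (by positivity) hs (fun m => ?_) (fun m => ?_) t ht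
          (mem_ball.2 (by linarith))
        · have := dist_triangle_right (p t) (p 0) (((2 : ℝ) ^ j)⁻¹ • pt w)
          rw [mem_ball] at m
          linarith
        · have := dist_triangle_right (p t) (p l) (((2 : ℝ) ^ j)⁻¹ • pt w)
          rw [mem_ball] at m
          linarith
      · have f1 : (⌊t / τ⌋₊ : ℝ) * τ ≤ t :=
          (le_div_iff₀ τ0).1 (Nat.floor_le (div_nonneg ht.1 τ0.le))
        have f2 : t < (⌊t / τ⌋₊ + 1) * τ := (div_lt_iff₀ τ0).1 (Nat.lt_floor_add_one _)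
        refine ⟨p (⌊t / τ⌋₊ * τ), mem_union_right _ (mem_image_of_mem (fun i : ℕ => p (i * τ))
          (mem_range.2 (Nat.lt_succ_of_le (Nat.floor_le_floor (by gcongr; exact ht.2))))), ?_⟩
        have c1 := hq.1.2 t ht (⌊t / τ⌋₊ * τ) ⟨by positivity, f1.trans ht.2⟩
        have c2 : τ ≤ exp (ξ * y j w - b * log 2 * j) := by
          rw [hτ, exp_le_exp]
          nlinarith [mul_le_mul_of_nonneg_left (not_le.1 hy).le hξ]
        rw [abs_of_nonneg (by linarith)] at c1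
        have c3 : p (⌊t / τ⌋₊ * τ) ∈ closedBall (((2 : ℝ) ^ j)⁻¹ • pt w) (2 * (3 / 2 ^ j)) := by
          by_contra c
          refine h1 w wb ⟨p t, mem_ball.2 ?_, _, c, by linarith⟩
          rw [div_eq_mul_inv]
          linarith
        have := dist_triangle_right (p t) (p (⌊t / τ⌋₊ * τ)) (((2 : ℝ) ^ j)⁻¹ • pt w)
        rw [mem_closedBall, div_eq_mul_inv 3] at c3
        rw [div_eq_mul_inv 9]
        linarith
  have e : ENNReal.ofReal γ = ENNReal.ofReal (max β (b + ξ * a)) := by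
    rw [hγ, ENNReal.ofReal_max, ENNReal.ofReal_zero, _root_.max_zero]
  rw [← e]
  have sub : p '' Set.Icc 0 l ⊆ {p 0, p l} ∪ ⋃ j₁ : ℕ, {x ∈ p '' Set.Icc 0 l |
      6 / 2 ^ j₁ ≤ dist x (p 0) ∧ 6 / 2 ^ j₁ ≤ dist x (p l)} := fun x hx => by
    by_cases c : x ∈ ({p 0, p l} : Set R2)
    · exact Or.inl c
    rw [Set.mem_insert_iff, Set.mem_singleton_iff, not_or] at c
    have t0 : Tendsto (fun j : ℕ => (6 : ℝ) / 2 ^ j) atTop (𝓝 0) :=
      tendsto_const_nhds.div_atTop (tendsto_pow_atTop_atTop_of_one_lt one_lt_two)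
    obtain ⟨j, a1, a2⟩ := ((t0.eventually_le_const (dist_pos.2 c.1)).and
      (t0.eventually_le_const (dist_pos.2 c.2))).exists
    exact Or.inr (Set.mem_iUnion.2 ⟨j, hx, a1, a2⟩)
  refine (dimH_mono sub).trans ?_
  rw [dimH_union, dimH_iUnion, (Set.toFinite _).dimH_zero]
  exact max_le zero_le (iSup_le key)

end Pool.Agent.GL
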