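import Pool.Agent.Lib.MP_438f30_pr.HSt

/-! From the metric to its Weyl scalings on open sets. -/

namespace Pool.Agent.GL

open MeasureTheory Filter Topology Metric Set

namespace HLoc

theorem two (h : MG1) {D : R2 → R2 → ℝ} {z u v : R2} {R s m : ℝ} {g : R2 → ℝ} {U : Set R2}
    (hD : IsMet D) (hs : ¬ Crx D z R s) (hm : 0 ≤ m) (hg : ∀ x ∈ closedBall z (2 * R), m ≤ g x)
    (hu : u ∈ ball z R) :
    min (ENNReal.ofReal (m * s)) (ENNReal.ofReal (m * D u v)) ≤ wey D g U u v := by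
  refine le_iInf fun q => le_iInf fun l => le_iInf fun hq => ?_
  obtain ⟨⟨l0, h1⟩, h2, h3, -⟩ := hq
  by_cases hc : ∀ r ∈ Icc 0 l, q r ∈ closedBall z (2 * R)
  · refine (min_le_right _ _).trans ?_
    have e : D u v ≤ l := by
      have := h1 0 ⟨le_rfl, l0⟩ l ⟨l0, le_rfl⟩
      rwa [h2, h3, zero_sub, abs_neg, abs_of_nonneg l0] at this
    calc ENNReal.ofReal (m * D u v) ≤ ENNReal.ofReal (m * l) :=
          ENNReal.ofReal_le_ofReal (mul_le_mul_of_nonneg_left e hm)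
      _ = ∫⁻ _ in Icc 0 l, ENNReal.ofReal m := by
          rw [setLIntegral_const, Real.volume_Icc, sub_zero, ENNReal.ofReal_mul hm]
      _ ≤ _ := setLIntegral_mono' measurableSet_Icc fun r hr =>
          ENNReal.ofReal_le_ofReal (hg _ (hc r hr))
  · push Not at hc
    obtain ⟨r, hr, hc⟩ := hc
    refine (min_le_left _ _).trans ((h.low hD hs hm hg hu hc).trans ?_)
    have sub : Icc 0 r ⊆ Icc 0 l := Icc_subset_Icc_right hr.2
    unfold wey
    exact iInf_le_of_le q (iInf_le_of_le r (iInf_le_of_le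
      ⟨⟨hr.1, fun a ha b hb => h1 a (sub ha) b (sub hb)⟩, h2, rfl, fun _ _ => mem_univ _⟩
      (lintegral_mono_set sub)))

theorem mem {D : R2 → R2 → ℝ} {g : R2 → ℝ} {U : Set R2} {u v : R2} {a : ℝ}
    (h : wey D g U u v ≤ ENNReal.ofReal a) : u ∈ U := by
  by_contra hu
  refine ENNReal.ofReal_ne_top (top_le_iff.1 (le_trans ?_ h))
  refine le_iInf fun q => le_iInf fun l => le_iInf fun hq => ?_
  exact absurd (hq.2.1 ▸ hq.2.2.2 0 ⟨le_rfl, hq.1.1⟩) hu

end HLoc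

open HLoc in
theorem loc (h : MG1) (h2 : MG2) : sLoc := by
  intro D c hD H U g hU hg g0 p l l0 hne hp
  obtain ⟨t0, ht0, hf⟩ : ∃ t0 ∈ Icc 0 l, ∃ᶠ t in 𝓝[Icc 0 l] t0, p t0 ≠ p t := by
    by_contra hc
    push Not at hc
    exact hne (isPreconnected_Icc.induction₂' (fun a b => p a = p b)
      (fun x hx => (hc x hx).mono fun y hy => ⟨hy, hy.symm⟩)
      (fun _ _ _ _ _ _ a b => a.trans b) ⟨le_rfl, l0⟩ ⟨l0, le_rfl⟩)
  have hz : p t0 ∈ U := mem (hp t0 ht0 t0 ht0)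
  have m0 : 0 < g (p t0) / 2 := half_pos (g0 _ hz)
  obtain ⟨ε, ε0, hε⟩ := Metric.eventually_nhds_iff.1
    ((hg.continuousAt (hU.mem_nhds hz)).eventually (lt_mem_nhds (half_lt_self (g0 _ hz))))
  generalize g (p t0) / 2 = m at m0 hε
  have R0 : 0 < ε / 4 := by positivity
  have hb : ∀ x ∈ closedBall (p t0) (2 * (ε / 4)), m ≤ g x := fun x hx =>
    (hε (lt_of_le_of_lt (mem_closedBall.1 hx) (by linarith))).le
  generalize ε / 4 = R at R0 hb
  obtain ⟨s, s0, hs⟩ := h2.small (p t0) hD R0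
  have key : ∀ a ∈ Icc 0 l, ∀ b ∈ Icc 0 l, p a ∈ ball (p t0) R → |a - b| < m * s →
      m * D (p a) (p b) ≤ |a - b| := fun a ha b hb' hu hab => by
    rcases min_le_iff.1 ((two h hD hs m0.le hb hu).trans (hp a ha b hb')) with e | e
    · exact absurd ((ENNReal.ofReal_le_ofReal_iff (abs_nonneg _)).1 e) (not_le.2 hab)
    · exact (ENNReal.ofReal_le_ofReal_iff (abs_nonneg _)).1 e
  obtain ⟨s', s'0, hs'⟩ := hD.top (p t0) R R0
  have d0 : 0 < min (m * s / 2) (m * s') := by positivity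
  have d1 := min_le_left (m * s / 2) (m * s')
  have d2 := min_le_right (m * s / 2) (m * s')
  generalize min (m * s / 2) (m * s') = δ at d0 d1 d2
  have near : ∀ a ∈ Icc 0 l, |t0 - a| < δ → p a ∈ ball (p t0) R := fun a ha hab => by
    have := key t0 ht0 a ha (mem_ball_self R0) (by nlinarith)
    exact mem_ball'.2 (hs' _ (lt_of_mul_lt_mul_left (by linarith) m0.le))
  have fin : ∀ a ∈ Icc 0 l, ∀ b ∈ Icc 0 l, a ≤ b → |t0 - a| < δ → |t0 - b| < δ → p a ≠ p b →
      c ≤ dimH (p '' Icc 0 l) := fun a ha b hb' hab ea eb hn => by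
    have rg : ∀ r ∈ Icc 0 ((b - a) / m), a + m * r ∈ Icc 0 l ∧ |t0 - (a + m * r)| < δ :=
      fun r hr => by
        have e1 := mul_nonneg m0.le hr.1
        have e2 := (le_div_iff₀' m0).1 hr.2
        rw [abs_lt] at ea eb ⊢
        exact ⟨⟨by linarith [ha.1], by linarith [hb'.2]⟩, by linarith [eb.1], by linarith [ea.2]⟩
    refine (H (fun r => p (a + m * r)) ((b - a) / m)
      ⟨div_nonneg (sub_nonneg.2 hab) m0.le, fun r hr r' hr' => ?_⟩ ?_).trans (dimH_mono ?_)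
    · obtain ⟨a1, a2⟩ := rg r hr
      obtain ⟨b1, b2⟩ := rg r' hr'
      have := key _ a1 _ b1 (near _ a1 a2) (by
        rw [abs_lt] at a2 b2 ⊢
        exact ⟨by linarith [a2.2, b2.1], by linarith [a2.1, b2.2]⟩)
      rw [add_sub_add_left_eq_sub, ← mul_sub, abs_mul, abs_of_pos m0] at this
      exact le_of_mul_le_mul_left this m0
    · simpa [mul_div_cancel₀ _ m0.ne'] using hn
    · rintro _ ⟨r, hr, rfl⟩
      exact ⟨_, (rg r hr).1, rfl⟩
  obtain ⟨t, h3, h4, h5⟩ := (hf.and_eventually ((eventually_mem_nhdsWithin (a := t0)).and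
    (mem_nhdsWithin_of_mem_nhds (ball_mem_nhds t0 d0)))).exists
  have h6 : |t0 - t| < δ := mem_ball'.1 h5
  have h7 : |t0 - t0| < δ := by simpa using d0
  rcases le_total t0 t with e | e
  · exact fin t0 ht0 t h4 e h7 h6 h3
  · exact fin t h4 t0 ht0 e h6 h7 h3.symm

end Pool.Agent.GL
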