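import Pool.Agent.Lib.MP_438f30_pr.HSt

/-! Crossings of annuli: subdivision, small cost and countable descriptions. -/

namespace Pool.Agent.GL

open MeasureTheory ProbabilityTheory Real Finset Filter Topology Metric
  Pool.Agent.Lib.MP_a0a493_pr

namespace HMG2

/-- a cheap pair of points on two sides of a sphere gives a cheap point on the sphere -/
theorem cross (h : MG1) {D : R2 → R2 → ℝ} (hD : IsMet D) {u v z : R2} {s ρ : ℝ}
    (hs : D u v < s) (hu : dist u z ≤ ρ) (hv : ρ ≤ dist v z) :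
    ∃ x, dist x z = ρ ∧ D u x < s ∧ D x v < s := by
  have s0 : 0 < s := lt_of_le_of_lt (h.nonneg hD u v) hs
  have h1 : wey D (fun _ => 1) Set.univ u v < ENNReal.ofReal s := by
    rw [← hD.len]
    exact (ENNReal.ofReal_lt_ofReal_iff s0).2 hs
  obtain ⟨p, l, hp, p0, pl, -, hl⟩ := h.path h1
  have hc : ContinuousOn (fun t => dist (p t) z) (Set.Icc 0 l) :=
    (continuous_id.dist continuous_const).comp_continuousOn (h.cont hD hp)
  obtain ⟨t, ht, e⟩ := intermediate_value_Icc hp.1 hc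
    (show ρ ∈ Set.Icc (dist (p 0) z) (dist (p l) z) by rw [p0, pl]; exact ⟨hu, hv⟩)
  have a := hp.2 0 ⟨le_rfl, hp.1⟩ t ht
  have b := hp.2 t ht l ⟨hp.1, le_rfl⟩
  rw [p0, zero_sub, abs_neg, abs_of_nonneg ht.1] at a
  rw [pl, abs_sub_comm, abs_of_nonneg (sub_nonneg.2 ht.2)] at b
  exact ⟨p t, e, by linarith [ht.2], by linarith [ht.1]⟩

/-- the nearest point of the grid -/
theorem grid {N : ℕ} (hN : 61 ≤ N) {z x : R2} {R : ℝ} (hR : 0 < R) (hx : dist x z ≤ 30 * R) :
    ∃ a ∈ box 2 N, dist (z + (R / 4) • pt a) x ≤ R / 2 := by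
  have h4 : 0 < R / 4 := by positivity
  refine ⟨rd (R / 4) (x - z), mem_box.2 fun i => ?_, ?_⟩
  · have a := rd_coord h4 (x - z) i
    have b : |(x - z) i| ≤ 30 * R := by
      rw [dist_eq_norm] at hx
      exact (PiLp.norm_apply_le (x - z) i).trans hx
    have c := abs_le.1 b
    have d : |((rd (R / 4) (x - z) i : ℤ) : ℝ)| ≤ 122 := by
      rw [abs_le]
      constructor <;> nlinarith [a.1, a.2, c.1, c.2]
    have e : |rd (R / 4) (x - z) i| ≤ 122 := by exact_mod_cast d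
    omega
  · have a := norm_rd h4 (x - z)
    rw [dist_eq_norm, show z + (R / 4) • pt (rd (R / 4) (x - z)) - x =
      (R / 4) • pt (rd (R / 4) (x - z)) - (x - z) by abel]
    linarith

theorem sub (h : MG1) {N : ℕ} (hN : 61 ≤ N) {D : R2 → R2 → ℝ} {z : R2} {R s : ℝ} (hD : IsMet D)
    (hR : 0 < R) (hc : Crx D z (20 * R) s) :
    ∃ a ∈ box 2 N, ∃ b ∈ box 2 N, Crx D (z + (R / 4) • pt a) R s ∧
      Crx D (z + (R / 4) • pt b) R s ∧ 8 * R ≤ dist (z + (R / 4) • pt a) (z + (R / 4) • pt b) := by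
  obtain ⟨u, hu, v, hv, hs⟩ := hc
  rw [mem_ball] at hu
  rw [mem_closedBall, not_le] at hv
  obtain ⟨x, hx, -, hxv⟩ := cross h hD (z := z) (ρ := 30 * R) hs (by linarith)
    (by linarith)
  obtain ⟨a, ha, ha'⟩ := grid hN hR (x := u) (z := z) (by linarith)
  obtain ⟨b, hb, hb'⟩ := grid hN hR hx.le
  refine ⟨a, ha, b, hb, ⟨u, ?_, v, ?_, hs⟩, ⟨x, ?_, v, ?_, hxv⟩, ?_⟩
  · rw [mem_ball']
    linarith
  · rw [mem_closedBall, not_le]
    linarith [dist_triangle4 v (z + (R / 4) • pt a) u z]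
  · rw [mem_ball']
    linarith
  · rw [mem_closedBall, not_le]
    linarith [dist_triangle4 v (z + (R / 4) • pt b) x z]
  · have c := dist_triangle4 x (z + (R / 4) • pt b) (z + (R / 4) • pt a) u
    have d := dist_triangle x u z
    rw [dist_comm x (z + (R / 4) • pt b), dist_comm (z + (R / 4) • pt b) (z + _)] at c
    linarith

end HMG2

theorem mg2 (h : MG1) : MG2 where
  sub hD hR hc := HMG2.sub h le_rfl hD hR hc
  small := by
    intro D z R hD hR
    obtain ⟨s, s0, hs⟩ := ((isCompact_closedBall z R).prod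
      (isCompact_sphere z (3 * R / 2))).exists_forall_le' hD.cont.continuousOn (a := 0) (by
        rintro ⟨u, x⟩ ⟨hu, hx⟩
        obtain ⟨s, s0, hs⟩ := hD.top u (R / 2) (by positivity)
        refine lt_of_lt_of_le s0 (not_lt.1 fun e => ?_)
        have a := hs x e
        have b := dist_triangle x u z
        rw [mem_closedBall] at hu
        rw [mem_sphere] at hx
        rw [dist_comm x u] at b
        linarith)
    refine ⟨s, s0, ?_⟩
    rintro ⟨u, hu, v, hv, huv⟩
    rw [mem_ball] at hu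
    rw [mem_closedBall, not_le] at hv
    obtain ⟨x, hx, hux, -⟩ := HMG2.cross h hD (z := z) (ρ := 3 * R / 2) huv (by linarith)
      (by linarith)
    exact absurd (hs (u, x) ⟨mem_closedBall.2 hu.le, mem_sphere.2 hx⟩) (not_le.2 hux)
  rat := by
    intro D S z R s hD hS
    refine ⟨?_, fun ⟨u, _, v, _, hu, hv, huv⟩ => ⟨u, hu, v, hv, huv⟩⟩
    rintro ⟨u, hu, v, hv, huv⟩
    have ho : IsOpen ((ball z R ×ˢ (closedBall z (2 * R))ᶜ) ∩
        {q : R2 × R2 | D q.1 q.2 < s}) :=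
      (isOpen_ball.prod isClosed_closedBall.isOpen_compl).inter (isOpen_lt hD continuous_const)
    obtain ⟨q, hq, ⟨h1, h2⟩, h3⟩ := (hS.prod hS).exists_mem_open ho ⟨(u, v), ⟨hu, hv⟩, huv⟩
    exact ⟨q.1, hq.1, q.2, hq.2, h1, h2, h3⟩

end Pool.Agent.GL
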