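import Pool.Agent.Lib.MP_438f30_pr.GSt
import Pool.Agent.Lib.MP_438f30_pr.HMG1
import Pool.Agent.Lib.MP_438f30_pr.HMG2
import Pool.Agent.Lib.MP_438f30_pr.HMG3
import Pool.Agent.Lib.MP_438f30_pr.HLoc

/-! Geodesics of a Weyl scaling are locally quasi-geodesics of any other Weyl scaling. -/

namespace Pool.Agent.GL

open Metric Set Filter Topology

namespace GRed

theorem upper {D : R2 → R2 → ℝ} {g : R2 → ℝ} {U : Set R2} {z u v : R2} {R M s : ℝ}
    (hD : IsMet D) (hM : 0 < M) (hg : ∀ x ∈ closedBall z (2 * R), g x ≤ M ∧ x ∈ U)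
    (h : ¬ Crx D z R s) (hu : u ∈ ball z R) (hs : D u v < s) :
    wey D g U u v ≤ ENNReal.ofReal (M * D u v) := by
  have key : ∀ l0, D u v < l0 → l0 ≤ s → wey D g U u v ≤ ENNReal.ofReal (M * l0) := by
    intro l0 h1 h2
    obtain ⟨p, l, hp, hp0, hpl, hl⟩ := HMG3.ex_path mg1 hD h1
    have h4 := mg1.up (g := g) (M := M) (U := U) hp 0 l le_rfl hp.1 le_rfl (by
      intro r hr
      refine hg _ ?_
      by_contra hn
      refine h ⟨u, hu, p r, hn, ?_⟩
      have h5 := hp.2 0 ⟨le_rfl, hp.1⟩ r hr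
      rw [hp0, zero_sub, abs_neg, abs_of_nonneg hr.1] at h5
      have := hr.2
      linarith)
    rw [hp0, hpl, sub_zero] at h4
    exact h4.trans (ENNReal.ofReal_le_ofReal (mul_le_mul_of_nonneg_left hl.le hM.le))
  have hc : Tendsto (fun l0 : ℝ => ENNReal.ofReal (M * l0)) (𝓝[>] (D u v))
      (𝓝 (ENNReal.ofReal (M * D u v))) :=
    ((ENNReal.continuous_ofReal.comp (continuous_const.mul continuous_id)).tendsto _).mono_left
      nhdsWithin_le_nhds
  refine ge_of_tendsto hc ?_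
  filter_upwards [Ioo_mem_nhdsGT hs] with l0 hl using key l0 hl.1 hl.2.le

theorem lc {D : R2 → R2 → ℝ} {g : R2 → ℝ} {U : Set R2} {z : R2} (hD : IsMet D) (hU : IsOpen U)
    (hg : ContinuousOn g U) (hz : z ∈ U) (g0 : 0 < g z) :
    ∃ m > (0 : ℝ), ∃ s > (0 : ℝ), ∃ r > (0 : ℝ),
      (∀ v, min (ENNReal.ofReal (m * s)) (ENNReal.ofReal (m * D z v)) ≤ wey D g U z v) ∧
      ∀ u ∈ ball z r, ∀ v ∈ ball z r, ENNReal.ofReal (m * D u v) ≤ wey D g U u v ∧
        wey D g U u v ≤ ENNReal.ofReal (2 * m * D u v) := by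
  have hc := hg.continuousAt (hU.mem_nhds hz)
  have e1 := hc.eventually (lt_mem_nhds (show 2 * g z / 3 < g z by linarith))
  have e2 := hc.eventually (gt_mem_nhds (show g z < 2 * (2 * g z / 3) by linarith))
  have m0 : 0 < 2 * g z / 3 := by positivity
  generalize 2 * g z / 3 = m at e1 e2 m0
  obtain ⟨ε, ε0, hε⟩ := Metric.eventually_nhds_iff.1 (e1.and (e2.and (hU.mem_nhds hz)))
  have R0 : 0 < ε / 4 := by positivity
  have hb : ∀ x ∈ closedBall z (2 * (ε / 4)), m ≤ g x ∧ g x ≤ 2 * m ∧ x ∈ U := fun x hx => by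
    obtain ⟨a, b, c⟩ := hε (lt_of_le_of_lt (mem_closedBall.1 hx) (by linarith))
    exact ⟨a.le, b.le, c⟩
  generalize ε / 4 = R at R0 hb
  obtain ⟨s, s0, hs⟩ := (mg2 mg1).small z hD R0
  have o : IsOpen {b | D z b < s / 2} :=
    isOpen_lt (hD.cont.comp (continuous_const.prodMk continuous_id)) continuous_const
  obtain ⟨r, r0, hr⟩ := Metric.isOpen_iff.1 (o.inter (isOpen_ball (x := z) (ε := R))) z
    ⟨by simp [hD.self, s0], mem_ball_self R0⟩
  refine ⟨m, m0, s, s0, r, r0, fun v => HLoc.two mg1 hD hs m0.le (fun x hx => (hb x hx).1)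
    (mem_ball_self R0), fun u hu v hv => ?_⟩
  have a1 : D z u < s / 2 := (hr hu).1
  have a2 : D z v < s / 2 := (hr hv).1
  have a3 : D u v < s := by
    have := hD.tri u z v
    rw [hD.symm u z] at this
    linarith
  refine ⟨?_, upper hD (by positivity) (fun x hx => (hb x hx).2) hs (hr hu).2 a3⟩
  have := HLoc.two (v := v) (U := U) mg1 hD hs m0.le (fun x hx => (hb x hx).1) (hr hu).2
  rwa [min_eq_right (ENNReal.ofReal_le_ofReal (mul_le_mul_of_nonneg_left a3.le m0.le))] at this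

end GRed

theorem red : sRed := by
  intro D D' g' c hD hD' hg' g0' hw H U g hU hg g0 p l _ hp
  refine isCompact_Icc.induction_on (p := fun S => dimH (p '' S) ≤ c) (by simp)
    (fun S T h a => (dimH_mono (image_mono h)).trans a)
    (fun S T a b => by rw [image_union, dimH_union]; exact max_le a b) fun t0 ht0 => ?_
  have hz : p t0 ∈ U := HLoc.mem (hp t0 ht0 t0 ht0).le
  obtain ⟨m, m0, s, s0, r, r0, k1, k2⟩ := GRed.lc hD hU hg hz (g0 _ hz)
  obtain ⟨m', m0', -, -, r', r0', -, k2'⟩ :=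
    GRed.lc hD isOpen_univ hg'.continuousOn (mem_univ (p t0)) (g0' _)
  obtain ⟨s', s'0, hs'⟩ := hD.top (p t0) (min r r') (lt_min r0 r0')
  have d0 : 0 < min (m * s / 2) (m * s' / 2) := by positivity
  have d1 := min_le_left (m * s / 2) (m * s' / 2)
  have d2 := min_le_right (m * s / 2) (m * s' / 2)
  generalize min (m * s / 2) (m * s' / 2) = δ at d0 d1 d2
  have ms := mul_pos m0 s0
  have ms' := mul_pos m0 s'0
  have near : ∀ a ∈ Icc 0 l, |t0 - a| ≤ δ → p a ∈ ball (p t0) r ∧ p a ∈ ball (p t0) r' :=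
    fun a ha hab => by
      have := k1 (p a)
      rw [hp t0 ht0 a ha] at this
      rcases min_le_iff.1 this with e | e
      · have := (ENNReal.ofReal_le_ofReal_iff (abs_nonneg _)).1 e
        linarith
      · have e := (ENNReal.ofReal_le_ofReal_iff (abs_nonneg _)).1 e
        have := hs' (p a) (lt_of_mul_lt_mul_left (by linarith) m0.le)
        rw [lt_min_iff] at this
        exact ⟨mem_ball'.2 this.1, mem_ball'.2 this.2⟩
  have cmp : ∀ a ∈ Icc 0 l, ∀ b ∈ Icc 0 l, |t0 - a| ≤ δ → |t0 - b| ≤ δ →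
      m * D' (p a) (p b) ≤ 2 * m' * |a - b| ∧ m' * |a - b| ≤ 2 * m * D' (p a) (p b) :=
    fun a ha b hb ea eb => by
      obtain ⟨a1, a2⟩ := k2 _ (near a ha ea).1 _ (near b hb eb).1
      obtain ⟨b1, b2⟩ := k2' _ (near a ha ea).2 _ (near b hb eb).2
      have n0 := mg1.nonneg hD (p a) (p b)
      rw [hp a ha b hb] at a1 a2
      rw [← hw] at b1 b2
      rw [ENNReal.ofReal_le_ofReal_iff (abs_nonneg _)] at a1
      rw [ENNReal.ofReal_le_ofReal_iff (by positivity)] at a2 b2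
      rw [ENNReal.ofReal_le_ofReal_iff (mg1.nonneg hD' _ _)] at b1
      constructor
      · have := mul_le_mul_of_nonneg_left b2 m0.le
        have := mul_le_mul_of_nonneg_left a1 m0'.le
        nlinarith
      · have := mul_le_mul_of_nonneg_left a2 m0'.le
        have := mul_le_mul_of_nonneg_left b1 m0.le
        nlinarith
  have k0 : 0 < m / (2 * m') := by positivity
  have ke : m = 2 * m' * (m / (2 * m')) := by field_simp
  generalize m / (2 * m') = k at k0 ke
  have a0 : max 0 (t0 - δ) ≤ t0 := max_le ht0.1 (by linarith)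
  have a1 := le_max_left 0 (t0 - δ)
  have a2 := le_max_right 0 (t0 - δ)
  have b0 : t0 ≤ min l (t0 + δ) := le_min ht0.2 (by linarith)
  have b1 := min_le_left l (t0 + δ)
  have b2 := min_le_right l (t0 + δ)
  have hn : Icc (max 0 (t0 - δ)) (min l (t0 + δ)) ∈ 𝓝[Icc 0 l] t0 := by
    rw [← Icc_inter_Icc]
    exact inter_mem_nhdsWithin _ (Icc_mem_nhds (by linarith) (by linarith))
  generalize max 0 (t0 - δ) = a at a0 a1 a2 hn
  generalize min l (t0 + δ) = b at b0 b1 b2 hn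
  refine ⟨_, hn, ?_⟩
  have rg : ∀ x ∈ Icc 0 ((b - a) / k), a + k * x ∈ Icc 0 l ∧ |t0 - (a + k * x)| ≤ δ :=
    fun x hx => by
      have e1 := mul_nonneg k0.le hx.1
      have e2 := (le_div_iff₀' k0).1 hx.2
      rw [abs_le]
      exact ⟨⟨by linarith, by linarith⟩, by linarith, by linarith⟩
  have qq : ∀ x ∈ Icc 0 ((b - a) / k), ∀ y ∈ Icc 0 ((b - a) / k),
      D' (p (a + k * x)) (p (a + k * y)) ≤ |x - y| ∧
        |x - y| ≤ 4 * D' (p (a + k * x)) (p (a + k * y)) := fun x hx y hy => by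
    obtain ⟨e1, e2⟩ := cmp _ (rg x hx).1 _ (rg y hy).1 (rg x hx).2 (rg y hy).2
    rw [add_sub_add_left_eq_sub, ← mul_sub, abs_mul, abs_of_pos k0] at e1 e2
    have mk := mul_pos m0' k0
    constructor
    · refine le_of_mul_le_mul_left ?_ m0
      rw [← mul_assoc, ← ke] at e1
      exact e1
    · refine le_of_mul_le_mul_left ?_ mk
      rw [ke] at e2
      linarith
  refine le_trans (dimH_mono ?_) (H (fun x => p (a + k * x)) ((b - a) / k)
    ⟨⟨div_nonneg (by linarith) k0.le, fun x hx y hy => (qq x hx y hy).1⟩,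
      fun x hx y hy => (qq x hx y hy).2⟩)
  rintro _ ⟨t, ht, rfl⟩
  refine ⟨(t - a) / k, ⟨div_nonneg (by linarith [ht.1]) k0.le,
    div_le_div_of_nonneg_right (by linarith [ht.2]) k0.le⟩, ?_⟩
  simp [mul_div_cancel₀ _ k0.ne']

end Pool.Agent.GL
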