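import Pool.Agent.Lib.MP_438f30_pr.NSt

/-! Scaling of length metrics. -/

namespace Pool.Agent.GL

open MeasureTheory Real Metric Pool.Agent.Lib.MP_a0a493_pr

namespace NScl

variable {d d' : R2 → R2 → ℝ} {r k : ℝ} {z : R2}

theorem le (T : R2 → R2) (hk : 0 < k) (h : ∀ u v, d (T u) (T v) = k * d' u v) {U U' : Set R2}
    (hU : ∀ x ∈ U', T x ∈ U) (u v : R2) :
    wey d (fun _ => 1) U (T u) (T v) ≤ ENNReal.ofReal k * wey d' (fun _ => 1) U' u v := by
  have k0 := (ENNReal.ofReal_pos.2 hk).ne'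
  simp only [wey, ENNReal.mul_iInf_of_ne k0 ENNReal.ofReal_ne_top]
  refine le_iInf fun p => le_iInf fun l => le_iInf fun ⟨⟨l0, hp⟩, p0, pl, pU⟩ => ?_
  have m : ∀ t ∈ Set.Icc 0 (k * l), t / k ∈ Set.Icc 0 l := fun t ht =>
    ⟨div_nonneg ht.1 hk.le, (div_le_iff₀' hk).2 ht.2⟩
  refine iInf_le_of_le (fun t => T (p (t / k))) (iInf_le_of_le (k * l) (iInf_le_of_le
    ⟨⟨by positivity, fun s hs t ht => ?_⟩, by simp [p0], by simp [hk.ne', pl],
      fun t ht => hU _ (pU _ (m t ht))⟩ ?_))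
  · have := hp _ (m s hs) _ (m t ht)
    rw [← sub_div, abs_div, abs_of_pos hk, le_div_iff₀' hk] at this
    rwa [h]
  · simp [ENNReal.ofReal_mul hk.le]

theorem eq (hr : 0 < r) (hk : 0 < k) (h : ∀ u v, d (r • u + z) (r • v + z) = k * d' u v)
    {U U' : Set R2} (hU : ∀ x, r • x + z ∈ U ↔ x ∈ U') (u v : R2) :
    wey d (fun _ => 1) U (r • u + z) (r • v + z) =
      ENNReal.ofReal k * wey d' (fun _ => 1) U' u v := by
  refine le_antisymm (le (fun x => r • x + z) hk h (fun x => (hU x).2) u v) ?_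
  have e : ∀ x : R2, r • r⁻¹ • (x - z) + z = x := fun x => by simp [hr.ne']
  have := le (d := d') (d' := d) (fun x => r⁻¹ • (x - z)) (inv_pos.2 hk) (fun u v => by
    rw [eq_inv_mul_iff_mul_eq₀ hk.ne', ← h, e, e]) (U := U') (U' := U)
    (fun x hx => (hU _).1 (by rwa [e])) (r • u + z) (r • v + z)
  simp only [add_sub_cancel_right, inv_smul_smul₀ hr.ne'] at this
  refine (mul_le_mul_right this _).trans_eq ?_
  rw [← mul_assoc, ← ENNReal.ofReal_mul hk.le, mul_inv_cancel₀ hk.ne', ENNReal.ofReal_one, one_mul]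

theorem dist_eq (hr : 0 < r) (u v : R2) : dist (r • u + z) (r • v + z) = r * dist u v := by
  rw [dist_add_right, dist_smul₀, norm_of_nonneg hr.le]

end NScl

open NScl

theorem scl : Scl where
  met {d d' r k z} hr hk h hd := by
    have e : ∀ u v, d' u v = k⁻¹ * d (r • u + z) (r • v + z) := fun u v => by
      rw [h, inv_mul_cancel_left₀ hk.ne']
    refine ⟨fun u => by rw [e, hd.self, mul_zero], fun u v => by rw [e, e v, hd.symm],
      fun u v w => ?_, ?_, fun u t ht => ?_, fun u v => ?_⟩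
    · rw [e, e u, e v, ← mul_add]
      exact mul_le_mul_of_nonneg_left (hd.tri _ _ _) (inv_pos.2 hk).le
    · simp only [e]
      exact continuous_const.mul (hd.cont.comp
        (f := fun q : R2 × R2 => (r • q.1 + z, r • q.2 + z)) (by fun_prop))
    · obtain ⟨s, s0, hs⟩ := hd.top (r • u + z) (r * t) (mul_pos hr ht)
      refine ⟨s / k, div_pos s0 hk, fun v hv => ?_⟩
      have := hs (r • v + z) (by rwa [h, ← lt_div_iff₀' hk])
      rwa [dist_eq hr, mul_lt_mul_iff_right₀ hr] at this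
    · rw [← ENNReal.mul_right_inj (ENNReal.ofReal_pos.2 hk).ne' ENNReal.ofReal_ne_top,
        ← eq hr hk h (U := Set.univ) (by simp), ← hd.len, h, ENNReal.ofReal_mul hk.le]
  lnk {d d' r k z} hr hk h R s u v := by
    rw [Lnk, Lnk, eq hr hk h (U' := ball 0 R) fun x => ?_, ENNReal.ofReal_mul hk.le,
      ENNReal.mul_lt_mul_iff_right (ENNReal.ofReal_pos.2 hk).ne' ENNReal.ofReal_ne_top]
    have := dist_eq (z := z) hr x 0
    rw [smul_zero, zero_add] at this
    rw [mem_ball, mem_ball, this, mul_lt_mul_iff_right₀ hr]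

end Pool.Agent.GL
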