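import Pool.Agent.Lib.MP_438f30_pr.NSt
import Pool.Agent.Lib.MP_438f30_pr.HMG1
import Pool.Agent.Lib.MP_438f30_pr.HMG3

/-! The event that two points are joined inside a ball at small cost is measurable. -/

namespace Pool.Agent.GL

open MeasureTheory ProbabilityTheory Real Finset Filter Topology Metric
  Pool.Agent.Lib.MP_a0a493_pr
open scoped InnerProductSpace

namespace NLnkM

/-- chains of `n` short steps through `T` from `a` to `v` -/
def Ch (U T C : Set R2) (v : R2) : ℕ → R2 → ℝ → Set (R2 → R2 → ℝ)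
  | 0, a, s => {_d | a = v ∧ v ∈ U ∧ 0 < s}
  | n + 1, a, s => ⋃ b ∈ T, ⋃ q : ℚ,
      ({d | d a b < q} ∩ ⋂ y ∈ C, {d | (q : ℝ) ≤ d a y}) ∩ Ch U T C v n b (s - q)

variable {U T C : Set R2} {v : R2} {d : R2 → R2 → ℝ}

theorem meas (hT : T.Countable) (hC : C.Countable) (n : ℕ) :
    ∀ a s, MeasurableSet (Ch U T C v n a s) := by
  have h : ∀ a b : R2, Measurable fun d : R2 → R2 → ℝ => d a b := fun a b =>
    (measurable_pi_apply b).comp (measurable_pi_apply a)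
  induction n with
  | zero => exact fun a s => MeasurableSet.const _
  | succ n ih =>
    exact fun a s => MeasurableSet.biUnion hT fun b _ => MeasurableSet.iUnion fun q =>
      ((measurableSet_lt (h a b) measurable_const).inter (MeasurableSet.biInter hC fun y _ =>
        measurableSet_le measurable_const (h a y))).inter (ih _ _)

theorem step {n : ℕ} {a b : R2} {s : ℝ} {q : ℚ} (hb : b ∈ T) (h1 : d a b < q)
    (h2 : ∀ y ∈ C, (q : ℝ) ≤ d a y) (h3 : d ∈ Ch U T C v n b (s - q)) :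
    d ∈ Ch U T C v (n + 1) a s :=
  Set.mem_biUnion hb (Set.mem_iUnion.2 ⟨q, ⟨h1, Set.mem_iInter₂.2 h2⟩, h3⟩)

theorem of_ch (hd : IsMet d) (hC : Uᶜ ⊆ closure C) (n : ℕ) :
    ∀ a s, d ∈ Ch U T C v n a s → wey d (fun _ => 1) U a v < ENNReal.ofReal s := by
  induction n with
  | zero =>
    rintro a s ⟨rfl, h1, h2⟩
    exact HMG3.lt_of mg1 (p := fun _ => a) (l := 0)
      ⟨le_rfl, fun _ _ _ _ => (hd.self a).trans_le (abs_nonneg _)⟩ 0 le_rfl le_rfl
      (fun _ _ => h1) h2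
  | succ n ih =>
    intro a s h
    obtain ⟨b, -, h⟩ := Set.mem_iUnion₂.1 h
    obtain ⟨q, ⟨h1, h2⟩, h3⟩ := Set.mem_iUnion.1 h
    have h4 : closure C ⊆ {y | (q : ℝ) ≤ d a y} := closure_minimal (Set.mem_iInter₂.1 h2)
      (isClosed_le continuous_const (hd.cont.comp (continuous_const.prodMk continuous_id)))
    obtain ⟨p, l, hp, p0, p1, hl⟩ := HMG3.ex_path mg1 hd h1
    have h5 := HMG3.lt_of mg1 (U := U) hp l hp.1 le_rfl (fun r hr => by
      by_contra hn
      have h6 : (q : ℝ) ≤ d a (p r) := h4 (hC hn)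
      have h7 := hp.2 0 ⟨le_rfl, hp.1⟩ r hr
      rw [p0, zero_sub, abs_neg, abs_of_nonneg hr.1] at h7
      linarith [hr.2]) hl
    rw [p0, p1] at h5
    simpa using HMG3.tri mg1 hd h5 (ih _ _ h3)

theorem to_ch (hd : IsMet d) (hU : IsOpen U) (hC : C ⊆ Uᶜ) (hT : Dense T) (hv : v ∈ T) {u : R2}
    {s : ℝ} (h : wey d (fun _ => 1) U u v < ENNReal.ofReal s) : ∃ n, d ∈ Ch U T C v n u s := by
  obtain ⟨p, l, hp, p0, p1, pU, hl⟩ := mg1.path h
  obtain ⟨δ, hδ, hy⟩ : ∃ δ > (0 : ℝ), ∀ t ∈ Set.Icc 0 l, t ∈ Set.Icc 0 l →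
      ∀ y ∈ C, 4 * δ ≤ d (p t) y := by
    refine (isCompact_Icc (a := (0 : ℝ)) (b := l)).induction_on
      (p := fun K => ∃ δ > (0 : ℝ), ∀ t ∈ K, t ∈ Set.Icc 0 l → ∀ y ∈ C, 4 * δ ≤ d (p t) y)
      ⟨1, one_pos, fun _ h => h.elim⟩ (fun K K' hK ⟨δ, h1, h2⟩ => ⟨δ, h1, fun t ht => h2 t (hK ht)⟩)
      (fun K K' ⟨δ, h1, h2⟩ ⟨δ', h3, h4⟩ => ⟨min δ δ', lt_min h1 h3, fun t ht ht' y hy => ?_⟩)
      fun t ht => ?_
    · rcases ht with ht | ht
      · linarith [h2 t ht ht' y hy, min_le_left δ δ']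
      · linarith [h4 t ht ht' y hy, min_le_right δ δ']
    · obtain ⟨r, r0, hr⟩ := Metric.isOpen_iff.1 hU _ (pU t ht)
      obtain ⟨c, c0, hc⟩ := hd.top (p t) r r0
      refine ⟨ball t (c / 2), mem_nhdsWithin_of_mem_nhds (ball_mem_nhds _ (by positivity)),
        c / 8, by positivity, fun t' h1 h2 y hy => ?_⟩
      have h3 : c ≤ d (p t) y := le_of_not_gt fun h4 => hC hy (hr (mem_ball'.2 (hc y h4)))
      have h4 := hp.2 t ht t' h2
      rw [mem_ball', Real.dist_eq] at h1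
      linarith [hd.tri (p t) (p t') y]
  have far : ∀ t ∈ Set.Icc 0 l, ∀ a, d a (p t) < δ → ∀ q : ℚ, (q : ℝ) < 3 * δ →
      ∀ y ∈ C, (q : ℝ) ≤ d a y := fun t ht a ha q hq y hy' => by
    linarith [hy t ht ht y hy', hd.tri (p t) a y, hd.symm a (p t)]
  have base : ∀ t ∈ Set.Icc 0 l, l - t ≤ δ → ∀ a s', d a (p t) < δ → d a (p t) + (l - t) < s' →
      ∃ n, d ∈ Ch U T C v n a s' := fun t ht h1 a s' h2 h3 => by
    have h4 := hp.2 t ht l ⟨hp.1, le_rfl⟩
    rw [p1, abs_sub_comm, abs_of_nonneg (sub_nonneg.2 ht.2)] at h4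
    have h5 := hd.tri a (p t) v
    obtain ⟨q, h6, h7⟩ := exists_rat_btwn (lt_min (show d a v < s' by linarith)
      (show d a v < 3 * δ by linarith))
    exact ⟨1, step hv h6 (far t ht a h2 q (h7.trans_le (min_le_right _ _)))
      ⟨rfl, p1 ▸ pU l ⟨hp.1, le_rfl⟩, sub_pos.2 (h7.trans_le (min_le_left _ _))⟩⟩
  have key : ∀ n : ℕ, ∀ t ∈ Set.Icc 0 l, l - t ≤ n * δ → ∀ a s', d a (p t) < δ →
      d a (p t) + (l - t) < s' → ∃ n, d ∈ Ch U T C v n a s' := fun n => by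
    induction n with
    | zero => exact fun t ht h1 => base t ht (by rw [Nat.cast_zero] at h1; linarith)
    | succ n ih =>
      intro t ht h1 a s' h2 h3
      rcases le_total (l - t) δ with h4 | h4
      · exact base t ht h4 a s' h2 h3
      have ht' : t + δ ∈ Set.Icc 0 l := ⟨by linarith [ht.1], by linarith⟩
      obtain ⟨ε, hε⟩ : ∃ ε, ε = s' - (d a (p t) + (l - t)) := ⟨_, rfl⟩
      obtain ⟨b, h5, hb⟩ := hT.inter_open_nonempty {b | d (p (t + δ)) b < min (ε / 3) δ}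
        (isOpen_lt (hd.cont.comp (continuous_const.prodMk continuous_id)) continuous_const)
        ⟨p (t + δ), (hd.self _).trans_lt (lt_min (by linarith) hδ)⟩
      obtain ⟨h6, h7⟩ := lt_min_iff.1 (show d (p (t + δ)) b < min (ε / 3) δ from h5)
      have h8 := hp.2 t ht _ ht'
      rw [abs_sub_comm, add_sub_cancel_left, abs_of_pos hδ] at h8
      have h9 := hd.tri a (p t) b
      have h10 := hd.tri (p t) (p (t + δ)) b
      have h11 := hd.symm b (p (t + δ))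
      obtain ⟨q, q1, q2⟩ := exists_rat_btwn (lt_min
        (show d a b < d a (p t) + δ + ε / 3 by linarith) (show d a b < 3 * δ by linarith))
      obtain ⟨q2, q3⟩ := lt_min_iff.1 q2
      obtain ⟨m, hm⟩ := ih _ ht' (by push_cast at h1; linarith) b (s' - q) (by linarith)
        (by linarith)
      exact ⟨m + 1, step hb q1 (far t ht a h2 q q3) hm⟩
  obtain ⟨n, hn⟩ := exists_nat_ge (l / δ)
  refine key n 0 ⟨le_rfl, hp.1⟩ (by rw [div_le_iff₀ hδ] at hn; linarith) u s ?_ ?_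
  · rw [p0, hd.self]; exact hδ
  · rw [p0, hd.self]; linarith

end NLnkM

theorem lnkM : sLnkM := by
  intro z R s u v
  obtain ⟨S, hS, hS'⟩ := TopologicalSpace.exists_countable_dense R2
  obtain ⟨C, hC1, hC2, hC3⟩ :=
    (TopologicalSpace.IsSeparable.of_separableSpace (ball z R)ᶜ).exists_countable_dense_subset
  refine ⟨⋃ n, NLnkM.Ch (ball z R) (insert v S) C v n u s,
    MeasurableSet.iUnion fun n => NLnkM.meas (hS.insert v) hC2 n u s, fun d hd => ⟨fun h => ?_,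
      fun h => ?_⟩⟩
  · exact Set.mem_iUnion.2 (NLnkM.to_ch hd isOpen_ball hC1 (hS'.mono (Set.subset_insert _ _))
      (Set.mem_insert _ _) h)
  · obtain ⟨n, h⟩ := Set.mem_iUnion.1 h
    exact NLnkM.of_ch hd hC3 n u s h

end Pool.Agent.GL
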