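import Pool.Agent.Lib.MP_438f30_pr.GSt

/-! A local event of a version of the field agrees a.s. with an event of the process. -/

namespace Pool.Agent.GL

open MeasureTheory ProbabilityTheory Real Finset Filter Topology Metric
  Pool.Agent.Lib.MP_a0a493_pr
open scoped InnerProductSpace

namespace GVer

/-- the sets whose preimage under `F` agrees a.e. with an `m`-measurable set -/
@[reducible] def good {Ω X : Type} (m : MeasurableSpace Ω) [MeasurableSpace Ω] (P : Measure Ω)
    (F : Ω → X) : MeasurableSpace X where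
  MeasurableSet' A := ∃ B : Set Ω, MeasurableSet[m] B ∧ {ω | F ω ∈ A} =ᵐ[P] B
  measurableSet_empty := ⟨∅, @MeasurableSet.empty _ m, EventuallyEq.rfl⟩
  measurableSet_compl := by
    rintro A ⟨B, hB, h⟩
    exact ⟨Bᶜ, hB.compl, h.compl⟩
  measurableSet_iUnion := by
    intro A hA
    choose B hB h using hA
    refine ⟨⋃ i, B i, MeasurableSet.iUnion hB, ?_⟩
    have e : {ω | F ω ∈ ⋃ i, A i} = ⋃ i, {ω | F ω ∈ A i} := by
      ext ω
      simp
    rw [e]
    exact Filter.EventuallyEq.countable_iUnion h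

end GVer

theorem ver : sVer := by
  intro Ω _ P H _ _ W Ψ v U K h A hA
  have key : sig U ≤ GVer.good (GU.FK W K) P fun ω φ => Ψ φ ω := by
    refine iSup_le fun φ => iSup_le fun hφ => ?_
    rintro _ ⟨S, hS, rfl⟩
    obtain ⟨h1, h2⟩ := h φ hφ.1 hφ.2
    have hS' : MeasurableSet S := by
      rw [BorelSpace.measurable_eq (α := ℝ)]
      exact hS
    refine ⟨W (v φ) ⁻¹' S, GU.meas_FK W h2 hS', ?_⟩
    filter_upwards [h1] with ω hω
    change (Ψ φ ω ∈ S) = (W (v φ) ω ∈ S)
    rw [hω]
  exact key A hA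

end Pool.Agent.GL
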