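import Pool.Agent.Lib.MP_438f30_pr.HSt

/-! Equality in law of Gaussian fields. -/

namespace Pool.Agent.GL

open MeasureTheory ProbabilityTheory Pool.Agent.Lib.MP_a0a493_pr
open scoped InnerProductSpace

theorem leq : sEq := by
  intro Ω Ω' H H' _ _ P P' _ _ _ _ _ _ Φ v Φ' v' h h' hg A hA
  have hle : sig Set.univ ≤ MeasurableSpace.comap
      (fun (f : (E 2 → ℝ) → ℝ) (t : {φ : E 2 → ℝ // Test φ}) => f t.1) MeasurableSpace.pi := by
    refine iSup_le fun φ => iSup_le fun hφ => ?_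
    rintro _ ⟨s, hs, rfl⟩
    exact ⟨(fun y => y ⟨φ, hφ.1⟩) ⁻¹' s,
      measurable_pi_apply (X := fun _ : {φ : E 2 → ℝ // Test φ} => ℝ) ⟨φ, hφ.1⟩
        (BorelSpace.measurable_eq (α := ℝ) ▸ hs), rfl⟩
  obtain ⟨B, hB, rfl⟩ := hle A hA
  have m1 : Measurable fun ω (t : {φ : E 2 → ℝ // Test φ}) => Φ t.1 ω :=
    measurable_pi_lambda _ fun t => h.1 _ t.2
  have m2 : Measurable fun ω (t : {φ : E 2 → ℝ // Test φ}) => Φ' t.1 ω :=
    measurable_pi_lambda _ fun t => h'.1 _ t.2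
  have l1 := isProjectiveLimit_map (P := P) (X := fun t : {φ : E 2 → ℝ // Test φ} => Φ t.1)
    m1.aemeasurable
  have l2 := isProjectiveLimit_map (P := P') (X := fun t : {φ : E 2 → ℝ // Test φ} => Φ' t.1)
    m2.aemeasurable
  have e : ∀ I : Finset {φ : E 2 → ℝ // Test φ},
      P.map (fun ω => I.restrict fun t => Φ t.1 ω) =
        P'.map (fun ω => I.restrict fun t => Φ' t.1 ω) := fun I =>
    (h.2 I (fun j => j.1.1) fun j => j.1.2).map_eq (h'.2 I (fun j => j.1.1) fun j => j.1.2)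
      fun i j => hg _ _ i.1.2 j.1.2
  simp_rw [e] at l1
  have e2 := congrArg (fun μ : Measure ({φ : E 2 → ℝ // Test φ} → ℝ) => μ B) (l1.unique l2)
  rwa [Measure.map_apply m1 hB, Measure.map_apply m2 hB] at e2

end Pool.Agent.GL
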