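import Pool.Agent.Lib.MP_438f30_pr.HSt

/-! Scale and translation invariance of crossing probabilities for the fine field. -/

namespace Pool.Agent.GL

open MeasureTheory ProbabilityTheory Real Finset Filter Topology Metric
  Pool.Agent.Lib.MP_a0a493_pr
open scoped InnerProductSpace

namespace HInv

theorem lgf_congr {Ω : Type} [MeasurableSpace Ω] {P : Measure Ω}
    {Φ Φ' : (E 2 → ℝ) → Ω → ℝ} (h : IsLGF P Φ) (e : ∀ φ, Test φ → Φ' φ = Φ φ) : IsLGF P Φ' where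
  lin f g hf hg a b := by
    rw [e _ (hf.comb hg a b), e f hf, e g hg]
    exact h.lin f g hf hg a b
  law f hf h0 := by
    rw [e f hf]
    exact h.law f hf h0

/-- adding a constant keeps the class of fields -/
theorem fld_const {Ω : Type} [MeasurableSpace Ω] {P : Measure Ω}
    {Φ : (E 2 → ℝ) → Ω → ℝ} (h : IsFld P Φ) (c : ℝ) :
    IsFld P fun φ ω => Φ φ ω + ∫ x, φ x * c := by
  obtain ⟨hm, f, hc, hx, hl⟩ := h
  refine ⟨fun φ hφ => (hm φ hφ).add_const _, fun ω x => f ω x + c,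
    fun ω => (hc ω).add continuous_const, fun x => (hx x).add_const _, lgf_congr hl ?_⟩
  intro φ hφ
  funext ω
  have i1 : Integrable fun x => φ x * f ω x :=
    (hφ.1.continuous.mul (hc ω)).integrable_of_hasCompactSupport hφ.2.mul_right
  have i2 : Integrable fun x => φ x * c :=
    (hφ.1.continuous.mul continuous_const).integrable_of_hasCompactSupport hφ.2.mul_right
  have : ∫ x, φ x * (f ω x + c) = (∫ x, φ x * f ω x) + ∫ x, φ x * c := by
    rw [← integral_add i1 i2]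
    simp only [mul_add]
  rw [this]
  ring

/-- the rational crossing event -/
def RA (D : ((R2 → ℝ) → ℝ) → R2 → R2 → ℝ) (S : Set R2) (z : R2) (R s : ℝ) :
    Set ((R2 → ℝ) → ℝ) :=
  {h | ∃ u ∈ S, ∃ v ∈ S, u ∈ ball z R ∧ v ∉ closedBall z (2 * R) ∧ D h u v < s}

theorem meas_RA {D : ((R2 → ℝ) → ℝ) → R2 → R2 → ℝ}
    (hD : ∀ u v, @Measurable _ _ (sig Set.univ) _ fun h => D h u v) {S : Set R2}
    (hS : S.Countable) (z : R2) (R s : ℝ) : @MeasurableSet _ (sig Set.univ) (RA D S z R s) := by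
  have : RA D S z R s = ⋃ u ∈ S, ⋃ v ∈ S, ⋃ (_ : u ∈ ball z R ∧ v ∉ closedBall z (2 * R)),
      (fun h => D h u v) ⁻¹' Set.Iio s := by
    ext h
    simp only [RA, Set.mem_ofPred_eq, Set.mem_iUnion, Set.mem_preimage, Set.mem_Iio, exists_prop]
    constructor
    · rintro ⟨u, hu, v, hv, a, b, c⟩
      exact ⟨u, hu, v, hv, ⟨a, b⟩, c⟩
    · rintro ⟨u, hu, v, hv, ⟨a, b⟩, c⟩
      exact ⟨u, hu, v, hv, a, b, c⟩
  rw [this]
  let _ : MeasurableSpace ((R2 → ℝ) → ℝ) := sig Set.univ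
  exact MeasurableSet.biUnion hS fun u _ => MeasurableSet.biUnion hS fun v _ =>
    MeasurableSet.iUnion fun _ => hD u v measurableSet_Iio

theorem crx_scale {d d' : R2 → R2 → ℝ} {r k : ℝ} {z : R2} (hr : 0 < r) (hk : 0 < k)
    (e : ∀ u v, d (r • u + z) (r • v + z) = k * d' u v) (R s : ℝ) :
    Crx d z (r * R) (k * s) ↔ Crx d' 0 R s := by
  have nd : ∀ u : R2, dist (r • u + z) z = r * dist u 0 := fun u => by
    rw [dist_eq_norm, add_sub_cancel_right, norm_smul, Real.norm_of_nonneg hr.le, dist_zero_right]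
  have sj : ∀ x : R2, ∃ u : R2, x = r • u + z := fun x =>
    ⟨r⁻¹ • (x - z), by rw [smul_inv_smul₀ hr.ne', sub_add_cancel]⟩
  have b1 : ∀ u : R2, r • u + z ∈ ball z (r * R) ↔ u ∈ ball (0 : R2) R := fun u => by
    rw [mem_ball, mem_ball, nd, mul_lt_mul_iff_right₀ hr]
  have b2 : ∀ u : R2, r • u + z ∈ closedBall z (2 * (r * R)) ↔
      u ∈ closedBall (0 : R2) (2 * R) := fun u => by
    rw [mem_closedBall, mem_closedBall, nd, mul_left_comm, mul_le_mul_iff_right₀ hr]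
  constructor
  · rintro ⟨x, hx, y, hy, h⟩
    obtain ⟨u, rfl⟩ := sj x
    obtain ⟨v, rfl⟩ := sj y
    rw [e, mul_lt_mul_iff_right₀ hk] at h
    exact ⟨u, (b1 u).1 hx, v, fun hv => hy ((b2 v).2 hv), h⟩
  · rintro ⟨u, hu, v, hv, h⟩
    refine ⟨_, (b1 u).2 hu, r • v + z, fun hy => hv ((b2 v).1 hy), ?_⟩
    rw [e, mul_lt_mul_iff_right₀ hk]
    exact h

end HInv

open HInv in
theorem inv (h1 : MG1) (h2 : MG2) (h3 : VF3) (h4 : sEq) (h5 : PL) : sInv := by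
  intro ξ Q D hD Ω _ P _ W hW r Ψ Ψ₁ hr hΨ hΨ₁ z R s
  obtain ⟨S, hSc, hSd⟩ := TopologicalSpace.exists_countable_dense R2
  have hA := meas_RA hD.meas hSc 0 R s
  have f' := fld_const hΨ.1 (-(Q * log r))
  have g1 : GFa P (fun φ => Ψ fun x => r⁻¹ ^ 2 * φ (r⁻¹ • (x - z)))
      fun φ => fn (log r) fun x => r⁻¹ ^ 2 * φ (r⁻¹ • (x - z)) :=
    h5.gfa hW (fun φ hφ => hΨ.1.1 _ (h3.test r z φ hr hφ))
      fun φ hφ => hΨ.2 _ (h3.test r z φ hr hφ)
  have g2 : GFa P Ψ₁ (fn 0) := h5.gfa hW hΨ₁.1.1 hΨ₁.2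
  have key := h4 Ω Ω (HH 2) (HH 2) P P _ _ _ _ g1 g2
    (fun φ ψ hφ hψ => h3.scale r z φ ψ hr hφ hψ) _ hA
  have e2 : P {ω | Crx (D fun φ => Ψ₁ φ ω) 0 R s} =
      P {ω | (fun φ => Ψ₁ φ ω) ∈ RA D S 0 R s} := by
    refine measure_congr (eventuallyEq_set.2 ?_)
    filter_upwards [hD.met Ω P Ψ₁ hΨ₁.1] with ω hω
    exact h2.rat 0 R s hω.cont hSd
  rw [e2, ← key]
  refine measure_congr (eventuallyEq_set.2 ?_)
  filter_upwards [hD.met Ω P Ψ hΨ.1, hD.met Ω P _ f', hD.weyl Ω P Ψ hΨ.1,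
    hD.aff Ω P _ f' r hr z] with ω m1 m2 hw ha
  have w1 : ∀ u v, D (fun φ => Ψ φ ω + ∫ x, φ x * -(Q * log r)) u v =
      exp (ξ * -(Q * log r)) * D (fun φ => Ψ φ ω) u v := fun u v => by
    have a := hw (fun _ => -(Q * log r)) continuous_const u v
    rw [h1.const m1 (exp_pos _)] at a
    exact (ENNReal.ofReal_eq_ofReal_iff (h1.nonneg m2 u v)
      (mul_nonneg (exp_pos _).le (h1.nonneg m1 u v))).1 a
  have fe : (fun φ : R2 → ℝ => (Ψ (fun x => r⁻¹ ^ 2 * φ (r⁻¹ • (x - z))) ω +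
      ∫ x, r⁻¹ ^ 2 * φ (r⁻¹ • (x - z)) * -(Q * log r)) + ∫ x, φ x * (Q * log r)) =
      fun φ => Ψ (fun x => r⁻¹ ^ 2 * φ (r⁻¹ • (x - z))) ω := by
    funext φ
    rw [integral_mul_const, integral_mul_const, h3.int r z φ hr]
    ring
  have e : ∀ u v, D (fun φ => Ψ φ ω) (r • u + z) (r • v + z) = exp (ξ * Q * log r) *
      D (fun φ => Ψ (fun x => r⁻¹ ^ 2 * φ (r⁻¹ • (x - z))) ω) u v := fun u v => by
    have a := ha u v
    rw [fe, w1] at a
    rw [← a, ← mul_assoc, ← exp_add]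
    simp [mul_assoc]
  have hc : Continuous fun q : R2 × R2 =>
      D (fun φ => Ψ (fun x => r⁻¹ ^ 2 * φ (r⁻¹ • (x - z))) ω) q.1 q.2 := by
    have : (fun q : R2 × R2 => D (fun φ => Ψ (fun x => r⁻¹ ^ 2 * φ (r⁻¹ • (x - z))) ω) q.1 q.2) =
        fun q => (exp (ξ * Q * log r))⁻¹ * D (fun φ => Ψ φ ω) (r • q.1 + z) (r • q.2 + z) := by
      funext q
      rw [e, inv_mul_cancel_left₀ (exp_pos _).ne']
    rw [this]
    exact continuous_const.mul (m1.cont.comp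
      (f := fun q : R2 × R2 => (r • q.1 + z, r • q.2 + z)) (by fun_prop))
  exact (crx_scale hr (exp_pos _) e R s).trans (h2.rat 0 R s hc hSd)

end Pool.Agent.GL
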