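import Pool.Agent.Lib.MP_438f30_pr.HSt

/-! Versions of an isonormal process: Gaussian families and independence. -/

namespace Pool.Agent.GL

open MeasureTheory ProbabilityTheory Real Finset Filter Topology Metric
  Pool.Agent.Lib.MP_a0a493_pr
open scoped InnerProductSpace

namespace HPL

/-- the test functions supported in `U` -/
abbrev Tf (U : Set (E 2)) : Type := {φ : E 2 → ℝ // Test φ ∧ tsupport φ ⊆ U}

/-- restriction of a functional to the test functions supported in `U` -/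
def res (U : Set (E 2)) (h : (E 2 → ℝ) → ℝ) : Tf U → ℝ := fun φ => h φ.1

theorem sig_le (U : Set (E 2)) :
    sig U ≤ (MeasurableSpace.pi : MeasurableSpace (Tf U → ℝ)).comap (res U) := by
  refine iSup_le fun φ => iSup_le fun hφ => ?_
  have e : (fun h : (E 2 → ℝ) → ℝ => h φ) = (fun g : Tf U → ℝ => g ⟨φ, hφ⟩) ∘ res U := rfl
  rw [e, ← MeasurableSpace.comap_comp]
  refine MeasurableSpace.comap_mono ?_
  rw [← BorelSpace.measurable_eq (α := ℝ)]
  exact (measurable_pi_apply (⟨φ, hφ⟩ : Tf U)).comap_le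

theorem exists_res {U : Set (E 2)} {A : Set ((E 2 → ℝ) → ℝ)} (hA : @MeasurableSet _ (sig U) A) :
    ∃ A' : Set (Tf U → ℝ), MeasurableSet A' ∧ res U ⁻¹' A' = A :=
  sig_le U A hA

end HPL

theorem pl : PL where
  gfa := by
    intro Ω H _ P _ _ _ W Φ v hW hm hΦ
    refine ⟨hm, fun J _ f hf => ⟨fun j => (hm _ (hf j)).aemeasurable, fun c => ?_⟩⟩
    rw [← (hW.gf fun j => v (f j)).law c]
    refine integral_congr_ae ?_
    have h : ∀ᵐ ω ∂P, ∀ j, Φ (f j) ω = W (v (f j)) ω := ae_all_iff.2 fun j => hΦ _ (hf j)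
    filter_upwards [h] with ω hω
    simp only [hω]
  ind := by
    intro Ω H _ P _ _ _ W Φ v hW hm hΦ U U' ho A B hA hB
    obtain ⟨A', hA', rfl⟩ := HPL.exists_res hA
    obtain ⟨B', hB', rfl⟩ := HPL.exists_res hB
    have hi : IndepFun (fun ω (i : HPL.Tf U) => Φ i.1 ω) (fun ω (j : HPL.Tf U') => Φ j.1 ω) P := by
      refine IndepFun.process_indepFun_process (X := fun (i : HPL.Tf U) ω => Φ i.1 ω)
        (Y := fun (j : HPL.Tf U') ω => Φ j.1 ω) (fun i => hm _ i.2.1) (fun j => hm _ j.2.1)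
        fun I J => ?_
      have h := hW.indep (fun i : I => v i.1.1) (fun j : J => v j.1.1)
        fun i j => ho _ _ i.1.2.1 j.1.2.1 i.1.2.2 j.1.2.2
      refine h.congr ?_ ?_
      · have h1 : ∀ᵐ ω ∂P, ∀ i : I, Φ i.1.1 ω = W (v i.1.1) ω :=
          ae_all_iff.2 fun i => hΦ _ i.1.2.1
        filter_upwards [h1] with ω hω
        exact funext fun i => (hω i).symm
      · have h1 : ∀ᵐ ω ∂P, ∀ j : J, Φ j.1.1 ω = W (v j.1.1) ω :=
          ae_all_iff.2 fun j => hΦ _ j.1.2.1
        filter_upwards [h1] with ω hω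
        exact funext fun j => (hω j).symm
    exact hi.measure_inter_preimage_eq_mul A' B' hA' hB'

end Pool.Agent.GL
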