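import Pool.Agent.Lib.MP_438f30_pr.HSt

/-! Orthogonality and scaling of the fine vectors. -/

namespace Pool.Agent.GL

open MeasureTheory Real Metric Pool.Agent.Lib.MP_a0a493_pr
open scoped InnerProductSpace

namespace HV3

theorem int_sc {r : ℝ} (hr : 0 < r) (z : E 2) (F : E 2 → ℝ) :
    ∫ x, F (r⁻¹ • (x - z)) = r ^ 2 * ∫ x, F x := by
  rw [integral_sub_right_eq_self (fun x => F (r⁻¹ • x)) z, Measure.integral_comp_smul,
    finrank_euclideanSpace_fin, inv_pow, inv_inv, abs_of_pos (by positivity), smul_eq_mul]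

theorem int_sc' {r : ℝ} (hr : 0 < r) (z : E 2) (F : E 2 → ℝ) :
    ∫ x, r⁻¹ ^ 2 * F (r⁻¹ • (x - z)) = ∫ x, F x := by
  rw [integral_const_mul, int_sc hr, ← mul_assoc, ← mul_pow, inv_mul_cancel₀ hr.ne', one_pow,
    one_mul]

theorem bi_sc {r : ℝ} (hr : 0 < r) (z y u : E 2) (s : ℝ) :
    bi (exp s) y u = bi (exp (s - log r)) (r⁻¹ • (y - z)) (r⁻¹ • (u - z)) := by
  unfold bi
  rw [dist_smul₀, dist_sub_right, exp_sub, exp_log hr, norm_inv, norm_of_nonneg hr.le,
    div_eq_inv_mul]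
  simp only [mul_lt_mul_iff_right₀ (inv_pos.2 hr)]

theorem af_sc {r : ℝ} (hr : 0 < r) (z u : E 2) (s : ℝ) (φ : E 2 → ℝ) :
    Af (fun x => r⁻¹ ^ 2 * φ (r⁻¹ • (x - z))) (s, u) = Af φ (s - log r, r⁻¹ • (u - z)) := by
  unfold Af
  rw [← int_sc' hr z fun y => φ y * bi (exp (s - log r)) y (r⁻¹ • (u - z))]
  simp only [mul_assoc, ← bi_sc hr]

theorem af_ne {φ : E 2 → ℝ} {p : ℝ × E 2} (h : Af φ p ≠ 0) :
    ∃ y ∈ tsupport φ, dist y p.2 < exp p.1 := by
  by_contra k
  refine h (integral_eq_zero_of_ae (Filter.Eventually.of_forall fun y => ?_))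
  by_cases a : φ y = 0
  · simp [a]
  · have : ¬ dist y p.2 < exp p.1 := fun b => k ⟨y, subset_tsupport _ a, b⟩
    simp [bi, this]

theorem test_sc {r : ℝ} (hr : 0 < r) (z : E 2) {φ : E 2 → ℝ} (h : Test φ) :
    Test fun x => r⁻¹ ^ 2 * φ (r⁻¹ • (x - z)) :=
  ⟨contDiff_const.mul (h.1.comp (by fun_prop)),
    (h.2.comp_homeomorph ((Homeomorph.subRight z).trans
      (Homeomorph.smulOfNeZero r⁻¹ (inv_ne_zero hr.ne')))).mul_left⟩

end HV3

open HV3

theorem vf3 : VF3 where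
  orth α φ ψ _ _ h := inner_vec_zero fun p => by
    split_ifs with a
    · by_contra k
      obtain ⟨x, x1, x2⟩ := af_ne (left_ne_zero_of_mul k)
      obtain ⟨y, y1, y2⟩ := af_ne (right_ne_zero_of_mul k)
      linarith [h x x1 y y1, dist_triangle_right x y p.2, exp_le_exp.2 a]
    · simp
  test r z φ hr h := test_sc hr z h
  int r z φ hr := int_sc' hr z φ
  scale r z φ ψ hr h h' := by
    unfold fn
    rw [inner_vec' (ok_fn (test_sc hr z h) _) (ok_fn (test_sc hr z h') _),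
      inner_vec' (ok_fn h _) (ok_fn h' _)]
    refine Eq.trans (integral_congr_ae (Filter.Eventually.of_forall fun s => ?_))
      (integral_sub_right_eq_self _ (log r))
    have e : (vb 2 s)⁻¹ * r ^ 2 = (vb 2 (s - log r))⁻¹ := by
      have := V1_pos 2
      unfold vb
      rw [exp_sub, exp_log hr]
      field_simp
    simp only [af_sc hr, sub_nonpos]
    rw [int_sc hr z fun u => (if s ≤ log r then Af φ (s - log r, u) else 0) *
      if s ≤ log r then Af ψ (s - log r, u) else 0, ← mul_assoc, e]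

end Pool.Agent.GL
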