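import Pool.Agent.Lib.MP_438f30_pr.GSt
import Pool.Agent.Lib.MP_438f30_pr.HInv
import Pool.Agent.Lib.MP_438f30_pr.HEq
import Pool.Agent.Lib.MP_438f30_pr.HMG1
import Pool.Agent.Lib.MP_438f30_pr.HPL
import Pool.Agent.Lib.MP_438f30_pr.HV3

/-! Scale and translation invariance of the probability of a shield for the fine field. -/

namespace Pool.Agent.GL

open MeasureTheory ProbabilityTheory Real Finset Filter Topology Metric
  Pool.Agent.Lib.MP_a0a493_pr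
open scoped InnerProductSpace

namespace G4

theorem shd_scale {d d' : R2 → R2 → ℝ} {r k : ℝ} {z : R2} (hr : 0 < r) (hk : 0 < k)
    (e : ∀ u v, d (r • u + z) (r • v + z) = k * d' u v) (κ R : ℝ) :
    Shd κ d z (r * R) ↔ Shd κ d' 0 R := by
  have nd : ∀ u : R2, dist (r • u + z) z = r * dist u 0 := fun u => by
    rw [dist_eq_norm, add_sub_cancel_right, norm_smul, Real.norm_of_nonneg hr.le, dist_zero_right]
  have sj : ∀ x : R2, ∃ u : R2, x = r • u + z := fun x =>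
    ⟨r⁻¹ • (x - z), by rw [smul_inv_smul₀ hr.ne', sub_add_cancel]⟩
  have b1 : ∀ u : R2, r • u + z ∈ An z (3 * (r * R)) (4 * (r * R)) ↔
      u ∈ An (0 : R2) (3 * R) (4 * R) := fun u => by
    show (3 * (r * R) < dist (r • u + z) z ∧ dist (r • u + z) z < 4 * (r * R)) ↔
      (3 * R < dist u 0 ∧ dist u 0 < 4 * R)
    rw [nd, mul_left_comm 3, mul_left_comm 4, mul_lt_mul_iff_right₀ hr, mul_lt_mul_iff_right₀ hr]
  have c1 := fun s => HInv.crx_scale hr hk e R s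
  have c5 : ∀ s, Crx d z (5 * (r * R)) (k * s) ↔ Crx d' 0 (5 * R) s := fun s => by
    rw [mul_left_comm 5]
    exact HInv.crx_scale hr hk e (5 * R) s
  constructor
  · rintro ⟨s', s, hs, h1, h2, h3⟩
    have es : s = k * (s / k) := by field_simp
    refine ⟨s' / k, s / k, div_lt_div_of_pos_right hs hk, fun u hu v hv => ?_,
      fun h => h2 (es ▸ (c1 _).2 h), fun h => h3 (es ▸ (c5 _).2 h)⟩
    have a := h1 _ ((b1 u).2 hu) _ ((b1 v).2 hv)
    rw [e] at a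
    rw [le_div_iff₀ hk]
    linarith
  · rintro ⟨s', s, hs, h1, h2, h3⟩
    refine ⟨k * s', k * s, mul_lt_mul_of_pos_left hs hk, fun x hx y hy => ?_,
      fun h => h2 ((c1 _).1 h), fun h => h3 ((c5 _).1 h)⟩
    obtain ⟨u, rfl⟩ := sj x
    obtain ⟨v, rfl⟩ := sj y
    have a := mul_le_mul_of_nonneg_left (h1 u ((b1 u).1 hx) v ((b1 v).1 hy)) hk.le
    rw [e]
    linarith

theorem meas_D {D : ((R2 → ℝ) → ℝ) → R2 → R2 → ℝ}
    (hD : ∀ u v, @Measurable _ _ (sig Set.univ) _ fun h => D h u v) {A : Set (R2 → R2 → ℝ)}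
    (hA : MeasurableSet A) : @MeasurableSet _ (sig Set.univ) {h | D h ∈ A} := by
  let _ : MeasurableSpace ((R2 → ℝ) → ℝ) := sig Set.univ
  have m : Measurable D := measurable_pi_lambda _ fun u => measurable_pi_lambda _ fun v => hD u v
  exact m hA

end G4

open HInv G4 in
theorem g4 (h : sG3) : sG4 := by
  intro ξ Q D hD Ω _ P _ W hW r Ψ Ψ₁ hr hΨ hΨ₁ κ z R
  obtain ⟨A, hAm, hAe⟩ := h κ 0 R
  have hA := meas_D hD.meas hAm
  have f' := fld_const hΨ.1 (-(Q * log r))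
  have g1 : GFa P (fun φ => Ψ fun x => r⁻¹ ^ 2 * φ (r⁻¹ • (x - z)))
      fun φ => fn (log r) fun x => r⁻¹ ^ 2 * φ (r⁻¹ • (x - z)) :=
    pl.gfa hW (fun φ hφ => hΨ.1.1 _ (vf3.test r z φ hr hφ))
      fun φ hφ => hΨ.2 _ (vf3.test r z φ hr hφ)
  have g2 : GFa P Ψ₁ (fn 0) := pl.gfa hW hΨ₁.1.1 hΨ₁.2
  have key := leq Ω Ω (HH 2) (HH 2) P P _ _ _ _ g1 g2
    (fun φ ψ hφ hψ => vf3.scale r z φ ψ hr hφ hψ) _ hA
  have e2 : P {ω | Shd κ (D fun φ => Ψ₁ φ ω) 0 R} =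
      P {ω | (fun φ => Ψ₁ φ ω) ∈ {h | D h ∈ A}} := by
    refine measure_congr (eventuallyEq_set.2 ?_)
    filter_upwards [hD.met Ω P Ψ₁ hΨ₁.1] with ω hω
    exact hAe _ hω.cont
  rw [e2, ← key]
  refine measure_congr (eventuallyEq_set.2 ?_)
  filter_upwards [hD.met Ω P Ψ hΨ.1, hD.met Ω P _ f', hD.weyl Ω P Ψ hΨ.1,
    hD.aff Ω P _ f' r hr z] with ω m1 m2 hw ha
  have w1 : ∀ u v, D (fun φ => Ψ φ ω + ∫ x, φ x * -(Q * log r)) u v =
      exp (ξ * -(Q * log r)) * D (fun φ => Ψ φ ω) u v := fun u v => by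
    have a := hw (fun _ => -(Q * log r)) continuous_const u v
    rw [mg1.const m1 (exp_pos _)] at a
    exact (ENNReal.ofReal_eq_ofReal_iff (mg1.nonneg m2 u v)
      (mul_nonneg (exp_pos _).le (mg1.nonneg m1 u v))).1 a
  have fe : (fun φ : R2 → ℝ => (Ψ (fun x => r⁻¹ ^ 2 * φ (r⁻¹ • (x - z))) ω +
      ∫ x, r⁻¹ ^ 2 * φ (r⁻¹ • (x - z)) * -(Q * log r)) + ∫ x, φ x * (Q * log r)) =
      fun φ => Ψ (fun x => r⁻¹ ^ 2 * φ (r⁻¹ • (x - z))) ω := by
    funext φ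
    rw [integral_mul_const, integral_mul_const, vf3.int r z φ hr]
    ring
  have e : ∀ u v, D (fun φ => Ψ φ ω) (r • u + z) (r • v + z) = exp (ξ * Q * log r) *
      D (fun φ => Ψ (fun x => r⁻¹ ^ 2 * φ (r⁻¹ • (x - z))) ω) u v := fun u v => by
    have a := ha u v
    rw [fe, w1] at a
    rw [← a, ← mul_assoc, ← exp_add]
    simp [mul_assoc]
  have hc : Continuous fun q : R2 × R2 =>
      D (fun φ => Ψ (fun x => r⁻¹ ^ 2 * φ (r⁻¹ • (x - z))) ω) q.1 q.2 := by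
    have : (fun q : R2 × R2 => D (fun φ => Ψ (fun x => r⁻¹ ^ 2 * φ (r⁻¹ • (x - z))) ω) q.1 q.2) =
        fun q => (exp (ξ * Q * log r))⁻¹ * D (fun φ => Ψ φ ω) (r • q.1 + z) (r • q.2 + z) := by
      funext q
      rw [e, inv_mul_cancel_left₀ (exp_pos _).ne']
    rw [this]
    exact continuous_const.mul (m1.cont.comp
      (f := fun q : R2 × R2 => (r • q.1 + z, r • q.2 + z)) (by fun_prop))
  exact (shd_scale hr (exp_pos _) e κ R).trans (hAe _ hc)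

end Pool.Agent.GL
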