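import Pool.Agent.Lib.MP_438f30_pr.HSt

/-! Normalisation of a field plus a continuous function. -/

namespace Pool.Agent.GL

open MeasureTheory ProbabilityTheory Real Filter Pool.Agent.Lib.MP_a0a493_pr

namespace HNorm

variable {Ω : Type} [MeasurableSpace Ω] {P : Measure Ω}

theorem lgf_congr {Φ Ψ : (E 2 → ℝ) → Ω → ℝ} (h : IsLGF P Φ) (e : ∀ φ, Test φ → Ψ φ = Φ φ) :
    IsLGF P Ψ := by
  refine ⟨fun f g hf hg a b => ?_, fun f hf h0 => ?_⟩
  · rw [e _ (hf.comb hg a b), e f hf, e g hg]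
    exact h.lin f g hf hg a b
  · rw [e f hf]
    exact h.law f hf h0

theorem int_mul {φ f : E 2 → ℝ} (hφ : Test φ) (hf : Continuous f) :
    Integrable fun x => φ x * f x :=
  (hφ.1.continuous.mul hf).integrable_of_hasCompactSupport hφ.2.mul_right

theorem meas_int {φ : E 2 → ℝ} {f : Ω → E 2 → ℝ} (hφ : Test φ) (hf : ∀ ω, Continuous (f ω))
    (hm : ∀ x, Measurable fun ω => f ω x) : Measurable fun ω => ∫ x, φ x * f ω x := by
  have a : Measurable (Function.uncurry fun (x : E 2) (ω : Ω) => φ x * f ω x) :=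
    measurable_uncurry_of_continuous_of_measurable (fun ω => hφ.1.continuous.mul (hf ω))
      fun x => (hm x).const_mul _
  exact (a.stronglyMeasurable.integral_prod_left (μ := volume)).measurable

/-- subtracting the value at a test function of mass one -/
theorem lgf_sub {h : (E 2 → ℝ) → Ω → ℝ} (hh : IsLGF P h) (m : E 2 → ℝ) :
    IsLGF P fun φ ω => h φ ω - (∫ x, φ x) * h m ω := by
  refine ⟨fun f g hf hg a b => ?_, fun f hf h0 => ?_⟩
  · filter_upwards [hh.lin f g hf hg a b] with ω e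
    rw [e, int_comb hf.int hg.int]
    ring
  · simpa only [h0, zero_mul, sub_zero] using hh.law f hf h0

end HNorm

open HNorm in
theorem nrm : sNorm := by
  intro Ω _ P _ Φ ρ hρ h1 hΦ
  obtain ⟨hm, f, fc, fm, hL⟩ := hΦ
  have tm : Test (mol ρ 0 0) := test_mol hρ 0 0
  have im : ∫ x, mol ρ 0 0 x = 1 := (int_mol ρ 0 0).trans h1
  set h : (E 2 → ℝ) → Ω → ℝ := fun φ ω => Φ φ ω - ∫ x, φ x * f ω x with hh
  have mh : ∀ φ, Test φ → Measurable (h φ) := fun φ hφ => (hm φ hφ).sub (meas_int hφ fc fm)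
  have key : ∀ φ, Test φ → (fun ω => Φ φ ω + ∫ x, φ x * (-f ω x - h (mol ρ 0 0) ω)) =
      fun ω => h φ ω - (∫ x, φ x) * h (mol ρ 0 0) ω := by
    intro φ hφ
    funext ω
    have e : (fun x => φ x * (-f ω x - h (mol ρ 0 0) ω)) =
        fun x => -(φ x * f ω x) - φ x * h (mol ρ 0 0) ω := by
      funext x; ring
    have i1 : Integrable fun x => -(φ x * f ω x) := (int_mul hφ (fc ω)).neg
    rw [e, integral_sub i1 (hφ.int.mul_const _), integral_neg, integral_mul_const]
    simp only [hh]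
    ring
  have mk : ∀ φ, Test φ →
      Measurable fun ω => Φ φ ω + ∫ x, φ x * (-f ω x - h (mol ρ 0 0) ω) := by
    intro φ hφ
    rw [key φ hφ]
    exact (mh φ hφ).sub ((mh _ tm).const_mul _)
  have hL' : IsLGF P fun φ ω => Φ φ ω + ∫ x, φ x * (-f ω x - h (mol ρ 0 0) ω) :=
    lgf_congr (lgf_sub hL (mol ρ 0 0)) key
  refine ⟨fun ω x => -f ω x - h (mol ρ 0 0) ω, fun ω => (fc ω).neg.sub continuous_const,
    ⟨mk, fun _ _ => 0, fun _ => continuous_const, fun _ => measurable_const,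
      lgf_congr hL' fun φ _ => by funext ω; simp⟩, hL', ⟨mk, fun J _ F hF => ?_⟩, fun ω => ?_⟩
  · refine hL.gf le_rfl (f := fun j => (1 : ℝ) • F j + (-∫ x, F j x) • mol ρ 0 0)
      (fun j => (hF j).comb tm _ _) (fun j => ?_) fun j => ?_
    · rw [int_comb (hF j).int tm.int, im]; ring
    · filter_upwards [hL.lin _ _ (hF j) tm 1 (-∫ x, F j x)] with ω e
      rw [e, congrFun (key _ (hF j)) ω]
      simp only [hh]
      ring
  · rw [congrFun (key _ tm) ω, im]
    ring

end Pool.Agent.GL
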