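import Pool.Agent.Lib.MP_438f30_pr.HSt

/-! Continuous versions of Gaussian processes. -/

namespace Pool.Agent.GL

open MeasureTheory ProbabilityTheory Real Filter Topology Metric Pool.Agent.Lib.MP_a0a493_pr
open scoped InnerProductSpace

namespace HCM

/-- the modulus of continuity at level `k` -/
noncomputable def eps (k : ℕ) : ℝ := 2 * (5 * k * (3 / 4) ^ k) + 21 / (4 / 3) ^ k

/-- the dyadic approximation -/
noncomputable def dy (n : ℕ) (x : E 2) : E 2 := ((2 : ℝ) ^ n)⁻¹ • pt (rd ((2 : ℝ) ^ n)⁻¹ x)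

theorem eps_lim : Tendsto eps atTop (𝓝 0) := by
  have h1 := tendsto_self_mul_const_pow_of_lt_one (r := 3 / 4) (by norm_num) (by norm_num)
  have h2 := tendsto_pow_atTop_nhds_zero_of_lt_one (r := (3 / 4 : ℝ)) (by norm_num) (by norm_num)
  have := (h1.const_mul 10).add (h2.const_mul 21)
  rw [mul_zero, mul_zero, add_zero] at this
  refine this.congr fun k => ?_
  rw [eps, div_pow (4 : ℝ), div_pow]
  field_simp
  ring

theorem dy_step {k n : ℕ} (h : k ≤ n) {x y : E 2} (hy : ‖y - x‖ ≤ ((2 : ℝ) ^ k)⁻¹) :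
    ∃ a ∈ box 2 (2 ^ (n - k)),
      dy n y = ((2 : ℝ) ^ k)⁻¹ • pt (rd ((2 : ℝ) ^ k)⁻¹ x) +
        (((2 : ℝ) ^ k)⁻¹ / 2 ^ (n - k)) • pt a := by
  obtain ⟨m, rfl⟩ := Nat.exists_eq_add_of_le h
  rw [Nat.add_sub_cancel_left]
  have k0 : (0 : ℝ) < 2 ^ k := by positivity
  have m1 : (1 : ℝ) ≤ 2 ^ m := one_le_pow₀ (by norm_num)
  refine ⟨rd ((2 : ℝ) ^ (k + m))⁻¹ y - (2 ^ m : ℤ) • rd ((2 : ℝ) ^ k)⁻¹ x,
    mem_box.2 fun i => ?_, ?_⟩
  · have a1 := Int.floor_le (y i / ((2 : ℝ) ^ (k + m))⁻¹)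
    have a2 := Int.lt_floor_add_one (y i / ((2 : ℝ) ^ (k + m))⁻¹)
    have b1 := Int.floor_le (x i / ((2 : ℝ) ^ k)⁻¹)
    have b2 := Int.lt_floor_add_one (x i / ((2 : ℝ) ^ k)⁻¹)
    have c := abs_le.1 ((abs_le_norm2 (y - x) i).trans hy)
    have c1 : (y i - x i) * 2 ^ k ≤ 1 := by
      have := mul_le_mul_of_nonneg_right c.2 k0.le
      rwa [inv_mul_cancel₀ k0.ne', PiLp.sub_apply] at this
    have c2 : -1 ≤ (y i - x i) * 2 ^ k := by
      have := mul_le_mul_of_nonneg_right c.1 k0.le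
      rwa [neg_mul, inv_mul_cancel₀ k0.ne', PiLp.sub_apply] at this
    have : |((rd ((2 : ℝ) ^ (k + m))⁻¹ y i : ℝ) - 2 ^ m * rd ((2 : ℝ) ^ k)⁻¹ x i)| ≤ 2 * 2 ^ m := by
      unfold rd
      generalize (⌊y i / ((2 : ℝ) ^ (k + m))⁻¹⌋ : ℝ) = p at a1 a2 ⊢
      generalize (⌊x i / ((2 : ℝ) ^ k)⁻¹⌋ : ℝ) = q at b1 b2 ⊢
      rw [div_inv_eq_mul, pow_add] at a1 a2
      rw [div_inv_eq_mul] at b1 b2
      rw [abs_le]
      constructor <;> nlinarith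
    simp only [Pi.sub_apply, Pi.smul_apply, smul_eq_mul]
    exact_mod_cast this
  · rw [dy, pt_sub, pt_zsmul, smul_sub, smul_smul]
    have e1 : ((2 : ℝ) ^ k)⁻¹ / 2 ^ m * ((2 ^ m : ℤ) : ℝ) = ((2 : ℝ) ^ k)⁻¹ := by
      push_cast
      field_simp
    have e2 : ((2 : ℝ) ^ k)⁻¹ / 2 ^ m = ((2 : ℝ) ^ (k + m))⁻¹ := by
      rw [pow_add]
      field_simp
    rw [e1, e2]
    abel

theorem rd_mem (x : E 2) : ∀ᶠ k : ℕ in atTop, rd ((2 : ℝ) ^ k)⁻¹ x ∈ box 2 (2 ^ k * 2 ^ k) := by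
  filter_upwards [(tendsto_pow_atTop_atTop_of_one_lt (r := (2 : ℝ)) one_lt_two).eventually_ge_atTop
    ‖x‖] with k hk
  refine mem_box.2 fun i => ?_
  have b1 := Int.floor_le (x i / ((2 : ℝ) ^ k)⁻¹)
  have b2 := Int.lt_floor_add_one (x i / ((2 : ℝ) ^ k)⁻¹)
  have c := abs_le.1 ((abs_le_norm2 x i).trans hk)
  have m1 : (1 : ℝ) ≤ 2 ^ k := one_le_pow₀ (by norm_num)
  have : |(rd ((2 : ℝ) ^ k)⁻¹ x i : ℝ)| ≤ 2 * (2 ^ k * 2 ^ k) := by
    unfold rd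
    generalize (⌊x i / ((2 : ℝ) ^ k)⁻¹⌋ : ℝ) = q at b1 b2 ⊢
    rw [div_inv_eq_mul] at b1 b2
    rw [abs_le]
    constructor <;> nlinarith [c.1, c.2]
  exact_mod_cast this

variable {Ω : Type} [MeasurableSpace Ω] {P : Measure Ω} [IsProbabilityMeasure P] {H : Type}
  [NormedAddCommGroup H] [InnerProductSpace ℝ H] {W : H →ₗ[ℝ] (Ω → ℝ)} {v : E 2 → H} {A : ℝ}

theorem bc {B : ℕ → Set Ω} {C : ℝ} (hC : 0 ≤ C) (hB : ∀ n, P.real (B n) ≤ C * (1 / 2) ^ n) :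
    ∀ᵐ ω ∂P, ∀ᶠ n in atTop, ω ∉ B n := by
  refine ae_eventually_notMem (ne_top_of_le_ne_top
    (summable_geometric_two.mul_left C).tsum_ofReal_ne_top (ENNReal.tsum_le_tsum fun n => ?_))
  exact (ENNReal.le_ofReal_iff_toReal_le (measure_ne_top _ _) (by positivity)).2 (hB n)

theorem cell1 (h : sCel) (hW : Iso P W) (hA : 0 ≤ A) (k : ℕ) (z : E 2)
    (h1 : ∀ x ∈ closedBall z (4 * ((2 : ℝ) ^ k)⁻¹), ‖v x‖ ^ 2 ≤ 8 * A * ((2 : ℝ) ^ k)⁻¹)
    (h2 : ∀ x y, ‖v x - v y‖ ^ 2 ≤ A * ‖x - y‖) :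
    P.real {ω | ∃ (n : ℕ), ∃ a ∈ box 2 (2 ^ n),
      eps k ≤ W (v (z + (((2 : ℝ) ^ k)⁻¹ / 2 ^ n) • pt a)) ω} ≤
      600 * exp (256 * A) * (1 / 32) ^ k := by
  refine (h Ω P H W hW v z _ _ ((4 / 3) ^ k) (5 * k * (3 / 4) ^ k) (by positivity) (by positivity)
    (by positivity) (by positivity) h1 fun x _ y _ => (h2 x y).trans_eq (by field_simp)).trans ?_
  have e1 : ((4 / 3 : ℝ) ^ k) ^ 2 ≤ 2 ^ k := by
    rw [← pow_mul, mul_comm, pow_mul]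
    exact pow_le_pow_left₀ (by norm_num) (by norm_num) k
  have e2 : 32 * (8 * A * ((2 : ℝ) ^ k)⁻¹) * ((4 / 3) ^ k) ^ 2 ≤ 256 * A :=
    (mul_le_mul_of_nonneg_left e1 (by positivity)).trans_eq (by field_simp; ring)
  have e3 : -(4 / 3 : ℝ) ^ k * (5 * k * (3 / 4) ^ k) = k * (-5) := by
    rw [div_pow, div_pow]
    field_simp
  have e4 : exp (-5 : ℝ) ≤ 1 / 32 := by
    have := pow_le_pow_left₀ (by norm_num) (add_one_le_exp (1 : ℝ)) 5
    rw [← exp_nat_mul] at this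
    rw [exp_neg, one_div]
    exact inv_anti₀ (by norm_num) (by norm_num at this ⊢; exact this)
  rw [e3, exp_nat_mul]
  gcongr

theorem cell2 (h : sCel) (hW : Iso P W) (hA : 0 ≤ A) (h2 : ∀ x y, ‖v x - v y‖ ^ 2 ≤ A * ‖x - y‖)
    (k : ℕ) {z x₀ : E 2} (hz : ‖z - x₀‖ ≤ 4 * ((2 : ℝ) ^ k)⁻¹) :
    P.real {ω | ∃ (n : ℕ), ∃ a ∈ box 2 (2 ^ n),
      eps k ≤ |W (v (z + (((2 : ℝ) ^ k)⁻¹ / 2 ^ n) • pt a)) ω - W (v x₀) ω|} ≤
      1200 * exp (256 * A) * (1 / 32) ^ k := by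
  have h1 : ∀ x ∈ closedBall z (4 * ((2 : ℝ) ^ k)⁻¹),
      ‖v x - v x₀‖ ^ 2 ≤ 8 * A * ((2 : ℝ) ^ k)⁻¹ := fun x hx => by
    have a := norm_sub_le_norm_sub_add_norm_sub x z x₀
    rw [mem_closedBall, dist_eq_norm] at hx
    have : A * ‖x - x₀‖ ≤ A * (8 * ((2 : ℝ) ^ k)⁻¹) := mul_le_mul_of_nonneg_left (by linarith) hA
    linarith [h2 x x₀]
  have b1 := cell1 (v := fun x => v x - v x₀) h hW hA k z h1 fun x y => by
    rw [sub_sub_sub_cancel_right]; exact h2 x y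
  have b2 := cell1 (v := fun x => v x₀ - v x) h hW hA k z
    (fun x hx => by rw [norm_sub_rev]; exact h1 x hx) fun x y => by
    rw [sub_sub_sub_cancel_left, norm_sub_rev]; exact h2 x y
  refine (sub_le2 b1 b2 fun ω hω hn => ?_).trans_eq (by ring)
  obtain ⟨n, a, ha, hω⟩ := hω
  refine ⟨n, a, ha, ?_⟩
  rcases le_abs.1 hω with k1 | k1
  · exact (hn ⟨n, a, ha, by rw [map_sub]; exact k1⟩).elim
  · rw [map_sub, Pi.sub_apply]
    linarith

theorem unif (h : sCel) (hW : Iso P W) (hA : 0 ≤ A) (h2 : ∀ x y, ‖v x - v y‖ ^ 2 ≤ A * ‖x - y‖) :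
    ∀ᵐ ω ∂P, ∀ x, ∀ᶠ k : ℕ in atTop, ∀ y, ‖y - x‖ ≤ ((2 : ℝ) ^ k)⁻¹ → ∀ n, k ≤ n →
      |W (v (dy n y)) ω - W (v (dy k x)) ω| < eps k := by
  have := bc (P := P) (C := 25 * (1200 * exp (256 * A))) (B := fun k => {ω |
    ∃ w ∈ box 2 (2 ^ k * 2 ^ k), ω ∈ {ω | ∃ (n : ℕ), ∃ a ∈ box 2 (2 ^ n),
      eps k ≤ |W (v (((2 : ℝ) ^ k)⁻¹ • pt w + (((2 : ℝ) ^ k)⁻¹ / 2 ^ n) • pt a)) ω -
        W (v (((2 : ℝ) ^ k)⁻¹ • pt w)) ω|}}) (by positivity) fun k => by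
    refine (union_le _ _ fun w _ => cell2 h hW hA h2 k (by rw [sub_self, norm_zero]; positivity)).trans
      ?_
    have m1 : (1 : ℝ) ≤ 2 ^ k * 2 ^ k := by
      rw [← pow_add]
      exact one_le_pow₀ (by norm_num)
    have e1 : ((box 2 (2 ^ k * 2 ^ k)).card : ℝ) ≤ 25 * 16 ^ k := by
      rw [card_box, show (16 : ℝ) = 2 * 2 * (2 * 2) by norm_num, mul_pow, mul_pow]
      push_cast
      nlinarith
    refine (mul_le_mul_of_nonneg_right e1 (by positivity)).trans_eq ?_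
    rw [show (1 / 2 : ℝ) = 16 * (1 / 32) by norm_num, mul_pow]
    ring
  filter_upwards [this] with ω hω x
  filter_upwards [hω, rd_mem x] with k hk hx y hy n hn
  obtain ⟨a, ha, e⟩ := dy_step hn hy
  rw [e]
  exact not_le.1 fun c => hk ⟨_, hx, _, a, ha, c⟩

theorem vers (h : sCel) (hW : Iso P W) (hA : 0 ≤ A) (h2 : ∀ x y, ‖v x - v y‖ ^ 2 ≤ A * ‖x - y‖)
    (x : E 2) : ∀ᵐ ω ∂P, Tendsto (fun n => W (v (dy n x)) ω) atTop (𝓝 (W (v x) ω)) := by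
  have := bc (P := P) (C := 1200 * exp (256 * A)) (by positivity) fun k =>
    (cell2 h hW hA h2 k (z := dy k x) (x₀ := x) ((norm_rd (by positivity) x).trans (by
      gcongr; norm_num))).trans (by gcongr; norm_num)
  filter_upwards [this] with ω hω
  rw [tendsto_iff_norm_sub_tendsto_zero]
  refine squeeze_zero' (Eventually.of_forall fun _ => norm_nonneg _) ?_ eps_lim
  filter_upwards [hω] with k hk
  refine (not_le.1 fun c => hk ⟨0, 0, mem_box.2 fun i => by simp, ?_⟩).le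
  rwa [pt_zero, smul_zero, add_zero]

theorem lim {X : ℕ → E 2 → ℝ} (h : ∀ x, ∀ᶠ k : ℕ in atTop, ∀ y, ‖y - x‖ ≤ ((2 : ℝ) ^ k)⁻¹ →
    ∀ n, k ≤ n → |X n y - X k x| < eps k) :
    (∀ x, Tendsto (fun n => X n x) atTop (𝓝 (limUnder atTop fun n => X n x))) ∧
      Continuous fun x => limUnder atTop fun n => X n x := by
  have h1 : ∀ x, Tendsto (fun n => X n x) atTop (𝓝 (limUnder atTop fun n => X n x)) := fun x => by
    refine CauchySeq.tendsto_limUnder (Metric.cauchySeq_iff'.2 fun ε hε => ?_)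
    obtain ⟨k, a, b⟩ := ((h x).and (eps_lim.eventually_lt_const hε)).exists
    exact ⟨k, fun n hn => (a x (by rw [sub_self, norm_zero]; positivity) n hn).trans b⟩
  refine ⟨h1, Metric.continuous_iff.2 fun x ε hε => ?_⟩
  obtain ⟨k, a, b⟩ := ((h x).and (eps_lim.eventually_lt_const (half_pos hε))).exists
  have c : ∀ y, ‖y - x‖ ≤ ((2 : ℝ) ^ k)⁻¹ → |(limUnder atTop fun n => X n y) - X k x| ≤ eps k :=
    fun y hy => le_of_tendsto ((h1 y).sub_const _).abs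
      (eventually_atTop.2 ⟨k, fun n hn => (a y hy n hn).le⟩)
  refine ⟨((2 : ℝ) ^ k)⁻¹, by positivity, fun y hy => ?_⟩
  have c1 := abs_le.1 (c y (by rw [← dist_eq_norm]; exact hy.le))
  have c2 := abs_le.1 (c x (by rw [sub_self, norm_zero]; positivity))
  rw [Real.dist_eq, abs_lt]
  constructor <;> linarith [c1.1, c1.2, c2.1, c2.2]

end HCM

open HCM in
theorem cm (h : sCel) : sCM := by
  intro Ω _ P _ H _ _ W hW v A hv
  have h2 : ∀ x y, ‖v x - v y‖ ^ 2 ≤ |A| * ‖x - y‖ := fun x y =>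
    (hv x y).trans (mul_le_mul_of_nonneg_right (le_abs_self A) (norm_nonneg _))
  obtain ⟨N, hN, mN, N0⟩ := exists_measurable_superset_of_null
    (ae_iff.1 (unif h hW (abs_nonneg A) h2))
  let X : ℕ → E 2 → Ω → ℝ := fun n x => Nᶜ.indicator (W (v (dy n x)))
  have k : ∀ ω, (∀ x, Tendsto (fun n => X n x ω) atTop (𝓝 (limUnder atTop fun n => X n x ω))) ∧
      Continuous fun x => limUnder atTop fun n => X n x ω := fun ω => by
    by_cases c : ω ∈ Nᶜ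
    · simp only [X, Set.indicator_of_mem c]
      exact lim (X := fun n x => W (v (dy n x)) ω) (not_not.1 fun c' => c (hN c'))
    · simp only [X, Set.indicator_of_notMem c]
      exact ⟨fun _ => tendsto_nhds_limUnder ⟨0, tendsto_const_nhds⟩, continuous_const⟩
  refine ⟨fun ω x => limUnder atTop fun n => X n x ω, fun ω => (k ω).2, fun x => ?_, fun x => ?_⟩
  · exact measurable_of_tendsto_metrizable (f := fun n => X n x)
      (fun n => (hW.meas _).indicator mN.compl) (tendsto_pi_nhds.2 fun ω => (k ω).1 x)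
  · filter_upwards [vers h hW (abs_nonneg A) h2 x, compl_mem_ae_iff.2 N0] with ω a b
    refine tendsto_nhds_unique ((k ω).1 x) ?_
    simp only [X, Set.indicator_of_mem b]
    exact a

end Pool.Agent.GL
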