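import Pool.Agent.Lib.MP_438f30_pr.HSt

/-! Oscillation of a Gaussian field on the dyadic points of a cell. -/

namespace Pool.Agent.GL

open MeasureTheory ProbabilityTheory Real Finset Filter Topology Metric
  Pool.Agent.Lib.MP_a0a493_pr
open scoped InnerProductSpace

namespace HCel

theorem mem_cell (z : E 2) {r : ℝ} (hr : 0 < r) {n : ℕ} {a : Zd 2} (ha : a ∈ box 2 (2 ^ n)) :
    z + (r / 2 ^ n) • pt a ∈ closedBall z (4 * r) := by
  have h2 : (0 : ℝ) < 2 ^ n := by positivity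
  have h1 : ‖pt a‖ ≤ 2 * (2 * 2 ^ n) := norm_le_two (by positivity) fun j => by
    have := mem_box.1 ha j
    have h3 : ((|a j| : ℤ) : ℝ) ≤ ((2 * ((2 ^ n : ℕ) : ℤ) : ℤ) : ℝ) := Int.cast_le.2 this
    rw [pt_apply]
    push_cast at h3
    exact h3
  rw [mem_closedBall, dist_eq_norm, add_sub_cancel_left, norm_smul,
    Real.norm_of_nonneg (by positivity)]
  refine (mul_le_mul_of_nonneg_left h1 (by positivity)).trans (le_of_eq ?_)
  field_simp
  ring

theorem two_mem {n : ℕ} {a : Zd 2} (ha : a ∈ box 2 (2 ^ n)) :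
    (2 : ℤ) • a ∈ box 2 (2 ^ (n + 1)) := by
  rw [mem_box] at ha ⊢
  intro i
  have := ha i
  simp only [Pi.smul_apply, smul_eq_mul, abs_mul]
  push_cast at this ⊢
  rw [pow_succ, abs_two]
  linarith

theorem reg {H : Type} [NormedAddCommGroup H] (v : E 2 → H) (z : E 2) {r V : ℝ} (hr : 0 < r)
    (h1 : ∀ x ∈ closedBall z (4 * r), ‖v x‖ ^ 2 ≤ V)
    (h2 : ∀ x ∈ closedBall z (4 * r), ∀ y ∈ closedBall z (4 * r),
      ‖v x - v y‖ ^ 2 ≤ V / 8 * (‖x - y‖ / r)) (n : ℕ) :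
    Reg 2 V n fun a => v (z + (r / 2 ^ n) • pt a) := by
  refine ⟨fun a ha => h1 _ (mem_cell z hr ha), fun a ha b hb ρ hρ => ?_⟩
  have hx := mem_cell z hr ha
  have hy := mem_cell z hr hb
  have h3 := h2 _ hx _ hy
  have hp : (0 : ℝ) < 2 ^ n := by positivity
  set x := z + (r / 2 ^ n) • pt a with hxe
  set y := z + (r / 2 ^ n) • pt b with hye
  have t0 : 0 ≤ ‖x - y‖ / r := by positivity
  have t8 : ‖x - y‖ / r ≤ 8 := by
    rw [div_le_iff₀ hr, ← dist_eq_norm]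
    have := dist_triangle_right x y z
    rw [mem_closedBall] at hx hy
    linarith
  have t2 : ‖x - y‖ / r ≤ 2 * ((ρ : ℝ) / 2 ^ n) := by
    have e : x - y = (r / 2 ^ n) • (pt a - pt b) := by
      rw [hxe, hye, smul_sub]; abel
    have d1 := dist_pt hρ
    rw [dist_eq_norm] at d1
    rw [div_le_iff₀ hr, e, norm_smul, Real.norm_of_nonneg (by positivity)]
    refine (mul_le_mul_of_nonneg_left d1 (by positivity)).trans (le_of_eq ?_)
    push_cast
    field_simp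
  set t := ‖x - y‖ / r
  set s := (ρ : ℝ) / 2 ^ n with hs
  have hs0 : 0 ≤ s := by positivity
  have t3 : t ^ 2 ≤ 64 * s := by nlinarith
  refine (pow_le_pow_left₀ (sq_nonneg _) h3 2).trans ?_
  rw [mul_div_assoc, ← hs, mul_pow]
  have := mul_le_mul_of_nonneg_left t3 (sq_nonneg (V / 8))
  refine this.trans (le_of_eq ?_)
  ring

end HCel

theorem cel : sCel := by
  intro Ω _ P _ H _ _ W hW v z r V Λ u hr hV hΛ hu h1 h2
  set A : ℕ → Set Ω := fun n => {ω | ∃ a ∈ box 2 (2 ^ n),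
    2 * u + 21 / Λ ≤ W (v (z + (r / 2 ^ n) • pt a)) ω} with hA
  have e : {ω | ∃ (n : ℕ), ∃ a ∈ box 2 (2 ^ n),
      2 * u + 21 / Λ ≤ W (v (z + (r / 2 ^ n) • pt a)) ω} = ⋃ n, A n := by
    ext ω
    simp [hA]
  have hm : Monotone A := monotone_nat_of_le_succ fun n => by
    rintro ω ⟨a, ha, hω⟩
    refine ⟨(2 : ℤ) • a, HCel.two_mem ha, ?_⟩
    have e2 : (r / 2 ^ (n + 1)) • pt ((2 : ℤ) • a) = (r / 2 ^ n) • pt a := by
      rw [pt_zsmul, smul_smul]
      congr 1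
      push_cast
      rw [pow_succ]
      field_simp
    rw [e2]
    exact hω
  have hb : ∀ n, P.real (A n) ≤ 600 * exp (32 * V * Λ ^ 2) * exp (-Λ * u) := fun n => by
    refine (sub_le (chain_aux hW (u := u) hV hΛ n _ (HCel.reg v z hr h1 h2 n)) ?_).trans ?_
    · rintro ω ⟨a, ha, hω⟩
      refine ⟨a, ha, le_trans ?_ hω⟩
      have h0 : 0 ≤ (7 / 8 : ℝ) ^ n *
          (u + 7 * ((((2 : ℕ) : ℝ) + 1) / Λ) + (((2 : ℕ) : ℝ) + 1) / Λ * n) := by positivity
      have h3 : 7 * ((((2 : ℕ) : ℝ) + 1) / Λ) = 21 / Λ := by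
        push_cast
        ring
      linarith
    · refine mul_le_mul_of_nonneg_right ?_ (exp_pos _).le
      have a1 : exp (V * Λ ^ 2 / 2) ≤ exp (32 * V * Λ ^ 2) :=
        exp_le_exp.2 (by nlinarith [mul_nonneg hV (sq_nonneg Λ)])
      have a2 : (0 : ℝ) ≤ (1 / 2) ^ n := by positivity
      have a3 := exp_pos (32 * V * Λ ^ 2)
      nlinarith [mul_nonneg a2 a3.le]
  rw [e, measureReal_def, hm.measure_iUnion]
  refine ENNReal.toReal_le_of_le_ofReal (by positivity) (iSup_le fun n => ?_)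
  rw [← ENNReal.ofReal_toReal (measure_ne_top P (A n))]
  exact ENNReal.ofReal_le_ofReal (hb n)

end Pool.Agent.GL
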