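import Pool.Agent.Lib.MP_438f30_pr.HSt

/-! The Hausdorff dimension bound: the assembly. -/

namespace Pool.Agent.GL

open MeasureTheory ProbabilityTheory Real Finset Filter Topology Metric
  Pool.Agent.Lib.MP_a0a493_pr

namespace HFin

theorem ex_rho : ∃ ρ : E 2 → ℝ, Test ρ ∧ ∫ x, ρ x = 1 := by
  let b : ContDiffBump (0 : E 2) := ⟨1, 2, one_pos, one_lt_two⟩
  exact ⟨b.normed volume, ⟨b.contDiff_normed, b.hasCompactSupport_normed⟩, b.integral_normed⟩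

theorem expo {ξ κ : ℝ} (hξ : 0 < ξ) (hκ : 0 < κ) :
    min 1 (κ / ξ) ^ 4 / 10 ^ 58 ≤ 2 / 10 ^ 58 * (min (7 / 8 * κ) ξ / ξ) ^ 4 := by
  have h0 : 0 ≤ min 1 (κ / ξ) := le_min zero_le_one (div_pos hκ hξ).le
  have h1 : 7 / 8 * min 1 (κ / ξ) ≤ min (7 / 8 * κ) ξ / ξ := by
    rw [le_div_iff₀ hξ]
    refine le_min ?_ ?_
    · have := (le_div_iff₀ hξ).1 (min_le_right 1 (κ / ξ))
      linarith
    · have := mul_le_mul_of_nonneg_right (min_le_left 1 (κ / ξ)) hξ.le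
      nlinarith
  have h2 := pow_le_pow_left₀ (by positivity) h1 4
  have h3 : 0 ≤ min 1 (κ / ξ) ^ 4 := by positivity
  rw [mul_pow] at h2
  rw [div_mul_eq_mul_div]
  refine div_le_div_of_nonneg_right ?_ (by positivity)
  norm_num at h2
  linarith

end HFin

open HFin in
theorem fin (h1 : sNorm) (h2 : sLT) (h3 : sAH) (h4 : sCov) (h5 : MG1) : sHD := by
  intro ξ Q D hξ hQ hξQ hD Ω _ P _ Φ hΦ
  obtain ⟨ρ, hρ, hρ1⟩ := ex_rho
  obtain ⟨g, gc, gF, gL, gG, g0⟩ := h1 Ω P Φ ρ hρ hρ1 hΦ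
  have hκ : 0 < 1 - ξ * Q := by linarith
  have hκ1 : 0 ≤ ξ * Q := mul_nonneg hξ.le hQ
  obtain ⟨lam, hl⟩ : ∃ lam, lam = min (7 / 8 * (1 - ξ * Q)) ξ := ⟨_, rfl⟩
  have l0 : 0 < lam := hl ▸ lt_min (by linarith) hξ
  have l1 : lam ≤ 7 / 8 * (1 - ξ * Q) := hl ▸ min_le_left _ _
  have l2 : lam ≤ ξ := hl ▸ min_le_right _ _
  have hζ : 0 < (1 - lam - ξ * Q) * log 2 := mul_pos (by linarith) (log_pos one_lt_two)
  have e : ξ * Q * log 2 + (1 - lam - ξ * Q) * log 2 = (1 - lam) * log 2 := by ring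
  have a1 := ae_all_iff.2 fun L : ℕ => h2 ξ Q D hξ hD Ω P _ ρ hρ hρ1 gF gG L _ hζ
  rw [e] at a1
  filter_upwards [a1, h3 ξ lam l0 (by linarith) l2 Ω P _ ρ gL hρ hρ1, hD.met Ω P Φ hΦ,
    hD.weyl Ω P Φ hΦ] with ω b1 b2 b3 b4 p l hp hne
  have pc := h5.cont b3 hp
  obtain ⟨B, hB⟩ := isCompact_Icc.exists_bound_of_continuousOn pc
  obtain ⟨L, hL⟩ := exists_nat_ge B
  have ec : ContinuousOn (fun t => exp (ξ * g ω (p t))) (Set.Icc 0 l) :=
    (continuous_exp.comp (continuous_const.mul (gc ω))).comp_continuousOn pc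
  obtain ⟨M, hM⟩ := isCompact_Icc.exists_bound_of_continuousOn ec
  have M0 : 0 ≤ M := (norm_nonneg _).trans (hM 0 ⟨le_rfl, hp.1⟩)
  obtain ⟨j₀, hj⟩ := eventually_atTop.1 (b1 (L + 2))
  obtain ⟨a, a0, δ, δ0, ha⟩ := b2 L j₀ (M * l) (p 0) (p l) hne
  refine le_trans (ENNReal.ofReal_le_ofReal ?_) (h4 p l (1 + 2 / 10 ^ 58 * (lam / ξ) ^ 4) a δ hp.1
    pc (by positivity) a0 δ0 fun T τ r t0 tT tm tI st => ha T (fun i => p (τ i)) r
      (fun i => M * τ i) ⟨by rw [t0], by rw [tT], fun i _ => (hB _ (tI i)).trans hL, st,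
        fun i j h => mul_le_mul_of_nonneg_left (tm h) M0, by rw [t0, tT, mul_zero, sub_zero],
        fun a b hab _ j jj w hw xa xb => ?_⟩)
  · have := expo hξ hκ
    rw [← hl] at this
    linarith
  · have c1 := h5.up (U := Set.univ) (M := M) (g := fun x => exp (ξ * g ω x)) hp (τ a) (τ b)
      (tI a).1 (tm hab) (tI b).2 fun s hs => ⟨(le_abs_self _).trans
        (hM s ⟨(tI a).1.trans hs.1, hs.2.trans (tI b).2⟩), Set.mem_univ _⟩
    rw [← b4 (g ω) (gc ω), ENNReal.ofReal_le_ofReal_iff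
      (mul_nonneg M0 (sub_nonneg.2 (tm hab)))] at c1
    have c2 := not_lt.1 fun h => hj j jj w hw ⟨_, xa, _, xb, h⟩
    have c3 : psi (fun φ ω => Φ φ ω + ∫ x, φ x * g ω x) ρ j ω w =
        phi (fun φ ω => Φ φ ω + ∫ x, φ x * g ω x) ρ j ω w := by
      rw [psi, g0 ω, sub_zero]
    rw [c3, ← mul_sub]
    exact c2.trans c1

end Pool.Agent.GL
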