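import Pool.Agent.Lib.MP_438f30_pr.HSt

/-! Stochastic Fubini for an isonormal process. -/

namespace Pool.Agent.GL

open MeasureTheory ProbabilityTheory Real Filter Topology
  Pool.Agent.Lib.MP_a0a493_pr
open scoped InnerProductSpace

namespace HFub

variable {Ω : Type} [MeasurableSpace Ω] {P : Measure Ω} [IsProbabilityMeasure P] {H : Type}
  [NormedAddCommGroup H] [InnerProductSpace ℝ H] {W : H →ₗ[ℝ] (Ω → ℝ)}

theorem l2 (h : Iso P W) (a : H) : MemLp (W a) 2 P := by
  have := memLp_id_gaussianReal' (μ := 0) (v := ‖a‖₊ ^ 2) 2 (by simp)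
  rw [← h.map_eq a] at this
  exact this.comp_of_map (h.meas a).aemeasurable

theorem sq_int (h : Iso P W) (a : H) : ∫ ω, W a ω ^ 2 ∂P = ‖a‖ ^ 2 := by
  have e := variance_fun_id_gaussianReal (μ := 0) (v := ‖a‖₊ ^ 2)
  rw [variance_of_integral_eq_zero (by fun_prop) integral_id_gaussianReal, ← h.map_eq a,
    integral_map (h.meas a).aemeasurable (by fun_prop)] at e
  simpa using e

theorem cov (h : Iso P W) (a b : H) : ∫ ω, W a ω * W b ω ∂P = ⟪a, b⟫_ℝ := by
  have e := sq_int h (a + b)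
  have ia : Integrable (fun ω => W a ω ^ 2) P := (l2 h a).integrable_sq
  have ib : Integrable (fun ω => W b ω ^ 2) P := (l2 h b).integrable_sq
  have iab : Integrable (fun ω => W a ω * W b ω) P := (l2 h a).integrable_mul (l2 h b)
  have e2 : (fun ω => W (a + b) ω ^ 2) =
      fun ω => (W a ω ^ 2 + 2 * (W a ω * W b ω)) + W b ω ^ 2 := by
    funext ω
    simp only [map_add, Pi.add_apply]
    ring
  have i1 : Integrable (fun ω => W a ω ^ 2 + 2 * (W a ω * W b ω)) P := ia.add (iab.const_mul 2)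
  rw [e2, integral_add i1 ib, integral_add ia (iab.const_mul 2), integral_const_mul, sq_int h,
    sq_int h, norm_add_sq_real] at e
  linarith

variable {v : E 2 → H} {F : Ω → E 2 → ℝ} {φ : E 2 → ℝ}

omit [IsProbabilityMeasure P] in
theorem jm (hF : Ver P W v F) : Measurable fun p : E 2 × Ω => F p.2 p.1 :=
  measurable_uncurry_of_continuous_of_measurable (u := fun x ω => F ω x) hF.1 hF.2.1

theorem Fl2 (h : Iso P W) (hF : Ver P W v F) (x : E 2) : MemLp (fun ω => F ω x) 2 P :=
  (memLp_congr_ae (hF.2.2 x)).2 (l2 h _)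

theorem cc (hφ : Test φ) {g : E 2 → ℝ} (hg : Continuous g) : Integrable fun x => φ x * g x :=
  (hφ.1.continuous.mul hg).integrable_of_hasCompactSupport hφ.2.mul_right

theorem cc' (hφ : Test φ) {g : E 2 → ℝ} (hg : Continuous g) :
    Integrable fun x => |φ x| * g x := by
  have c : HasCompactSupport fun x => |φ x| := hφ.2.comp_left (g := fun t : ℝ => |t|) abs_zero
  exact (hφ.1.continuous.abs.mul hg).integrable_of_hasCompactSupport c.mul_right

theorem int_sq (h : Iso P W) (hv : Continuous v) (hF : Ver P W v F) (hφ : Test φ) :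
    Integrable (fun p : E 2 × Ω => |φ p.1| * F p.2 p.1 ^ 2) (volume.prod P) := by
  have m : Measurable fun p : E 2 × Ω => |φ p.1| * F p.2 p.1 ^ 2 :=
    (hφ.1.continuous.abs.measurable.comp measurable_fst).mul ((jm hF).pow_const 2)
  rw [integrable_prod_iff m.aestronglyMeasurable]
  refine ⟨Eventually.of_forall fun x => (Fl2 h hF x).integrable_sq.const_mul |φ x|, ?_⟩
  refine (cc' hφ (g := fun x => ‖v x‖ ^ 2) (hv.norm.pow 2)).congr (Eventually.of_forall fun x => ?_)
  have e : ∫ ω, F ω x ^ 2 ∂P = ‖v x‖ ^ 2 := by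
    rw [← sq_int h]
    exact integral_congr_ae ((hF.2.2 x).mono fun ω e => by simp only [e])
  have e2 : (fun ω => ‖|φ x| * F ω x ^ 2‖) = fun ω => |φ x| * F ω x ^ 2 := by
    funext ω
    exact Real.norm_of_nonneg (by positivity)
  simp only [e2, integral_const_mul, e]

theorem int_X (h : Iso P W) (hv : Continuous v) (hF : Ver P W v F) (hφ : Test φ) {X : Ω → ℝ}
    (mX : Measurable X) (hX : MemLp X 2 P) :
    Integrable (fun p : E 2 × Ω => φ p.1 * (F p.2 p.1 * X p.2)) (volume.prod P) := by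
  have m : Measurable fun p : E 2 × Ω => φ p.1 * (F p.2 p.1 * X p.2) :=
    (hφ.1.continuous.measurable.comp measurable_fst).mul ((jm hF).mul (mX.comp measurable_snd))
  have i2 : Integrable (fun p : E 2 × Ω => |φ p.1| * X p.2 ^ 2) (volume.prod P) :=
    hφ.int.abs.mul_prod hX.integrable_sq
  refine ((int_sq h hv hF hφ).add i2).mono' m.aestronglyMeasurable
    (Eventually.of_forall fun p => ?_)
  simp only [Pi.add_apply, Real.norm_eq_abs]
  rw [abs_mul, ← mul_add]
  refine mul_le_mul_of_nonneg_left (abs_le.2 ⟨?_, ?_⟩) (abs_nonneg _)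
  · nlinarith [sq_nonneg (F p.2 p.1 + X p.2), sq_nonneg (F p.2 p.1), sq_nonneg (X p.2)]
  · nlinarith [sq_nonneg (F p.2 p.1 - X p.2), sq_nonneg (F p.2 p.1), sq_nonneg (X p.2)]

theorem swap (h : Iso P W) (hv : Continuous v) (hF : Ver P W v F) (hφ : Test φ) {X : Ω → ℝ}
    (mX : Measurable X) (hX : MemLp X 2 P) :
    ∫ ω, (∫ x, φ x * F ω x) * X ω ∂P = ∫ x, φ x * ∫ ω, W (v x) ω * X ω ∂P := by
  have e := integral_integral_swap (μ := volume) (ν := P)
    (f := fun x ω => φ x * (F ω x * X ω)) (int_X h hv hF hφ mX hX)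
  have e1 : ∀ ω, (∫ x, φ x * F ω x) * X ω = ∫ x, φ x * (F ω x * X ω) := fun ω => by
    rw [← integral_mul_const]
    simp only [mul_assoc]
  simp only [e1]
  rw [← e]
  refine integral_congr_ae (Eventually.of_forall fun x => ?_)
  simp only [integral_const_mul]
  congr 1
  exact integral_congr_ae ((hF.2.2 x).mono fun ω e => by simp only [e])

omit [IsProbabilityMeasure P] in
theorem mY (hF : Ver P W v F) (hφ : Test φ) : Measurable fun ω => ∫ x, φ x * F ω x := by
  have m : Measurable fun p : E 2 × Ω => φ p.1 * F p.2 p.1 :=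
    (hφ.1.continuous.measurable.comp measurable_fst).mul (jm hF)
  exact (m.stronglyMeasurable.integral_prod_left' (μ := volume)).measurable

theorem cs (hφ : Test φ) {g : E 2 → ℝ} (hg : Continuous g) :
    (∫ x, φ x * g x) ^ 2 ≤ ((∫ x, |φ x|) + 1) * ∫ x, |φ x| * g x ^ 2 := by
  set Y := ∫ x, φ x * g x with hY
  set C := ∫ x, |φ x| with hC
  set S := ∫ x, |φ x| * g x ^ 2 with hS
  have C0 : 0 ≤ C := integral_nonneg fun x => abs_nonneg _
  have i1 := (cc hφ hg).mul_const (2 * (C + 1) * Y)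
  have i2 := (cc' hφ (g := fun x => g x ^ 2) (hg.pow 2)).const_mul ((C + 1) ^ 2)
  have i3 := hφ.int.abs.mul_const (Y ^ 2)
  have key := integral_mono i1 (i2.add i3) fun x => by
    simp only [Pi.add_apply]
    have a : |g x * (2 * (C + 1) * Y)| ≤ (C + 1) ^ 2 * g x ^ 2 + Y ^ 2 :=
      abs_le.2 ⟨by nlinarith [sq_nonneg ((C + 1) * g x + Y)],
        by nlinarith [sq_nonneg ((C + 1) * g x - Y)]⟩
    have b := mul_le_mul_of_nonneg_left a (abs_nonneg (φ x))
    rw [← abs_mul] at b
    have c := le_abs_self (φ x * (g x * (2 * (C + 1) * Y)))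
    nlinarith
  simp only [Pi.add_apply] at key
  rw [integral_add i2 i3, integral_mul_const, integral_mul_const, integral_const_mul,
    ← hY, ← hC, ← hS] at key
  have : (C + 1) * Y ^ 2 ≤ (C + 1) * ((C + 1) * S) := by nlinarith [sq_nonneg Y]
  exact le_of_mul_le_mul_left this (by linarith)

theorem Yl2 (h : Iso P W) (hv : Continuous v) (hF : Ver P W v F) (hφ : Test φ) :
    MemLp (fun ω => ∫ x, φ x * F ω x) 2 P := by
  rw [memLp_two_iff_integrable_sq (mY hF hφ).aestronglyMeasurable]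
  refine (((int_sq h hv hF hφ).integral_prod_right).const_mul ((∫ x, |φ x|) + 1)).mono'
    ((mY hF hφ).pow_const 2).aestronglyMeasurable (Eventually.of_forall fun ω => ?_)
  rw [Real.norm_of_nonneg (sq_nonneg _)]
  exact cs hφ (hF.1 ω)

end HFub

open HFub in
theorem fub : sFub := by
  intro Ω _ P _ H _ _ W h v F φ u hv hF hφ hu
  set Y : Ω → ℝ := fun ω => ∫ x, φ x * F ω x with hY
  have e1 : ∀ g, ∫ ω, Y ω * W g ω ∂P = ⟪u, g⟫_ℝ := fun g => by
    rw [hu g, hY, swap h hv hF hφ (h.meas g) (l2 h g)]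
    simp only [cov h]
  have yl : MemLp Y 2 P := Yl2 h hv hF hφ
  have e2 : ∫ ω, Y ω * Y ω ∂P = ⟪u, u⟫_ℝ := by
    have := swap h hv hF hφ (X := Y) (mY hF hφ) yl
    rw [hu u]
    refine this.trans (integral_congr_ae (Eventually.of_forall fun x => ?_))
    simp only
    rw [real_inner_comm, ← e1]
    simp only [mul_comm]
  have ia : Integrable (fun ω => W u ω * W u ω) P := (l2 h u).integrable_mul (l2 h u)
  have ib : Integrable (fun ω => Y ω * W u ω) P := yl.integrable_mul (l2 h u)
  have ic : Integrable (fun ω => Y ω * Y ω) P := yl.integrable_mul yl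
  have i1 : Integrable (fun ω => W u ω * W u ω - 2 * (Y ω * W u ω)) P := ia.sub (ib.const_mul 2)
  have e3 : (fun ω => (W u ω - Y ω) ^ 2) =
      fun ω => (W u ω * W u ω - 2 * (Y ω * W u ω)) + Y ω * Y ω := by
    funext ω
    ring
  have e4 : ∫ ω, (W u ω - Y ω) ^ 2 ∂P = 0 := by
    rw [e3, integral_add i1 ic, integral_sub ia (ib.const_mul 2), integral_const_mul, cov h, e1, e2]
    ring
  have i4 : Integrable (fun ω => (W u ω - Y ω) ^ 2) P := by
    rw [e3]
    exact i1.add ic
  have := (integral_eq_zero_iff_of_nonneg (fun ω => sq_nonneg _) i4).1 e4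
  filter_upwards [this] with ω hω
  have : W u ω - Y ω = 0 := by simpa using hω
  exact sub_eq_zero.1 this

end Pool.Agent.GL
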