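import Pool.Agent.Lib.MP_438f30_pr.HSt

/-! The field of the fine scales as a modification of the normalised field. -/

namespace Pool.Agent.GL

open MeasureTheory ProbabilityTheory Real Finset Filter Topology Metric
  Pool.Agent.Lib.MP_a0a493_pr
open scoped InnerProductSpace

namespace HMod

theorem cont_of {H : Type} [NormedAddCommGroup H] {v : E 2 → H} {A : ℝ}
    (h : ∀ x y, ‖v x - v y‖ ^ 2 ≤ A * ‖x - y‖) : Continuous v := by
  refine continuous_iff_continuousAt.2 fun y => tendsto_iff_norm_sub_tendsto_zero.2 ?_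
  have c : Continuous fun x : E 2 => √(A * ‖x - y‖) := by fun_prop
  have c0 := c.tendsto y
  simp only [sub_self, norm_zero, mul_zero, sqrt_zero] at c0
  exact squeeze_zero (fun _ => norm_nonneg _) (fun x => le_sqrt_of_sq_le (h x y)) c0

theorem meas_int {Ω : Type} [MeasurableSpace Ω] {F : Ω → E 2 → ℝ} (h1 : ∀ ω, Continuous (F ω))
    (h2 : ∀ x, Measurable fun ω => F ω x) {φ : E 2 → ℝ} (hφ : Continuous φ) :
    Measurable fun ω => ∫ x, φ x * F ω x := by
  have a : Measurable (Function.uncurry fun (x : E 2) (ω : Ω) => φ x * F ω x) :=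
    measurable_uncurry_of_continuous_of_measurable (fun ω => hφ.mul (h1 ω))
      fun x => (h2 x).const_mul _
  exact (a.stronglyMeasurable.integral_prod_left' (μ := volume)).measurable

end HMod

open GL.HMod in
theorem md (h1 : VF1) (h2 : sVF2) (h3 : sCM) (h4 : sFub) : sMod := by
  intro Ω _ P _ W hW ρ hρ hρ1 α
  obtain ⟨F, hF⟩ := h3 Ω P (HH 2) W hW (crs ρ α) _ (h1.inc hρ hρ1 α)
  refine ⟨F, hF, ⟨fun φ hφ => (hW.meas _).sub (meas_int hF.1 hF.2.1 hφ.1.continuous),
    fun ω x => -F ω x, fun ω => (hF.1 ω).neg, fun x => (hF.2.1 x).neg, ?_⟩, fun φ hφ => ?_⟩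
  · simpa only [mul_neg, integral_neg, sub_neg_eq_add, sub_add_cancel] using
      (h1.lgf hW hρ hρ1).1
  · filter_upwards [h4 Ω P (HH 2) W hW (crs ρ α) F φ (gv0 ρ φ - fn α φ)
      (cont_of (h1.inc hρ hρ1 α)) hF hφ fun g => h2 ρ φ α g hρ hρ1 hφ] with ω h
    rw [map_sub, Pi.sub_apply] at h
    linarith

end Pool.Agent.GL
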