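import Pool.Agent.Lib.MP_438f30_pr.HSt

/-! Basic facts on the vectors of the normalised field. -/

namespace Pool.Agent.GL

open MeasureTheory ProbabilityTheory Real Pool.Agent.Lib.MP_a0a493_pr

namespace HV1

variable {ρ φ ψ : E 2 → ℝ}

theorem test0 (hρ : Test ρ) (h : Test φ) : Test ((1 : ℝ) • φ + (-∫ x, φ x) • mol ρ 0 0) :=
  h.comb (test_mol hρ 0 0) _ _

theorem int0 (hρ : Test ρ) (h1 : ∫ x, ρ x = 1) (h : Test φ) :
    ∫ x, ((1 : ℝ) • φ + (-∫ x, φ x) • mol ρ 0 0) x = 0 := by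
  rw [int_comb h.int (test_mol hρ 0 0).int, int_mol, h1]
  ring

theorem comb (hρ : Test ρ) (h1 : ∫ x, ρ x = 1) (hφ : Test φ) (hψ : Test ψ) (a b : ℝ) :
    gv0 ρ (a • φ + b • ψ) = a • gv0 ρ φ + b • gv0 ρ ψ := by
  rw [gv0, gv0, gv0, ← vecAf_comb one_le_two (test0 hρ hφ) (test0 hρ hψ) (int0 hρ h1 hφ)
    (int0 hρ h1 hψ), int_comb hφ.int hψ.int]
  congr 2
  funext x
  simp only [Pi.add_apply, Pi.smul_apply, smul_eq_mul]
  ring

theorem zero (h0 : ∫ x, φ x = 0) : gv0 ρ φ = vec (Af φ) := by simp [gv0, h0]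

theorem lgf {Ω : Type} [MeasurableSpace Ω] {P : Measure Ω} [IsProbabilityMeasure P]
    {W : HH 2 →ₗ[ℝ] (Ω → ℝ)} (hW : Iso P W) (hρ : Test ρ) (h1 : ∫ x, ρ x = 1) :
    IsLGF P fun φ => W (gv0 ρ φ) := by
  refine ⟨fun f g hf hg a b => Filter.Eventually.of_forall fun ω => ?_, fun f hf h0 =>
    ⟨(hW.meas _).aemeasurable, ?_⟩⟩
  · rw [comb hρ h1 hf hg]
    simp
  · obtain ⟨B, R, hn⟩ := hf.nice
    rw [hW.map_eq, zero h0, ← energy le_rfl hn h0]
    congr 1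
    ext
    simp

theorem inc (hρ : Test ρ) (h1 : ∫ x, ρ x = 1) (α : ℝ) (x y : E 2) :
    ‖crs ρ α x - crs ρ α y‖ ^ 2 ≤ 4 * exp (-α) * ‖x - y‖ := by
  have hm := test_mol hρ 0 0
  have e : (fun p => Dv (mol ρ 0 0) y α p - Dv (mol ρ 0 0) x α p) =
      fun p : ℝ × E 2 => if α < p.1 then bi (exp p.1) x p.2 - bi (exp p.1) y p.2 else 0 := by
    funext p
    rw [Dv, Dv, int_mol, h1]
    split_ifs <;> ring
  rw [crs, crs, neg_sub_neg, ← vec_sub (ok_Dv hm y α) (ok_Dv hm x α), e,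
    ← zero_add (4 * exp (-α) * ‖x - y‖)]
  refine (ok_two (g := fun p : ℝ × E 2 =>
    if α < p.1 then bi (exp p.1) x p.2 - bi (exp p.1) y p.2 else 0)
    (Measurable.ite (measurable_fst measurableSet_Ioi) (by fun_prop) measurable_const) (α := α)
    (fun s hs => ?_) fun s hs => ?_).2
  · simp only [not_lt.2 hs, if_false]
    exact sl_zero (by simp)
  · simp only [show α < s from hs, if_true]
    refine (sl_bi_sub one_le_two s (dist_eq_norm x y).le).mono (le_of_eq ?_)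
    have : exp (-s) = exp (-α) * exp (α - s) := by rw [← exp_add]; ring_nf
    rw [this]
    push_cast
    ring

theorem cut (hρ : Test ρ) (h1 : ∫ x, ρ x = 1) (α β : ℝ) (x : E 2) (h : α ≤ β) :
    crs ρ α x = Ev α β x + crs ρ β x := by
  have hm := test_mol hρ 0 0
  have e : vec (Dv (mol ρ 0 0) x β) = Ev α β x + vec (Dv (mol ρ 0 0) x α) := by
    rw [Ev, ← vec_add (ok_ev _ _ _) (ok_Dv hm x α)]
    congr 1
    funext p
    rw [Dv, Dv, int_mol, h1, ev]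
    by_cases a : α < p.1 <;> by_cases c : β < p.1 <;> simp [a, c, ← not_lt]
    linarith
  rw [crs, crs, e]
  abel

theorem cmp (hρ : Test ρ) (_h1 : ∫ x, ρ x = 1) : ∃ V : ℝ, 0 ≤ V ∧ ∀ (n : ℕ) (w : Zd 2),
    ‖crs ρ (-(n * log 2)) (((2 : ℝ) ^ n)⁻¹ • pt w) - vp ρ n w‖ ^ 2 ≤ V := by
  obtain ⟨b, R, hn⟩ := hρ.nice
  have R0 := hn.pos
  refine ⟨b ^ 2 * Kc 2 (R + 0), by unfold Kc; positivity, fun n w => ?_⟩
  set x := ((2 : ℝ) ^ n)⁻¹ • pt w
  have e : vec (Dv (mol ρ n x) x (-(n * log 2))) =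
      vec (Dv (mol ρ 0 0) x (-(n * log 2))) + vec (Af (dm ρ n x)) := by
    rw [← vec_add (ok_Dv (test_mol hρ 0 0) x _) ((test_dm hρ n x).ok one_le_two (int_dm hρ n x))]
    congr 1
    funext p
    rw [dm, Af_comb (test_mol hρ n x).int (test_mol hρ 0 0).int, Dv, Dv, int_mol, int_mol]
    ring
  rw [crs, vp, ← neg_add', ← e, norm_neg]
  exact norm_Dv' one_le_two (nice_mol hn n (x := x) (z := x) (δ := 0) (by simp))

end HV1

theorem vf1 : VF1 where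
  lgf := fun hW hρ h1 => ⟨HV1.lgf hW hρ h1, ⟨fun _ _ => hW.meas _, fun _ _ => 0,
    fun _ => continuous_const, fun _ => measurable_const, by simpa using HV1.lgf hW hρ h1⟩,
    fun _ _ => hW.meas _, fun _ _ _ _ => hW.gf _⟩
  psi := fun h1 n w => by rw [gv0, int_mol, h1, vp, dm]
  inc := HV1.inc
  cut := HV1.cut
  cmp := HV1.cmp

end Pool.Agent.GL
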