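import Pool.Agent.Lib.MP_438f30_pr.HSt

/-! The coarse part of the field is the integral of the coarse vectors, in the weak sense. -/

namespace Pool.Agent.GL

open MeasureTheory ProbabilityTheory Real Filter Topology Metric Pool.Agent.Lib.MP_a0a493_pr
open scoped InnerProductSpace

namespace HV2

theorem inner_g {k : ℝ × E 2 → ℝ} (h : Ok k) (g : HH 2) :
    ⟪vec k, g⟫_ℝ = ∫ p, cs 2 p.1 * k p * g p ∂mu 2 := by
  rw [h.vec_eq, L2.inner_def]
  refine integral_congr_ae ?_
  filter_upwards [MemLp.coeFn_toLp h] with p h1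
  rw [h1]
  simp [mul_comm]

theorem int_g {k : ℝ × E 2 → ℝ} (h : Ok k) (g : HH 2) :
    Integrable (fun p => cs 2 p.1 * k p * g p) (mu 2) :=
  MemLp.integrable_mul h (Lp.memLp g)

theorem abs_g {k : ℝ × E 2 → ℝ} (h : Ok k) (g : HH 2) :
    ∫ p, ‖cs 2 p.1 * k p * g p‖ ∂mu 2 ≤ ‖vec k‖ ^ 2 + ‖g‖ ^ 2 := by
  have i2 : Integrable (fun p => g p * g p) (mu 2) :=
    MemLp.integrable_mul (Lp.memLp g) (Lp.memLp g)
  have e2 : ‖g‖ ^ 2 = ∫ p, g p * g p ∂mu 2 := by
    rw [← real_inner_self_eq_norm_sq, L2.inner_def]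
    simp [sq]
  rw [← real_inner_self_eq_norm_sq (vec k), inner_vec h h, e2, ← integral_add (h.int_mul h) i2]
  refine integral_mono (int_g h g).norm ((h.int_mul h).add i2) fun p => ?_
  show ‖cs 2 p.1 * k p * g p‖ ≤ (vb 2 p.1)⁻¹ * (k p * k p) + g p * g p
  rw [← vec_mul_eq, Real.norm_eq_abs, abs_le]
  constructor <;> nlinarith [sq_nonneg (cs 2 p.1 * k p + g p), sq_nonneg (cs 2 p.1 * k p - g p),
    sq_nonneg (cs 2 p.1 * k p), sq_nonneg (g p)]

theorem bd {m : E 2 → ℝ} (h : Test m) (α S : ℝ) (hS : 0 < S) :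
    ∃ C : ℝ, ∀ x : E 2, dist 0 x < S → ‖vec (Dv m x α)‖ ^ 2 ≤ C := by
  obtain ⟨B, R, hn⟩ := h.nice
  refine ⟨_, fun x hx => (norm_Dv (B := B) (R := R + S) one_le_two ⟨hn.meas, hn.bd, fun y hy => ?_,
    by linarith [hn.pos]⟩ α).2⟩
  have a := hn.sup y hy
  have b := dist_triangle x 0 y
  rw [dist_comm x 0] at b
  linarith

theorem fub {m φ : E 2 → ℝ} (hm : Test m) (hφ : Test φ) (α : ℝ) (g : HH 2) :
    Integrable (Function.uncurry fun (x : E 2) (p : ℝ × E 2) =>
      φ x * (cs 2 p.1 * Dv m x α p * g p)) (volume.prod (mu 2)) := by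
  obtain ⟨B, S, hn⟩ := hφ.nice
  obtain ⟨C, hC⟩ := bd hm α S hn.pos
  have m1 := hn.meas
  have m2 := measurable_Af hm.1.continuous.measurable
  have m3 : Measurable fun p => g p := (Lp.stronglyMeasurable g).measurable
  have m4 : Measurable fun q : E 2 × ℝ × E 2 => Dv m q.1 α q.2 :=
    (m2.comp measurable_snd).sub (measurable_const.mul (Measurable.ite
      (measurableSet_lt measurable_const measurable_snd.fst) (by fun_prop) measurable_const))
  have ms : AEStronglyMeasurable (Function.uncurry fun (x : E 2) (p : ℝ × E 2) =>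
      φ x * (cs 2 p.1 * Dv m x α p * g p)) (volume.prod (mu 2)) :=
    ((m1.comp measurable_fst).mul (((measurable_cs.comp measurable_snd.fst).mul m4).mul
      (m3.comp measurable_snd))).aestronglyMeasurable
  refine (integrable_prod_iff ms).2 ⟨Eventually.of_forall fun x =>
    (int_g (ok_Dv hm x α) g).const_mul (φ x), (hn.int.abs.mul_const (C + ‖g‖ ^ 2)).mono'
    ms.norm.integral_prod_right' (Eventually.of_forall fun x => ?_)⟩
  rw [Real.norm_of_nonneg (integral_nonneg fun _ => norm_nonneg _)]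
  simp only [Function.uncurry_apply_pair, norm_mul (φ x), integral_const_mul]
  by_cases h0 : φ x = 0
  · simp [h0]
  · exact mul_le_mul_of_nonneg_left ((abs_g (ok_Dv hm x α) g).trans
      (by linarith [hC x (hn.sup x h0)])) (abs_nonneg _)

theorem pt_eq {m φ : E 2 → ℝ} (h1 : ∫ x, m x = 1) (hφ : Test φ) (α : ℝ) (p : ℝ × E 2) :
    ∫ x, φ x * Dv m x α p = -((1 * Af φ p + (-∫ x, φ x) * Af m p) -
      if p.1 ≤ α then Af φ p else 0) := by
  by_cases hp : p.1 ≤ α
  · simp only [Dv, hp, not_lt.2 hp, if_true, if_false, mul_zero, sub_zero, integral_mul_const]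
    ring
  · simp only [Dv, hp, not_le.1 hp, if_true, if_false, h1, one_mul, mul_sub]
    rw [integral_sub (hφ.int.mul_const _) (int_mul_bi hφ.int _ _), integral_mul_const]
    simp only [Af]
    ring

end HV2

theorem vf2 (_h : VF1) : sVF2 := by
  intro ρ φ α g hρ h1 hφ
  have hm := test_mol hρ 0 0
  have i1 : ∫ x, mol ρ 0 0 x = 1 := (int_mol ρ 0 0).trans h1
  have o1 : Ok (Af ((1 : ℝ) • φ + (-∫ x, φ x) • mol ρ 0 0)) :=
    (hφ.comb hm _ _).ok one_le_two (by rw [int_comb hφ.int hm.int, i1]; ring)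
  have o2 := ok_fn hφ α
  rw [gv0, fn, ← vec_sub o1 o2, HV2.inner_g (o1.sub o2), Af_comb hφ.int hm.int]
  simp only [crs, inner_neg_left, HV2.inner_g (ok_Dv hm _ α), mul_neg, integral_neg,
    ← integral_const_mul]
  have sw := integral_integral_swap (HV2.fub hm hφ α g)
  rw [sw]
  refine Eq.trans (integral_congr_ae (Eventually.of_forall fun p => ?_)) (integral_neg _)
  have e : ∀ x, φ x * (cs 2 p.1 * Dv (mol ρ 0 0) x α p * g p) =
      φ x * Dv (mol ρ 0 0) x α p * (cs 2 p.1 * g p) := fun x => by ring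
  simp only [e, integral_mul_const, HV2.pt_eq i1 hφ α p]
  ring

end Pool.Agent.GL
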