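import Pool.Agent.Lib.MP_438f30_pr.HSt
import Pool.Agent.Lib.MP_438f30_pr.U.Cnt

/-! The statements of the blocks for the upper bound on the dimension of geodesics. -/

namespace Pool.Agent.GL

open MeasureTheory ProbabilityTheory Real Finset Filter Topology Metric
  Pool.Agent.Lib.MP_a0a493_pr
open scoped InnerProductSpace

/-- the open annulus about `z` with the radii `a` and `b` -/
def An (z : R2) (a b : ℝ) : Set R2 := {x | a < dist x z ∧ dist x z < b}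

/-- going round the annulus is cheaper than crossing its neighbours -/
def Shd (κ : ℝ) (d : R2 → R2 → ℝ) (z : R2) (R : ℝ) : Prop :=
  ∃ s' s : ℝ, s' < s ∧ (∀ u ∈ An z (3 * R) (4 * R), ∀ v ∈ An z (3 * R) (4 * R), κ * d u v ≤ s') ∧
    ¬ Crx d z R s ∧ ¬ Crx d z (5 * R) s

/-- a quasi-geodesic -/
def QG (d : R2 → R2 → ℝ) (K : ℝ) (p : ℝ → R2) (l : ℝ) : Prop :=
  Lip d p l ∧ ∀ s ∈ Set.Icc 0 l, ∀ t ∈ Set.Icc 0 l, |s - t| ≤ K * d (p s) (p t)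

def sG1 : Prop :=
  ∀ (d d' : R2 → R2 → ℝ) (g : R2 → ℝ) (z : R2) (R κ m B : ℝ), IsMet d → IsMet d' →
    (∀ u v, ENNReal.ofReal (d u v) = wey d' g Set.univ u v) → 0 < R → 0 < m → 1 ≤ B → 1 ≤ κ →
    (∀ x ∈ closedBall z (10 * R), m ≤ g x ∧ g x ≤ m * B) → Shd (κ * B) d' z R → Shd κ d z R

def sG2 : Prop :=
  ∀ (d : R2 → R2 → ℝ) (p : ℝ → R2) (l : ℝ) (z : R2) (R : ℝ), IsMet d → QG d 4 p l → 0 < R →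
    Shd 3 d z R → p 0 ∉ ball z (4 * R) → p l ∉ ball z (4 * R) → ∀ t ∈ Set.Icc 0 l, p t ∉ ball z R

def sG3 : Prop :=
  ∀ (κ : ℝ) (z : R2) (R : ℝ), ∃ A : Set (R2 → R2 → ℝ), MeasurableSet A ∧
    ∀ d : R2 → R2 → ℝ, (Continuous fun q : R2 × R2 => d q.1 q.2) → (Shd κ d z R ↔ d ∈ A)

def sG4 : Prop :=
  ∀ (ξ Q : ℝ) (D : ((R2 → ℝ) → ℝ) → R2 → R2 → ℝ), IsLQG ξ Q D →
    ∀ (Ω : Type) [MeasurableSpace Ω] (P : Measure Ω) [IsProbabilityMeasure P]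
      (W : HH 2 →ₗ[ℝ] (Ω → ℝ)), Iso P W → ∀ (r : ℝ) (Ψ Ψ₁ : (E 2 → ℝ) → Ω → ℝ), 0 < r →
      Fine P W (log r) Ψ → Fine P W 0 Ψ₁ → ∀ (κ : ℝ) (z : E 2) (R : ℝ),
        P {ω | Shd κ (D fun φ => Ψ φ ω) z (r * R)} = P {ω | Shd κ (D fun φ => Ψ₁ φ ω) 0 R}

def sLow2 : Prop :=
  ∀ (D : R2 → R2 → ℝ) (z u v : R2) (R s m : ℝ) (g : R2 → ℝ), IsMet D → ¬ Crx D z R s → 0 ≤ m →
    (∀ x ∈ closedBall z (2 * R), x ∉ ball z R → m ≤ g x) → u ∈ ball z R →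
    v ∉ closedBall z (2 * R) → ENNReal.ofReal (m * s) ≤ wey D g Set.univ u v

def sBdd : Prop :=
  ∀ D : R2 → R2 → ℝ, IsMet D → ∃ S : ℝ, ∀ u ∈ An 0 24 32, ∀ v ∈ An 0 24 32,
    wey D (fun _ => 1) (An 0 20 36) u v ≤ ENNReal.ofReal S

def sBump : Prop :=
  ∃ (g : HH 2) (f : E 2 → ℝ), g ≠ 0 ∧ Continuous f ∧
    (∀ x, ‖x‖ ≤ 16 ∨ (40 ≤ ‖x‖ ∧ ‖x‖ ≤ 80) → f x = 1) ∧ (∀ x ∈ An 0 20 36, f x = 0) ∧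
    ∀ φ, Test φ → ⟪fn 0 φ, g⟫_ℝ = ∫ x, φ x * f x

def sVer : Prop :=
  ∀ (Ω : Type) [MeasurableSpace Ω] (P : Measure Ω) (H : Type) [NormedAddCommGroup H]
    [InnerProductSpace ℝ H] (W : H →ₗ[ℝ] (Ω → ℝ)) (Ψ : (E 2 → ℝ) → Ω → ℝ) (v : (E 2 → ℝ) → H)
    (U : Set (E 2)) (K : Set H),
    (∀ φ, Test φ → tsupport φ ⊆ U → Ψ φ =ᵐ[P] W (v φ) ∧ v φ ∈ K) →
    ∀ A : Set ((E 2 → ℝ) → ℝ), @MeasurableSet _ (sig U) A →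
      ∃ B : Set Ω, MeasurableSet[GU.FK W K] B ∧ {ω | (fun φ => Ψ φ ω) ∈ A} =ᵐ[P] B

def sG5 : Prop :=
  ∀ (ξ Q : ℝ) (D : ((R2 → ℝ) → ℝ) → R2 → R2 → ℝ), 0 < ξ → IsLQG ξ Q D →
    ∀ (Ω : Type) [MeasurableSpace Ω] (P : Measure Ω) [IsProbabilityMeasure P]
      (W : HH 2 →ₗ[ℝ] (Ω → ℝ)), Iso P W → ∀ Ψ₁ : (E 2 → ℝ) → Ω → ℝ, Fine P W 0 Ψ₁ →
      ∀ κ : ℝ, 0 < P.real {ω | Shd κ (D fun φ => Ψ₁ φ ω) 0 8}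

def sG8a : Prop :=
  ∀ (d : R2 → R2 → ℝ) (S : Set R2) (κ : ℝ) (z : R2) (R : ℝ), IsMet d → Dense S → 1 ≤ κ → 0 < R →
    (Shd κ d z R ↔ ∃ q' q : ℚ, 0 ≤ q' ∧ q' < q ∧
      (∀ u ∈ S, ∀ v ∈ S, u ∈ An z (3 * R) (4 * R) → v ∈ An z (3 * R) (4 * R) →
        ENNReal.ofReal κ * wey d (fun _ => 1) (An z (R / 2) (15 * R)) u v ≤ ENNReal.ofReal q') ∧
      ∀ u ∈ S, ∀ v ∈ S, (u ∈ ball z R ∧ v ∉ closedBall z (2 * R)) ∨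
        (u ∈ ball z (5 * R) ∧ v ∉ closedBall z (2 * (5 * R))) →
          ENNReal.ofReal q ≤ wey d (fun _ => 1) (An z (R / 2) (15 * R)) u v)

def sG8 : Prop :=
  ∀ (ξ Q : ℝ) (D : ((R2 → ℝ) → ℝ) → R2 → R2 → ℝ), IsLQG ξ Q D →
    ∀ (Ω : Type) [MeasurableSpace Ω] (P : Measure Ω) [IsProbabilityMeasure P]
      (Ψ : (E 2 → ℝ) → Ω → ℝ), IsFld P Ψ → ∀ (κ : ℝ) (z : E 2) (R : ℝ), 1 ≤ κ → 0 < R →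
      ∃ A : Set ((E 2 → ℝ) → ℝ), @MeasurableSet _ (sig (An z (R / 2) (15 * R))) A ∧
        {ω | Shd κ (D fun φ => Ψ φ ω) z R} =ᵐ[P] {ω | (fun φ => Ψ φ ω) ∈ A}

/-- the increment of the scales above `exp α` -/
noncomputable def cv (α : ℝ) (z x : E 2) : HH 2 :=
  vec fun p => if α < p.1 then bi (exp p.1) x p.2 - bi (exp p.1) z p.2 else 0

structure Ort : Prop where
  crs : ∀ {ρ : E 2 → ℝ}, Test ρ → ∫ x, ρ x = 1 → ∀ α z x, crs ρ α x - crs ρ α z = cv α z x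
  cut : ∀ {α β : ℝ}, α ≤ β → ∀ z x, cv α z x = Ev α β x - Ev α β z + cv β z x
  inc : ∀ α z x y, ‖cv α z x - cv α z y‖ ^ 2 ≤ 4 * exp (-α) * ‖x - y‖
  self : ∀ α z, cv α z z = 0
  band : ∀ {α β γ : ℝ}, β ≤ γ → ∀ y z x, ⟪Ev α β y, cv γ z x⟫_ℝ = 0
  o1 : ∀ {z : E 2} {R : ℝ} {φ : E 2 → ℝ}, 0 < R → Test φ → tsupport φ ⊆ An z (R / 2) (15 * R) →
    ∀ α β, ⟪fn (log (R / 8)) φ, Ev α β z⟫_ℝ = 0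
  o2 : ∀ {z x : E 2} {R R' : ℝ} {φ : E 2 → ℝ}, 0 < R → 0 < R' → Test φ →
    tsupport φ ⊆ An z (R / 2) (15 * R) → R ≤ R' ∨ (256 * R' ≤ R ∧ x ∈ closedBall z (40 * R')) →
    ⟪fn (log (R / 8)) φ, cv (log (R' / 8)) z x⟫_ℝ = 0
  o3 : ∀ {z : E 2} {R R' : ℝ} {φ ψ : E 2 → ℝ}, 0 < R' → 256 * R' ≤ R → Test φ → Test ψ →
    tsupport φ ⊆ An z (R / 2) (15 * R) → tsupport ψ ⊆ An z (R' / 2) (15 * R') →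
    ⟪fn (log (R / 8)) φ, fn (log (R' / 8)) ψ⟫_ℝ = 0

/-- the coarse field oscillates by at most `M` -/
def Gdo {Ω : Type} (W : HH 2 →ₗ[ℝ] (Ω → ℝ)) (z : E 2) (R M : ℝ) : Set Ω :=
  {ω | ∀ n : ℕ, ∀ a ∈ box 2 (2 ^ n), |W (cv (log (R / 8)) z (z + (10 * R / 2 ^ n) • pt a)) ω| ≤ M}

open Classical in
def sG9 : Prop :=
  ∀ A : ℝ, ∃ M : ℝ, 0 ≤ M ∧
    ∀ (Ω : Type) [MeasurableSpace Ω] (P : Measure Ω) [IsProbabilityMeasure P]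
      (W : HH 2 →ₗ[ℝ] (Ω → ℝ)), Iso P W → ∀ (z : E 2) (R : ℝ) (K : ℕ), 0 < R →
      P.real {ω | 2 * ((range K).filter fun k => ω ∈ Gdo W z (R / 256 ^ k) M).card < K} ≤
        2 * exp (-A * K)

open Classical in
def sPr : Prop :=
  ∀ (Ω : Type) [MeasurableSpace Ω] (P : Measure Ω) [IsProbabilityMeasure P] (H : Type)
    [NormedAddCommGroup H] [InnerProductSpace ℝ H] (W : H →ₗ[ℝ] (Ω → ℝ)), Iso P W →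
    ∀ (C : Set H) (K : ℕ → Set H) (G B : ℕ → Set Ω) (p : ℝ), p ≤ 1 →
      (∀ k, ∀ u ∈ K k, ∀ v ∈ C, ⟪u, v⟫_ℝ = 0) →
      (∀ k k', k < k' → ∀ u ∈ K k, ∀ v ∈ K k', ⟪u, v⟫_ℝ = 0) →
      (∀ k, MeasurableSet[GU.FK W C] (G k)) → (∀ k, MeasurableSet[GU.FK W (K k)] (B k)) →
      (∀ k, p ≤ P.real (B k)) → ∀ (N n : ℕ) (T : Set Ω), MeasurableSet[GU.FK W C] T →
        P.real {ω | ω ∈ T ∧ n ≤ ((range N).filter fun k => ω ∈ G k).card ∧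
          ∀ k < N, ω ∈ G k → ω ∉ B k} ≤ (1 - p) ^ n * P.real T

/-- a thin cell without a shield -/
def Thn (a : ℝ) (j₁ : ℕ) (d : R2 → R2 → ℝ) (y : ℝ) (j : ℕ) (w : Zd 2) : Prop :=
  y ≤ -a * (j * log 2) ∧
    ∀ k < (j - j₁) / 8, ¬ Shd 3 d (((2 : ℝ) ^ j)⁻¹ • pt w) (((2 : ℝ) ^ j₁)⁻¹ / 256 ^ k)

def sOne : Prop :=
  ∀ (ξ Q : ℝ) (D : ((R2 → ℝ) → ℝ) → R2 → R2 → ℝ), 0 < ξ → IsLQG ξ Q D →
    ∀ (Ω : Type) [MeasurableSpace Ω] (P : Measure Ω) [IsProbabilityMeasure P]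
      (W : HH 2 →ₗ[ℝ] (Ω → ℝ)), Iso P W → ∃ c > (0 : ℝ),
      ∀ ρ : E 2 → ℝ, Test ρ → ∫ x, ρ x = 1 → ∀ a ζ : ℝ, 0 ≤ a → a ≤ 2 → 0 < ζ → ∀ L j₁ : ℕ,
        ∀ᶠ j : ℕ in atTop, ∀ w ∈ box 2 (L * 2 ^ j),
          P.real {ω | Thn a j₁ (D fun φ => W (gv0 ρ φ) ω) (W (vp ρ j w) ω) j w} ≤
            exp (-(a ^ 2 / 2 + c - ζ) * (j * log 2))

open Classical in
/-- few thin cells have no shield -/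
def Few (a β : ℝ) (L j₁ : ℕ) (d : R2 → R2 → ℝ) (y : ℕ → Zd 2 → ℝ) : Prop :=
  ∀ᶠ j : ℕ in atTop, (((box 2 (L * 2 ^ j)).filter fun w => Thn a j₁ d (y j w) j w).card : ℝ) ≤
    exp (β * (j * log 2))

def sFew : Prop :=
  ∀ (ξ Q : ℝ) (D : ((R2 → ℝ) → ℝ) → R2 → R2 → ℝ), 0 < ξ → IsLQG ξ Q D → ∃ c > (0 : ℝ),
    ∀ (Ω : Type) [MeasurableSpace Ω] (P : Measure Ω) [IsProbabilityMeasure P]
      (Φ : (E 2 → ℝ) → Ω → ℝ) (ρ : E 2 → ℝ), Test ρ → ∫ x, ρ x = 1 → IsFld P Φ →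
      GFa P Φ (gv0 ρ) → ∀ a ζ : ℝ, 0 ≤ a → a ≤ 2 → 0 < ζ → ∀ L j₁ : ℕ, ∀ᵐ ω ∂P,
        Few a (2 - a ^ 2 / 2 - c + ζ) L j₁ (D fun φ => Φ φ ω) fun j w => phi Φ ρ j ω w

def sDim : Prop :=
  ∀ (d : R2 → R2 → ℝ) (y : ℕ → Zd 2 → ℝ) (ξ a b β : ℝ) (L : ℕ) (p : ℝ → R2) (l : ℝ), IsMet d →
    0 ≤ ξ → LBd ξ (b * log 2) (L + 2) d y → (∀ j₁, Few a β (L + 2) j₁ d y) → QG d 4 p l →
    (∀ t ∈ Set.Icc 0 l, ‖p t‖ ≤ L) →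
    dimH (p '' Set.Icc 0 l) ≤ ENNReal.ofReal (max β (b + ξ * a))

def sRed : Prop :=
  ∀ (D D' : R2 → R2 → ℝ) (g' : R2 → ℝ) (c : ENNReal), IsMet D → IsMet D' → Continuous g' →
    (∀ x, 0 < g' x) → (∀ u v, ENNReal.ofReal (D' u v) = wey D g' Set.univ u v) →
    (∀ (q : ℝ → R2) (l : ℝ), QG D' 4 q l → dimH (q '' Set.Icc 0 l) ≤ c) →
    ∀ (U : Set R2) (g : R2 → ℝ), IsOpen U → ContinuousOn g U → (∀ x ∈ U, 0 < g x) →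
      ∀ (p : ℝ → R2) (l : ℝ), 0 ≤ l →
        (∀ s ∈ Set.Icc 0 l, ∀ t ∈ Set.Icc 0 l, wey D g U (p s) (p t) = ENNReal.ofReal |s - t|) →
        dimH (p '' Set.Icc 0 l) ≤ c

def sUD : Prop :=
  ∀ (ξ Q : ℝ) (D : ((R2 → ℝ) → ℝ) → R2 → R2 → ℝ), 0 < ξ → 0 ≤ Q → ξ * Q < 2 → IsLQG ξ Q D →
    ∃ c > (0 : ℝ), ∀ (Ω : Type) [MeasurableSpace Ω] (P : Measure Ω) [IsProbabilityMeasure P]
      (Φ : (R2 → ℝ) → Ω → ℝ), IsFld P Φ →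
      ∀ᵐ ω ∂P, ∀ (U : Set R2) (f : R2 → ℝ), IsOpen U → ContinuousOn f U →
        ∀ (p : ℝ → R2) (l : ℝ), 0 ≤ l →
          (∀ s ∈ Set.Icc 0 l, ∀ t ∈ Set.Icc 0 l,
            wey (D fun φ => Φ φ ω) (fun x => exp (ξ * f x)) U (p s) (p t) =
              ENNReal.ofReal |s - t|) →
          dimH (p '' Set.Icc 0 l) ≤
            ENNReal.ofReal (ξ * (Q - ξ + √(ξ ^ 2 + 4 - 2 * ξ * Q)) - c)

end Pool.Agent.GL
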