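import Pool.Agent.Lib.MP_a0a493_pr.Defs

/-! Geodesics of Liouville first passage percolation on the square lattice. -/

namespace Pool.Agent.GL

open Pool.Agent.Lib.MP_a0a493_pr

/-- `x 0, …, x T` is a nearest-neighbour walk in `ℤ²` from `0` to `(2^n, 0)`. -/
def IsWalk (n T : ℕ) (x : ℕ → Fin 2 → ℤ) : Prop :=
  x 0 = 0 ∧ x T = ![2 ^ n, 0] ∧ ∀ i < T, ∑ j, |x (i + 1) j - x i j| = 1

/-- The walk stays in the box `[-2^(n+1), 2^(n+1)]²`. -/
def InBox (n T : ℕ) (x : ℕ → Fin 2 → ℤ) : Prop := ∀ i ≤ T, ∀ j, |x i j| ≤ 2 ^ (n + 1)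

/-- The cost of a walk: the sum of `exp f` over its vertices. -/
noncomputable def cost (f : (Fin 2 → ℤ) → ℝ) (T : ℕ) (x : ℕ → Fin 2 → ℤ) : ℝ :=
  ∑ i ∈ Finset.range (T + 1), Real.exp (f (x i))

/-- A walk that costs no more than any walk in the box: this holds for a walk of least cost among
the walks in `ℤ²`, and for a walk of least cost among the walks in the box. -/
def IsGeo (n : ℕ) (f : (Fin 2 → ℤ) → ℝ) (T : ℕ) (x : ℕ → Fin 2 → ℤ) : Prop :=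
  IsWalk n T x ∧ ∀ T' x', IsWalk n T' x' → InBox n T' x' → cost f T x ≤ cost f T' x'

/-- The field mollified at scale `2^(-n)`, at the point `2^(-n) v`. -/
noncomputable def phi {Ω : Type*} (Φ : (EuclideanSpace ℝ (Fin 2) → ℝ) → Ω → ℝ)
    (ρ : EuclideanSpace ℝ (Fin 2) → ℝ) (n : ℕ) (ω : Ω) (v : Fin 2 → ℤ) : ℝ :=
  Φ (mol ρ n (WithLp.toLp 2 fun j => (v j : ℝ) / 2 ^ n)) ω

end Pool.Agent.GL
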