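import Pool.Agent.Lib.MP_438f30_pr.Defs

/-! Walks of least cost among all walks. -/

namespace Pool.Agent.GL

/-- A walk from `0` to `(2^n, 0)` of least cost among all such walks in `ℤ²`. -/
def IsBest (n : ℕ) (f : (Fin 2 → ℤ) → ℝ) (T : ℕ) (x : ℕ → Fin 2 → ℤ) : Prop :=
  IsWalk n T x ∧ ∀ T' x', IsWalk n T' x' → cost f T x ≤ cost f T' x'

end Pool.Agent.GL
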