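import Pool.Agent.Lib.MP_438f30_pr.GSt
import Pool.Agent.Lib.MP_438f30_pr.HMG1

/-! A shield survives a change of the weight with bounded oscillation. -/

namespace Pool.Agent.GL

open Metric Pool.Agent.Lib.MP_a0a493_pr

namespace G1

theorem ncrx {d d' : R2 → R2 → ℝ} {g : R2 → ℝ} {z : R2} {R m s : ℝ} (hd : IsMet d)
    (hd' : IsMet d') (hw : ∀ u v, ENNReal.ofReal (d u v) = wey d' g Set.univ u v) (hm : 0 ≤ m)
    (hg : ∀ x ∈ closedBall z (2 * R), m ≤ g x) (h : ¬ Crx d' z R s) : ¬ Crx d z R (m * s) := by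
  rintro ⟨u, hu, v, hv, hlt⟩
  have h1 := mg1.low hd' h hm hg hu hv
  rw [← hw, ENNReal.ofReal_le_ofReal_iff (mg1.nonneg hd u v)] at h1
  exact absurd hlt (not_lt.2 h1)

theorem upper {d d' : R2 → R2 → ℝ} {g : R2 → ℝ} {z u v : R2} {R M s : ℝ}
    (hd' : IsMet d') (hw : ∀ u v, ENNReal.ofReal (d u v) = wey d' g Set.univ u v) (hM : 0 < M)
    (hg : ∀ x ∈ closedBall z (2 * R), g x ≤ M) (h : ¬ Crx d' z R s) (hu : u ∈ ball z R)
    (hs : d' u v < s) : d u v ≤ M * d' u v := by
  have key : ∀ l0, d' u v < l0 → l0 ≤ s → d u v ≤ M * l0 := by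
    intro l0 h1 h2
    have h0 := mg1.nonneg hd' u v
    have h3 : wey d' (fun _ => 1) Set.univ u v < ENNReal.ofReal l0 := by
      rw [← hd'.len]
      exact (ENNReal.ofReal_lt_ofReal_iff (lt_of_le_of_lt h0 h1)).2 h1
    obtain ⟨p, l, hp, hp0, hpl, -, hl⟩ := mg1.path h3
    have h4 := mg1.up (g := g) (M := M) (U := Set.univ) hp 0 l le_rfl hp.1 le_rfl (by
      intro r hr
      refine ⟨hg _ ?_, trivial⟩
      by_contra hn
      refine h ⟨u, hu, p r, hn, ?_⟩
      have h5 := hp.2 0 ⟨le_rfl, hp.1⟩ r hr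
      rw [hp0, zero_sub, abs_neg, abs_of_nonneg hr.1] at h5
      have := hr.2
      linarith)
    rw [hp0, hpl, ← hw, sub_zero,
      ENNReal.ofReal_le_ofReal_iff (mul_nonneg hM.le hp.1)] at h4
    exact h4.trans (mul_le_mul_of_nonneg_left hl.le hM.le)
  by_contra hn
  rw [not_le] at hn
  have h1 : d' u v < d u v / M := by
    rw [lt_div_iff₀ hM]
    linarith
  obtain ⟨l0, h2, h3⟩ := exists_between (lt_min h1 hs)
  have h4 := key l0 h2 (h3.le.trans (min_le_right _ _))
  have h5 := lt_of_lt_of_le h3 (min_le_left _ _)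
  rw [lt_div_iff₀ hM] at h5
  linarith

end G1

theorem g1 : sG1 := by
  intro d d' g z R κ m B hd hd' hw hR hm hB hκ hg hS
  obtain ⟨s', s, hss, hA, h1, h5⟩ := hS
  have e : 2 * (5 * R) = 10 * R := by ring
  refine ⟨m * s', m * s, mul_lt_mul_of_pos_left hss hm, ?_, ?_, ?_⟩
  · intro u hu v hv
    have ha := hA u hu v hv
    have h0 := mg1.nonneg hd' u v
    have hk : 1 ≤ κ * B := by nlinarith
    have hlt : d' u v < s := by nlinarith
    have hub : u ∈ ball z (5 * R) := by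
      have := hu.2
      rw [mem_ball]
      linarith
    have hup := G1.upper (M := m * B) hd' hw (by positivity)
      (fun x hx => (hg x (by rwa [e] at hx)).2) h5 hub hlt
    calc κ * d u v ≤ κ * (m * B * d' u v) := mul_le_mul_of_nonneg_left hup (by linarith)
      _ = m * (κ * B * d' u v) := by ring
      _ ≤ m * s' := mul_le_mul_of_nonneg_left ha hm.le
  · exact G1.ncrx hd hd' hw hm.le
      (fun x hx => (hg x (closedBall_subset_closedBall (by linarith) hx)).1) h1
  · exact G1.ncrx hd hd' hw hm.le (fun x hx => (hg x (by rwa [e] at hx)).1) h5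

end Pool.Agent.GL
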