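import Pool.Agent.Lib.MP_438f30_pr.GSt
import Pool.Agent.Lib.MP_438f30_pr.HMG1

/-! A quasi-geodesic does not enter a shielded ball. -/

namespace Pool.Agent.GL

open Metric

theorem g2 : sG2 := by
  rintro d p l z R hd ⟨hl, hq⟩ hR ⟨s', s, hs, h1, h2, -⟩ h0 hl' t ht hz
  have hc : ContinuousOn (fun r => dist (p r) z) (Set.Icc 0 l) :=
    (continuous_id.dist continuous_const).comp_continuousOn (mg1.cont hd hl)
  rw [mem_ball] at h0 hl' hz
  obtain ⟨a, ha, e1⟩ := intermediate_value_Icc' ht.1 (hc.mono (Set.Icc_subset_Icc_right ht.2))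
    (show 7 * R / 2 ∈ Set.Icc (dist (p t) z) (dist (p 0) z) from ⟨by linarith, by linarith⟩)
  obtain ⟨b, hb, e2⟩ := intermediate_value_Icc ht.2 (hc.mono (Set.Icc_subset_Icc_left ht.1))
    (show 7 * R / 2 ∈ Set.Icc (dist (p t) z) (dist (p l) z) from ⟨by linarith, by linarith⟩)
  simp only at e1 e2
  have ha' : a ∈ Set.Icc 0 l := ⟨ha.1, ha.2.trans ht.2⟩
  have hb' : b ∈ Set.Icc 0 l := ⟨ht.1.trans hb.1, hb.2⟩
  have k : ∀ r ∈ Set.Icc 0 l, dist (p r) z = 7 * R / 2 → s ≤ |t - r| := fun r hr e =>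
    (not_lt.1 fun k => h2 ⟨p t, hz, p r, by rw [mem_closedBall, e]; linarith, k⟩).trans
      (hl.2 t ht r hr)
  have k1 := k a ha' e1
  have k2 := k b hb' e2
  have k3 := h1 (p a) ⟨by linarith, by linarith⟩ (p b) ⟨by linarith, by linarith⟩
  have k4 := hq a ha' b hb'
  have k5 := mg1.nonneg hd (p a) (p b)
  rw [abs_of_nonneg (by linarith [ha.2])] at k1
  rw [abs_of_nonpos (by linarith [hb.1])] at k2
  rw [abs_of_nonpos (by linarith [ha.2, hb.1])] at k4
  linarith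

end Pool.Agent.GL
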