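import Pool.Agent.Lib.MP_438f30_pr.GSt
import Pool.Agent.Lib.MP_438f30_pr.HMG1
import Pool.Agent.Lib.MP_438f30_pr.HMG2

/-! The shield event is measurable. -/

namespace Pool.Agent.GL

open MeasureTheory Real Filter Topology Metric Pool.Agent.Lib.MP_a0a493_pr

namespace G3

theorem ev (u v : R2) : Measurable fun d : R2 → R2 → ℝ => d u v :=
  (measurable_pi_apply v).comp (measurable_pi_apply u)

theorem meas_all {S : Set R2} (hS : S.Countable) (p : R2 → R2 → Prop)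
    (B : R2 → R2 → Set (R2 → R2 → ℝ)) (hB : ∀ u v, MeasurableSet (B u v)) :
    MeasurableSet {d : R2 → R2 → ℝ | ∀ u ∈ S, ∀ v ∈ S, p u v → d ∈ B u v} := by
  have e : {d : R2 → R2 → ℝ | ∀ u ∈ S, ∀ v ∈ S, p u v → d ∈ B u v} =
      ⋂ u ∈ S, ⋂ v ∈ S, ⋂ (_ : p u v), B u v := by
    ext d
    simp only [Set.mem_ofPred_eq, Set.mem_iInter]
  rw [e]
  exact MeasurableSet.biInter hS fun u _ => MeasurableSet.biInter hS fun v _ =>
    MeasurableSet.iInter fun _ => hB u v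

theorem open_An (z : R2) (a b : ℝ) : IsOpen (An z a b) :=
  (isOpen_lt continuous_const (continuous_id.dist continuous_const)).inter
    (isOpen_lt (continuous_id.dist continuous_const) continuous_const)

theorem ext_le {S U : Set R2} (hS : Dense S) (hU : IsOpen U) {f : R2 × R2 → ℝ}
    (hf : Continuous f) {s : ℝ} (h : ∀ u ∈ S, ∀ v ∈ S, u ∈ U ∧ v ∈ U → f (u, v) ≤ s) :
    ∀ u ∈ U, ∀ v ∈ U, f (u, v) ≤ s := by
  intro u hu v hv
  by_contra hc
  have ho : IsOpen ((U ×ˢ U) ∩ {q | s < f q}) :=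
    (hU.prod hU).inter (isOpen_lt continuous_const hf)
  obtain ⟨q, ⟨⟨a, b⟩, c⟩, e, g⟩ :=
    (hS.prod hS).inter_open_nonempty _ ho ⟨(u, v), ⟨hu, hv⟩, not_le.1 hc⟩
  exact absurd (h q.1 e q.2 g ⟨a, b⟩) (not_le.2 c)

theorem ncrx {d : R2 → R2 → ℝ} {S : Set R2} (hS : Dense S)
    (hd : Continuous fun q : R2 × R2 => d q.1 q.2) (z : R2) (R s : ℝ) :
    ¬ Crx d z R s ↔
      ∀ u ∈ S, ∀ v ∈ S, u ∈ ball z R ∧ v ∉ closedBall z (2 * R) → s ≤ d u v := by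
  rw [(mg2 mg1).rat z R s hd hS]
  constructor
  · intro h u hu v hv ⟨a, b⟩
    exact not_lt.1 fun c => h ⟨u, hu, v, hv, a, b, c⟩
  · rintro h ⟨u, hu, v, hv, a, b, c⟩
    exact absurd (h u hu v hv ⟨a, b⟩) (not_le.2 c)

theorem mono {d : R2 → R2 → ℝ} {z : R2} {R s t : ℝ} (h : s ≤ t) (c : Crx d z R s) :
    Crx d z R t := by
  obtain ⟨u, hu, v, hv, e⟩ := c
  exact ⟨u, hu, v, hv, e.trans_le h⟩

end G3

theorem g3 : sG3 := by
  intro κ z R
  obtain ⟨S, hc, hS⟩ := TopologicalSpace.exists_countable_dense R2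
  refine ⟨⋃ q' : ℚ, ⋃ q : ℚ, ⋃ (_ : (q' : ℝ) < q),
    {d | ∀ u ∈ S, ∀ v ∈ S, u ∈ An z (3 * R) (4 * R) ∧ v ∈ An z (3 * R) (4 * R) →
      d ∈ {d : R2 → R2 → ℝ | κ * d u v ≤ q'}} ∩
    ({d | ∀ u ∈ S, ∀ v ∈ S, u ∈ ball z R ∧ v ∉ closedBall z (2 * R) →
      d ∈ {d : R2 → R2 → ℝ | (q : ℝ) ≤ d u v}} ∩
    {d | ∀ u ∈ S, ∀ v ∈ S, u ∈ ball z (5 * R) ∧ v ∉ closedBall z (2 * (5 * R)) →
      d ∈ {d : R2 → R2 → ℝ | (q : ℝ) ≤ d u v}}), ?_, fun d hd => ?_⟩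
  · refine MeasurableSet.iUnion fun q' => MeasurableSet.iUnion fun q =>
      MeasurableSet.iUnion fun _ => (G3.meas_all hc _ _ fun u v => ?_).inter
        ((G3.meas_all hc _ _ fun u v => ?_).inter (G3.meas_all hc _ _ fun u v => ?_))
    · exact measurableSet_le ((G3.ev u v).const_mul κ) measurable_const
    · exact measurableSet_le measurable_const (G3.ev u v)
    · exact measurableSet_le measurable_const (G3.ev u v)
  · simp only [Set.mem_iUnion, Set.mem_inter_iff, Set.mem_ofPred_eq, exists_prop]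
    constructor
    · rintro ⟨s', s, h, h1, h2, h3⟩
      obtain ⟨q', a, b⟩ := exists_rat_btwn h
      obtain ⟨q, c, e⟩ := exists_rat_btwn b
      exact ⟨q', q, c, fun u _ v _ h => (h1 u h.1 v h.2).trans a.le,
        (G3.ncrx hS hd z R q).1 fun x => h2 (G3.mono e.le x),
        (G3.ncrx hS hd z (5 * R) q).1 fun x => h3 (G3.mono e.le x)⟩
    · rintro ⟨q', q, h, h1, h2, h3⟩
      exact ⟨q', q, h, G3.ext_le hS (G3.open_An _ _ _) (f := fun q => κ * d q.1 q.2)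
        (continuous_const.mul hd) h1, (G3.ncrx hS hd z R q).2 h2,
        (G3.ncrx hS hd z (5 * R) q).2 h3⟩

end Pool.Agent.GL
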