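import Pool.Agent.Lib.MP_438f30_pr.HSt

/-! Renormalisation: cheap crossings of large annuli are doubly exponentially unlikely. -/

namespace Pool.Agent.GL

open MeasureTheory ProbabilityTheory Real Finset Filter Topology Metric
  Pool.Agent.Lib.MP_a0a493_pr
open scoped InnerProductSpace

namespace HRen

variable {Ω : Type} [MeasurableSpace Ω] {P : Measure Ω} [IsProbabilityMeasure P]
  {ξ Q : ℝ} {D : ((R2 → ℝ) → ℝ) → R2 → R2 → ℝ} {Ψ : (E 2 → ℝ) → Ω → ℝ}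

theorem meas (h : ∀ φ, Test φ → Measurable (Ψ φ)) (U : Set R2) :
    @Measurable _ _ _ (sig U) fun ω φ => Ψ φ ω := by
  refine measurable_iff_comap_le.2 ?_
  rw [MeasurableSpace.comap_iSup]
  refine iSup_le fun φ => ?_
  rw [MeasurableSpace.comap_iSup]
  refine iSup_le fun hφ => ?_
  rw [MeasurableSpace.comap_comp]
  exact (h φ hφ.1).comap_le

/-- The crossing event depends only on the field in the ball of radius `3 R`. -/
theorem rep (h3 : sMG3) (hD : IsLQG ξ Q D) (hΨ : IsFld P Ψ) (c : R2) (R s : ℝ) :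
    ∃ A : Set ((R2 → ℝ) → ℝ), @MeasurableSet _ (sig (ball c (3 * R))) A ∧
      {ω | Crx (D fun φ => Ψ φ ω) c R s} =ᵐ[P] {ω | (fun φ => Ψ φ ω) ∈ A} := by
  obtain ⟨S, hS, hd⟩ := TopologicalSpace.exists_countable_dense R2
  choose G hG hG' using hD.loc Ω P Ψ hΨ (ball c (3 * R)) isOpen_ball
  refine ⟨⋃ u ∈ S ∩ ball c R, ⋃ v ∈ S \ closedBall c (2 * R), {h | G u v h < ENNReal.ofReal s},
    ?_, ?_⟩
  · let := sig (ball c (3 * R))
    exact MeasurableSet.biUnion (hS.mono Set.inter_subset_left) fun u _ =>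
      MeasurableSet.biUnion (hS.mono Set.sdiff_subset) fun v _ =>
        measurableSet_lt (hG u v) measurable_const
  · have a : ∀ᵐ ω ∂P, ∀ u ∈ S, ∀ v ∈ S, wey (D fun φ => Ψ φ ω) (fun _ => 1) (ball c (3 * R)) u v =
        G u v fun φ => Ψ φ ω :=
      (ae_ball_iff hS).2 fun u _ => (ae_ball_iff hS).2 fun v _ => hG' u v
    filter_upwards [a, hD.met Ω P Ψ hΨ] with ω a b
    refine propext ((h3 _ S c R s b hd).trans ⟨fun ⟨u, hu, v, hv, x, y, z⟩ =>
      Set.mem_biUnion (x := u) ⟨hu, x⟩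
        (Set.mem_biUnion (x := v) ⟨hv, y⟩ ((a u hu v hv).symm.trans_lt z)), fun h => ?_⟩)
    obtain ⟨u, ⟨hu, x⟩, h⟩ := Set.mem_iUnion₂.1 h
    obtain ⟨v, ⟨hv, y⟩, z⟩ := Set.mem_iUnion₂.1 h
    exact ⟨u, hu, v, hv, x, y, (a u hu v hv).trans_lt z⟩

theorem base (h2 : MG2) (h3 : sMG3) (hD : IsLQG ξ Q D) (hΨ : IsFld P Ψ) {ε : ℝ} (hε : 0 < ε) :
    ∃ s > (0 : ℝ), P.real {ω | Crx (D fun φ => Ψ φ ω) 0 1 s} ≤ ε := by
  have mono : ∀ {d : R2 → R2 → ℝ} {s t : ℝ}, s ≤ t → Crx d 0 1 s → Crx d 0 1 t :=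
    fun h ⟨u, a, v, b, c⟩ => ⟨u, a, v, b, c.trans_le h⟩
  have t := tendsto_measure_iInter_atTop (μ := P)
    (s := fun n : ℕ => {ω | Crx (D fun φ => Ψ φ ω) 0 1 (1 / ((n : ℝ) + 1))})
    (fun n => by
      obtain ⟨A, a, b⟩ := rep h3 hD hΨ 0 1 (1 / ((n : ℝ) + 1))
      exact (meas hΨ.1 _ a).nullMeasurableSet.congr b.symm)
    (fun m n h ω => mono (Nat.one_div_le_one_div h)) ⟨0, measure_ne_top _ _⟩
  have z : P (⋂ n : ℕ, {ω | Crx (D fun φ => Ψ φ ω) 0 1 (1 / ((n : ℝ) + 1))}) = 0 := by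
    refine measure_eq_zero_iff_ae_notMem.2 ?_
    filter_upwards [hD.met Ω P Ψ hΨ] with ω m h
    obtain ⟨s, a, b⟩ := h2.small 0 m one_pos
    obtain ⟨n, hn⟩ := exists_nat_one_div_lt a
    exact b (mono hn.le (Set.mem_iInter.1 h n))
  rw [z] at t
  obtain ⟨n, hn⟩ := (t.eventually (gt_mem_nhds (ENNReal.ofReal_pos.2 hε))).exists
  exact ⟨_, Nat.one_div_pos_of_nat, ENNReal.toReal_le_of_le_ofReal hε.le hn.le⟩

end HRen

theorem ren (h2 : MG2) (h3 : sMG3) (h4 : VF3) (h5 : PL) (h6 : sInv) : sRen := by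
  intro ξ Q D hD Ω _ P _ W hW Ψ hΨ
  have tr : ∀ (z : R2) (R s : ℝ), P {ω | Crx (D fun φ => Ψ φ ω) z R s} =
      P {ω | Crx (D fun φ => Ψ φ ω) 0 R s} := fun z R s => by
    simpa using h6 ξ Q D hD Ω P W hW 1 Ψ Ψ one_pos (by rw [log_one]; exact hΨ) hΨ z R s
  have ind : ∀ (c c' : R2) (R s : ℝ), 1 ≤ R → 8 * R ≤ dist c c' →
      P.real {ω | Crx (D fun φ => Ψ φ ω) c R s ∧ Crx (D fun φ => Ψ φ ω) c' R s} =
        P.real {ω | Crx (D fun φ => Ψ φ ω) 0 R s} ^ 2 := fun c c' R s hR hc => by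
    obtain ⟨A, a, a'⟩ := HRen.rep h3 hD hΨ.1 c R s
    obtain ⟨B, b, b'⟩ := HRen.rep h3 hD hΨ.1 c' R s
    have i := h5.ind hW hΨ.1.1 hΨ.2 (ball c (3 * R)) (ball c' (3 * R))
      (fun φ ψ hφ hψ sφ sψ => h4.orth 0 φ ψ hφ hψ fun x hx y hy => by
        have e1 := mem_ball'.1 (sφ hx)
        have e2 := mem_ball.1 (sψ hy)
        have e3 := dist_triangle4 c x y c'
        rw [exp_zero]
        linarith) A B a b
    rw [← measure_congr a', ← measure_congr b', tr c, tr c'] at i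
    rw [measureReal_def, measureReal_def, sq, ← ENNReal.toReal_mul, ← i]
    exact congrArg _ (measure_congr (a'.inter b'))
  have st : ∀ R s : ℝ, 1 ≤ R → P.real {ω | Crx (D fun φ => Ψ φ ω) 0 (20 * R) s} ≤
      245 ^ 4 * P.real {ω | Crx (D fun φ => Ψ φ ω) 0 R s} ^ 2 := fun R s hR => by
    have cb := card_box (d := 2) 61
    have sub := @h2.sub
    generalize box 2 61 = B at cb sub
    have u := union_le (P := P) ((B ×ˢ B).filter fun p =>
        8 * R ≤ dist (0 + (R / 4) • pt p.1) (0 + (R / 4) • pt p.2))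
      (fun p => {ω | Crx (D fun φ => Ψ φ ω) (0 + (R / 4) • pt p.1) R s ∧
        Crx (D fun φ => Ψ φ ω) (0 + (R / 4) • pt p.2) R s})
      fun p hp => (ind _ _ R s hR (mem_filter.1 hp).2).le
    refine le_trans (ENNReal.toReal_mono (measure_ne_top _ _) (measure_mono_ae ?_))
      (u.trans (mul_le_mul_of_nonneg_right ?_ (sq_nonneg _)))
    · filter_upwards [hD.met Ω P Ψ hΨ.1] with ω m h
      obtain ⟨a, ha, b, hb, x, y, z⟩ := sub m (one_pos.trans_le hR) h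
      exact ⟨(a, b), mem_filter.2 ⟨mem_product.2 ⟨ha, hb⟩, z⟩, x, y⟩
    · have := (card_filter_le (B ×ˢ B) fun p =>
        8 * R ≤ dist (0 + (R / 4) • pt p.1) (0 + (R / 4) • pt p.2))
      rw [card_product, cb] at this
      exact_mod_cast this
  obtain ⟨s, hs, hb⟩ := HRen.base h2 h3 hD hΨ.1 (ε := 1 / 2 / 245 ^ 4) (by positivity)
  have q : ∀ k : ℕ, 245 ^ 4 * P.real {ω | Crx (D fun φ => Ψ φ ω) 0 (20 ^ k) s} ≤
      (1 / 2) ^ 2 ^ k := fun k => by
    induction k with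
    | zero =>
      rw [pow_zero, pow_zero, pow_one]
      linarith [(le_div_iff₀ (by positivity)).1 hb]
    | succ k ih =>
      have a := st (20 ^ k) s (one_le_pow₀ (by norm_num))
      have b := pow_le_pow_left₀ (by positivity) ih 2
      rw [pow_succ' (20 : ℝ), pow_succ 2, pow_mul]
      nlinarith
  exact ⟨s, hs, fun k => le_trans (le_mul_of_one_le_left measureReal_nonneg (by norm_num)) (q k)⟩

end Pool.Agent.GL
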