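import Pool.Agent.Lib.MP_438f30_pr.G8
import Pool.Agent.Lib.MP_438f30_pr.HInv
import Pool.Agent.Lib.MP_438f30_pr.HRen
import Pool.Agent.Lib.MP_438f30_pr.HNorm
import Pool.Agent.Lib.MP_438f30_pr.HMG1
import Pool.Agent.Lib.MP_438f30_pr.HMG2

/-! The shield event has positive probability. -/

namespace Pool.Agent.GL

open MeasureTheory ProbabilityTheory Real Finset Filter Topology Metric
  Pool.Agent.Lib.MP_a0a493_pr
open scoped InnerProductSpace

namespace G5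

theorem wey_le {d : R2 → R2 → ℝ} {w : R2 → ℝ} {U : Set R2} (h : ∀ x ∈ U, w x = 1) (u v : R2) :
    wey d w Set.univ u v ≤ wey d (fun _ => 1) U u v := by
  refine le_iInf fun p => le_iInf fun l => le_iInf fun hp => ?_
  refine iInf_le_of_le p (iInf_le_of_le l (iInf_le_of_le
    ⟨hp.1, hp.2.1, hp.2.2.1, fun _ _ => Set.mem_univ _⟩ (le_of_eq ?_)))
  exact setLIntegral_congr_fun measurableSet_Icc fun t ht => by
    simp only [h _ (hp.2.2.2 t ht)]

theorem det (h1 : sLow2) {d d' : R2 → R2 → ℝ} {w : R2 → ℝ} {S : Set R2} {κ n s M : ℝ}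
    (m : IsMet d) (m' : IsMet d') (hS : Dense S)
    (e : ∀ u v, ENNReal.ofReal (d u v) = wey d' w Set.univ u v)
    (w1 : ∀ x ∈ An 0 20 36, w x = 1) (w2 : ∀ x, ‖x‖ ≤ 16 ∨ (40 ≤ ‖x‖ ∧ ‖x‖ ≤ 80) → M ≤ w x)
    (hn : 0 ≤ n) (hM : 0 ≤ M) (hs : |κ| * n < M * s)
    (a : ∀ u ∈ S, ∀ v ∈ S, u ∈ An 0 24 32 → v ∈ An 0 24 32 →
      wey d' (fun _ => 1) (An 0 20 36) u v ≤ ENNReal.ofReal n)
    (c1 : ¬ Crx d' 0 8 s) (c2 : ¬ Crx d' 0 40 s) : Shd κ d 0 8 := by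
  have low : ∀ R : ℝ, ¬ Crx d' 0 R s → (∀ x ∈ closedBall (0 : R2) (2 * R), x ∉ ball 0 R →
      M ≤ w x) → ¬ Crx d 0 R (M * s) := fun R c hw ⟨u, hu, v, hv, hl⟩ => by
    have := h1 d' 0 u v R s M w m' c hM hw hu hv
    rw [← e, ENNReal.ofReal_le_ofReal_iff (mg1.nonneg m u v)] at this
    linarith
  refine ⟨|κ| * n, M * s, hs, fun u hu v hv => ?_, low 8 c1 fun x hx _ => w2 x (Or.inl ?_), ?_⟩
  · have o : IsOpen (An (0 : R2) 24 32 ×ˢ An (0 : R2) 24 32) :=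
      (G8.open_An _ _ _).prod (G8.open_An _ _ _)
    have cl : IsClosed {q : R2 × R2 | d q.1 q.2 ≤ n} := isClosed_le m.cont continuous_const
    have b : (u, v) ∈ {q : R2 × R2 | d q.1 q.2 ≤ n} := by
      refine closure_minimal ?_ cl ((hS.prod hS).open_subset_closure_inter o
        (Set.mk_mem_prod ?_ ?_))
      · rintro ⟨x, y⟩ ⟨⟨a1, a2⟩, a3, a4⟩
        have := (wey_le w1 x y).trans (a x a3 y a4 a1 a2)
        rwa [← e, ENNReal.ofReal_le_ofReal_iff hn] at this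
      · convert hu using 2 <;> norm_num
      · convert hv using 2 <;> norm_num
    exact (mul_le_mul_of_nonneg_right (le_abs_self κ) (mg1.nonneg m u v)).trans
      (mul_le_mul_of_nonneg_left b (abs_nonneg κ))
  · rw [mem_closedBall, dist_zero_right] at hx
    linarith
  · rw [show (5 * 8 : ℝ) = 40 by norm_num]
    refine low 40 c2 fun x hx hx' => w2 x (Or.inr ⟨?_, ?_⟩)
    · rwa [mem_ball, dist_zero_right, not_lt] at hx'
    · rw [mem_closedBall, dist_zero_right] at hx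
      linarith

theorem fld {Ω : Type} [MeasurableSpace Ω] {P : Measure Ω} {Φ : (E 2 → ℝ) → Ω → ℝ}
    (h : IsFld P Φ) {X : Ω → ℝ} (hX : Measurable X) {f : E 2 → ℝ} (hf : Continuous f) :
    IsFld P fun φ ω => Φ φ ω - ∫ x, φ x * (X ω * f x) := by
  obtain ⟨hm, F, hc, hx, hl⟩ := h
  have c : ∀ ω, Continuous fun x => X ω * f x := fun ω => continuous_const.mul hf
  refine ⟨fun φ hφ => (hm φ hφ).sub (HNorm.meas_int hφ c fun x => hX.mul_const _),
    fun ω x => F ω x - X ω * f x, fun ω => (hc ω).sub (c ω),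
    fun x => (hx x).sub (hX.mul_const _), HInv.lgf_congr hl ?_⟩
  intro φ hφ
  funext ω
  have : ∫ x, φ x * (F ω x - X ω * f x) = (∫ x, φ x * F ω x) - ∫ x, φ x * (X ω * f x) := by
    rw [← integral_sub (HNorm.int_mul hφ (hc ω)) (HNorm.int_mul hφ (c ω))]
    simp only [mul_sub]
  rw [this]
  ring

theorem big {ξ V M : ℝ} (hξ : 0 < ξ) (hV : 0 < V) {v : NNReal} (hv : v ≠ 0) :
    gaussianReal 0 v {y | M < exp (ξ * (y / V))} ≠ 0 := by
  intro h
  have o : IsOpen {y : ℝ | M < exp (ξ * (y / V))} := isOpen_lt continuous_const (by fun_prop)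
  refine (o.measure_pos volume ⟨M * V / ξ, ?_⟩).ne' (gaussianReal_absolutelyContinuous' 0 hv h)
  have : ξ * (M * V / ξ / V) = M := by field_simp
  show M < exp _
  rw [this]
  linarith [add_one_le_exp M]

end G5

open G5 in
theorem g5 (h1 : sLow2) (h2 : sBdd) (h3 : sBump) (h4 : sVer) : sG5 := by
  intro ξ Q D hξ hD Ω _ P _ W hW Ψ₁ hΨ κ
  obtain ⟨g, f, g0, hf, f1, f0, hg⟩ := h3
  obtain ⟨S, hS, hd⟩ := TopologicalSpace.exists_countable_dense R2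
  have gp : 0 < ‖g‖ ^ 2 := pow_pos (norm_pos_iff.2 g0) 2
  have hX : Measurable fun ω => W g ω / ‖g‖ ^ 2 := (hW.meas g).div_const _
  have hΨ' := fld hΨ.1 hX hf
  choose G hG hG' using hD.loc Ω P _ hΨ' (An 0 20 36) (G8.open_An _ _ _)
  have le : sig (An (0 : R2) 20 36) ≤ sig Set.univ :=
    iSup_mono fun φ => iSup_mono' fun hφ => ⟨⟨hφ.1, Set.subset_univ _⟩, le_rfl⟩
  let A : ℕ → Set ((R2 → ℝ) → ℝ) := fun n =>
    {h | ∀ u ∈ S, ∀ v ∈ S, u ∈ An 0 24 32 → v ∈ An 0 24 32 → G u v h ≤ ENNReal.ofReal n} ∩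
      ((HInv.RA D S 0 8 (1 / ((n : ℝ) + 1)))ᶜ ∩ (HInv.RA D S 0 40 (1 / ((n : ℝ) + 1)))ᶜ)
  have hA : ∀ n, @MeasurableSet _ (sig Set.univ) (A n) := fun n => by
    have a := HInv.meas_RA hD.meas hS 0 8 (1 / ((n : ℝ) + 1))
    have b := HInv.meas_RA hD.meas hS 0 40 (1 / ((n : ℝ) + 1))
    have c : ∀ u v, @Measurable _ _ (sig Set.univ) _ (G u v) := fun u v =>
      (hG u v).mono le le_rfl
    let _ := sig Set.univ
    exact (G8.meas_ball hS fun u => G8.meas_ball hS fun v => G8.meas_imp _ (G8.meas_imp _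
      (measurableSet_le (c u v) measurable_const))).inter (a.compl.inter b.compl)
  choose B hB hB' using fun n => h4 Ω P (HH 2) W
    (fun φ ω => Ψ₁ φ ω - ∫ x, φ x * (W g ω / ‖g‖ ^ 2 * f x))
    (fun φ => fn 0 φ - (⟪fn 0 φ, g⟫_ℝ / ‖g‖ ^ 2) • g) Set.univ {u | ⟪u, g⟫_ℝ = 0}
    (fun φ hφ _ => ⟨by
      filter_upwards [hΨ.2 φ hφ] with ω e
      have : ∫ x, φ x * (W g ω / ‖g‖ ^ 2 * f x) = W g ω / ‖g‖ ^ 2 * ∫ x, φ x * f x := by
        rw [← integral_const_mul]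
        simp only [mul_left_comm]
      rw [e, this, ← hg φ hφ, map_sub, map_smul]
      simp only [Pi.sub_apply, Pi.smul_apply, smul_eq_mul]
      ring, by
      show ⟪_, g⟫_ℝ = 0
      rw [inner_sub_left, real_inner_smul_left, real_inner_self_eq_norm_sq,
        div_mul_cancel₀ _ gp.ne', sub_self]⟩) (A n) (hA n)
  have a : ∀ᵐ ω ∂P, ∀ u ∈ S, ∀ v ∈ S,
      wey (D fun φ => Ψ₁ φ ω - ∫ x, φ x * (W g ω / ‖g‖ ^ 2 * f x)) (fun _ => 1) (An 0 20 36) u v =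
        G u v fun φ => Ψ₁ φ ω - ∫ x, φ x * (W g ω / ‖g‖ ^ 2 * f x) :=
    (ae_ball_iff hS).2 fun u _ => (ae_ball_iff hS).2 fun v _ => hG' u v
  have mono : ∀ {d : R2 → R2 → ℝ} {R s t : ℝ}, s ≤ t → Crx d 0 R s → Crx d 0 R t :=
    fun h ⟨u, a, v, b, c⟩ => ⟨u, a, v, b, c.trans_le h⟩
  obtain ⟨n, hn⟩ : ∃ n, P (B n) ≠ 0 := by
    by_contra h
    have z : ∀ᵐ ω ∂P, ∀ n, ω ∉ B n := ae_all_iff.2 fun n =>
      measure_eq_zero_iff_ae_notMem.1 (not_not.1 fun k => h ⟨n, k⟩)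
    have z' : ∀ᵐ ω ∂P, False := by
      filter_upwards [z, a, ae_all_iff.2 hB', hD.met Ω P _ hΨ'] with ω z a b m
      obtain ⟨T, hT⟩ := h2 _ m
      obtain ⟨s, s0, hs⟩ := (mg2 mg1).small 0 m (by norm_num : (0 : ℝ) < 8)
      obtain ⟨t, t0, ht⟩ := (mg2 mg1).small 0 m (by norm_num : (0 : ℝ) < 40)
      obtain ⟨n, hn, n1, n2⟩ := ((tendsto_natCast_atTop_atTop.eventually_ge_atTop T).and
        (((tendsto_one_div_add_atTop_nhds_zero_nat (𝕜 := ℝ)).eventually (gt_mem_nhds s0)).and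
          ((tendsto_one_div_add_atTop_nhds_zero_nat (𝕜 := ℝ)).eventually
            (gt_mem_nhds t0)))).exists
      refine z n ((b n).mp ⟨fun u hu v hv u1 v1 => ?_, fun k => hs (mono n1.le ?_),
        fun k => ht (mono n2.le ?_)⟩)
      · rw [← a u hu v hv]
        exact (hT u u1 v v1).trans (ENNReal.ofReal_le_ofReal hn)
      · exact ((mg2 mg1).rat 0 8 _ m.cont hd).2 k
      · exact ((mg2 mg1).rat 0 40 _ m.cont hd).2 k
    exact IsProbabilityMeasure.ne_zero P (ae_eq_bot.1 (eventually_false_iff_eq_bot.1 z'))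
  have mC : MeasurableSet {y : ℝ | (|κ| * n + 1) * (n + 1) < exp (ξ * (y / ‖g‖ ^ 2))} :=
    measurableSet_lt measurable_const (by fun_prop)
  have hC : P (W g ⁻¹' {y : ℝ | (|κ| * n + 1) * (n + 1) < exp (ξ * (y / ‖g‖ ^ 2))}) ≠ 0 := by
    rw [← Measure.map_apply (hW.meas g) mC, hW.map_eq g]
    exact big hξ gp (pow_ne_zero 2 (nnnorm_ne_zero_iff.2 g0))
  have i := (Indep_iff _ _ _).1 (GU.FK_indep hW (K := {u | ⟪u, g⟫_ℝ = 0}) (K' := {g})
    fun v hv v' hv' => by rw [hv']; exact hv) _ _ (hB n)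
    (GU.meas_FK W (Set.mem_singleton g) mC)
  refine ENNReal.toReal_pos (fun z => mul_ne_zero hn hC ?_) (measure_ne_top _ _)
  rw [← i]
  refine measure_mono_null_ae ?_ z
  filter_upwards [a, hB' n, hD.met Ω P _ hΨ', hD.met Ω P _ hΨ.1, hD.weyl Ω P _ hΨ'] with
    ω a b m' m w k
  obtain ⟨k1, k2, k3⟩ := b.mpr k.1
  have k4 : (|κ| * n + 1) * (n + 1) < exp (ξ * (W g ω / ‖g‖ ^ 2)) := k.2
  have e := w (fun x => W g ω / ‖g‖ ^ 2 * f x) (continuous_const.mul hf)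
  simp only [sub_add_cancel] at e
  have n0 : (0 : ℝ) ≤ n := n.cast_nonneg
  refine det h1 (M := (|κ| * n + 1) * (n + 1)) (s := 1 / ((n : ℝ) + 1)) m m' hd e
    (fun x hx => by simp [f0 x hx]) (fun x hx => ?_) n0 (by positivity) ?_
    (fun u hu v hv u1 v1 => (a u hu v hv).trans_le (k1 u hu v hv u1 v1))
    (fun c => k2 (((mg2 mg1).rat 0 8 _ m'.cont hd).1 c))
    fun c => k3 (((mg2 mg1).rat 0 40 _ m'.cont hd).1 c)
  · rw [f1 x hx, mul_one]
    exact k4.le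
  · rw [mul_one_div, mul_div_cancel_right₀ _ (by positivity)]
    linarith

end Pool.Agent.GL
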