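import Pool.Agent.Lib.MP_438f30_pr.GSt

/-! The shield event depends only on the field in the annulus. -/

namespace Pool.Agent.GL

open MeasureTheory ProbabilityTheory Real Finset Filter Topology Metric
  Pool.Agent.Lib.MP_a0a493_pr
open scoped InnerProductSpace

namespace G8

theorem open_An (z : R2) (a b : ℝ) : IsOpen (An z a b) :=
  (isOpen_lt continuous_const (continuous_id.dist continuous_const)).inter
    (isOpen_lt (continuous_id.dist continuous_const) continuous_const)

theorem meas_imp {X : Type} [MeasurableSpace X] (p : Prop) {A : X → Prop}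
    (h : MeasurableSet {x | A x}) : MeasurableSet {x | p → A x} := by
  by_cases hp : p
  · simpa [hp] using h
  · simp [hp]

theorem meas_and {X : Type} [MeasurableSpace X] (p : Prop) {A : X → Prop}
    (h : MeasurableSet {x | A x}) : MeasurableSet {x | p ∧ A x} := by
  by_cases hp : p
  · simpa [hp] using h
  · simp [hp]

theorem meas_ball {X Y : Type} [MeasurableSpace X] {S : Set Y} (hS : S.Countable)
    {A : Y → X → Prop} (h : ∀ y, MeasurableSet {x | A y x}) :
    MeasurableSet {x | ∀ y ∈ S, A y x} := by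
  have e : {x | ∀ y ∈ S, A y x} = ⋂ y ∈ S, {x | A y x} := by
    ext x
    simp
  rw [e]
  exact MeasurableSet.biInter hS fun y _ => h y

theorem meas_ex {X Y : Type} [MeasurableSpace X] [Countable Y]
    {A : Y → X → Prop} (h : ∀ y, MeasurableSet {x | A y x}) :
    MeasurableSet {x | ∃ y, A y x} := by
  rw [Set.ofPred_exists]
  exact MeasurableSet.iUnion h

end G8

theorem g8 (h : sG8a) : sG8 := by
  intro ξ Q D hD Ω _ P _ Ψ hΨ κ z R hκ hR
  obtain ⟨S, hS, hd⟩ := TopologicalSpace.exists_countable_dense R2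
  choose G hG hG' using hD.loc Ω P Ψ hΨ (An z (R / 2) (15 * R)) (G8.open_An _ _ _)
  refine ⟨{f | ∃ q' q : ℚ, 0 ≤ q' ∧ q' < q ∧
      (∀ u ∈ S, ∀ v ∈ S, u ∈ An z (3 * R) (4 * R) → v ∈ An z (3 * R) (4 * R) →
        ENNReal.ofReal κ * G u v f ≤ ENNReal.ofReal q') ∧
      ∀ u ∈ S, ∀ v ∈ S, (u ∈ ball z R ∧ v ∉ closedBall z (2 * R)) ∨
        (u ∈ ball z (5 * R) ∧ v ∉ closedBall z (2 * (5 * R))) →
          ENNReal.ofReal q ≤ G u v f}, ?_, ?_⟩
  · let _ := sig (An z (R / 2) (15 * R))
    refine G8.meas_ex fun q' => G8.meas_ex fun q => G8.meas_and _ (G8.meas_and _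
      (MeasurableSet.inter (G8.meas_ball hS fun u => G8.meas_ball hS fun v => G8.meas_imp _
        (G8.meas_imp _ ?_)) (G8.meas_ball hS fun u => G8.meas_ball hS fun v => G8.meas_imp _ ?_)))
    · exact measurableSet_le ((hG u v).const_mul _) measurable_const
    · exact measurableSet_le measurable_const (hG u v)
  · have a : ∀ᵐ ω ∂P, ∀ u ∈ S, ∀ v ∈ S,
        wey (D fun φ => Ψ φ ω) (fun _ => 1) (An z (R / 2) (15 * R)) u v =
          G u v fun φ => Ψ φ ω :=
      (ae_ball_iff hS).2 fun u _ => (ae_ball_iff hS).2 fun v _ => hG' u v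
    filter_upwards [a, hD.met Ω P Ψ hΨ] with ω a b
    refine propext ((h _ S κ z R b hd hκ hR).trans ?_)
    refine exists_congr fun q' => exists_congr fun q => and_congr_right fun _ =>
      and_congr_right fun _ => and_congr ?_ ?_
    · exact forall₂_congr fun u hu => forall₂_congr fun v hv => by rw [a u hu v hv]
    · exact forall₂_congr fun u hu => forall₂_congr fun v hv => by rw [a u hu v hv]

end Pool.Agent.GL
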