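import Pool.Agent.Lib.MP_438f30_pr.GSt
import Pool.Agent.Lib.MP_438f30_pr.HCel

/-! The coarse field oscillates little at half of the scales. -/

namespace Pool.Agent.GL

open MeasureTheory ProbabilityTheory Real Finset Filter Topology Metric
  Pool.Agent.Lib.MP_a0a493_pr
open scoped InnerProductSpace

namespace G9

theorem bands (h : Ort) (z : E 2) {R : ℝ} (hR : 0 < R) : ∃ B : ℕ → E 2 → HH 2,
    (∀ k x, cv (log (R / 256 ^ k / 8)) z x = ∑ b ∈ range (k + 1), B b x) ∧ (∀ b, B b z = 0) ∧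
    (∀ b x y, ‖B b x - B b y‖ ^ 2 ≤ 32 / (R / 256 ^ b) * ‖x - y‖) ∧
    ∀ b b', b' < b → ∀ x y, ⟪B b x, B b' y⟫_ℝ = 0 := by
  obtain ⟨a, ha⟩ : ∃ a : ℕ → ℝ, ∀ k, a k = log (R / 256 ^ k / 8) := ⟨_, fun _ => rfl⟩
  have mono : ∀ {k k'}, k ≤ k' → a k' ≤ a k := fun {k k'} hk => by
    rw [ha, ha]
    refine log_le_log (by positivity) ?_
    gcongr
    norm_num
  have ex : ∀ k, 4 * exp (-a k) = 32 / (R / 256 ^ k) := fun k => by
    rw [ha, exp_neg, exp_log (by positivity)]
    field_simp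
    norm_num
  simp only [← ha, ← ex]
  refine ⟨fun b x => Nat.casesOn b (cv (a 0) z x) fun c => Ev (a (c + 1)) (a c) x -
    Ev (a (c + 1)) (a c) z, fun k x => ?_, fun b => ?_, fun b x y => ?_, fun b b' hb x y => ?_⟩
  · induction k with
    | zero => simp
    | succ k ih => rw [sum_range_succ, ← ih, h.cut (mono k.le_succ), add_comm]
  · cases b
    exacts [h.self _ _, sub_self _]
  · cases b with
    | zero => exact h.inc ..
    | succ c =>
      refine le_trans (le_of_eq ?_) ((norm_Ev_sub one_le_two (a (c + 1)) (a c)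
        (dist_eq_norm x y).le).trans (le_of_eq ?_))
      · simp only [sub_sub_sub_cancel_right]
      · push_cast
        ring
  · obtain ⟨c, rfl⟩ : ∃ c, b = c + 1 := ⟨b - 1, by omega⟩
    cases b' with
    | zero => simp only [Nat.rec_zero, inner_sub_left, h.band (mono c.zero_le), sub_self]
    | succ c' =>
      simp only [inner_sub_left, inner_sub_right,
        inner_Ev_disj (mono (show c' + 1 ≤ c by omega)), sub_self]

variable {Ω : Type} [MeasurableSpace Ω] {P : Measure Ω} [IsProbabilityMeasure P]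

theorem geo {B : ℕ → Set Ω} {C : ℝ} (hC : 0 ≤ C) (hB : ∀ n, P.real (B n) ≤ C * (1 / 2) ^ n) :
    P.real (⋃ n, B n) ≤ C * 2 := by
  refine ENNReal.toReal_le_of_le_ofReal (by positivity) ((measure_iUnion_le _).trans ?_)
  rw [← tsum_geometric_two, ← tsum_mul_left, ENNReal.ofReal_tsum_of_nonneg
    (fun _ => by positivity) (summable_geometric_two.mul_left C)]
  exact ENNReal.tsum_le_tsum fun n =>
    (ENNReal.le_ofReal_iff_toReal_le (measure_ne_top _ _) (by positivity)).2 (hB n)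

theorem one {W : HH 2 →ₗ[ℝ] (Ω → ℝ)} (hW : Iso P W) {v : E 2 → HH 2} {z : E 2} {r M t : ℝ}
    (hr : 0 < r) (hM : 2 ≤ M) (ht : 6 ≤ t) (m : ℕ) (h0 : v z = 0)
    (h1 : ∀ x y, ‖v x - v y‖ ^ 2 ≤ 32 / r * ‖x - y‖) :
    P.real {ω | ∃ (n : ℕ), ∃ a ∈ box 2 (2 ^ n),
      t / 2 ^ m ≤ W (v (z + (10 * (r / 256 ^ m) / 2 ^ n) • pt a)) ω} ≤
      600 * exp (1310720 * M ^ 2) * exp (-(M * t)) * (1 / 2) ^ m := by
  have a1 : (1 : ℝ) ≤ 2 ^ m := one_le_pow₀ one_le_two
  have a2 : (4 : ℝ) ^ m = 2 ^ m * 2 ^ m := by rw [← mul_pow]; norm_num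
  have a3 : (4 : ℝ) ^ m * 4 ^ m ≤ 256 ^ m := by
    rw [← mul_pow]
    exact pow_le_pow_left₀ (by norm_num) (by norm_num) m
  have a4 : (m : ℝ) + 1 ≤ 2 ^ m := by exact_mod_cast Nat.lt_two_pow_self
  refine le_trans (measureReal_mono ?_) ((cel Ω P _ W hW v z (10 * (r / 256 ^ m)) (2560 / 256 ^ m)
    (4 * M * 4 ^ m) (t / (4 * 2 ^ m)) (by positivity) (by positivity) (by positivity)
    (by positivity) (fun x hx => ?_) fun x _ y _ => (h1 x y).trans_eq (by field_simp; ring)).trans ?_)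
  · rintro ω ⟨n, a, ha, hω⟩
    refine ⟨n, a, ha, le_trans ?_ hω⟩
    have : 21 / (4 * M * 4 ^ m) ≤ t / (2 * 2 ^ m) := by
      rw [div_le_div_iff₀ (by positivity) (by positivity), a2]
      have : 12 ≤ t * M := by nlinarith
      have : 12 * (2 ^ m * 2 ^ m : ℝ) ≤ t * M * (2 ^ m * 2 ^ m) := by gcongr
      nlinarith
    calc _ ≤ 2 * (t / (4 * 2 ^ m)) + t / (2 * 2 ^ m) := by linarith
      _ = _ := by field_simp; ring
  · have := h1 x z
    rw [h0, sub_zero, ← dist_eq_norm] at this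
    refine this.trans ((mul_le_mul_of_nonneg_left hx (by positivity)).trans ?_)
    rw [show 32 / r * (4 * (10 * (r / 256 ^ m))) = 1280 / 256 ^ m by field_simp; ring]
    gcongr
    norm_num
  · have b1 : 32 * (2560 / 256 ^ m) * (4 * M * 4 ^ m) ^ 2 ≤ 1310720 * M ^ 2 := by
      rw [show 32 * (2560 / 256 ^ m) * (4 * M * 4 ^ m) ^ 2 =
        1310720 * M ^ 2 * (4 ^ m * 4 ^ m / 256 ^ m) by ring]
      exact mul_le_of_le_one_right (by positivity) (div_le_one_of_le₀ a3 (by positivity))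
    have b2 : exp (-(4 * M * 4 ^ m) * (t / (4 * 2 ^ m))) ≤ exp (-(M * t)) * (1 / 2) ^ m := by
      have c : exp (-1 : ℝ) ≤ 1 / 2 := by
        rw [exp_neg, one_div]
        exact inv_anti₀ (by norm_num) (by linarith [add_one_le_exp (1 : ℝ)])
      refine le_trans ?_ (mul_le_mul_of_nonneg_left (pow_le_pow_left₀ (exp_pos _).le c m)
        (exp_pos _).le)
      rw [← exp_nat_mul, ← exp_add, a2, show -(4 * M * (2 ^ m * 2 ^ m)) * (t / (4 * 2 ^ m)) =
        -(M * t * 2 ^ m) by field_simp]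
      have : 1 ≤ M * t := by nlinarith
      have m0 : (0 : ℝ) ≤ m := Nat.cast_nonneg m
      exact exp_le_exp.2 (by nlinarith)
    rw [mul_assoc _ (exp (-(M * t)))]
    gcongr

theorem osum (t : ℕ → ℝ) (K : ℕ) :
    ∑ k ∈ range (K + 1), ∑ b ∈ range (k + 1), t b / 2 ^ (k - b) +
      ∑ b ∈ range (K + 1), t b / 2 ^ (K - b) = 2 * ∑ b ∈ range (K + 1), t b := by
  induction K with
  | zero => simp [two_mul]
  | succ K ih =>
    have : ∑ b ∈ range (K + 1), t b / 2 ^ (K - b) =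
        2 * ∑ b ∈ range (K + 1), t b / 2 ^ (K + 1 - b) := by
      rw [mul_sum]
      refine sum_congr rfl fun b hb => ?_
      rw [show K + 1 - b = K - b + 1 by have := mem_range.1 hb; omega, pow_succ]
      field_simp
    rw [sum_range_succ _ (K + 1), sum_range_succ t (K + 1), sum_range_succ _ (K + 1),
      Nat.sub_self]
    linarith

theorem osum_le {t : ℕ → ℝ} (h : ∀ b, 0 ≤ t b) (K : ℕ) :
    ∑ k ∈ range K, ∑ b ∈ range (k + 1), t b / 2 ^ (k - b) ≤ 2 * ∑ b ∈ range K, t b := by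
  cases K with
  | zero => simp
  | succ K =>
    rw [← osum]
    exact le_add_of_nonneg_right (sum_nonneg fun b _ => by have := h b; positivity)

end G9

open Classical in
theorem g9 (h : Ort) : sG9 := by
  intro A
  obtain ⟨M, hM⟩ : ∃ M, M = max A 0 + 2 := ⟨_, rfl⟩
  have M2 : 2 ≤ M := by linarith [le_max_right A 0]
  obtain ⟨t, ht⟩ : ∃ t, t = 1310720 * M + 2401 := ⟨_, rfl⟩
  have t0 : 6 ≤ t := by linarith
  refine ⟨2 * (4 + 2 * t), by linarith, fun Ω _ P _ W hW z R K hR => ?_⟩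
  obtain ⟨B, h1, h2, h3, h4⟩ := G9.bands h z hR
  refine le_trans (measureReal_mono ?_) ((GU.cnt Ω P _ W hW (fun b => Set.range (B b))
    (fun b => {v | ∃ b' ≤ b, ∃ x, B b' x = v})
    (fun b τ => {ω | ∀ m n : ℕ, ∀ a ∈ box 2 (2 ^ n),
      |W (B b (z + (10 * (R / 256 ^ b / 256 ^ m) / 2 ^ n) • pt a)) ω| ≤ (τ + t) / 2 ^ m})
    M K K (by linarith) (Nat.cast_nonneg K) (fun b v hv => ⟨b, le_rfl, hv⟩)
    (fun b b' hb v ⟨c, hc, hv⟩ => ⟨c, hc.trans hb, hv⟩) ?_ (fun b τ => ?_) fun b _ τ => ?_).trans ?_)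
  · rintro ω hω ⟨τ, k1, k2⟩
    have s1 := G9.osum_le (t := fun b => τ b + t) (fun b => by positivity) K
    have s2 := card_nsmul_le_sum ((range K).filter fun k => ¬ ω ∈ Gdo W z (R / 256 ^ k)
      (2 * (4 + 2 * t))) (fun k => ∑ b ∈ range (k + 1), (τ b + t) / 2 ^ (k - b)) (2 * (4 + 2 * t))
      fun k hk => le_of_not_gt fun lt => (mem_filter.1 hk).2 fun n a ha => by
        rw [h1, map_sum, Finset.sum_apply]
        refine (abs_sum_le_sum_abs _ _).trans ((sum_le_sum fun b hb => ?_).trans lt.le)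
        have b1 := mem_range.1 hb
        have b2 := mem_range.1 (mem_filter.1 hk).1
        have := k1 b (by omega) (k - b) n a ha
        rwa [div_div, ← pow_add, Nat.add_sub_cancel' (by omega)] at this
    have s3 := s2.trans ((sum_le_sum_of_subset_of_nonneg (filter_subset _ _) fun k _ _ =>
      sum_nonneg fun b _ => by positivity).trans s1)
    have s4 := card_filter_add_card_filter_not (s := range K) fun k =>
      ω ∈ Gdo W z (R / 256 ^ k) (2 * (4 + 2 * t))
    rw [sum_add_distrib, sum_const, card_range, nsmul_eq_mul, nsmul_eq_mul] at s3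
    rw [card_range] at s4
    have s5 : (K : ℝ) < 2 * ((range K).filter fun k => ¬ ω ∈ Gdo W z (R / 256 ^ k)
        (2 * (4 + 2 * t))).card := by
      have : 2 * ((range K).filter fun k => ω ∈ Gdo W z (R / 256 ^ k)
        (2 * (4 + 2 * t))).card < K := hω
      exact_mod_cast (by omega : K < 2 * ((range K).filter fun k => ¬ ω ∈ Gdo W z (R / 256 ^ k)
        (2 * (4 + 2 * t))).card)
    nlinarith
  · rintro j j' hj _ ⟨x, rfl⟩ _ ⟨c, hc, y, rfl⟩
    exact h4 j c (by omega) x y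
  · simp only [Set.ofPred_forall]
    exact .iInter fun m => .iInter fun n => .iInter fun a => .iInter fun _ => measurableSet_le
      (continuous_abs.measurable.comp (GU.meas_FK W ⟨_, rfl⟩)) measurable_const
  · have τ0 : (0 : ℝ) ≤ τ := Nat.cast_nonneg τ
    refine le_trans (measureReal_mono ?_) ((G9.geo (P := P) (B := fun m => {ω | ∃ (n : ℕ),
      ∃ a ∈ box 2 (2 ^ n), (τ + t) / 2 ^ m <
        |W (B b (z + (10 * (R / 256 ^ b / 256 ^ m) / 2 ^ n) • pt a)) ω|})
      (C := 1200 * exp (1310720 * M ^ 2) * exp (-(M * (τ + t)))) (by positivity)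
      fun m => ?_).trans ?_)
    · intro ω hω
      simpa only [Set.mem_compl_iff, Set.mem_ofPred_eq, not_forall, not_le, Set.mem_iUnion,
        exists_prop] using hω
    · refine (sub_le2 (G9.one hW (t := τ + t) (by positivity) M2 (by linarith) m (h2 b) (h3 b))
        (G9.one hW.neg (t := τ + t) (by positivity) M2 (by linarith) m (h2 b) (h3 b))
        fun ω hω hn => ?_).trans_eq (by ring)
      obtain ⟨n, a, ha, hω⟩ := hω
      exact (le_abs.1 hω.le).elim (fun k => (hn ⟨n, a, ha, k⟩).elim) fun k => ⟨n, a, ha, k⟩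
    · have : (2400 : ℝ) ≤ exp 2400 := by linarith [add_one_le_exp (2400 : ℝ)]
      calc _ = 2400 * (exp (1310720 * M ^ 2) * exp (-(M * (τ + t)))) := by ring
        _ ≤ exp 2400 * (exp (1310720 * M ^ 2) * exp (-(M * (τ + t)))) := by gcongr
        _ ≤ _ := by
          rw [← exp_add, ← exp_add, ht]
          exact exp_le_exp.2 (by nlinarith)
  · have c : (2 : ℝ) ^ K ≤ exp K := by
      rw [← mul_one (K : ℝ), exp_nat_mul]
      exact pow_le_pow_left₀ (by norm_num) (by linarith [add_one_le_exp (1 : ℝ)]) K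
    rw [mul_assoc]
    refine mul_le_mul_of_nonneg_left ((mul_le_mul_of_nonneg_right c (exp_pos _).le).trans ?_)
      two_pos.le
    rw [← exp_add, hM]
    exact exp_le_exp.2 (by nlinarith [le_max_left A 0, Nat.cast_nonneg (α := ℝ) K])

end Pool.Agent.GL
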