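import Pool.Agent.Lib.MP_438f30_pr.GSt
import Pool.Agent.Lib.MP_438f30_pr.HV1
import Pool.Agent.Lib.MP_438f30_pr.HV2
import Pool.Agent.Lib.MP_438f30_pr.HFin

/-! A direction of the Cameron-Martin space that is a bump function. -/

namespace Pool.Agent.GL

open MeasureTheory ProbabilityTheory Real Filter Topology Metric Pool.Agent.Lib.MP_a0a493_pr
open scoped InnerProductSpace

namespace GBump

/-- a disc and an annulus -/
def T (u : E 2) : Prop := ‖u‖ ≤ 17 ∨ (39 ≤ ‖u‖ ∧ ‖u‖ ≤ 81)

open Classical in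
/-- the raw function -/
noncomputable def k (p : ℝ × E 2) : ℝ := if (-1 < p.1 ∧ p.1 ≤ 0) ∧ T p.2 then 1 else 0

theorem meas_k : Measurable k := by
  refine Measurable.ite ?_ measurable_const measurable_const
  unfold T
  measurability

theorem ok_k : Ok k := by
  refine (ok_two meas_k (α := -1) (a := 0) (b := 82 ^ 2 * exp 2) (fun s hs => ?_)
    fun s hs => ?_).1
  · simp only [k, not_lt.2 hs, false_and, if_false]
    exact sl_zero (by simp)
  · have b : ∀ u, |k (s, u)| ≤ bi 82 0 u := fun u => by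
      unfold k
      split_ifs with h
      · have : dist (0 : E 2) u < 82 := by
          rw [dist_zero_left]
          rcases h.2 with a | a
          · linarith
          · linarith [a.2]
        simp only [bi, this, if_true, abs_one, le_refl]
      · simpa using bi_nonneg _ _ _
    have i : Integrable fun u => k (s, u) := (integrable_bi 82 0).mono'
      (meas_k.comp measurable_prodMk_left).aestronglyMeasurable (Eventually.of_forall b)
    refine ⟨1, fun u => (b u).trans ((le_abs_self _).trans (abs_bi _ _ u)), i, ?_⟩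
    rw [one_mul]
    refine (integral_mono i.abs (integrable_bi 82 0) b).trans ?_
    rw [integral_bi (by norm_num), vb, mul_assoc]
    refine mul_le_mul_of_nonneg_left ?_ (V1_pos 2).le
    rw [mul_assoc, mul_left_comm, sq (exp s), ← exp_add, ← exp_add, ← exp_add]
    exact le_mul_of_one_le_right (by norm_num) (one_le_exp (by linarith))

theorem one {x : E 2} (hx : ‖x‖ ≤ 16 ∨ (40 ≤ ‖x‖ ∧ ‖x‖ ≤ 80)) : ⟪Ev (-1) 0 x, vec k⟫_ℝ = 1 := by
  have e : ∫ s in Set.Ioc (-1 : ℝ) 0, (1 : ℝ) = 1 := by simp
  refine Eq.trans ?_ e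
  rw [Ev, inner_vec' (ok_ev _ _ _) ok_k, ← integral_indicator measurableSet_Ioc]
  congr 1
  funext s
  by_cases h : -1 < s ∧ s ≤ 0
  · have e2 : ∀ u, ev (-1) 0 x (s, u) * k (s, u) = bi (exp s) x u := fun u => by
      rw [show ev (-1) 0 x (s, u) = bi (exp s) x u from if_pos h]
      by_cases a : dist x u < exp s
      · have a1 := a.trans_le (exp_le_one_iff.2 h.2)
        have a2 := abs_lt.1 ((abs_norm_sub_norm_le x u).trans_lt (by rwa [← dist_eq_norm]))
        have t : T u := hx.imp (fun b => by linarith [a2.1])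
          fun b => ⟨by linarith [a2.2], by linarith [a2.1]⟩
        rw [show k (s, u) = 1 from if_pos ⟨h, t⟩, mul_one]
      · rw [bi, if_neg a, zero_mul]
    rw [Set.indicator_of_mem (Set.mem_Ioc.2 h), funext e2, integral_bi (exp_pos s)]
    exact inv_mul_cancel₀ (vb_pos 2 s).ne'
  · have e2 : ∀ u, ev (-1) 0 x (s, u) * k (s, u) = 0 := fun u => by
      rw [show ev (-1) 0 x (s, u) = 0 from if_neg h, zero_mul]
    rw [Set.indicator_of_notMem (mt Set.mem_Ioc.1 h), funext e2, integral_zero, mul_zero]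

theorem zero {x : E 2} (hx : x ∈ An 0 20 36) : ⟪Ev (-1) 0 x, vec k⟫_ℝ = 0 := by
  refine inner_vec_zero fun p => ?_
  simp only [An, Set.mem_ofPred_eq, dist_zero_right] at hx
  unfold ev k bi
  split_ifs with h1 h2 h3 <;> try simp
  have a1 := h2.trans_le (exp_le_one_iff.2 h1.2)
  have a2 := abs_lt.1 ((abs_norm_sub_norm_le x p.2).trans_lt (by rwa [← dist_eq_norm]))
  rcases h3.2 with b | b
  · linarith [a2.2]
  · linarith [a2.1, b.1]

theorem cont : Continuous fun x : E 2 => Ev (-1) 0 x := by
  refine continuous_iff_continuousAt.2 fun y => tendsto_iff_norm_sub_tendsto_zero.2 ?_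
  have c : Continuous fun x : E 2 => √(2 * (2 : ℕ) * dist x y * exp (-(-1))) := by fun_prop
  refine squeeze_zero (fun _ => norm_nonneg _)
    (fun x => Real.le_sqrt_of_sq_le (norm_Ev_sub one_le_two (-1) 0 le_rfl)) ?_
  simpa using c.tendsto y

end GBump

open GBump in
theorem bump : sBump := by
  refine ⟨vec k, fun x => ⟪Ev (-1) 0 x, vec k⟫_ℝ, fun h => ?_, cont.inner continuous_const,
    fun _ => one, fun _ => zero, fun φ hφ => ?_⟩
  · have := one (x := 0) (Or.inl (by simp))
    rw [h, inner_zero_right] at this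
    exact zero_ne_one this
  obtain ⟨ρ, hρ, h1⟩ := HFin.ex_rho
  have a := vf2 vf1 ρ φ (-1) (vec k) hρ h1 hφ
  have b := vf2 vf1 ρ φ 0 (vec k) hρ h1 hφ
  have c : ⟪fn (-1) φ, vec k⟫_ℝ = 0 := inner_vec_zero fun p => by
    by_cases h : p.1 ≤ -1
    · simp [k, not_lt.2 h]
    · simp [h]
  have i : ∀ v : E 2 → HH 2, Continuous v → Integrable fun x => φ x * ⟪v x, vec k⟫_ℝ :=
    fun v hv => (hφ.1.continuous.mul (hv.inner continuous_const)).integrable_of_hasCompactSupport
      hφ.2.mul_right
  have c0 : Continuous fun x => crs ρ 0 x := by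
    refine continuous_iff_continuousAt.2 fun y => tendsto_iff_norm_sub_tendsto_zero.2 ?_
    have c : Continuous fun x : E 2 => √(4 * exp (-0) * ‖x - y‖) := by fun_prop
    refine squeeze_zero (fun _ => norm_nonneg _)
      (fun x => Real.le_sqrt_of_sq_le (vf1.inc hρ h1 0 x y)) ?_
    simpa using c.tendsto y
  simp only [vf1.cut hρ h1 (-1) 0 _ (by norm_num), inner_add_left, mul_add] at a
  rw [integral_add (i _ cont) (i _ c0), ← b, inner_sub_left, inner_sub_left, c] at a
  linarith

end Pool.Agent.GL
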