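import Pool.Agent.Lib.MP_438f30_pr.HSt
import Pool.Agent.Lib.MP_438f30_pr.Ps
import Pool.Agent.Lib.MP_438f30_pr.AInd

/-! Chains with expensive crossings are long. -/

namespace Pool.Agent.GL

open MeasureTheory Real Finset Filter Topology Metric Pool.Agent.Lib.MP_a0a493_pr Pool.Agent.GLA

def sG : Prop :=
  ∀ (s ξ q γ c M : ℝ) (A B : E 2), 10 ≤ s → 0 ≤ ξ → 0 ≤ γ → 1 ≤ c → A ≠ B →
    ξ * CA * (6 / s + s ^ 3 * γ) < 1 - q →
    ∀ (Ω : Type) [MeasurableSpace Ω] (P : Measure Ω) [IsProbabilityMeasure P]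
      (W : HG 2 →ₗ[ℝ] (Ω → ℝ)), Iso P W →
      Tendsto (fun n : ℕ => P {ω | ∃ (T : ℕ) (x : ℕ → E 2) (k : ℕ → ℕ) (z : ℕ → Zd 2),
        ‖x 0 - A‖ ≤ ‖B - A‖ / s ^ 2 ∧ ‖x T - B‖ ≤ ‖B - A‖ / s ^ 2 ∧
        (∀ i < T, n ≤ k i ∧ dist (x i) (x (i + 1)) ≤ c / 2 ^ k i ∧
          dist (x i) (((2 : ℝ) ^ k i)⁻¹ • pt (z i)) ≤ c / 2 ^ k i) ∧
        ∑ i ∈ range T, exp (-(1 + γ) * (k i * log 2)) ≤ M ∧
        ∑ i ∈ range T, exp (-q * (k i * log 2) +
          ξ * W (EG (-(k i * log 2)) 0 (((2 : ℝ) ^ k i)⁻¹ • pt (z i))) ω) ≤ M}) atTop (𝓝 0)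

namespace HAh

theorem squeeze {α β : Type*} [Inhabited β] (x : ℕ → α) (Pr : α → α → β → Prop) (c1 c2 : β → ℝ)
    (b1 b2 : ℕ → ℝ) (T : ℕ) : (∀ i < T, 0 ≤ b1 i ∧ 0 ≤ b2 i ∧
      (x i ≠ x (i + 1) → ∃ k, Pr (x i) (x (i + 1)) k ∧ c1 k ≤ b1 i ∧ c2 k ≤ b2 i)) →
    ∃ (T' : ℕ) (x' : ℕ → α) (k : ℕ → β), x' 0 = x 0 ∧ x' T' = x T ∧
      (∀ i < T', Pr (x' i) (x' (i + 1)) (k i)) ∧
      ∑ i ∈ range T', c1 (k i) ≤ ∑ i ∈ range T, b1 i ∧
      ∑ i ∈ range T', c2 (k i) ≤ ∑ i ∈ range T, b2 i := by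
  induction T with
  | zero => exact fun _ => ⟨0, x, fun _ => default, rfl, rfl, by simp, by simp, by simp⟩
  | succ T ih =>
    intro h
    obtain ⟨T', x', k, h0, h1, h2, h3, h4⟩ := ih fun i hi => h i (by omega)
    obtain ⟨p1, p2, p3⟩ := h T (by omega)
    rw [sum_range_succ, sum_range_succ]
    by_cases e : x T = x (T + 1)
    · exact ⟨T', x', k, h0, h1.trans e, h2, by linarith, by linarith⟩
    · obtain ⟨k0, q1, q2, q3⟩ := p3 e
      have s : ∀ c : β → ℝ, ∑ i ∈ range (T' + 1), c (if i < T' then k i else k0) =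
          ∑ i ∈ range T', c (k i) + c k0 := fun c => by
        rw [sum_range_succ, if_neg (lt_irrefl _)]
        exact congrArg (· + c k0) (sum_congr rfl fun i hi => by rw [if_pos (mem_range.1 hi)])
      refine ⟨T' + 1, fun i => if i ≤ T' then x' i else x (T + 1),
        fun i => if i < T' then k i else k0, by simpa using h0, by simp, fun i hi => ?_,
        by rw [s]; linarith, by rw [s]; linarith⟩
      by_cases c : i < T'
      · simpa [c, c.le, Nat.succ_le_of_lt c] using h2 i c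
      · obtain rfl : i = T' := by omega
        simpa [h1] using q1

theorem CA_le : CA ≤ 27 * 10 ^ 12 := by
  have a : exp 15 ≤ 3400000 := by
    rw [show (15 : ℝ) = (15 : ℕ) * 1 by norm_num, exp_nat_mul]
    exact (pow_le_pow_left₀ (exp_pos _).le (exp_one_lt_d9.le.trans (by norm_num : _ ≤ (2.72 : ℝ)))
      15).trans (by norm_num)
  unfold CA CG
  linarith

/-- cheap and short chains of level at least `n` -/
def Bd (s ξ q γ : ℝ) (L M n : ℕ) (A B : E 2) : Set (ℕ × Zd 2 → ℝ) :=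
  {y | ∃ (T : ℕ) (x : ℕ → E 2) (k : ℕ → ℕ × Zd 2),
    (‖x 0 - A‖ ≤ ‖B - A‖ / s ^ 2 ∧ ‖x T - B‖ ≤ ‖B - A‖ / s ^ 2 ∧
      (∀ i < T, n ≤ (k i).1 ∧ dist (x i) (x (i + 1)) ≤ 18 / 2 ^ (k i).1 ∧
        dist (x i) (((2 : ℝ) ^ (k i).1)⁻¹ • pt (k i).2) ≤ 18 / 2 ^ (k i).1 ∧
        (k i).2 ∈ box 2 ((L + 2) * 2 ^ (k i).1)) ∧
      ∑ i ∈ range T, exp (-(1 + γ) * ((k i).1 * log 2)) ≤ M) ∧
    ∑ i ∈ range T, exp (ξ * y (k i) - q * (k i).1) < M}

theorem open_Bd (s ξ q γ : ℝ) (L M n : ℕ) (A B : E 2) : IsOpen (Bd s ξ q γ L M n A B) := by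
  simp only [Bd, Set.ofPred_exists]
  refine isOpen_iUnion fun T => isOpen_iUnion fun x => isOpen_iUnion fun k =>
    isOpen_const.inter (isOpen_lt (f := fun y : ℕ × Zd 2 → ℝ =>
      ∑ i ∈ range T, exp (ξ * y (k i) - q * (k i).1)) ?_ continuous_const)
  fun_prop

variable {Ω : Type} [MeasurableSpace Ω] {P : Measure Ω} [IsProbabilityMeasure P] {ρ : E 2 → ℝ}

theorem cmp {W : HG 2 →ₗ[ℝ] (Ω → ℝ)} (h : Iso P W) (hρ : Test ρ) (h1 : ∫ x, ρ x = 1) (L : ℕ)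
    {ζ : ℝ} (hζ : 0 < ζ) : ∀ᵐ ω ∂P, ∀ᶠ j : ℕ in atTop, ∀ w ∈ box 2 (L * 2 ^ j),
      W (EG (-(j * log 2)) 0 (((2 : ℝ) ^ j)⁻¹ • pt w)) ω <
        W (vG ρ j (((2 : ℝ) ^ j)⁻¹ • pt w)) ω + ζ * j := by
  obtain ⟨b, R, hn⟩ := hρ.nice
  obtain ⟨V, hV⟩ : ∃ V, V = 4 * (b ^ 2 * KG 2 (R + 4 * L)) := ⟨_, rfl⟩
  have key : ∀ j : ℕ, P.real {ω | ∃ w ∈ box 2 (L * 2 ^ j), ω ∈ {ω | ζ * j ≤
      W (EG (-(j * log 2)) 0 (((2 : ℝ) ^ j)⁻¹ • pt w) - vG ρ j (((2 : ℝ) ^ j)⁻¹ • pt w)) ω}} ≤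
      (4 * L + 1) ^ 2 * exp (V * (3 / ζ) ^ 2 / 2) * (1 / 2) ^ j := fun j => by
    refine le_trans (Pool.Agent.Lib.MP_a0a493_pr.union_le _ _ (c := exp (-(3 / ζ) * (ζ * j) +
      V * (3 / ζ) ^ 2 / 2)) fun w hw => ?_) ?_
    · refine h.tail (hV ▸ vG_var one_le_two hρ h1 hn j ?_) (by positivity) _
      refine (norm_le_two (r := 2 * L) (by positivity) fun i => ?_).trans_eq (by ring)
      have e : |(w i : ℝ)| ≤ 2 * (L * 2 ^ j) := by exact_mod_cast mem_box.1 hw i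
      rw [PiLp.smul_apply, pt_apply, smul_eq_mul, abs_mul, abs_of_pos (by positivity),
        inv_mul_le_iff₀ (by positivity)]
      linarith
    · have p1 : (1 : ℝ) ≤ 2 ^ j := one_le_pow₀ one_le_two
      have a : (((box 2 (L * 2 ^ j)).card : ℕ) : ℝ) ≤ ((4 * L + 1) * 2 ^ j) ^ 2 := by
        rw [card_box]
        push_cast
        exact pow_le_pow_left₀ (by positivity) (by linarith) 2
      have e : exp (-(3 / ζ) * (ζ * j)) ≤ (1 / 8) ^ j := by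
        rw [show -(3 / ζ) * (ζ * j) = j * (-3) by field_simp, exp_nat_mul]
        refine pow_le_pow_left₀ (exp_pos _).le ?_ j
        rw [exp_neg, one_div, show (3 : ℝ) = (3 : ℕ) * 1 by norm_num, exp_nat_mul]
        exact inv_anti₀ (by norm_num) (le_trans (by norm_num)
          (pow_le_pow_left₀ two_pos.le (by linarith [add_one_le_exp 1]) 3))
      rw [exp_add]
      refine (mul_le_mul a (mul_le_mul_of_nonneg_right e (exp_pos _).le) (by positivity)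
        (by positivity)).trans (le_of_eq ?_)
      rw [mul_pow, ← pow_mul, mul_comm j, pow_mul, show (1 / 2 : ℝ) = 2 ^ 2 * (1 / 8) by norm_num,
        mul_pow]
      ring
  have sm : Summable fun j : ℕ =>
      (4 * (L : ℝ) + 1) ^ 2 * exp (V * (3 / ζ) ^ 2 / 2) * (1 / 2) ^ j :=
    summable_geometric_two.mul_left _
  have := ae_eventually_notMem (μ := P) (ne_top_of_le_ne_top sm.tsum_ofReal_ne_top
    (ENNReal.tsum_le_tsum fun j => (ofReal_measureReal (measure_ne_top P _)).symm.trans_le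
      (ENNReal.ofReal_le_ofReal (key j))))
  filter_upwards [this] with ω h2
  filter_upwards [h2] with j h3 w hw
  have := not_le.1 fun c => h3 ⟨w, hw, c⟩
  rw [map_sub, Pi.sub_apply] at this
  linarith

end HAh

open HAh

theorem ahf (hG : sG) : sAH := by
  intro ξ lam l0 l1 l2 Ω _ P _ Φ ρ hΦ hρ h1
  have ξ0 : 0 < ξ := l0.trans_le l2
  have C0 := CA_pos
  have L0 := log_pos one_lt_two
  obtain ⟨s, hs⟩ : ∃ s, s = 12 * CA * ξ / lam := ⟨_, rfl⟩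
  obtain ⟨γ, hγ⟩ : ∃ γ, γ = 2 / 10 ^ 58 * (lam / ξ) ^ 4 := ⟨_, rfl⟩
  have γ0 : 0 ≤ γ := by rw [hγ]; positivity
  have s10 : 10 ≤ s := by
    have : 1 ≤ CA := by have := CG_pos; unfold CA; linarith
    rw [hs, le_div_iff₀ l0]
    nlinarith
  have num : ξ * CA * (6 / s + s ^ 3 * γ) < 1 - (1 - 3 / 4 * lam) := by
    have e : ξ * CA * (6 / s + s ^ 3 * γ) = lam * (1 / 2 + 3456 / 10 ^ 58 * CA ^ 4) := by
      rw [hs, hγ]; field_simp; ring
    have := pow_le_pow_left₀ C0.le CA_le 4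
    rw [e]
    nlinarith
  obtain ⟨Ω', _, P', _, W, hW⟩ := exists_iso (HG 2)
  have key : ∀ (L M : ℕ) (a b : ℕ × Zd 2), ∀ᵐ ω ∂P, dy a ≠ dy b → ∃ n,
      (fun p : ℕ × Zd 2 => psi Φ ρ p.1 ω p.2) ∉
        Bd s ξ ((1 - lam) * log 2) γ L M n (dy a) (dy b) := fun L M a b => by
    by_cases e : dy a = dy b
    · exact Eventually.of_forall fun _ c => absurd e c
    have := ae_transfer (P := P') (P' := P)
      (X := fun p : ℕ × Zd 2 => W (vG ρ p.1 (((2 : ℝ) ^ p.1)⁻¹ • pt p.2)))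
      (X' := fun p ω => psi Φ ρ p.1 ω p.2) (v' := fun p => vp ρ p.1 p.2)
      (B := ⋃ n, (Bd s ξ ((1 - lam) * log 2) γ L M n (dy a) (dy b))ᶜ) (fun I => hW.gf _)
      (fun I => hΦ.gf le_rfl (fun j => test_dm hρ _ _) (fun j => int_dm hρ _ _) fun j => by
        filter_upwards [hΦ.lin _ _ (test_mol hρ j.1.1 (((2 : ℝ) ^ j.1.1)⁻¹ • pt j.1.2))
          (test_mol hρ 0 0) 1 (-1)] with ω e
        rw [dm, e, psi, phi, ps_pt]
        ring)
      (fun i j => innerG le_rfl (test_dm hρ _ _) (test_dm hρ _ _) (int_dm hρ _ _) (int_dm hρ _ _))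
      (MeasurableSet.iUnion fun n => (open_Bd ..).measurableSet.compl) ?_
    · filter_upwards [this] with ω h _ using Set.mem_iUnion.1 h
    have t := hG s ξ _ γ 18 M _ _ s10 ξ0.le γ0 (by norm_num) e num Ω' P' W hW
    have z := ge_of_tendsto' t fun n => measure_mono (Set.iInter_subset _ n)
    filter_upwards [measure_eq_zero_iff_ae_notMem.1 (nonpos_iff_eq_zero.1 z),
      cmp hW hρ h1 (L + 2) (ζ := lam / 4 * log 2 / ξ) (by positivity)] with ω c1 c2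
    obtain ⟨n1, c1⟩ := not_forall.1 (mt Set.mem_iInter.2 c1)
    obtain ⟨n2, c2⟩ := eventually_atTop.1 c2
    refine Set.mem_iUnion.2 ⟨max n1 n2, ?_⟩
    rintro ⟨T, x, k, ⟨a1, a2, a3, a4⟩, a5⟩
    refine c1 ⟨T, x, fun i => (k i).1, fun i => (k i).2, a1, a2, fun i hi =>
      ⟨le_of_max_le_left (a3 i hi).1, (a3 i hi).2.1, (a3 i hi).2.2.1⟩, a4,
      (sum_le_sum fun i hi => exp_le_exp.2 ?_).trans a5.le⟩
    have b1 := a3 i (mem_range.1 hi)
    have b2 := mul_le_mul_of_nonneg_left (c2 _ (le_of_max_le_right b1.1) _ b1.2.2.2).le ξ0.le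
    have b3 : ξ * (lam / 4 * log 2 / ξ * (k i).1) = lam / 4 * ((k i).1 * log 2) := by field_simp
    rw [mul_add, b3] at b2
    linarith
  filter_upwards [ae_all_iff.2 fun L => ae_all_iff.2 fun M => ae_all_iff.2 fun a =>
    ae_all_iff.2 fun b => key L M a b] with ω hω L j₀ ℓ u v huv
  have d0 : 0 < ‖v - u‖ := norm_pos_iff.2 (sub_ne_zero.2 huv.symm)
  have s2 : 100 ≤ s ^ 2 := by nlinarith
  have e0 : 0 < ‖v - u‖ / 2 / s ^ 2 := by positivity
  have e1 : ‖v - u‖ / 2 / s ^ 2 ≤ ‖v - u‖ / 4 := by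
    rw [div_le_iff₀ (by positivity)]; nlinarith
  obtain ⟨a, ha⟩ := dense_dy.exists_dist_lt u e0
  obtain ⟨b, hb⟩ := dense_dy.exists_dist_lt v e0
  rw [dist_eq_norm] at ha hb
  have n1 := (norm_near ha.le hb.le).1
  rw [dist_comm, dist_eq_norm] at n1
  have n2 : ‖v - u‖ / 2 / s ^ 2 ≤ ‖dy b - dy a‖ / s ^ 2 :=
    div_le_div_of_nonneg_right (by linarith) (by positivity)
  obtain ⟨M, hM⟩ := exists_nat_gt (max 1 ℓ)
  obtain ⟨n, hn⟩ := hω L M a b fun c => by rw [c, sub_self, norm_zero] at n1; linarith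
  refine ⟨1, one_pos, 9 / 2 ^ max n j₀, by positivity, fun T x r t hc => ?_⟩
  rw [← hγ]
  by_contra c
  obtain ⟨T', x', k, q0, q1, q2, q3, q4⟩ := squeeze x (fun p p' (k : ℕ × Zd 2) => n ≤ k.1 ∧
    dist p p' ≤ 18 / 2 ^ k.1 ∧ dist p (((2 : ℝ) ^ k.1)⁻¹ • pt k.2) ≤ 18 / 2 ^ k.1 ∧
    k.2 ∈ box 2 ((L + 2) * 2 ^ k.1)) (fun k => exp (-(1 + γ) * (k.1 * log 2)))
    (fun k => exp (ξ * psi Φ ρ k.1 ω k.2 - (1 - lam) * log 2 * k.1)) (fun i => r i ^ (1 + γ))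
    (fun i => t (i + 1) - t i) T fun i hi => by
      obtain ⟨r1, r2, r3⟩ := hc.stp i hi
      refine ⟨by positivity, sub_nonneg.2 (hc.mono (Nat.le_succ i)), fun ne => ?_⟩
      have p0 : 0 < dist (x i) (x (i + 1)) := dist_pos.2 ne
      have p1 : (2 : ℝ) ^ (max n j₀ + 1) ≤ 18 / dist (x i) (x (i + 1)) := by
        have := r1.trans r3
        rw [le_div_iff₀ (by positivity)] at this
        rw [le_div_iff₀ p0, pow_succ]
        linarith
      obtain ⟨j, j1, j2⟩ := exists_nat_pow_near ((one_le_pow₀ one_le_two).trans p1) one_lt_two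
      have j3 := (pow_lt_pow_iff_right₀ one_lt_two).1 (p1.trans_lt j2)
      have p2 : (0 : ℝ) < 2 ^ j := by positivity
      obtain ⟨μ, hμ⟩ : ∃ μ : ℝ, μ = (2 ^ j)⁻¹ := ⟨_, rfl⟩
      have μ0 : 0 < μ := by rw [hμ]; positivity
      have μ1 : μ ≤ 1 := by rw [hμ]; exact inv_le_one_of_one_le₀ (one_le_pow₀ one_le_two)
      have k1 : dist (x i) (x (i + 1)) ≤ 18 * μ := by
        rw [le_div_iff₀ p0] at j1
        rw [hμ, ← div_eq_mul_inv, le_div_iff₀ p2]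
        linarith
      have k2 : 9 * μ < dist (x i) (x (i + 1)) := by
        rw [div_lt_iff₀ p0, pow_succ] at j2
        rw [hμ, ← div_eq_mul_inv, div_lt_iff₀ p2]
        linarith
      have k3 := norm_rd μ0 (x i)
      rw [← dist_eq_norm, dist_comm] at k3
      have k4 : rd μ (x i) ∈ box 2 ((L + 2) * 2 ^ j) := mem_box.2 fun l => by
        have a1 := rd_coord μ0 (x i) l
        have a2 := abs_le.1 ((abs_le_norm2 (x i) l).trans (hc.bdd i hi.le))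
        have a3 : |μ * rd μ (x i) l| ≤ L + 2 := abs_le.2 ⟨by linarith, by linarith⟩
        rw [abs_mul, abs_of_pos μ0, hμ, inv_mul_le_iff₀ p2, ← hμ] at a3
        have a4 : |(rd μ (x i) l : ℝ)| ≤ 2 * ((L + 2) * 2 ^ j) := by
          nlinarith [abs_nonneg (rd μ (x i) l : ℝ)]
        exact_mod_cast a4
      refine ⟨(j, rd μ (x i)), ⟨by omega, ?_, ?_, k4⟩, ?_,
        hc.cross i (i + 1) (Nat.le_succ i) hi j (by omega) _ k4 ?_ ?_⟩
      · rwa [div_eq_mul_inv, ← hμ]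
      · simp only [div_eq_mul_inv, ← hμ]; linarith
      · have : exp (-(1 + γ) * (j * log 2)) = μ ^ (1 + γ) := by
          rw [rpow_def_of_pos μ0, hμ, log_inv, log_pow]; congr 1; ring
        exact this.trans_le (rpow_le_rpow μ0.le (by linarith) (by linarith))
      · rw [mem_ball, div_eq_mul_inv, ← hμ]; linarith
      · rw [mem_closedBall, div_eq_mul_inv, ← hμ, not_le]
        linarith [dist_triangle_right (x i) (x (i + 1)) (μ • pt (rd μ (x i)))]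
  rw [sum_range_sub] at q4
  refine hn ⟨T', x', k, ⟨?_, ?_, q2, ?_⟩, ?_⟩
  · rw [q0, hc.fst]; linarith
  · rw [q1, hc.lst]; linarith
  · linarith [le_max_left 1 ℓ]
  · linarith [le_max_right 1 ℓ, hc.tot]

end Pool.Agent.GL
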