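import Pool.Agent.Lib.MP_438f30_pr.HSt

/-! From chains along a curve to the Hausdorff dimension of its image. -/

namespace Pool.Agent.GL

open MeasureTheory Real Finset Filter Topology Metric

namespace HCov

variable {X : Type} [MetricSpace X]

/-- a chain subordinate to a finite open cover -/
theorem chain {p : ℝ → X} {l s δ : ℝ} (hp : ContinuousOn p (Set.Icc 0 l)) {U : ℕ → Set X}
    {r : ℕ → ℝ} (hU : ∀ n, IsOpen (U n)) (hd : ∀ n, ∀ x ∈ U n, ∀ y ∈ U n, dist x y ≤ r n)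
    (hr : ∀ n, 0 < r n ∧ r n ≤ δ) (S : Finset ℕ) :
    ∀ t₀ ∈ Set.Icc 0 l, (∀ t ∈ Set.Icc t₀ l, ∃ n ∈ S, p t ∈ U n) →
      ∃ (T : ℕ) (τ ρ : ℕ → ℝ), τ 0 = t₀ ∧ τ T = l ∧ Monotone τ ∧ (∀ i, τ i ∈ Set.Icc 0 l) ∧
        (∀ i < T, dist (p (τ i)) (p (τ (i + 1))) ≤ ρ i ∧ 0 < ρ i ∧ ρ i ≤ δ) ∧
        ∑ i ∈ range T, ρ i ^ s ≤ ∑ n ∈ S, r n ^ s := by
  induction S using Finset.strongInduction with
  | H S ih =>
    intro t₀ h₀ hc
    obtain ⟨n, hn, hn₀⟩ := hc t₀ ⟨le_rfl, h₀.2⟩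
    have hsub : Set.Icc t₀ l ⊆ Set.Icc 0 l := Set.Icc_subset_Icc_left h₀.1
    have hB : IsClosed (Set.Icc t₀ l ∩ p ⁻¹' closedBall (p t₀) (r n)) :=
      (hp.mono hsub).preimage_isClosed_of_isClosed isClosed_Icc isClosed_closedBall
    obtain ⟨t₁, ⟨h₁, h₂⟩, h₃⟩ := (isCompact_Icc.of_isClosed_subset hB
      Set.inter_subset_left).exists_isGreatest
        ⟨t₀, ⟨le_rfl, h₀.2⟩, mem_closedBall_self (hr n).1.le⟩
    have hmax : ∀ t ∈ Set.Icc t₀ l, p t ∈ U n → t ≤ t₁ := fun t ht h =>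
      h₃ ⟨ht, mem_closedBall.2 (hd n _ h _ hn₀)⟩
    have hrest : ∃ (T : ℕ) (τ ρ : ℕ → ℝ), τ 0 = t₁ ∧ τ T = l ∧ Monotone τ ∧
        (∀ i, τ i ∈ Set.Icc 0 l) ∧
        (∀ i < T, dist (p (τ i)) (p (τ (i + 1))) ≤ ρ i ∧ 0 < ρ i ∧ ρ i ≤ δ) ∧
        ∑ i ∈ range T, ρ i ^ s ≤ ∑ m ∈ S.erase n, r m ^ s := by
      rcases h₁.2.eq_or_lt with h | h
      · exact ⟨0, fun _ => t₁, fun _ => 0, rfl, h, monotone_const, fun _ => hsub h₁,
          fun i hi => absurd hi (Nat.not_lt_zero i), by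
            rw [sum_range_zero]
            exact sum_nonneg fun m _ => rpow_nonneg (hr m).1.le _⟩
      refine ih _ (erase_ssubset hn) t₁ (hsub h₁) fun t ht => ?_
      obtain ⟨m, hm, hm'⟩ := hc t ⟨h₁.1.trans ht.1, ht.2⟩
      refine ⟨m, mem_erase.2 ⟨?_, hm⟩, hm'⟩
      rintro rfl
      have e : t = t₁ := le_antisymm (hmax t ⟨h₁.1.trans ht.1, ht.2⟩ hm') ht.1
      subst e
      have h4 : ∀ᶠ u in 𝓝[Set.Ioo t l] t, p u ∈ U m :=
        ((hp t (hsub h₁)).mono fun u hu => hsub ⟨h₁.1.trans hu.1.le, hu.2.le⟩).eventually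
          ((hU m).mem_nhds hm')
      have := left_nhdsWithin_Ioo_neBot h
      obtain ⟨u, hu, hu'⟩ := (h4.and self_mem_nhdsWithin).exists
      exact absurd (hmax u ⟨h₁.1.trans hu'.1.le, hu'.2.le⟩ hu) (not_le.2 hu'.1)
    obtain ⟨T, τ, ρ, a₀, aT, am, ai, as, aS⟩ := hrest
    refine ⟨T + 1, fun i => Nat.casesOn i t₀ τ, fun i => Nat.casesOn i (r n) ρ, rfl, aT,
      monotone_nat_of_le_succ fun i => ?_, fun i => ?_, fun i hi => ?_, ?_⟩
    · cases i with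
      | zero => exact h₁.1.trans a₀.ge
      | succ i => exact am (Nat.le_succ i)
    · cases i with
      | zero => exact h₀
      | succ i => exact ai i
    · cases i with
      | zero =>
        refine ⟨?_, hr n⟩
        change dist (p t₀) (p (τ 0)) ≤ r n
        rw [a₀, dist_comm]
        exact mem_closedBall.1 h₂
      | succ i => exact as i (Nat.lt_of_succ_lt_succ hi)
    · rw [sum_range_succ', ← sum_erase_add S _ hn]
      exact add_le_add aS le_rfl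

theorem eps {d s e δ : ℝ} (hs : 0 < s) (he : 0 < e) (hδ : 0 < δ) :
    ∃ ε > (0 : ℝ), 2 * ε ≤ δ ∧ (d + 2 * ε) ^ s ≤ d ^ s + e := by
  have hc : Continuous fun ε : ℝ => (d + 2 * ε) ^ s :=
    (continuous_rpow_const hs.le).comp (by fun_prop)
  have h1 : ∀ᶠ ε in 𝓝 (0 : ℝ), (d + 2 * ε) ^ s < d ^ s + e :=
    hc.continuousAt.eventually_lt continuousAt_const (by simpa using he)
  have h2 : ∀ᶠ ε in 𝓝 (0 : ℝ), ε < δ / 2 := eventually_lt_nhds (half_pos hδ)
  obtain ⟨ε, h3, h4⟩ :=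
    (((h1.and h2).filter_mono (nhdsWithin_le_nhds (s := Set.Ioi 0))).and
      self_mem_nhdsWithin).exists
  exact ⟨ε, h4, by linarith [h3.2], h3.1.le⟩

end HCov

theorem cov : sCov := by
  intro p l s a δ hl hp hs ha hδ h
  refine le_dimH_of_hausdorffMeasure_ne_zero (d := s.toNNReal) fun h0 => ?_
  rw [coe_toNNReal _ hs.le, Measure.hausdorffMeasure_apply] at h0
  have h1 := (le_iSup₂_of_le (ENNReal.ofReal (δ / 2)) (ENNReal.ofReal_pos.2 (half_pos hδ))
    le_rfl).trans h0.le |>.trans_lt (ENNReal.ofReal_pos.2 (half_pos ha))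
  simp only [iInf_lt_iff] at h1
  obtain ⟨t, hcov, hdi, hsum⟩ := h1
  have hne : ∀ n, ediam (t n) ≠ ⊤ := fun n => ne_top_of_le_ne_top ENNReal.ofReal_ne_top (hdi n)
  have hd : ∀ n, diam (t n) ≤ δ / 2 := fun n =>
    ENNReal.toReal_le_of_le_ofReal (half_pos hδ).le (hdi n)
  obtain ⟨e, he, hes⟩ := (Set.countable_univ (α := ℕ)).exists_pos_forall_sum_le
    (half_pos (half_pos ha))
  choose ε hε h2 h3 using fun n => HCov.eps (d := diam (t n)) hs (he n) (half_pos hδ)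
  obtain ⟨S, hS⟩ := (isCompact_Icc.image_of_continuousOn hp).elim_finite_subcover
    (fun n => thickening (ε n) (t n)) (fun _ => isOpen_thickening)
    (hcov.trans (Set.iUnion_mono fun n => self_subset_thickening (hε n) _))
  obtain ⟨T, τ, ρ, a₀, aT, am, ai, as, aS⟩ := HCov.chain (s := s) (δ := δ) hp
    (U := fun n => thickening (ε n) (t n)) (r := fun n => diam (t n) + 2 * ε n)
    (fun _ => isOpen_thickening)
    (fun n x hx y hy => by
      obtain ⟨x', hx', h4⟩ := mem_thickening_iff.1 hx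
      obtain ⟨y', hy', h5⟩ := mem_thickening_iff.1 hy
      have h6 := dist_le_diam_of_mem' (hne n) hx' hy'
      have h7 := dist_triangle4_right x y x' y'
      linarith)
    (fun n => ⟨by linarith [diam_nonneg (s := t n), hε n], by linarith [hd n, h2 n]⟩) S 0
    ⟨le_rfl, hl⟩ (fun u hu => by
      simpa only [Set.mem_iUnion, exists_prop] using hS ⟨u, hu, rfl⟩)
  have h4 := h T τ ρ a₀ aT am ai as
  have h5 : ∑ n ∈ S, (diam (t n) + 2 * ε n) ^ s ≤ ∑ n ∈ S, diam (t n) ^ s + ∑ n ∈ S, e n := by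
    rw [← sum_add_distrib]
    exact sum_le_sum fun n _ => h3 n
  have h6 : ∑ n ∈ S, diam (t n) ^ s < a / 2 := by
    rw [← ENNReal.ofReal_lt_ofReal_iff (half_pos ha),
      ENNReal.ofReal_sum_of_nonneg fun n _ => rpow_nonneg diam_nonneg _]
    refine lt_of_le_of_lt ((sum_le_sum fun n _ => ?_).trans (ENNReal.sum_le_tsum S)) hsum
    rcases (t n).eq_empty_or_nonempty with h7 | h7
    · rw [h7, diam_empty, zero_rpow hs.ne', ENNReal.ofReal_zero]
      exact bot_le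
    · rw [iSup_pos h7, ← ENNReal.ofReal_rpow_of_nonneg diam_nonneg hs.le, diam,
        ENNReal.ofReal_toReal (hne n)]
  linarith [hes S (Set.subset_univ _)]

end Pool.Agent.GL
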