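import Pool.Agent.Lib.MP_438f30_pr.HSt

/-! The number of renormalisation steps. -/

namespace Pool.Agent.GL

open Filter

namespace HKK

theorem sq_le (k : ℕ) : k ^ 2 ≤ 2 ^ (k + 1) := by
  induction k with
  | zero => simp
  | succ k ih =>
    have := Nat.lt_two_pow_self (n := k)
    rw [pow_succ 2 (k + 1), pow_succ 2 k] at *
    nlinarith

theorem two (j : ℕ) : 2 ≤ kk j :=
  (Nat.lt_clog_iff_pow_lt one_lt_two).2 (by omega)

theorem sq_kk (j : ℕ) (hj : 1 ≤ j) : kk j ^ 2 ≤ 24 * j := by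
  have h1 : 2 ^ (kk j).pred < 3 * j + 3 := Nat.pow_pred_clog_lt_self one_lt_two (by omega)
  have h2 := sq_le (kk j)
  have h3 := two j
  obtain ⟨k, hk⟩ : ∃ k, kk j = k + 1 := ⟨kk j - 1, by omega⟩
  rw [hk] at h1 h2 ⊢
  rw [Nat.pred_succ] at h1
  rw [pow_succ 2 (k + 1), pow_succ 2 k] at h2
  omega

end HKK

theorem kkf : KK := by
  refine ⟨fun j => Nat.le_pow_clog one_lt_two _, HKK.two, fun ζ hζ => ?_⟩
  filter_upwards [eventually_ge_atTop 1,
    (tendsto_natCast_atTop_atTop (R := ℝ)).eventually_ge_atTop (24 / ζ ^ 2)] with j h1 h2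
  have h3 : (kk j : ℝ) ^ 2 ≤ 24 * j := by exact_mod_cast HKK.sq_kk j h1
  have h4 : 24 ≤ (j : ℝ) * ζ ^ 2 := (div_le_iff₀ (by positivity)).1 h2
  have h5 : (0 : ℝ) ≤ j := Nat.cast_nonneg j
  exact le_of_pow_le_pow_left₀ two_ne_zero (by positivity) (by nlinarith [mul_le_mul_of_nonneg_right h4 h5])

end Pool.Agent.GL
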