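import Pool.Agent.Lib.MP_438f30_pr.HSt

/-! Crossings of small annuli are expensive. -/

namespace Pool.Agent.GL

open MeasureTheory ProbabilityTheory Real Finset Filter Topology Metric
  Pool.Agent.Lib.MP_a0a493_pr

namespace HLB

theorem ee_pos (j : ℕ) : 0 < ee j := by
  unfold ee
  positivity

theorem ee_mul (j : ℕ) : ee j * 20 ^ kk j = 3 / 2 ^ j := by
  unfold ee
  field_simp

theorem log_ee (j : ℕ) : log (ee j) = log 3 - j * log 2 - kk j * log 20 := by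
  rw [ee, log_div (by positivity) (by positivity), log_div (by positivity) (by positivity),
    log_pow, log_pow]

theorem cnt (L j k : ℕ) (h : 3 * j + 3 ≤ k) :
    ((box 2 (L * 2 ^ j)).card : ℝ) * (1 / 2) ^ k ≤ (4 * L + 1) ^ 2 * (1 / 2) ^ j := by
  have a : (1 / 2 : ℝ) ^ k ≤ (1 / 2) ^ (3 * j) :=
    pow_le_pow_of_le_one (by norm_num) (by norm_num) (by omega)
  have b : (1 : ℝ) ≤ 2 ^ j := one_le_pow₀ one_le_two
  have c : (4 * ((L : ℝ) * 2 ^ j) + 1) ^ 2 ≤ ((4 * L + 1) * 2 ^ j) ^ 2 :=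
    pow_le_pow_left₀ (by positivity) (by linarith) 2
  rw [card_box]
  push_cast
  refine (mul_le_mul c a (by positivity) (by positivity)).trans_eq ?_
  rw [mul_comm 3 j, pow_mul, one_div, inv_pow]
  field_simp

theorem num (h : KK) (a b : ℝ) {ζ : ℝ} (hζ : 0 < ζ) :
    ∀ᶠ j : ℕ in atTop, a * kk j + b ≤ ζ * j := by
  have p : 0 < |a| + 1 := by positivity
  filter_upwards [h.lim (ζ / 2 / (|a| + 1)) (by positivity),
    (tendsto_natCast_atTop_atTop.const_mul_atTop (half_pos hζ)).eventually_ge_atTop b] with j x y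
  rw [div_mul_eq_mul_div, le_div_iff₀ p] at x
  nlinarith [le_abs_self a, (Nat.cast_nonneg (kk j) : (0 : ℝ) ≤ kk j)]

end HLB

theorem lb (h1 : sMod) (h2 : sInv) (h3 : sRen) (h4 : sOsc) (h5 : MG1) (h6 : KK) : sLB := by
  intro ξ Q D hξ hD Ω _ P _ W hW ρ hρ hi L ζ hζ
  choose F hV hF using fun j => h1 Ω P W hW ρ hρ hi (log (ee j))
  obtain ⟨F₁, -, hF₁⟩ := h1 Ω P W hW ρ hρ hi 0
  obtain ⟨s, hs, hk⟩ := h3 ξ Q D hD Ω P W hW _ hF₁
  have bc := ae_eventually_notMem (μ := P) (s := fun j => ⋃ w ∈ box 2 (L * 2 ^ j),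
    {ω | Crx (D fun φ => W (gv0 ρ φ) ω - ∫ x, φ x * F j ω x) (((2 : ℝ) ^ j)⁻¹ • pt w) (3 / 2 ^ j)
      (exp (ξ * Q * log (ee j)) * s)}) (by
    have sm : Summable fun j : ℕ => (4 * (L : ℝ) + 1) ^ 2 * (1 / 2) ^ j :=
      summable_geometric_two.mul_left _
    refine ne_top_of_le_ne_top (sm.tsum_ofReal_ne_top) (ENNReal.tsum_le_tsum fun j => ?_)
    refine (measure_biUnion_finset_le _ _).trans ?_
    rw [Finset.sum_congr rfl fun w _ => by
      rw [← HLB.ee_mul, h2 ξ Q D hD Ω P W hW _ _ _ (HLB.ee_pos j) (hF j) hF₁], sum_const,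
      nsmul_eq_mul, ← ofReal_measureReal, ← ENNReal.ofReal_natCast,
      ← ENNReal.ofReal_mul (Nat.cast_nonneg _)]
    exact ENNReal.ofReal_le_ofReal ((mul_le_mul_of_nonneg_left (hk _) (Nat.cast_nonneg _)).trans
      (HLB.cnt L j _ (h6.lo j))))
  filter_upwards [bc, h4 Ω P W hW ρ hρ hi F hV L (ζ / 2 / ξ) (by positivity),
    ae_all_iff.2 fun j => hD.met Ω P _ (hF j).1, ae_all_iff.2 fun j => hD.weyl Ω P _ (hF j).1]
    with ω a b c d
  filter_upwards [a, b, HLB.num h6 (ξ * Q * log 20) (-(ξ * Q * log 3) - log s) (half_pos hζ)]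
    with j a b e w hw
  rintro ⟨u, hu, v, hv, lt⟩
  simp only [Set.mem_iUnion, not_exists, Set.mem_ofPred_eq] at a
  have k := h5.low (m := exp (ξ * (W (vp ρ j w) ω - ζ / 2 / ξ * j)))
    (g := fun x => exp (ξ * F j ω x)) (c j) (a w hw) (exp_pos _).le
    (fun x hx => exp_le_exp.2 (mul_le_mul_of_nonneg_left (b w hw x hx) hξ.le)) hu hv
  rw [← d j _ ((hV j).1 ω)] at k
  simp only [sub_add_cancel] at k
  refine lt.not_ge (le_trans ?_ ((ENNReal.ofReal_le_ofReal_iff'.1 k).resolve_right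
    (not_le.2 (by positivity))))
  rw [← exp_log hs, ← exp_add, ← exp_add, exp_le_exp, HLB.log_ee, mul_sub ξ, ← mul_assoc ξ,
    mul_div_cancel₀ _ hξ.ne']
  linarith

end Pool.Agent.GL
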