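import Pool.Agent.Lib.MP_438f30_pr.HSt

/-! Transfer of the lower bound for crossings to any field with the same law. -/

namespace Pool.Agent.GL

open MeasureTheory ProbabilityTheory Real Finset Filter Topology Metric
  Pool.Agent.Lib.MP_a0a493_pr

namespace HLT

theorem meas_ap {φ : R2 → ℝ} (h : Test φ) :
    @Measurable _ _ (sig Set.univ) _ fun g : (R2 → ℝ) → ℝ => g φ :=
  Measurable.of_comap_le (le_iSup₂_of_le (f := fun (φ : R2 → ℝ)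
    (_ : Test φ ∧ tsupport φ ⊆ Set.univ) => (borel ℝ).comap fun g : (R2 → ℝ) → ℝ => g φ)
      φ ⟨h, Set.subset_univ _⟩ le_rfl)

theorem pt_eq (n : ℕ) (w : Zd 2) :
    (WithLp.toLp 2 fun j => (w j : ℝ) / 2 ^ n : E 2) = ((2 : ℝ) ^ n)⁻¹ • pt w := by
  ext j
  simp [pt_apply, div_eq_inv_mul]

/-- the countable form of the event -/
def Ev' (ξ q : ℝ) (L : ℕ) (D : ((R2 → ℝ) → ℝ) → R2 → R2 → ℝ) (ρ : E 2 → ℝ) (S : Set R2) :
    Set ((E 2 → ℝ) → ℝ) :=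
  {g | ∀ᶠ j : ℕ in atTop, ∀ w ∈ box 2 (L * 2 ^ j), ¬ ∃ u ∈ S, ∃ v ∈ S,
    u ∈ ball (((2 : ℝ) ^ j)⁻¹ • pt w) (3 / 2 ^ j) ∧
      v ∉ closedBall (((2 : ℝ) ^ j)⁻¹ • pt w) (2 * (3 / 2 ^ j)) ∧
        D g u v < exp (ξ * g (mol ρ j (((2 : ℝ) ^ j)⁻¹ • pt w)) - q * j)}

theorem meas_ev {ξ Q : ℝ} {D : ((R2 → ℝ) → ℝ) → R2 → R2 → ℝ} (hD : IsLQG ξ Q D) (q : ℝ) (L : ℕ)
    {ρ : E 2 → ℝ} (hρ : Test ρ) {S : Set R2} (hS : S.Countable) :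
    @MeasurableSet _ (sig Set.univ) (Ev' ξ q L D ρ S) := by
  let _ : MeasurableSpace ((E 2 → ℝ) → ℝ) := sig Set.univ
  have := hS.to_subtype
  simp only [Ev', eventually_atTop, measurableSet_setOfPred]
  refine Measurable.exists fun _ => Measurable.forall fun j => Measurable.imp measurable_const
    (Measurable.forall fun w => Measurable.imp measurable_const (Measurable.not ?_))
  have e : ∀ g : (E 2 → ℝ) → ℝ, (∃ u ∈ S, ∃ v ∈ S,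
      u ∈ ball (((2 : ℝ) ^ j)⁻¹ • pt w) (3 / 2 ^ j) ∧
      v ∉ closedBall (((2 : ℝ) ^ j)⁻¹ • pt w) (2 * (3 / 2 ^ j)) ∧
        D g u v < exp (ξ * g (mol ρ j (((2 : ℝ) ^ j)⁻¹ • pt w)) - q * j)) = ∃ u v : S,
      u.1 ∈ ball (((2 : ℝ) ^ j)⁻¹ • pt w) (3 / 2 ^ j) ∧
      v.1 ∉ closedBall (((2 : ℝ) ^ j)⁻¹ • pt w) (2 * (3 / 2 ^ j)) ∧
        D g u v < exp (ξ * g (mol ρ j (((2 : ℝ) ^ j)⁻¹ • pt w)) - q * j) := fun g => by
    simp only [Subtype.exists, exists_prop]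
  simp only [e]
  refine Measurable.exists fun u => Measurable.exists fun v => Measurable.and measurable_const
    (Measurable.and measurable_const (measurableSet_setOfPred.1 (measurableSet_lt (hD.meas u v) ?_)))
  exact ((measurable_const.mul (meas_ap (test_mol hρ j _))).sub measurable_const).exp

theorem ev_iff (h4 : MG2) {ξ q : ℝ} {L : ℕ} {D : ((R2 → ℝ) → ℝ) → R2 → R2 → ℝ} {ρ : E 2 → ℝ}
    {S : Set R2} (hS : Dense S) {g : (E 2 → ℝ) → ℝ} (hm : IsMet (D g)) :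
    g ∈ Ev' ξ q L D ρ S ↔
      LBd ξ q L (D g) fun j w => g (mol ρ j (((2 : ℝ) ^ j)⁻¹ • pt w)) := by
  simp only [Ev', LBd, Set.mem_ofPred_eq, h4.rat _ _ _ hm.cont hS]

end HLT

open HLT in
theorem lt (h1 : sLB) (h2 : sEq) (h3 : VF1) (h4 : MG2) : sLT := by
  intro ξ Q D hξ hD Ω _ P _ Φ ρ hρ hi hΦ hG L ζ hζ
  obtain ⟨Ω', _, P', _, W, hW⟩ := exists_iso (HH 2)
  obtain ⟨S, hc, hS⟩ := TopologicalSpace.exists_countable_dense R2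
  obtain ⟨-, f2, f3⟩ := h3.lgf hW hρ hi
  have a : ∀ᵐ ω ∂P', (fun φ => W (gv0 ρ φ) ω) ∈ Ev' ξ (ξ * Q * log 2 + ζ) L D ρ S := by
    filter_upwards [h1 ξ Q D hξ hD Ω' P' W hW ρ hρ hi L ζ hζ, hD.met Ω' P' _ f2] with ω b c
    rw [ev_iff h4 hS c]
    simpa only [h3.psi hi] using b
  have b : ∀ᵐ ω ∂P, (fun φ => Φ φ ω) ∈ Ev' ξ (ξ * Q * log 2 + ζ) L D ρ S :=
    (h2 Ω Ω' _ _ P P' Φ _ _ _ hG f3 (fun _ _ _ _ => rfl) _
      (meas_ev hD (ξ * Q * log 2 + ζ) L hρ hc).compl).trans a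
  filter_upwards [b, hD.met Ω P Φ hΦ] with ω c d
  simpa only [phi, pt_eq] using (ev_iff h4 hS d).1 c

end Pool.Agent.GL
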