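import Pool.Agent.Lib.MP_438f30_pr.HMG1
import Pool.Agent.Lib.MP_438f30_pr.HMG2
import Pool.Agent.Lib.MP_438f30_pr.HMG3
import Pool.Agent.Lib.MP_438f30_pr.HLoc
import Pool.Agent.Lib.MP_438f30_pr.HCov
import Pool.Agent.Lib.MP_438f30_pr.HKK
import Pool.Agent.Lib.MP_438f30_pr.HV1
import Pool.Agent.Lib.MP_438f30_pr.HV2
import Pool.Agent.Lib.MP_438f30_pr.HV3
import Pool.Agent.Lib.MP_438f30_pr.HCel
import Pool.Agent.Lib.MP_438f30_pr.HCM
import Pool.Agent.Lib.MP_438f30_pr.HFub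
import Pool.Agent.Lib.MP_438f30_pr.HEq
import Pool.Agent.Lib.MP_438f30_pr.HPL
import Pool.Agent.Lib.MP_438f30_pr.HMod
import Pool.Agent.Lib.MP_438f30_pr.HNorm
import Pool.Agent.Lib.MP_438f30_pr.HInv
import Pool.Agent.Lib.MP_438f30_pr.HRen
import Pool.Agent.Lib.MP_438f30_pr.HOsc
import Pool.Agent.Lib.MP_438f30_pr.HLB
import Pool.Agent.Lib.MP_438f30_pr.HLT
import Pool.Agent.Lib.MP_438f30_pr.HFin
import Pool.Agent.Lib.MP_438f30_pr.HAhF

/-! The blocks put together. -/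

namespace Pool.Agent.GL

theorem allMod : sMod := md vf1 (vf2 vf1) (cm cel) fub

theorem allInv : sInv := inv mg1 (mg2 mg1) vf3 leq pl

theorem allLT : sLT :=
  lt (lb allMod allInv (ren (mg2 mg1) (mg3 mg1) vf3 pl allInv) (osc cel vf1 kkf) mg1 kkf) leq vf1
    (mg2 mg1)

theorem allHD0 (h : sG) : sHD := fin nrm allLT (ahf h) cov mg1

end Pool.Agent.GL
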