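import Pool.Agent.Lib.MP_438f30_pr.GSt
import Pool.Agent.Lib.MP_438f30_pr.HAll0

/-! The upper bound on the dimension of geodesics: the assembly. -/

namespace Pool.Agent.GL

open MeasureTheory ProbabilityTheory Real Finset Filter Topology Metric
  Pool.Agent.Lib.MP_a0a493_pr

namespace GFin

theorem par {ξ Q c : ℝ} (hξ : 0 < ξ) (hQ : 0 ≤ Q) (h : ξ * Q < 2) (hc : 0 < c) :
    ∃ a e : ℝ, 0 ≤ a ∧ a ≤ 2 ∧ 0 < e ∧
      max (2 - a ^ 2 / 2 - c + e) (ξ * Q + e + ξ * a) ≤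
        ξ * (Q - ξ + √(ξ ^ 2 + 4 - 2 * ξ * Q)) - e := by
  obtain ⟨s, hs⟩ : ∃ s, s = √(ξ ^ 2 + 4 - 2 * ξ * Q) := ⟨_, rfl⟩
  have q0 : 0 ≤ ξ * Q := mul_nonneg hξ.le hQ
  have s2 : s ^ 2 = ξ ^ 2 + 4 - 2 * ξ * Q := hs ▸ sq_sqrt (by nlinarith)
  have s0 : 0 ≤ s := hs ▸ sqrt_nonneg _
  have s1 : ξ < s := lt_of_pow_lt_pow_left₀ 2 s0 (by nlinarith)
  have s3 : s ≤ ξ + 2 := le_of_pow_le_pow_left₀ two_ne_zero (by linarith) (by nlinarith)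
  obtain ⟨ε, hε⟩ : ∃ ε, ε = min (c / 4) (s - ξ) := ⟨_, rfl⟩
  have e0 : 0 < ε := hε ▸ lt_min (by linarith) (by linarith)
  have e1 : ε ≤ c / 4 := hε ▸ min_le_left _ _
  have e2 : ε ≤ s - ξ := hε ▸ min_le_right _ _
  have f1 := min_le_left (c / 4) (ξ * ε / 2)
  have f2 := min_le_right (c / 4) (ξ * ε / 2)
  rw [← hs]
  refine ⟨s - ξ - ε, min (c / 4) (ξ * ε / 2), by linarith, by linarith,
    lt_min (by linarith) (by positivity), max_le ?_ (by linarith)⟩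
  have : (s - ξ) * ε ≤ 2 * ε := mul_le_mul_of_nonneg_right (by linarith) e0.le
  nlinarith [sq_nonneg ε]

end GFin

theorem fin2 (h1 : sFew) (h2 : sDim) (h3 : sRed) : sUD := by
  intro ξ Q D hξ hQ hξQ hD
  obtain ⟨c, hc, hF⟩ := h1 ξ Q D hξ hD
  obtain ⟨a, e, a0, a2, e0, hm⟩ := GFin.par hξ hQ hξQ hc
  refine ⟨e, e0, fun Ω _ P _ Φ hΦ => ?_⟩
  obtain ⟨ρ, hρ, hρ1⟩ := HFin.ex_rho
  obtain ⟨g, gc, gF, -, gG, -⟩ := nrm Ω P Φ ρ hρ hρ1 hΦ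
  have a1 := ae_all_iff.2 fun L : ℕ => allLT ξ Q D hξ hD Ω P _ ρ hρ hρ1 gF gG L _
    (mul_pos e0 (log_pos one_lt_two))
  rw [← add_mul] at a1
  have a3 := ae_all_iff.2 fun L : ℕ => ae_all_iff.2 fun j : ℕ =>
    hF Ω P _ ρ hρ hρ1 gF gG a e a0 a2 e0 L j
  filter_upwards [a1, a3, hD.met Ω P Φ hΦ, hD.met Ω P _ gF, hD.weyl Ω P Φ hΦ] with
    ω b1 b2 b3 b4 b5 U f hU hf p l hl hp
  refine h3 _ _ (fun x => exp (ξ * g ω x)) _ b3 b4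
    (continuous_exp.comp (continuous_const.mul (gc ω))) (fun _ => exp_pos _) (b5 (g ω) (gc ω))
    (fun q l' hq => ?_) U _ hU (continuous_exp.comp_continuousOn (continuousOn_const.mul hf))
    (fun _ _ => exp_pos _) p l hl hp
  obtain ⟨B, hB⟩ := isCompact_Icc.exists_bound_of_continuousOn (mg1.cont b4 hq.1)
  obtain ⟨L, hL⟩ := exists_nat_ge B
  exact (h2 _ _ ξ a _ _ L q l' b4 hξ.le (b1 (L + 2)) (b2 (L + 2)) hq
    fun t ht => (hB t ht).trans hL).trans (ENNReal.ofReal_le_ofReal hm)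

end Pool.Agent.GL
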