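import Pool.Agent.Lib.MP_438f30_pr.GSt

/-! A crossing of an annulus pays the weight on the annulus. -/

namespace Pool.Agent.GL

open MeasureTheory Real Metric

theorem low2 : sLow2 := by
  intro D z u v R s m g _ hc hm hg hu hv
  refine le_iInf fun p => le_iInf fun l => le_iInf fun ⟨h1, h2, h3, _⟩ => ?_
  obtain ⟨B, hB⟩ : ∃ B, B = {t ∈ Set.Icc 0 l | p t ∉ closedBall z (2 * R)} := ⟨_, rfl⟩
  have b0 : l ∈ B := hB ▸ ⟨⟨h1.1, le_rfl⟩, h3 ▸ hv⟩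
  have b1 : BddBelow B := ⟨0, fun t ht => (hB ▸ ht).1.1⟩
  have b2 : 0 ≤ sInf B := le_csInf ⟨l, b0⟩ fun t ht => (hB ▸ ht).1.1
  have b3 : sInf B ≤ l := csInf_le b1 b0
  obtain ⟨A, hA⟩ : ∃ A, A = {t ∈ Set.Icc 0 (sInf B) | p t ∈ ball z R} := ⟨_, rfl⟩
  have a0 : (0 : ℝ) ∈ A := hA ▸ ⟨⟨le_rfl, b2⟩, h2 ▸ hu⟩
  have a1 : BddAbove A := ⟨sInf B, fun t ht => (hA ▸ ht).1.2⟩
  have a2 : 0 ≤ sSup A := le_csSup a1 a0
  have k : sSup A ≤ sInf B - s := csSup_le ⟨0, a0⟩ fun a ha => by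
    rw [hA] at ha
    rw [le_sub_iff_add_le]
    refine le_csInf ⟨l, b0⟩ fun b hb => ?_
    have e := csInf_le b1 hb
    rw [hB] at hb
    have d := h1.2 a ⟨ha.1.1, ha.1.2.trans b3⟩ b hb.1
    rw [abs_sub_comm, abs_of_nonneg (by linarith [ha.1.2])] at d
    have := not_lt.1 fun e => hc ⟨p a, ha.2, p b, hb.2, e⟩
    linarith
  have k2 : Set.Ioo (sSup A) (sInf B) ⊆ Set.Icc 0 l := fun t ht =>
    ⟨a2.trans ht.1.le, ht.2.le.trans b3⟩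
  calc ENNReal.ofReal (m * s) ≤ ∫⁻ _ in Set.Ioo (sSup A) (sInf B), ENNReal.ofReal m := by
        rw [setLIntegral_const, volume_Ioo, ← ENNReal.ofReal_mul hm]
        exact ENNReal.ofReal_le_ofReal (mul_le_mul_of_nonneg_left (by linarith) hm)
    _ ≤ ∫⁻ t in Set.Ioo (sSup A) (sInf B), ENNReal.ofReal (g (p t)) :=
        setLIntegral_mono' measurableSet_Ioo fun t ht => ENNReal.ofReal_le_ofReal
          (hg _ (by_contra fun e => not_le.2 ht.2 (csInf_le b1 (hB ▸ ⟨k2 ht, e⟩)))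
            fun e => not_le.2 ht.1 (le_csSup a1 (hA ▸ ⟨⟨(k2 ht).1, ht.2.le⟩, e⟩)))
    _ ≤ _ := lintegral_mono_set k2

end Pool.Agent.GL
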