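import Pool.Agent.Lib.MP_438f30_pr.GSt
import Pool.Agent.Lib.MP_438f30_pr.HAll0

/-! The probability that a thin cell has no shield. -/

namespace Pool.Agent.GL

open MeasureTheory ProbabilityTheory Real Finset Filter Topology Metric
  Pool.Agent.Lib.MP_a0a493_pr
open scoped InnerProductSpace

namespace GOne

theorem grid (z : E 2) {R : ℝ} (hR : 0 < R) (n : ℕ) {a : Zd 2} (ha : a ∈ box 2 (2 ^ n)) :
    z + (10 * R / 2 ^ n) • pt a ∈ closedBall z (40 * R) := by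
  have h := HOsc.norm_box (μ := 10 * R / 2 ^ n) (by positivity) ha
  rw [mem_closedBall, dist_eq_norm, add_sub_cancel_left]
  refine h.trans (le_of_eq ?_)
  push_cast
  field_simp
  norm_num

theorem osc {F : E 2 → ℝ} (hF : Continuous F) {z : E 2} {R M : ℝ} (hR : 0 < R)
    (h : ∀ n : ℕ, ∀ a ∈ box 2 (2 ^ n), |F (z + (10 * R / 2 ^ n) • pt a) - F z| ≤ M) {x : E 2}
    (hx : x ∈ closedBall z (10 * R)) : F z - M ≤ F x ∧ F x ≤ F z + M := by
  have hc : ∀ i, |(x - z) i| ≤ 10 * R := fun i =>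
    (abs_le_norm2 _ i).trans (by rwa [mem_closedBall, dist_eq_norm] at hx)
  have a := HOsc.dense hF (m := F z - M) (by positivity) hc fun n a ha => by
    linarith [(abs_le.1 (h n a ha)).1]
  have b := HOsc.dense (f := fun y => -F y) hF.neg (m := -F z - M) (by positivity) hc
    fun n a ha => by linarith [(abs_le.1 (h n a ha)).2]
  exact ⟨a, by linarith⟩

theorem scale {R : ℝ} (hR : 0 < R) {k k' : ℕ} (h : k < k') : 256 * (R / 256 ^ k') ≤ R / 256 ^ k := by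
  have a : (256 : ℝ) ^ (k + 1) ≤ 256 ^ k' := pow_le_pow_right₀ (by norm_num) h
  have b : R / 256 ^ k' ≤ R / 256 ^ (k + 1) := div_le_div_of_nonneg_left hR.le (by positivity) a
  have e : 256 * (R / 256 ^ (k + 1)) = R / 256 ^ k := by
    rw [pow_succ]
    field_simp
  linarith

theorem scale' {R : ℝ} (hR : 0 < R) {k k' : ℕ} (h : k' ≤ k) : R / 256 ^ k ≤ R / 256 ^ k' :=
  div_le_div_of_nonneg_left hR.le (by positivity) (pow_le_pow_right₀ (by norm_num) h)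

/-- the estimate for one point -/
theorem pnt (h1 : sG1) (h4 : sG4) (h7 : sVer) (h8 : sG8) (ho : Ort) (hp : sPr)
    {ξ Q : ℝ} {D : ((R2 → ℝ) → ℝ) → R2 → R2 → ℝ} (hξ : 0 < ξ) (hD : IsLQG ξ Q D)
    {Ω : Type} [MeasurableSpace Ω] {P : Measure Ω} [IsProbabilityMeasure P]
    {W : HH 2 →ₗ[ℝ] (Ω → ℝ)} (hW : Iso P W) {M p : ℝ} (hM : 0 ≤ M) {Ψ₁ : (E 2 → ℝ) → Ω → ℝ}
    (hΨ : Fine P W 0 Ψ₁) (hp1 : p ≤ 1)
    (hp2 : p ≤ P.real {ω | Shd (3 * exp (2 * ξ * M)) (D fun φ => Ψ₁ φ ω) 0 8})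
    {ρ : E 2 → ℝ} (hρ : Test ρ) (hi : ∫ x, ρ x = 1) (z : E 2) {R : ℝ} (hR : 0 < R) (K : ℕ)
    (α t : ℝ) :
    P.real {ω | W (Ev α 0 z) ω ≤ t ∧
      ∀ k < K, ¬ Shd 3 (D fun φ => W (gv0 ρ φ) ω) z (R / 256 ^ k)} ≤
      P.real {ω | 2 * (@Finset.filter _ (fun k => ω ∈ Gdo W z (R / 256 ^ k) M)
        (fun _ => Classical.propDecidable _) (range K)).card < K} +
      (1 - p) ^ (K / 2) * P.real {ω | W (Ev α 0 z) ω ≤ t} := by
  classical
  have pR : ∀ k : ℕ, 0 < R / 256 ^ k := fun k => by positivity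
  have hB1 : 1 ≤ exp (2 * ξ * M) := one_le_exp (by positivity)
  choose F hV hF using fun k : ℕ => allMod Ω P W hW ρ hρ hi (log (R / 256 ^ k / 8))
  choose A hA hA' using fun k : ℕ => h8 ξ Q D hD Ω P _ (hF k).1 (3 * exp (2 * ξ * M)) z
    (R / 256 ^ k) (by linarith) (pR k)
  let Ks : ℕ → Set (HH 2) := fun k => {u | ∃ φ, Test φ ∧
    tsupport φ ⊆ An z (R / 256 ^ k / 2) (15 * (R / 256 ^ k)) ∧ u = fn (log (R / 256 ^ k / 8)) φ}
  choose B hB hB' using fun k : ℕ => h7 Ω P (HH 2) W _ (fn (log (R / 256 ^ k / 8))) _ (Ks k)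
    (fun φ hφ hs => ⟨(hF k).2 φ hφ, φ, hφ, hs, rfl⟩) (A k) (hA k)
  let C : Set (HH 2) := {u | u = Ev α 0 z ∨ ∃ k : ℕ, ∃ x ∈ closedBall z (40 * (R / 256 ^ k)),
    u = cv (log (R / 256 ^ k / 8)) z x}
  have hPB : ∀ k, p ≤ P.real (B k) := fun k => by
    have e := h4 ξ Q D hD Ω P W hW (R / 256 ^ k / 8) _ _ (by positivity) (hF k) hΨ
      (3 * exp (2 * ξ * M)) z 8
    rw [show R / 256 ^ k / 8 * 8 = R / 256 ^ k by ring] at e
    refine hp2.trans (le_of_eq ?_)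
    rw [measureReal_def, measureReal_def, ← e, measure_congr ((hA' k).trans (hB' k))]
  have hG : ∀ k, MeasurableSet[GU.FK W C] (Gdo W z (R / 256 ^ k) M) := fun k => by
    have e : Gdo W z (R / 256 ^ k) M = ⋂ n : ℕ, ⋂ a ∈ box 2 (2 ^ n), {ω |
        |W (cv (log (R / 256 ^ k / 8)) z (z + (10 * (R / 256 ^ k) / 2 ^ n) • pt a)) ω| ≤ M} := by
      ext ω
      simp [Gdo]
    rw [e]
    refine MeasurableSet.iInter fun n => MeasurableSet.iInter fun a =>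
      MeasurableSet.iInter fun ha => ?_
    have m : Measurable[GU.FK W C]
        (W (cv (log (R / 256 ^ k / 8)) z (z + (10 * (R / 256 ^ k) / 2 ^ n) • pt a))) :=
      GU.meas_FK W (Or.inr ⟨k, _, grid z (pR k) n ha, rfl⟩)
    exact m (measurableSet_le (f := fun x : ℝ => |x|) measurable_abs (measurable_const (a := M)))
  have hT : MeasurableSet[GU.FK W C] {ω | W (Ev α 0 z) ω ≤ t} :=
    @measurableSet_le _ _ _ _ _ (GU.FK W C) _ _ _ _ _ (GU.meas_FK W (Or.inl rfl)) measurable_const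
  have key := hp Ω P (HH 2) W hW C Ks (fun k => Gdo W z (R / 256 ^ k) M) B p hp1
    (by
      rintro k u ⟨φ, hφ, hs, rfl⟩ v (rfl | ⟨k', x, hx, rfl⟩)
      · exact ho.o1 (pR k) hφ hs _ _
      · refine ho.o2 (pR k) (pR k') hφ hs ?_
        rcases le_or_gt k' k with h | h
        · exact Or.inl (scale' hR h)
        · exact Or.inr ⟨scale hR h, hx⟩)
    (by
      rintro k k' h u ⟨φ, hφ, hs, rfl⟩ v ⟨ψ, hψ, hs', rfl⟩
      exact ho.o3 (pR k') (scale hR h) hφ hψ hs hs')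
    hG hB hPB K (K / 2) _ hT
  refine le_trans ?_ (add_le_add le_rfl key)
  refine le_trans (ENNReal.toReal_mono (measure_ne_top _ _) (measure_mono_ae ?_))
    (measureReal_union_le _ _)
  have five : ∀ᵐ ω ∂P, ∀ (k n : ℕ) (a : Zd 2),
      F k ω (z + (10 * (R / 256 ^ k) / 2 ^ n) • pt a) =
        W (crs ρ (log (R / 256 ^ k / 8)) (z + (10 * (R / 256 ^ k) / 2 ^ n) • pt a)) ω := by
    simp only [ae_all_iff]
    exact fun k n a => (hV k).2.2 _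
  filter_upwards [five, ae_all_iff.2 fun k => (hV k).2.2 z,
    ae_all_iff.2 fun k => hD.met Ω P _ (hF k).1, ae_all_iff.2 fun k => hD.weyl Ω P _ (hF k).1,
    hD.met Ω P _ (vf1.lgf hW hρ hi).2.1, ae_all_iff.2 fun k => (hA' k).trans (hB' k)]
    with ω a b c d e f
  rintro ⟨h, h'⟩
  by_cases hc : 2 * ((range K).filter fun k => ω ∈ Gdo W z (R / 256 ^ k) M).card < K
  · exact Or.inl (by rw [Set.mem_ofPred_eq]; convert hc)
  refine Or.inr ⟨h, by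
    have : K / 2 ≤ ((range K).filter fun k => ω ∈ Gdo W z (R / 256 ^ k) M).card := by omega
    convert this, fun k hk hg hb => h' k hk ?_⟩
  have hs : Shd (3 * exp (2 * ξ * M)) (D fun φ => W (gv0 ρ φ) ω - ∫ x, φ x * F k ω x) z
      (R / 256 ^ k) := (f k).mpr hb
  refine h1 _ _ (fun x => exp (ξ * F k ω x)) z _ 3 (exp (ξ * (F k ω z - M))) (exp (2 * ξ * M)) e
    (c k) (fun u v => ?_) (pR k) (exp_pos _) hB1 (by norm_num) (fun x hx => ?_) hs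
  · rw [← d k _ ((hV k).1 ω)]
    simp only [sub_add_cancel]
  · have o := osc ((hV k).1 ω) (M := M) (pR k) (fun n a' ha => by
      have := hg n a' ha
      rwa [← ho.crs hρ hi, map_sub, Pi.sub_apply, ← a, ← b] at this) hx
    rw [← exp_add, exp_le_exp, exp_le_exp]
    constructor <;> nlinarith [o.1, o.2]

theorem num1 {A c : ℝ} (hc : c < 3) : ∀ᶠ j : ℕ in atTop, 3 * exp (A - 3 * j) ≤ exp (-c * j) := by
  have p : 0 < 3 - c := by linarith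
  filter_upwards [(tendsto_natCast_atTop_atTop.const_mul_atTop p).eventually_ge_atTop (A + 2)]
    with j hj
  have a : (3 : ℝ) ≤ exp 2 := by linarith [add_one_le_exp (2 : ℝ)]
  calc 3 * exp (A - 3 * j) ≤ exp 2 * exp (A - 3 * j) := by gcongr
    _ ≤ _ := by
      rw [← exp_add, exp_le_exp]
      linarith

end GOne

open GOne in
theorem one (h1 : sG1) (h4 : sG4) (h5 : sG5) (h7 : sVer) (h8 : sG8) (ho : Ort) (h9 : sG9)
    (hp : sPr) : sOne := by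
  intro ξ Q D hξ hD Ω _ P _ W hW
  obtain ⟨M, hM0, hM⟩ := h9 24
  obtain ⟨ρ₀, hρ₀, hi₀⟩ := HFin.ex_rho
  obtain ⟨F₁, -, hF₁⟩ := allMod Ω P W hW ρ₀ hρ₀ hi₀ 0
  have p0 := h5 ξ Q D hξ hD Ω P W hW _ hF₁ (3 * exp (2 * ξ * M))
  obtain ⟨p, hp0, hp1, hp2⟩ : ∃ p : ℝ, 0 < p ∧ p ≤ 1 ∧ p ≤ P.real {ω | Shd (3 * exp (2 * ξ * M))
      (D fun φ => W (gv0 ρ₀ φ) ω - ∫ x, φ x * F₁ ω x) 0 8} :=
    ⟨min 1 _, lt_min one_pos p0, min_le_left _ _, min_le_right _ _⟩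
  refine ⟨p / 16, by positivity, fun ρ hρ hi a ζ ha ha2 hζ L j₁ => ?_⟩
  obtain ⟨b, R, hn⟩ := hρ.nice
  obtain ⟨V, hV⟩ : ∃ V, V = 4 * (b ^ 2 * Kc 2 (R + 4 * L)) := ⟨_, rfl⟩
  have l0 := log_two_gt_d9
  have l1 := log_two_lt_d9
  obtain ⟨η, hη⟩ : ∃ η, η = ζ * log 2 / 4 := ⟨_, rfl⟩
  have pη : 0 < η := by rw [hη]; positivity
  filter_upwards [num1 (A := V * (3 / η) ^ 2 / 2) (c := 2) (by norm_num),
    num1 (A := 3 * j₁ + 22) (c := 2) (by norm_num),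
    (tendsto_natCast_atTop_atTop.const_mul_atTop pη).eventually_ge_atTop ((j₁ : ℝ) + 17),
    eventually_ge_atTop j₁] with j n1 n2 n3 n4 w hw
  have j0 : (0 : ℝ) ≤ j := Nat.cast_nonneg _
  have p2 : (0 : ℝ) < ((2 : ℝ) ^ j)⁻¹ := by positivity
  have hz : ‖((2 : ℝ) ^ j)⁻¹ • pt w‖ ≤ 4 * L := by
    refine (HOsc.norm_box p2 hw).trans (le_of_eq ?_)
    push_cast
    field_simp
    ring
  have hv : ‖Ev (-(j * log 2)) 0 (((2 : ℝ) ^ j)⁻¹ • pt w) - vp ρ j w‖ ^ 2 ≤ V := by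
    rw [hV]
    exact dm_var one_le_two hρ hi hn j (by rw [dist_self]; positivity) hz
  have t1 := hW.tail hv (t := 3 / η) (by positivity) (η * j)
  have t2 := hW.tail (v := -Ev (-(j * log 2)) 0 (((2 : ℝ) ^ j)⁻¹ • pt w)) (V := j * log 2)
    (by rw [norm_neg]; simpa using norm_Ev (α := -(j * log 2)) (β := 0)
          (by rw [neg_nonpos]; positivity) _) ha (a * (j * log 2) - η * j)
  have t3 := hM Ω P W hW (((2 : ℝ) ^ j)⁻¹ • pt w) ((2 : ℝ) ^ j₁)⁻¹ ((j - j₁) / 8) (by positivity)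
  have t4 := pnt h1 h4 h7 h8 ho hp hξ hD hW hM0 hF₁ hp1 hp2 hρ hi (((2 : ℝ) ^ j)⁻¹ • pt w)
    (R := ((2 : ℝ) ^ j₁)⁻¹) (by positivity) ((j - j₁) / 8) (-(j * log 2))
    (-a * (j * log 2) + η * j)
  have e2 : {ω | W (Ev (-(j * log 2)) 0 (((2 : ℝ) ^ j)⁻¹ • pt w)) ω ≤ -a * (j * log 2) + η * j} =
      {ω | a * (j * log 2) - η * j ≤ W (-Ev (-(j * log 2)) 0 (((2 : ℝ) ^ j)⁻¹ • pt w)) ω} := by
    ext ω
    simp only [Set.mem_ofPred_eq, map_neg, Pi.neg_apply]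
    constructor <;> intro h <;> linarith
  rw [e2] at t4
  have sub : {ω | Thn a j₁ (D fun φ => W (gv0 ρ φ) ω) (W (vp ρ j w) ω) j w} ⊆
      {ω | η * j ≤ W (Ev (-(j * log 2)) 0 (((2 : ℝ) ^ j)⁻¹ • pt w) - vp ρ j w) ω} ∪
      {ω | W (Ev (-(j * log 2)) 0 (((2 : ℝ) ^ j)⁻¹ • pt w)) ω ≤ -a * (j * log 2) + η * j ∧
        ∀ k < (j - j₁) / 8, ¬ Shd 3 (D fun φ => W (gv0 ρ φ) ω) (((2 : ℝ) ^ j)⁻¹ • pt w)
          (((2 : ℝ) ^ j₁)⁻¹ / 256 ^ k)} := by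
    rintro ω ⟨h, h'⟩
    by_cases hc : η * j ≤ W (Ev (-(j * log 2)) 0 (((2 : ℝ) ^ j)⁻¹ • pt w) - vp ρ j w) ω
    · exact Or.inl hc
    · refine Or.inr ⟨?_, h'⟩
      rw [map_sub, Pi.sub_apply] at hc
      linarith
  refine ((measureReal_mono sub (measure_ne_top _ _)).trans (measureReal_union_le _ _)).trans ?_
  have k1 : (j : ℝ) - j₁ - 7 ≤ 8 * ((j - j₁) / 8 : ℕ) := by
    have : j ≤ 8 * ((j - j₁) / 8) + j₁ + 7 := by omega
    have : (j : ℝ) ≤ 8 * ((j - j₁) / 8 : ℕ) + j₁ + 7 := by exact_mod_cast this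
    linarith
  have k2 : (j : ℝ) - j₁ - 15 ≤ 16 * ((j - j₁) / 8 / 2 : ℕ) := by
    have : j ≤ 16 * ((j - j₁) / 8 / 2) + j₁ + 15 := by omega
    have : (j : ℝ) ≤ 16 * ((j - j₁) / 8 / 2 : ℕ) + j₁ + 15 := by exact_mod_cast this
    linarith
  obtain ⟨X, hX⟩ : ∃ X, X = exp (-(a ^ 2 / 2 + p / 16 - ζ) * (j * log 2)) := ⟨_, rfl⟩
  rw [← hX]
  have jl : 0 ≤ j * log 2 := by positivity
  have jl1 : j * log 2 ≤ j * 0.7 := mul_le_mul_of_nonneg_left (by linarith) j0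
  have x1 : exp (-2 * j) ≤ X := by
    rw [hX, exp_le_exp]
    have : a ^ 2 / 2 + p / 16 - ζ ≤ 2.1 := by nlinarith
    nlinarith
  have u1 : 3 * exp (-(3 / η) * (η * j) + V * (3 / η) ^ 2 / 2) ≤ X := by
    refine le_trans (le_of_eq ?_) (n1.trans x1)
    congr 2
    field_simp
    ring
  have u3 : 3 * (2 * exp (-24 * ((j - j₁) / 8 : ℕ))) ≤ X := by
    refine le_trans ?_ (n2.trans x1)
    have a2 : (2 : ℝ) ≤ exp 1 := by linarith [add_one_le_exp (1 : ℝ)]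
    have : 2 * exp (-24 * ((j - j₁) / 8 : ℕ)) ≤ exp (3 * j₁ + 22 - 3 * j) := by
      calc 2 * exp (-24 * ((j - j₁) / 8 : ℕ)) ≤ exp 1 * exp (-24 * ((j - j₁) / 8 : ℕ)) := by gcongr
        _ ≤ _ := by
          rw [← exp_add, exp_le_exp]
          linarith
    linarith
  have u2 : 3 * ((1 - p) ^ ((j - j₁) / 8 / 2) *
      exp (-a * (a * (j * log 2) - η * j) + j * log 2 * a ^ 2 / 2)) ≤ X := by
    have a1 : (1 - p) ^ ((j - j₁) / 8 / 2) ≤ exp (((j - j₁) / 8 / 2 : ℕ) * -p) := by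
      rw [exp_nat_mul]
      exact pow_le_pow_left₀ (by linarith) (by linarith [add_one_le_exp (-p)]) _
    have a3 : (3 : ℝ) ≤ exp 2 := by linarith [add_one_le_exp (2 : ℝ)]
    calc _ ≤ exp 2 * (exp (((j - j₁) / 8 / 2 : ℕ) * -p) *
          exp (-a * (a * (j * log 2) - η * j) + j * log 2 * a ^ 2 / 2)) := by gcongr
      _ ≤ X := by
        rw [hX, ← exp_add, ← exp_add, exp_le_exp]
        have b1 : ζ * (j * log 2) = 4 * (η * j) := by rw [hη]; ring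
        have b2 : a * (η * j) ≤ 2 * (η * j) := mul_le_mul_of_nonneg_right ha2 (by positivity)
        have b3 := mul_le_mul_of_nonneg_left k2 hp0.le
        have b4 : p * (j * log 2) ≤ p * j := mul_le_mul_of_nonneg_left (by linarith) hp0.le
        have b5 : p * (j₁ + 15) ≤ 1 * (j₁ + 15) := mul_le_mul_of_nonneg_right hp1 (by positivity)
        have b6 : (0 : ℝ) ≤ j₁ := Nat.cast_nonneg _
        nlinarith
  have u4 := mul_le_mul_of_nonneg_left t2 (pow_nonneg (by linarith : 0 ≤ 1 - p) ((j - j₁) / 8 / 2))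
  linarith

end Pool.Agent.GL
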