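import Pool.Agent.Lib.MP_438f30_pr.GSt
import Pool.Agent.Lib.MP_438f30_pr.HV3

/-! Orthogonality relations of the coarse increments and of the fine vectors. -/

namespace Pool.Agent.GL

open MeasureTheory Real Metric Pool.Agent.Lib.MP_a0a493_pr
open scoped InnerProductSpace

namespace GOrt

theorem ok (α : ℝ) (z x : E 2) :
    Ok (fun p : ℝ × E 2 => if α < p.1 then bi (exp p.1) x p.2 - bi (exp p.1) z p.2 else 0) ∧
      ‖cv α z x‖ ^ 2 ≤ 4 * exp (-α) * ‖x - z‖ := by
  rw [← zero_add (4 * exp (-α) * ‖x - z‖)]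
  refine ok_two (g := fun p : ℝ × E 2 =>
    if α < p.1 then bi (exp p.1) x p.2 - bi (exp p.1) z p.2 else 0)
    (Measurable.ite (measurable_fst measurableSet_Ioi) (by fun_prop) measurable_const) (α := α)
    (fun s hs => ?_) fun s hs => ?_
  · simp only [not_lt.2 hs, if_false]
    exact sl_zero (by simp)
  · simp only [show α < s from hs, if_true]
    refine (sl_bi_sub one_le_two s (dist_eq_norm x z).le).mono (le_of_eq ?_)
    have : exp (-s) = exp (-α) * exp (α - s) := by rw [← exp_add]; ring_nf
    rw [this]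
    push_cast
    ring

theorem bi_ne {r : ℝ} {x u : E 2} (h : bi r x u ≠ 0) : dist x u < r :=
  not_le.1 fun k => h (bi_zero k)

theorem fn_ne {R : ℝ} {φ : E 2 → ℝ} {p : ℝ × E 2} (hR : 0 < R)
    (h : (if p.1 ≤ log (R / 8) then Af φ p else 0) ≠ 0) :
    p.1 ≤ log (R / 8) ∧ exp p.1 ≤ R / 8 ∧ ∃ y ∈ tsupport φ, dist y p.2 < exp p.1 := by
  split_ifs at h with a
  · exact ⟨a, (le_log_iff_exp_le (by positivity)).1 a, HV3.af_ne h⟩
  · exact absurd rfl h

end GOrt

open GOrt

theorem ort : Ort where
  crs {ρ} hρ h1 α z x := by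
    have hm := test_mol hρ 0 0
    rw [crs, crs, neg_sub_neg, ← vec_sub (ok_Dv hm z α) (ok_Dv hm x α), cv]
    congr 1
    funext p
    rw [Dv, Dv, int_mol, h1]
    split_ifs <;> ring
  cut {α β} h z x := by
    rw [cv, cv, Ev, Ev, ← vec_sub (ok_ev _ _ _) (ok_ev _ _ _),
      ← vec_add ((ok_ev _ _ _).sub (ok_ev _ _ _)) (ok β z x).1]
    congr 1
    funext p
    unfold ev
    by_cases a : α < p.1 <;> by_cases c : β < p.1 <;> simp [a, c, ← not_lt]
    linarith
  inc α z x y := by
    have e : cv α z x - cv α z y = cv α y x := by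
      rw [cv, cv, cv, ← vec_sub (ok α z x).1 (ok α z y).1]
      congr 1
      funext p
      split_ifs <;> ring
    rw [e]
    exact (ok α y x).2
  self α z := by simp [cv, vec_zero]
  band {α β γ} h y z x := inner_vec_zero fun p => by
    unfold ev
    split_ifs with a b
    · linarith [a.2]
    all_goals simp
  o1 {z R φ} hR _ hs α β := inner_vec_zero fun p => by
    by_contra k
    obtain ⟨-, a, y, y1, y2⟩ := fn_ne hR (left_ne_zero_of_mul k)
    have b := right_ne_zero_of_mul k
    unfold ev at b
    split_ifs at b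
    · linarith [(hs y1).1, dist_triangle_right y z p.2, bi_ne b]
    · exact b rfl
  o2 {z x R R' φ} hR hR' _ hs h := inner_vec_zero fun p => by
    by_contra k
    obtain ⟨a0, a, y, y1, y2⟩ := fn_ne hR (left_ne_zero_of_mul k)
    have b := right_ne_zero_of_mul k
    split_ifs at b with c
    · rcases h with h | ⟨h, hx⟩
      · linarith [log_le_log (by positivity : 0 < R / 8) (by linarith : R / 8 ≤ R' / 8)]
      · have t := dist_triangle_right y z p.2
        have t1 := dist_triangle_right y x p.2
        have t2 := dist_triangle y x z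
        have y3 := (hs y1).1
        rw [mem_closedBall] at hx
        rw [bi_zero (x := x) (by linarith), bi_zero (x := z) (by linarith), sub_self] at b
        exact b rfl
    · exact b rfl
  o3 {z R R' φ ψ} hR' h _ _ hs hs' := inner_vec_zero fun p => by
    by_contra k
    obtain ⟨-, -, y, y1, y2⟩ := fn_ne (by linarith) (left_ne_zero_of_mul k)
    obtain ⟨-, a, x, x1, x2⟩ := fn_ne hR' (right_ne_zero_of_mul k)
    linarith [(hs y1).1, (hs' x1).2, dist_triangle_right y x p.2, dist_triangle y x z]

end Pool.Agent.GL
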