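import Pool.Agent.Lib.MP_438f30_pr.GSt

/-! Many good scales and no success at a good scale: the product bound. -/

namespace Pool.Agent.GL

open MeasureTheory ProbabilityTheory Real Finset Filter Topology Metric
  Pool.Agent.Lib.MP_a0a493_pr
open scoped InnerProductSpace

namespace GPr

open Classical in
/-- the event of the statement -/
def Ev' {Ω : Type} (G B : ℕ → Set Ω) (N n : ℕ) (T : Set Ω) : Set Ω :=
  {ω | ω ∈ T ∧ n ≤ ((range N).filter fun k => ω ∈ G k).card ∧ ∀ k < N, ω ∈ G k → ω ∉ B k}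

theorem meas {Ω : Type} (m : MeasurableSpace Ω) (G B : ℕ → Set Ω) (N n : ℕ) (T : Set Ω)
    (hT : MeasurableSet T) (hG : ∀ k, MeasurableSet (G k))
    (hB : ∀ k < N, MeasurableSet (B k)) : MeasurableSet (Ev' G B N n T) := by
  classical
  have h1 : Measurable fun ω => ∑ k ∈ range N, if ω ∈ G k then 1 else (0 : ℕ) :=
    Finset.measurable_sum _ fun k _ => Measurable.ite (hG k) measurable_const measurable_const
  have e : Ev' G B N n T = T ∩ ((fun ω => ∑ k ∈ range N, if ω ∈ G k then 1 else (0 : ℕ)) ⁻¹'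
      Set.Ici n ∩ ⋂ k, ⋂ _ : k < N, ((G k)ᶜ ∪ (B k)ᶜ)) := by
    ext ω
    simp only [Ev', Set.mem_ofPred_eq, Set.mem_inter_iff, Set.mem_preimage, Set.mem_Ici,
      Set.mem_iInter, Set.mem_union, Set.mem_compl_iff, Finset.card_filter, imp_iff_not_or]
  rw [e]
  exact hT.inter ((h1 (MeasurableSet.of_discrete)).inter
    (MeasurableSet.iInter fun k => MeasurableSet.iInter fun hk =>
      (hG k).compl.union (hB k hk).compl))

theorem split {Ω : Type} (G B : ℕ → Set Ω) (N n : ℕ) (T : Set Ω) :
    Ev' G B (N + 1) (n + 1) T ⊆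
      ((B N)ᶜ ∩ Ev' G B N n (T ∩ G N)) ∪ Ev' G B N (n + 1) (T \ G N) := by
  classical
  rintro ω ⟨h1, h2, h3⟩
  rw [Finset.range_add_one, Finset.filter_insert] at h2
  by_cases h : ω ∈ G N
  · left
    refine ⟨h3 N (by omega) h, ⟨h1, h⟩, ?_, fun k hk => h3 k (by omega)⟩
    rw [if_pos h] at h2
    have := (h2.trans (Finset.card_insert_le _ _))
    omega
  · right
    refine ⟨⟨h1, h⟩, ?_, fun k hk => h3 k (by omega)⟩
    rw [if_neg h] at h2
    exact h2

end GPr

theorem pr : sPr := by
  intro Ω _ P _ H _ _ W hW C K G B p hp hKC hKK hG hB hpB N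
  change ∀ (n : ℕ) (T : Set Ω), _ → P.real (GPr.Ev' G B N n T) ≤ _
  have h0 : ∀ (N : ℕ) (T : Set Ω), P.real (GPr.Ev' G B N 0 T) ≤ (1 - p) ^ 0 * P.real T := by
    intro N T
    rw [pow_zero, one_mul]
    exact measureReal_mono fun ω hω => hω.1
  have hq : 0 ≤ 1 - p := by linarith
  induction N with
  | zero =>
    intro n T _
    rcases n with _ | n
    · exact h0 0 T
    · have e : GPr.Ev' G B 0 (n + 1) T = ∅ := by
        ext ω
        simp [GPr.Ev']
      rw [e, measureReal_empty]
      positivity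
  | succ N ih =>
    intro n T hT
    rcases n with _ | n
    · exact h0 _ T
    · set U : Set H := C ∪ {v | ∃ k < N, v ∈ K k} with hU
      have hCU : GU.FK W C ≤ GU.FK W U := GU.FK_mono W Set.subset_union_left
      have hE : MeasurableSet[GU.FK W U] (GPr.Ev' G B N n (T ∩ G N)) :=
        GPr.meas _ G B N n _ (hCU _ (hT.inter (hG N))) (fun k => hCU _ (hG k)) fun k hk =>
          GU.FK_mono W (K := K k) (K' := U) (fun v hv => Or.inr ⟨k, hk, hv⟩) _ (hB k)
      have hI : Indep (GU.FK W (K N)) (GU.FK W U) P := GU.FK_indep hW fun u hu v hv => by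
        rcases hv with hv | ⟨k, hk, hv⟩
        · exact hKC N u hu v hv
        · rw [real_inner_comm]
          exact hKK k N hk v hv u hu
      have h1 : P.real ((B N)ᶜ ∩ GPr.Ev' G B N n (T ∩ G N)) =
          P.real (B N)ᶜ * P.real (GPr.Ev' G B N n (T ∩ G N)) := by
        have := (Indep_iff _ _ _).1 hI _ _ (hB N).compl hE
        simp only [Measure.real, this, ENNReal.toReal_mul]
      have h2 : P.real (B N)ᶜ ≤ 1 - p := by
        rw [probReal_compl_eq_one_sub (GU.FK_le hW _ _ (hB N))]
        linarith [hpB N]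
      have h3 := ih n (T ∩ G N) (hT.inter (hG N))
      have h4 := ih (n + 1) (T \ G N) (hT.diff (hG N))
      have h5 : P.real (T ∩ G N) + P.real (T \ G N) = P.real T :=
        measureReal_inter_add_sdiff (GU.FK_le hW _ _ (hG N))
      have h6 := (measureReal_mono (μ := P) (GPr.split G B N n T)).trans
        (measureReal_union_le _ _)
      have h7 : P.real (B N)ᶜ * P.real (GPr.Ev' G B N n (T ∩ G N)) ≤
          (1 - p) * ((1 - p) ^ n * P.real (T ∩ G N)) :=
        mul_le_mul h2 h3 measureReal_nonneg hq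
      rw [h1] at h6
      rw [← h5]
      calc _ ≤ _ := h6
        _ ≤ (1 - p) * ((1 - p) ^ n * P.real (T ∩ G N)) + (1 - p) ^ (n + 1) * P.real (T \ G N) :=
          add_le_add h7 h4
        _ = _ := by ring

end Pool.Agent.GL
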