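import Pool.Agent.Lib.MP_438f30_pr.G1
import Pool.Agent.Lib.MP_438f30_pr.G2
import Pool.Agent.Lib.MP_438f30_pr.G3
import Pool.Agent.Lib.MP_438f30_pr.G4
import Pool.Agent.Lib.MP_438f30_pr.G5
import Pool.Agent.Lib.MP_438f30_pr.G8
import Pool.Agent.Lib.MP_438f30_pr.G8a
import Pool.Agent.Lib.MP_438f30_pr.G9
import Pool.Agent.Lib.MP_438f30_pr.GBdd
import Pool.Agent.Lib.MP_438f30_pr.GBump
import Pool.Agent.Lib.MP_438f30_pr.GDim
import Pool.Agent.Lib.MP_438f30_pr.GFew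
import Pool.Agent.Lib.MP_438f30_pr.GFin
import Pool.Agent.Lib.MP_438f30_pr.GLow2
import Pool.Agent.Lib.MP_438f30_pr.GOne
import Pool.Agent.Lib.MP_438f30_pr.GOrt
import Pool.Agent.Lib.MP_438f30_pr.GPr
import Pool.Agent.Lib.MP_438f30_pr.GRed
import Pool.Agent.Lib.MP_438f30_pr.GVer

/-! The upper bound for the dimension of geodesics. -/

namespace Pool.Agent.GL

theorem allUD : sUD :=
  fin2 (few (one g1 (g4 g3) (g5 low2 bdd bump ver) ver (g8 g8a) ort (g9 ort) pr) g3) (dimu g2) red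

end Pool.Agent.GL
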