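import Pool.Agent.Lib.MP_438f30_pr.GSt
import Pool.Agent.Lib.MP_438f30_pr.HRen
import Pool.Agent.Lib.MP_438f30_pr.HLT
import Pool.Agent.Lib.MP_438f30_pr.HEq
import Pool.Agent.Lib.MP_438f30_pr.HV1

/-! Few thin cells have no shield. -/

namespace Pool.Agent.GL

open MeasureTheory ProbabilityTheory Real Finset Filter Topology Metric
  Pool.Agent.Lib.MP_a0a493_pr

namespace GFew

open Classical in
/-- Markov's inequality for the number of events that occur -/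
theorem markov {Ω ι : Type} [MeasurableSpace Ω] (P : Measure Ω) [IsProbabilityMeasure P]
    (T : Finset ι) (B : ι → Set Ω) (hB : ∀ w, MeasurableSet (B w)) (p M : ℝ)
    (hp : ∀ w ∈ T, P.real (B w) ≤ p) :
    M * P.real {ω | M ≤ ((T.filter fun w => ω ∈ B w).card : ℝ)} ≤ T.card * p := by
  have e : ∀ ω, ((T.filter fun w => ω ∈ B w).card : ℝ) =
      ∑ w ∈ T, (B w).indicator (fun _ => (1 : ℝ)) ω := fun ω => by
    rw [card_filter]
    push_cast
    exact sum_congr rfl fun w _ => by simp [Set.indicator]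
  have hi : ∀ w ∈ T, Integrable ((B w).indicator fun _ => (1 : ℝ)) P := fun w _ =>
    (integrable_const _).indicator (hB w)
  simp only [e]
  refine (mul_meas_ge_le_integral_of_nonneg (ae_of_all _ fun ω => sum_nonneg fun w _ =>
    Set.indicator_nonneg (fun _ _ => zero_le_one) ω) (integrable_finsetSum _ hi) M).trans ?_
  rw [integral_finsetSum _ hi, ← nsmul_eq_mul, ← sum_const]
  refine sum_le_sum fun w hw => ?_
  rw [integral_indicator_const _ (hB w), smul_eq_mul, mul_one]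
  exact hp w hw

/-- Borel-Cantelli with a bound that holds from some index on -/
theorem bc {Ω : Type} [MeasurableSpace Ω] (P : Measure Ω) [IsProbabilityMeasure P]
    (B : ℕ → Set Ω) {C r : ℝ} (h0 : 0 ≤ r) (h1 : r < 1)
    (hB : ∀ᶠ j in atTop, P.real (B j) ≤ C * r ^ j) : ∀ᵐ ω ∂P, ∀ᶠ j in atTop, ω ∉ B j := by
  have sm : Summable fun j => P.real (B j) :=
    Summable.of_norm_bounded_eventually_nat ((summable_geometric_of_lt_one h0 h1).mul_left C)
      (hB.mono fun j hj => by rwa [Real.norm_of_nonneg measureReal_nonneg])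
  refine ae_eventually_notMem ?_
  have := sm.tsum_ofReal_ne_top
  simpa only [ofReal_measureReal (measure_ne_top _ _)] using this

/-- the measurable form of the event -/
def Bs (a : ℝ) (j₁ : ℕ) (D : ((R2 → ℝ) → ℝ) → R2 → R2 → ℝ) (ρ : E 2 → ℝ)
    (A : R2 → ℝ → Set (R2 → R2 → ℝ)) (j : ℕ) (w : Zd 2) : Set ((E 2 → ℝ) → ℝ) :=
  {g | g (mol ρ j (((2 : ℝ) ^ j)⁻¹ • pt w)) ≤ -a * (j * log 2) ∧ ∀ k < (j - j₁) / 8,
    D g ∉ A (((2 : ℝ) ^ j)⁻¹ • pt w) (((2 : ℝ) ^ j₁)⁻¹ / 256 ^ k)}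

theorem meas_Bs {ξ Q : ℝ} {D : ((R2 → ℝ) → ℝ) → R2 → R2 → ℝ} (hD : IsLQG ξ Q D) (a : ℝ)
    (j₁ : ℕ) {ρ : E 2 → ℝ} (hρ : Test ρ) {A : R2 → ℝ → Set (R2 → R2 → ℝ)}
    (hA : ∀ z R, MeasurableSet (A z R)) (j : ℕ) (w : Zd 2) :
    @MeasurableSet _ (sig Set.univ) (Bs a j₁ D ρ A j w) := by
  let _ : MeasurableSpace ((E 2 → ℝ) → ℝ) := sig Set.univ
  have hm : Measurable D :=
    measurable_pi_lambda _ fun u => measurable_pi_lambda _ fun v => hD.meas u v
  simp only [Bs, measurableSet_setOfPred]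
  refine Measurable.and (measurableSet_setOfPred.1
    (measurableSet_le (HLT.meas_ap (test_mol hρ j _)) measurable_const))
    (Measurable.forall fun k => Measurable.imp measurable_const (Measurable.not ?_))
  exact measurableSet_setOfPred.1 (hm (hA _ _))

theorem bs_iff {a : ℝ} {j₁ : ℕ} {D : ((R2 → ℝ) → ℝ) → R2 → R2 → ℝ} {ρ : E 2 → ℝ}
    {A : R2 → ℝ → Set (R2 → R2 → ℝ)}
    (hA : ∀ z R, ∀ d : R2 → R2 → ℝ, (Continuous fun q : R2 × R2 => d q.1 q.2) →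
      (Shd 3 d z R ↔ d ∈ A z R)) {g : (E 2 → ℝ) → ℝ} (hm : IsMet (D g)) (j : ℕ) (w : Zd 2) :
    g ∈ Bs a j₁ D ρ A j w ↔
      Thn a j₁ (D g) (g (mol ρ j (((2 : ℝ) ^ j)⁻¹ • pt w))) j w := by
  simp only [Bs, Thn, Set.mem_ofPred_eq, hA _ _ _ hm.cont]

theorem num (L j : ℕ) (a c ζ x : ℝ)
    (h : exp ((2 - a ^ 2 / 2 - c + ζ) * (j * log 2)) * x ≤
      ((box 2 (L * 2 ^ j)).card : ℝ) * exp (-(a ^ 2 / 2 + c - ζ / 2) * (j * log 2))) :
    x ≤ (4 * L + 1) ^ 2 * exp (-(ζ / 2) * log 2) ^ j := by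
  have b : (1 : ℝ) ≤ 2 ^ j := one_le_pow₀ one_le_two
  have c1 : (4 * ((L : ℝ) * 2 ^ j) + 1) ^ 2 ≤ ((4 * L + 1) * 2 ^ j) ^ 2 :=
    pow_le_pow_left₀ (by positivity) (by linarith) 2
  have e2 : ((2 : ℝ) ^ j) ^ 2 = exp (2 * (j * log 2)) := by
    rw [← log_pow, two_mul, exp_add, exp_log (by positivity), sq]
  rw [card_box] at h
  push_cast at h
  refine le_of_mul_le_mul_left (h.trans ((mul_le_mul_of_nonneg_right c1 (exp_pos _).le).trans_eq
    ?_)) (exp_pos _)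
  rw [mul_pow, e2, ← exp_nat_mul, mul_assoc, ← exp_add,
    mul_left_comm (exp _) ((4 * (L : ℝ) + 1) ^ 2), ← exp_add]
  congr 2
  ring

end GFew

open GFew in
theorem few (h1 : sOne) (h3 : sG3) : sFew := by
  classical
  intro ξ Q D hξ hD
  obtain ⟨Ω', _, P', _, W, hW⟩ := exists_iso (HH 2)
  obtain ⟨c, hc, h1⟩ := h1 ξ Q D hξ hD Ω' P' W hW
  refine ⟨c, hc, fun Ω _ P _ Φ ρ hρ hi hΦ hG a ζ ha ha' hζ L j₁ => ?_⟩
  choose A hA hA' using h3 3
  obtain ⟨-, f2, f3⟩ := vf1.lgf hW hρ hi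
  have hb := bc P (fun j => {ω | exp ((2 - a ^ 2 / 2 - c + ζ) * (j * log 2)) ≤
      (((box 2 (L * 2 ^ j)).filter fun w =>
        ω ∈ {ω | (fun φ => Φ φ ω) ∈ Bs a j₁ D ρ A j w}).card : ℝ)})
    (C := (4 * L + 1) ^ 2) (r := exp (-(ζ / 2) * log 2)) (exp_pos _).le
    (exp_lt_one_iff.2 (mul_neg_of_neg_of_pos (by linarith) (log_pos one_lt_two))) (by
      filter_upwards [h1 ρ hρ hi a (ζ / 2) ha ha' (half_pos hζ) L j₁] with j hj
      refine num L j a c ζ _ (markov P _ _ (fun w => HRen.meas hG.1 _ (meas_Bs hD a j₁ hρ hA j w))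
        _ _ fun w hw => ?_)
      refine le_of_eq_of_le ?_ (hj w hw)
      refine congrArg ENNReal.toReal ((leq Ω Ω' _ _ P P' Φ _ _ _ hG f3 (fun _ _ _ _ => rfl) _
        (meas_Bs hD a j₁ hρ hA j w)).trans (measure_congr ?_))
      filter_upwards [hD.met Ω' P' _ f2] with ω hm
      have := bs_iff (a := a) (j₁ := j₁) (ρ := ρ) hA' hm j w
      rw [vf1.psi hi] at this
      exact propext this)
  filter_upwards [hb, hD.met Ω P Φ hΦ] with ω b hm
  filter_upwards [b] with j hj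
  refine le_of_eq_of_le ?_ (not_le.1 hj).le
  congr 2
  refine filter_congr fun w _ => ?_
  rw [bs_iff hA' hm, phi, HLT.pt_eq]

end Pool.Agent.GL
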