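import Pool.Agent.Lib.MP_438f30_pr.St

/-! The tilted Gaussian moment formula. -/

namespace Pool.Agent.GL

open MeasureTheory ProbabilityTheory Real Finset Filter Topology Pool.Agent.Lib.MP_a0a493_pr
open scoped InnerProductSpace

variable {Ω : Type} [MeasurableSpace Ω] {P : Measure Ω} [IsProbabilityMeasure P] {H : Type}
  [NormedAddCommGroup H] [InnerProductSpace ℝ H] {W : H →ₗ[ℝ] (Ω → ℝ)}

theorem gf_sin (y : ℝ) : (sin y : ℂ) = (ch (-y) - ch y) * Complex.I / 2 := by
  rw [Complex.ofReal_sin, Complex.sin, ch, ch, Complex.ofReal_neg]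

theorem gf_base (h : Iso P W) (g f : H) :
    ∫ ω, (exp (W g ω) : ℂ) * ch (W f ω) ∂P =
      exp (‖g‖ ^ 2 / 2) * (ch ⟪f, g⟫_ℝ * gc (‖f‖ ^ 2)) := by
  obtain ⟨t, f', rfl, ho⟩ : ∃ (t : ℝ) (f' : H), f = t • g + f' ∧ ⟪g, f'⟫_ℝ = 0 := by
    refine ⟨⟪g, f⟫_ℝ / ‖g‖ ^ 2, _, (add_sub_cancel _ f).symm, ?_⟩
    rcases eq_or_ne g 0 with rfl | hg
    · exact inner_zero_left _
    · rw [inner_sub_right, real_inner_smul_right, real_inner_self_eq_norm_sq,
        div_mul_cancel₀ _ (pow_ne_zero 2 (norm_ne_zero_iff.2 hg)), sub_self]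
  have m1 : Measurable fun y : Unit → ℝ => Complex.exp ((1 + t * Complex.I) * y ()) := by fun_prop
  have m2 : Measurable fun y : Unit → ℝ => ch (y ()) :=
    continuous_ch.measurable.comp (measurable_pi_apply _)
  have hi := (h.indep (fun _ : Unit => g) (fun _ : Unit => f') fun _ _ => ho).comp m1 m2
  have e := hi.integral_fun_mul_eq_mul_integral
    (m1.comp (measurable_pi_lambda _ fun _ => h.meas g)).aestronglyMeasurable
    (m2.comp (measurable_pi_lambda _ fun _ => h.meas f')).aestronglyMeasurable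
  have e1 := complexMGF_gaussianReal (h.map_eq g) (1 + t * Complex.I)
  simp only [Function.comp_apply] at e
  rw [h.law, show ∫ ω, Complex.exp ((1 + t * Complex.I) * W g ω) ∂P = _ from e1] at e
  have e2 : ‖t • g + f'‖ ^ 2 = t ^ 2 * ‖g‖ ^ 2 + ‖f'‖ ^ 2 := by
    rw [norm_add_sq_real, real_inner_smul_left, ho, norm_smul, mul_pow, Real.norm_eq_abs, sq_abs]
    ring
  have e3 : ⟪t • g + f', g⟫_ℝ = t * ‖g‖ ^ 2 := by
    rw [inner_add_left, real_inner_smul_left, real_inner_self_eq_norm_sq, real_inner_comm, ho,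
      add_zero]
  rw [e2, e3, gc_add, ← mul_assoc, ← mul_assoc]
  refine (integral_congr_ae (Eventually.of_forall fun ω => ?_)).trans (e.trans ?_)
  · simp only [map_add, map_smul, Pi.add_apply, Pi.smul_apply, smul_eq_mul, ch_add]
    rw [← mul_assoc, ch, Complex.ofReal_exp, ← Complex.exp_add]
    congr 2
    push_cast
    ring
  · congr 1
    rw [ch, gc, Complex.ofReal_exp, Complex.ofReal_exp, ← Complex.exp_add, ← Complex.exp_add]
    congr 1
    push_cast
    linear_combination (‖g‖ : ℂ) ^ 2 * t ^ 2 / 2 * Complex.I_sq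

theorem gf_int (h : Iso P W) (g : H) (σ : ℕ → ℝ) (z : ℕ → H) (j : ℕ) :
    Integrable (fun ω => exp (W g ω) * ∏ i ∈ range j, (1 - σ i * sin (W (z i) ω))) P := by
  induction j with
  | zero =>
    have := integrable_exp_mul_gaussianReal (μ := 0) (v := ‖g‖₊ ^ 2) 1
    rw [← h.map_eq g] at this
    simpa [Function.comp_def] using
      (integrable_map_measure this.aestronglyMeasurable (h.meas g).aemeasurable).1 this
  | succ j ih =>
    simp only [prod_range_succ, ← mul_assoc]
    have := h.meas (z j)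
    refine ih.mul_bdd (c := 1 + |σ j|) (Measurable.aestronglyMeasurable (by fun_prop))
      (Eventually.of_forall fun ω => (abs_sub _ _).trans ?_)
    rw [abs_one, abs_mul]
    exact add_le_add_right (mul_le_of_le_one_right (abs_nonneg _) (abs_sin_le_one _)) _

theorem gf_ind (h : Iso P W) (g : H) (σ : ℕ → ℝ) (z : ℕ → H) (j : ℕ)
    (hz : ∀ i < j, ∀ i' < j, i ≠ i' → ⟪z i, z i'⟫_ℝ = 0) (f : H) (hf : ∀ i < j, ⟪f, z i⟫_ℝ = 0) :
    ∫ ω, ((exp (W g ω) * ∏ i ∈ range j, (1 - σ i * sin (W (z i) ω)) : ℝ) : ℂ) * ch (W f ω) ∂P =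
      (exp (‖g‖ ^ 2 / 2) * ∏ i ∈ range j,
        (1 - σ i * exp (-‖z i‖ ^ 2 / 2) * sin ⟪z i, g⟫_ℝ) : ℝ) * (ch ⟪f, g⟫_ℝ * gc (‖f‖ ^ 2)) := by
  induction j generalizing f with
  | zero => simpa only [prod_range_zero, mul_one] using gf_base h g f
  | succ j ih =>
    have ih' := ih fun i a i' b => hz i (by omega) i' (by omega)
    have o1 : ∀ i < j, ⟪f, z i⟫_ℝ = 0 := fun i a => hf i (by omega)
    have o2 : ∀ i < j, ⟪z j, z i⟫_ℝ = 0 := fun i a => hz j (by omega) i (by omega) (by omega)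
    have e0 := ih' f o1
    have e1 := ih' (f + z j) fun i a => by rw [inner_add_left, o1 i a, o2 i a, add_zero]
    have e2 := ih' (f - z j) fun i a => by rw [inner_sub_left, o1 i a, o2 i a, sub_zero]
    have it : ∀ f : H, Integrable (fun ω => ((exp (W g ω) * ∏ i ∈ range j,
        (1 - σ i * sin (W (z i) ω)) : ℝ) : ℂ) * ch (W f ω)) P := fun f =>
      (gf_int h g σ z j).ofReal.mul_bdd (c := 1)
        (continuous_ch.measurable.comp (h.meas f)).aestronglyMeasurable
        (Eventually.of_forall fun _ => (norm_ch _).le)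
    rw [norm_add_sq_real, hf j (by omega), mul_zero, add_zero, gc_add, inner_add_left, ch_add] at e1
    rw [norm_sub_sq_real, hf j (by omega), mul_zero, sub_zero, gc_add, inner_sub_left,
      sub_eq_add_neg ⟪f, g⟫_ℝ, ch_add] at e2
    have e3 := integral_sub (it f) (((it (f - z j)).sub (it (f + z j))).const_mul
      (σ j * Complex.I / 2))
    simp only [Pi.sub_apply] at e3
    rw [integral_const_mul, integral_sub (it _) (it _), e0, e1, e2] at e3
    refine (integral_congr_ae (Eventually.of_forall fun ω => ?_)).trans (e3.trans ?_)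
    · simp only [prod_range_succ, ← mul_assoc, map_add, map_sub, Pi.add_apply, Pi.sub_apply]
      rw [sub_eq_add_neg (W f ω), ch_add, ch_add, Complex.ofReal_mul _ (1 - _), Complex.ofReal_sub,
        Complex.ofReal_mul (σ j), gf_sin, Complex.ofReal_one]
      ring
    · rw [prod_range_succ, ← mul_assoc (exp _), Complex.ofReal_mul _ (1 - _), Complex.ofReal_sub,
        Complex.ofReal_mul _ (sin _), Complex.ofReal_mul (σ j), gf_sin, Complex.ofReal_one,
        show ((exp (-‖z j‖ ^ 2 / 2) : ℝ) : ℂ) = gc (‖z j‖ ^ 2) from rfl]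
      ring

theorem gf : sGF := by
  intro Ω _ P _ H _ _ W h g j σ z hz
  refine ⟨gf_int h g σ z j, ?_⟩
  have e := gf_ind h g σ z j hz 0 fun i _ => inner_zero_left _
  have e0 : gc (‖(0 : H)‖ ^ 2) = 1 := by simp [gc]
  simp only [map_zero, Pi.zero_apply, inner_zero_left, ch_zero, e0, mul_one] at e
  rw [integral_complex_ofReal] at e
  exact Complex.ofReal_injective e

end Pool.Agent.GL
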