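import Pool.Agent.Lib.MP_438f30_pr.ASplit

/-! Splitting a chain whose nearby steps are short. -/

namespace Pool.Agent.GLA

open Real

variable {F : Type*} [NormedAddCommGroup F] [InnerProductSpace ℝ F]

theorem ah_split {x : ℕ → F} {ε : ℝ} (hε : 0 < ε) {a b : ℕ} (hab : a ≤ b)
    (hx : ∀ i, a ≤ i → i < b → dist (x a) (x i) ≤ 2 * dist (x a) (x b) ∨
      dist (x a) (x (i + 1)) ≤ 2 * dist (x a) (x b) → dist (x i) (x (i + 1)) ≤ ε)
    (hl : 100 * ε ≤ dist (x a) (x b)) :
    ∃ (c1 c2 : ℕ) (τ : ℝ), a < c1 ∧ c1 ≤ c2 ∧ c2 < b ∧ 0 ≤ τ ∧ τ ≤ 2 ∧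
      0.45 * dist (x a) (x b) ≤ dist (x a) (x c1) ∧ dist (x a) (x c1) ≤ 0.8 * dist (x a) (x b) ∧
      0.45 * dist (x a) (x b) ≤ dist (x c2) (x b) ∧ dist (x c2) (x b) ≤ 0.8 * dist (x a) (x b) ∧
      dist (x c1) (midpoint ℝ (x a) (x b)) ≤ τ * dist (x a) (x b) ∧
      dist (x c2) (midpoint ℝ (x a) (x b)) ≤ τ * dist (x a) (x b) ∧
      τ ^ 2 / 10 ≤ log (4 * dist (x a) (x c1) * dist (x c2) (x b) / dist (x a) (x b) ^ 2) / 2 +
        8 * (ε ^ 2 / dist (x a) (x b) ^ 2) := by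
  classical
  set l := dist (x a) (x b) with hldef
  have lp : 0 < l := by linarith
  have ex : ∃ i, a ≤ i ∧ dist (x i) (x b) ≤ dist (x a) (x i) := ⟨b, hab, by simp⟩
  obtain ⟨hc1, hc2⟩ := Nat.find_spec ex
  have hcb : Nat.find ex ≤ b := Nat.find_min' ex ⟨hab, by simp⟩
  have hmin : ∀ i, i < Nat.find ex → a ≤ i → dist (x a) (x i) < dist (x i) (x b) := fun i hi ha =>
    not_le.1 fun h => Nat.find_min ex hi ⟨ha, h⟩
  generalize Nat.find ex = c at hc1 hc2 hcb hmin
  have hac : a < c := lt_of_le_of_ne hc1 fun h => by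
    rw [← h, dist_self] at hc2; linarith
  obtain ⟨c, rfl⟩ : ∃ k, c = k + 1 := ⟨c - 1, by omega⟩
  have s1 := fun h => hx c (by omega) (by omega) (Or.inr h)
  have s2 := hmin c (by omega) (by omega)
  have s3 := dist_triangle (x a) (x c) (x (c + 1))
  have s4 := dist_triangle (x c) (x (c + 1)) (x b)
  have s5 := dist_triangle (x a) (x (c + 1)) (x b)
  set l1 := dist (x a) (x (c + 1)) with hl1
  set l2 := dist (x (c + 1)) (x b) with hl2
  by_cases hbig : l1 ≤ 0.8 * l
  · have d12 : l1 ≤ l2 + 2 * ε := by linarith [s1 (by linarith)]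
    have hcb' : c + 1 < b := lt_of_le_of_ne hcb fun h => by
      have : l2 = 0 := by rw [hl2, h, dist_self]
      linarith
    have pm := par_mid (x a) (x b) (x (c + 1))
    set r := dist (x (c + 1)) (midpoint ℝ (x a) (x b)) with hr
    have r0 : 0 ≤ r := dist_nonneg
    have rl : r ≤ 2 * l := by linarith [dist_mid_le (x a) (x b) (x (c + 1))]
    refine ⟨c + 1, c + 1, r / l, hac, le_rfl, hcb', by positivity, by rwa [div_le_iff₀ lp],
      by linarith, hbig, by linarith, by linarith, by rw [div_mul_cancel₀ _ lp.ne'],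
      by rw [div_mul_cancel₀ _ lp.ne'], ?_⟩
    have p1 : 0 < l1 := by linarith
    have p2 : 0 < l2 := by linarith
    have k := one_sub_inv_le_log_of_pos (x := 4 * l1 * l2 / l ^ 2) (by positivity)
    obtain ⟨t, ht⟩ : ∃ t, t = (r / l) ^ 2 := ⟨_, rfl⟩
    obtain ⟨η, hη⟩ : ∃ η, η = ε ^ 2 / l ^ 2 := ⟨_, rfl⟩
    have t0 : 0 ≤ t := by rw [ht]; positivity
    have η0 : 0 ≤ η := by rw [hη]; positivity
    have t1 : t ≤ 4 := by
      rw [ht, div_pow, div_le_iff₀ (by positivity)]; nlinarith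
    have η1 : η ≤ 1 / 100 := by
      rw [hη, div_le_iff₀ (by positivity)]; nlinarith
    have y1 : 1 + 4 * t - 8 * η ≤ 4 * l1 * l2 / l ^ 2 := by
      rw [le_div_iff₀ (by positivity), ht, hη, div_pow]
      have : (1 + 4 * (r ^ 2 / l ^ 2) - 8 * (ε ^ 2 / l ^ 2)) * l ^ 2 =
          l ^ 2 + 4 * r ^ 2 - 8 * ε ^ 2 := by field_simp
      rw [this]
      have : (l1 - l2) ^ 2 ≤ (2 * ε) ^ 2 := pow_le_pow_left₀ (by linarith) (by linarith) 2
      nlinarith
    have y2 : (4 * l1 * l2 / l ^ 2)⁻¹ ≤ 1 - t / 5 + 16 * η := by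
      refine (inv_anti₀ (by linarith) y1).trans ?_
      rw [inv_le_iff_one_le_mul₀ (by linarith)]
      nlinarith [mul_nonneg t0 η0, mul_nonneg t0 (sub_nonneg.2 t1), mul_nonneg η0 (sub_nonneg.2 η1)]
    rw [← ht, ← hη]
    linarith
  · push Not at hbig
    have d12 : 0.75 * l ≤ l2 := by
      by_cases c2 : l1 ≤ 2 * l
      · linarith [s1 c2]
      · have := dist_triangle (x a) (x b) (x (c + 1))
        rw [dist_comm (x b)] at this
        linarith
    have e1 : ∃ i, a ≤ i ∧ 0.75 * l ≤ dist (x a) (x i) := ⟨c + 1, hc1, by linarith⟩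
    obtain ⟨f1, f2⟩ := Nat.find_spec e1
    have f3 : Nat.find e1 ≤ c + 1 := Nat.find_min' e1 ⟨hc1, by linarith⟩
    have f4 : ∀ i, i < Nat.find e1 → a ≤ i → dist (x a) (x i) < 0.75 * l := fun i hi ha =>
      not_le.1 fun h => Nat.find_min e1 hi ⟨ha, h⟩
    generalize Nat.find e1 = c1 at f1 f2 f3 f4
    have f5 : a < c1 := lt_of_le_of_ne f1 fun h => by
      rw [← h, dist_self] at f2; linarith
    obtain ⟨c1, rfl⟩ : ∃ k, c1 = k + 1 := ⟨c1 - 1, by omega⟩
    have f6 : dist (x a) (x (c1 + 1)) ≤ 0.76 * l := by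
      linarith [hx c1 (by omega) (by omega) (Or.inl (by linarith [f4 c1 (by omega) (by omega)])),
        f4 c1 (by omega) (by omega),
        dist_triangle (x a) (x c1) (x (c1 + 1))]
    have g1 : 0.75 * l ≤ dist (x (Nat.findGreatest (fun i => 0.75 * l ≤ dist (x i) (x b)) b)) (x b) :=
      Nat.findGreatest_spec (P := fun i => 0.75 * l ≤ dist (x i) (x b)) hcb (by linarith)
    have g2 : c + 1 ≤ Nat.findGreatest (fun i => 0.75 * l ≤ dist (x i) (x b)) b :=
      Nat.le_findGreatest hcb (by linarith)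
    have g3 : Nat.findGreatest (fun i => 0.75 * l ≤ dist (x i) (x b)) b ≤ b := Nat.findGreatest_le b
    have g4 : ∀ i, Nat.findGreatest (fun i => 0.75 * l ≤ dist (x i) (x b)) b < i → i ≤ b →
        dist (x i) (x b) < 0.75 * l := fun i h1 h2 =>
      not_le.1 (Nat.findGreatest_is_greatest (P := fun i => 0.75 * l ≤ dist (x i) (x b)) h1 h2)
    generalize Nat.findGreatest (fun i => 0.75 * l ≤ dist (x i) (x b)) b = c2 at g1 g2 g3 g4
    have g5 : c2 < b := lt_of_le_of_ne g3 fun h => by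
      rw [h, dist_self] at g1; linarith
    have g6 : dist (x c2) (x b) ≤ 0.76 * l := by
      have q := dist_triangle (x a) (x b) (x (c2 + 1))
      rw [dist_comm (x b)] at q
      linarith [hx c2 (by omega) g5 (Or.inr (by linarith [g4 (c2 + 1) (by omega) (by omega)])),
        g4 (c2 + 1) (by omega) (by omega),
        dist_triangle (x c2) (x (c2 + 1)) (x b)]
    have m2 := dist_mid_le (x b) (x a) (x c2)
    rw [midpoint_comm, dist_comm (x b) (x c2), dist_comm (x b) (x a)] at m2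
    refine ⟨c1 + 1, c2, 1.3, f5, by omega, g5, by norm_num, by norm_num, by linarith, by linarith,
      by linarith, by linarith, by linarith [dist_mid_le (x a) (x b) (x (c1 + 1))], by linarith, ?_⟩
    have y1 : 2 ≤ 4 * dist (x a) (x (c1 + 1)) * dist (x c2) (x b) / l ^ 2 := by
      rw [le_div_iff₀ (by positivity)]
      nlinarith [mul_le_mul f2 g1 (by positivity) dist_nonneg]
    have y2 := log_le_log two_pos y1
    have y3 := log_two_gt_d9
    have y4 : 0 ≤ ε ^ 2 / l ^ 2 := by positivity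
    norm_num at y3 ⊢
    linarith

end Pool.Agent.GLA
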