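import Pool.Agent.Lib.MP_438f30_pr.AInd
import Pool.Agent.Lib.MP_438f30_pr.HAhA

/-! The induction over the bisector tree with leaves at variable depth. -/

namespace Pool.Agent.GLA

open Real Pool.Agent.Lib.MP_a0a493_pr
open scoped InnerProductSpace

variable {H : Type*} [NormedAddCommGroup H] [InnerProductSpace ℝ H] {β θ : ℝ} {Ev : E 2 → H}

theorem ah_pot {δ l l1 l2 e : ℝ} (hl : 0 < l) (h1 : 0.45 * l ≤ l1)
    (h1' : l1 ≤ 0.8 * l) (h2 : 0.45 * l ≤ l2) (h2' : l2 ≤ 0.8 * l)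
    (he : e ≤ log (4 * l1 * l2 / l ^ 2) / 2 + 8 * ((δ * l) ^ 2 / l ^ 2)) :
    (1 - 40 * δ ^ 2) * log l + e ≤
      log 2 + ((1 - 40 * δ ^ 2) * log l1 + (1 - 40 * δ ^ 2) * log l2) / 2 := by
  have p1 : 0 < l1 := by linarith
  have p2 : 0 < l2 := by linarith
  have a : log (4 * l1 * l2 / l ^ 2) = 2 * log 2 + log l1 + log l2 - 2 * log l := by
    rw [log_div (by positivity) (by positivity), log_mul (by positivity) p2.ne',
      log_mul (by norm_num) p1.ne', log_pow, show (4 : ℝ) = 2 ^ 2 by norm_num, log_pow]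
    push_cast; ring
  have b : ∀ u : ℝ, 0 < u → u ≤ 0.8 * l → log u ≤ log l - 1 / 5 := by
    intro u hu hu'
    have c := log_le_log hu hu'
    rw [log_mul (by norm_num) hl.ne'] at c
    have := log_le_sub_one_of_pos (x := 0.8) (by norm_num)
    linarith
  have c : (δ * l) ^ 2 / l ^ 2 = δ ^ 2 := by field_simp
  rw [a, c] at he
  nlinarith [mul_le_mul_of_nonneg_left (b l1 p1 h1') (sq_nonneg δ),
    mul_le_mul_of_nonneg_left (b l2 p2 h2') (sq_nonneg δ)]

theorem ah_ind (h : Ker β Ev) (h0 : 0 < θ) (h1 : θ ≤ 1 / 100) {Z : ℤ} (hZ : 9 / θ + 5 ≤ Z)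
    {N K T : ℕ} (hKN : K ≤ N) {σ : Sg} {l0 : ℝ} (l00 : 0 ≤ l0) (hl0 : l0 ≤ 2 ^ (N - K))
    (hK : 0.85 ^ K * l0 ≤ 39) {x : ℕ → E 2} {r : ℕ → ℝ} {g : ℕ → H} {δ ρm : ℝ} (δ0 : 0 < δ)
    (δ1 : δ ≤ 1 / 100) (hr : ∀ i < T, 1 ≤ r i) (hρ : ∀ i < T, log (r i) ≤ ρm)
    (hx : ∀ i < T, dist (x i) (x (i + 1)) ≤ r i) (w : H →ₗ[ℝ] ℝ) {Bd B1 lam R0 : ℝ} {p0 : E 2}
    (hB : ∀ (L : List St) (i : ℕ) (Eh : ℝ), i < T → L ∈ Ls Z L.length → L.length ≤ K →
      ‖SS Ev θ N σ L‖ ^ 2 ≤ 20 * CG * (θ * hh L) → r i ≤ ‖(seg θ σ L).2 - (seg θ σ L).1‖ →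
      ‖(seg θ σ L).2 - (seg θ σ L).1‖ ≤ 0.85 ^ L.length * l0 →
      ‖(seg θ σ L).1 - x i‖ ≤ 12 / δ * r i → ‖(seg θ σ L).2 - x i‖ ≤ 12 / δ * r i →
      dist p0 (x i) ≤ 2 * R0 → hh L ≤ 62 * L.length + 85 * Eh / θ ^ 2 →
      -Bd + B1 * log (r i) ≤ w (V Ev (2 ^ N) σ.1 σ.2 + SS Ev θ N σ L +
        (g i - V Ev (2 ^ (N - L.length)) (seg θ σ L).1 (seg θ σ L).2)) + lam * Eh)
    (n : ℕ) : ∀ (a b : ℕ) (L : List St) (Eh l : ℝ), b - a ≤ n → a ≤ b → b ≤ T →
      L ∈ Ls Z L.length → l = ‖(seg θ σ L).2 - (seg θ σ L).1‖ → l ≤ 0.85 ^ L.length * l0 →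
      ‖x a - (seg θ σ L).1‖ ≤ θ * l → ‖x b - (seg θ σ L).2‖ ≤ θ * l → 40 ≤ dist (x a) (x b) →
      Inv Ev (SS Ev θ N σ L) l (θ * hh L) → hh L ≤ 62 * L.length + 85 * Eh / θ ^ 2 →
      (∀ i, a ≤ i → i < b → dist (x a) (x i) ≤ 10 * dist (x a) (x b) ∨
        dist (x a) (x (i + 1)) ≤ 10 * dist (x a) (x b) → r i ≤ 3 * δ * dist (x a) (x b)) →
      dist p0 (x a) + 10 * dist (x a) (x b) ≤ R0 →
      ∃ D F ρ : ℝ, 0 ≤ D ∧ ρ ≤ ρm ∧ (∀ p ξ : ℝ,
        (1 - 40 * δ ^ 2) * (log (dist (x a) (x b)) - ρ) + log δ + D + p * ρ +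
        ξ * (w (V Ev (2 ^ (N - L.length)) (seg θ σ L).1 (seg θ σ L).2) + F) ≤
          log (∑ i ∈ Finset.Ico a b, exp (p * log (r i) + ξ * w (g i)))) ∧
        -Bd + B1 * ρ ≤ w (V Ev (2 ^ N) σ.1 σ.2 + SS Ev θ N σ L) + F + lam * (Eh + D) := by
  induction n with
  | zero =>
    intro a b L Eh l h1 h2 _ _ _ _ _ _ h3
    rw [show a = b by omega, dist_self] at h3
    linarith
  | succ n ih =>
    intro a b L Eh l hn hab hT hL hl hl1 ha hb h40 hI hE hN hR
    obtain ⟨n1, n2⟩ := norm_near ha hb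
    rw [← hl] at n1 n2
    have l1 : 0 ≤ l := hl ▸ norm_nonneg _
    have tl : θ * l ≤ l / 100 := by nlinarith
    have kK : L.length < K := by
      by_contra c
      have := mul_le_mul_of_nonneg_right
        (pow_le_pow_of_le_one (a := (0.85 : ℝ)) (by norm_num) (by norm_num) (not_lt.1 c)) l00
      linarith
    have hab' : a < b := lt_of_le_of_ne hab fun e => by rw [e, dist_self] at h40; linarith
    obtain ⟨d, hd⟩ : ∃ d, d = dist (x a) (x b) := ⟨_, rfl⟩
    have d0 : 0 < d := by linarith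
    have δd : δ * d ≤ d / 100 := by nlinarith
    by_cases hs : ∃ i, a ≤ i ∧ i < b ∧ (dist (x a) (x i) ≤ 10 * d ∨
        dist (x a) (x (i + 1)) ≤ 10 * d) ∧ δ * d ≤ r i
    · obtain ⟨i, i1, i2, i3, i4⟩ := hs
      have i5 := hN i i1 i2 (hd ▸ i3)
      rw [← hd] at i5 n1 n2 hR ⊢
      have iT : i < T := by omega
      have r1 := hr i iT
      have i6 : dist (x a) (x i) ≤ 10.03 * d := by
        rcases i3 with c | c
        · linarith
        · have := dist_triangle (x a) (x (i + 1)) (x i)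
          rw [dist_comm (x (i + 1))] at this
          linarith [hx i iT]
      have i7 : 12 * d ≤ 12 / δ * r i := by
        rw [div_mul_eq_mul_div, le_div_iff₀ δ0]; linarith
      refine ⟨0, w (g i) - w (V Ev (2 ^ (N - L.length)) (seg θ σ L).1 (seg θ σ L).2),
        log (r i), le_rfl, hρ i iT, fun p ξ => ?_, ?_⟩
      · have s1 := Finset.single_le_sum (f := fun i => exp (p * log (r i) + ξ * w (g i)))
          (fun i _ => (exp_pos _).le) (Finset.mem_Ico.2 ⟨i1, i2⟩)
        have s2 := log_le_log (exp_pos _) s1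
        rw [log_exp] at s2
        rw [add_sub_cancel]
        have s3 := log_le_log (by positivity) i4
        rw [log_mul δ0.ne' d0.ne'] at s3
        have s4 : log (r i) ≤ log d := log_le_log (by linarith) (by linarith)
        nlinarith [mul_nonneg (sq_nonneg δ) (sub_nonneg.2 s4)]
      · have e1 : ‖(seg θ σ L).1 - x i‖ ≤ 12 / δ * r i := by
          have := norm_sub_le_norm_sub_add_norm_sub (seg θ σ L).1 (x a) (x i)
          rw [norm_sub_rev (seg θ σ L).1 (x a), ← dist_eq_norm (x a) (x i)] at this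
          linarith
        have e2 : ‖(seg θ σ L).2 - x i‖ ≤ 12 / δ * r i := by
          have := norm_sub_le_norm_sub_add_norm_sub (seg θ σ L).2 (x b) (x i)
          have t := dist_triangle (x b) (x a) (x i)
          rw [norm_sub_rev (seg θ σ L).2 (x b), ← dist_eq_norm (x b) (x i)] at this
          rw [dist_comm (x b) (x a), ← hd] at t
          linarith
        have s1 := hB L i Eh iT hL kK.le (hI.sq l1) (by rw [← hl]; linarith) (hl ▸ hl1) e1 e2
          (by linarith [dist_triangle p0 (x a) (x i), dist_nonneg (x := p0) (y := x a)]) hE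
        rw [map_add, map_sub] at s1
        rw [add_zero]
        linarith
    · have hs' : ∀ i, a ≤ i → i < b → dist (x a) (x i) ≤ 10 * d ∨
          dist (x a) (x (i + 1)) ≤ 10 * d → r i < δ * d := fun i i1 i2 i3 =>
        not_le.1 fun c => hs ⟨i, i1, i2, i3, c⟩
      have d100 : 100 ≤ d := by
        have := hs' a le_rfl hab' (Or.inl (by rw [dist_self]; positivity))
        linarith [hr a (by omega)]
      obtain ⟨c1, c2, τ, k1, k2, k3, t0, t2, a1, a2, b1, b2, d1, d2, hP⟩ :=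
        ah_split (x := x) (ε := δ * d) (by positivity) hab (fun i i1 i2 i3 =>
          (hx i (by omega)).trans (hs' i i1 i2 (by
            rw [← hd] at i3
            exact i3.imp (fun c => by linarith) fun c => by linarith)).le) (by linarith)
      obtain ⟨z, z1, z2, z3, z4, r0, r1, r2, r3⟩ :=
        geo_step h0 h1 hZ hl (by linarith) ha hb t0 t2 a1 a2 b1 b2 d1 d2
      rw [← hd] at a1 a2 b1 b2 hP hR ⊢
      replace hP := ah_pot d0 a1 a2 b1 b2 hP
      have lm : l ≤ ((2 ^ (N - (L.length + 1)) : ℕ) : ℝ) := by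
        have q1 := mul_le_mul_of_nonneg_right
          (pow_le_one₀ (a := (0.85 : ℝ)) (n := L.length) (by norm_num) (by norm_num)) l00
        have q2 : (2 : ℝ) ^ (N - K) ≤ 2 ^ (N - (L.length + 1)) :=
          pow_le_pow_right₀ one_le_two (by omega)
        push_cast
        linarith
      have key : ∀ (c : Bool) (a' b' : ℕ), b' - a' ≤ n → a' ≤ b' → a ≤ a' → b' ≤ b →
          ‖x a' - (chd θ (seg θ σ L) z c).1‖ ≤ θ * l / 4 →
          ‖x b' - (chd θ (seg θ σ L) z c).2‖ ≤ θ * l / 4 → 0.45 * d ≤ dist (x a') (x b') →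
          dist (x a') (x b') ≤ 0.8 * d → dist (x a) (x a') ≤ 1.8 * d →
          ∃ D F ρ : ℝ, 0 ≤ D ∧ ρ ≤ ρm ∧ (∀ p ξ : ℝ,
            (1 - 40 * δ ^ 2) * (log (dist (x a') (x b')) - ρ) + log δ + D + p * ρ +
            ξ * (w (V Ev (2 ^ (N - (L.length + 1))) (chd θ (seg θ σ L) z c).1
              (chd θ (seg θ σ L) z c).2) + F) ≤
              log (∑ i ∈ Finset.Ico a' b', exp (p * log (r i) + ξ * w (g i)))) ∧
            -Bd + B1 * ρ ≤ w (V Ev (2 ^ N) σ.1 σ.2 + (SS Ev θ N σ L +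
              nu Ev θ (2 ^ (N - (L.length + 1))) (seg θ σ L) z)) + F +
                lam * (Eh + τ ^ 2 / 10 + D) := by
        intro c a' b' e1 e2 e0 e3 e4 e5 e6 e7 e8
        have q := mul_le_mul_of_nonneg_left (z3 c) h0.le
        have q0 : 0 ≤ θ * l := by positivity
        refine ih a' b' ((z, c) :: L) (Eh + τ ^ 2 / 10) _ e1 e2 (by omega) (cons_mem z1 c hL) rfl
          ?_ (e4.trans ?_) (e5.trans ?_) (by linarith) ?_ ?_ (fun i i1 i2 i3 => ?_) ?_
        · refine (z4 c).trans ?_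
          rw [List.length_cons, pow_succ]
          linarith
        · simp only [seg]; linarith
        · simp only [seg]; linarith
        · have := inv_step h h0 (by positivity) z hl (by linarith) lm z3 z4 (z4 c) hI
          rw [← mul_add] at this
          exact this
        · simp only [hh, List.length_cons]
          push_cast
          rw [mul_add 85, add_div]
          linarith
        · have := hs' i (by omega) (by omega) (i3.imp
            (fun c => by linarith [dist_triangle (x a) (x a') (x i)])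
            fun c => by linarith [dist_triangle (x a) (x a') (x (i + 1))])
          nlinarith [mul_le_mul_of_nonneg_left e6 δ0.le]
        · linarith [dist_triangle p0 (x a) (x a')]
      obtain ⟨D1, F1, ρ1, p1, p4, p2, p3⟩ := key false a c1 (by omega) k1.le le_rfl (by omega) r0 r1
        a1 a2 (by rw [dist_self]; positivity)
      obtain ⟨D2, F2, ρ2, q1, q4, q2, q3⟩ := key true c2 b (by omega) k3.le (by omega) le_rfl r2 r3
        b1 b2 (by
          have := dist_triangle (x a) (x b) (x c2)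
          rw [dist_comm (x b), ← hd] at this
          linarith)
      refine ⟨τ ^ 2 / 10 + (D1 + D2) / 2, w (nu Ev θ (2 ^ (N - (L.length + 1))) (seg θ σ L) z) +
        (F1 + F2) / 2, (ρ1 + ρ2) / 2, by positivity, by linarith, fun p ξ => ?_, ?_⟩
      · have s := log_two_sum (f := fun i => exp (p * log (r i) + ξ * w (g i)))
          (fun i => exp_pos _) k1 k2 k3
        have e : 2 * 2 ^ (N - (L.length + 1)) = 2 ^ (N - L.length) := by
          rw [← pow_succ']; congr 1; omega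
        rw [nu, e, map_sub, map_smul, map_add, smul_eq_mul]
        linarith [p2 p ξ, q2 p ξ]
      · simp only [map_add] at p3 q3 ⊢
        linarith

end Pool.Agent.GLA
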