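import Pool.Agent.Lib.MP_438f30_pr.HAhB

/-! The trade-off between size and cost for chains with steps of several sizes. -/

namespace Pool.Agent.GLA

open Real MeasureTheory Pool.Agent.Lib.MP_a0a493_pr
open scoped InnerProductSpace

variable {H : Type*} [NormedAddCommGroup H] [InnerProductSpace ℝ H] {β : ℝ} {Ev : E 2 → H}

theorem ah_V {α c : ℝ} {E1 E2 : E 2 → H} (he : ∀ y, Ev y = E1 y + E2 y) (h : Ker α E1) {m : ℕ}
    (hm : 0 < m) {A B : E 2} (l1 : exp α ≤ ‖B - A‖) (l2 : ‖B - A‖ ≤ m) (g : H)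
    (hg : ∀ i ∈ Finset.range m, ‖g - E2 (sp m A B i)‖ ≤ c) : ‖g - V Ev m A B‖ ≤ √CG + c := by
  have m0 : (0 : ℝ) < m := Nat.cast_pos.2 hm
  have e : g - V Ev m A B =
      (m : ℝ)⁻¹ • ∑ i ∈ Finset.range m, (g - E2 (sp m A B i)) - V E1 m A B := by
    rw [Finset.sum_sub_distrib, Finset.sum_const, Finset.card_range, smul_sub, V, V,
      ← Nat.cast_smul_eq_nsmul ℝ, smul_smul, inv_mul_cancel₀ m0.ne', one_smul]
    simp only [he, Finset.sum_add_distrib, smul_add]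
    abel
  have a := (norm_sum_le _ _).trans (Finset.sum_le_sum hg)
  rw [Finset.sum_const, Finset.card_range, nsmul_eq_mul] at a
  have b : ‖(m : ℝ)⁻¹ • ∑ i ∈ Finset.range m, (g - E2 (sp m A B i))‖ ≤ c := by
    rw [norm_smul, Real.norm_of_nonneg (by positivity), inv_mul_le_iff₀ m0]
    exact a
  have d := le_sqrt_of_sq_le (V_sq h hm l1 l2)
  rw [e]
  linarith [norm_sub_le ((m : ℝ)⁻¹ • ∑ i ∈ Finset.range m, (g - E2 (sp m A B i))) (V E1 m A B)]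

/-- the vector of a branch ending at a leaf -/
noncomputable def ahU (Ev : E 2 → H) (θ : ℝ) (N : ℕ) (σ : Sg) (L : List St) (g : H) : H :=
  V Ev (2 ^ N) σ.1 σ.2 + SS Ev θ N σ L +
    (g - V Ev (2 ^ (N - L.length)) (seg θ σ L).1 (seg θ σ L).2)

theorem ah_trade (h : Ker β Ev) {s t C0 C1 δ ρm : ℝ} (hs : 10 ≤ s) {Z : ℤ}
    (hZ : 9 * s ^ 2 + 5 ≤ Z) {N K T : ℕ} (hKN : K ≤ N) {A B : E 2} (l3 : ‖B - A‖ ≤ 2 ^ (N - K))
    (l4 : 0.85 ^ K * ‖B - A‖ ≤ 39) (l5 : 50 ≤ ‖B - A‖) {x : ℕ → E 2} {r tt : ℕ → ℝ} {g : ℕ → H}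
    (δ0 : 0 < δ) (δ1 : δ ≤ 1 / 100) (hr : ∀ i < T, 1 ≤ r i) (hρ : ∀ i < T, log (r i) ≤ ρm)
    (hx : ∀ i < T, dist (x i) (x (i + 1)) ≤ r i) (hr' : ∀ i < T, r i ≤ δ * ‖B - A‖)
    (hA : ‖x 0 - A‖ ≤ (s ^ 2)⁻¹ * ‖B - A‖) (hB : ‖x T - B‖ ≤ (s ^ 2)⁻¹ * ‖B - A‖)
    (v0 : ‖V Ev (2 ^ N) A B‖ ≤ C0)
    (hg : ∀ i < T, ∀ (m : ℕ) (A' B' : E 2), 0 < m → r i ≤ ‖B' - A'‖ → ‖B' - A'‖ ≤ m →
      ‖A' - x i‖ ≤ 12 / δ * r i → ‖B' - x i‖ ≤ 12 / δ * r i → ‖g i - V Ev m A' B'‖ ≤ C1)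
    (ht : ∀ i < T, tt i ≤ t + 5 * (log ‖B - A‖ - log (r i))) (w : H →ₗ[ℝ] ℝ)
    (hw : ∀ (L : List St) (i : ℕ), i < T → L ∈ Ls Z L.length → L.length ≤ K →
      dist A (x i) ≤ 22 * ‖B - A‖ → w (-ahU Ev (s ^ 2)⁻¹ N (A, B) L (g i)) ≤
        s * ‖ahU Ev (s ^ 2)⁻¹ N (A, B) L (g i)‖ ^ 2 / 2 + (hh L + L.length + tt i) / s) :
    ∃ D ρ : ℝ, 0 ≤ D ∧ ρ ≤ ρm ∧ ∀ p ξ : ℝ, 0 ≤ ξ →
      (1 - 40 * δ ^ 2) * (log ‖B - A‖ - 1 - ρ) + log δ + D + p * ρ -
        ξ * (2 * s * (C0 ^ 2 + C1 ^ 2) + t / s + CA * (6 / s * (log ‖B - A‖ - ρ) + s ^ 3 * D)) ≤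
      log (∑ i ∈ Finset.range T, exp (p * log (r i) + ξ * w (g i))) := by
  have s0 : 0 < s := by linarith
  have G0 := CG_pos
  have θ1 : (s ^ 2)⁻¹ ≤ 1 / 100 := by
    rw [one_div]; exact inv_anti₀ (by norm_num) (by nlinarith)
  obtain ⟨l, hl⟩ : ∃ l, l = ‖B - A‖ := ⟨_, rfl⟩
  obtain ⟨n1, n2⟩ := norm_near hA hB
  have tl : (s ^ 2)⁻¹ * ‖B - A‖ ≤ ‖B - A‖ / 100 := by nlinarith
  obtain ⟨D, F, ρ, D0, ρ0, h1, h2⟩ := ah_ind h (θ := (s ^ 2)⁻¹) (by positivity) θ1 (Z := Z)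
    (by rwa [div_inv_eq_mul]) hKN (σ := (A, B)) (norm_nonneg _) l3 l4 (g := g) δ0 δ1 hr hρ hx w
    (Bd := 2 * s * (C0 ^ 2 + C1 ^ 2) + t / s + CA * (6 / s * log ‖B - A‖)) (B1 := CA * (6 / s))
    (lam := 85 * (30 * CG + 1) * s ^ 3) (R0 := 11 * ‖B - A‖) (p0 := A)
    (fun L i Eh hi hL hk e1 e2 e3 e4 e5 e6 e7 => by
      have g0 := hw L i hi hL hk (by linarith)
      have r1 := hr i hi
      have lm : ‖(seg (s ^ 2)⁻¹ (A, B) L).2 - (seg (s ^ 2)⁻¹ (A, B) L).1‖ ≤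
          ((2 ^ (N - L.length) : ℕ) : ℝ) := by
        have q1 := mul_le_mul_of_nonneg_right (pow_le_one₀ (a := (0.85 : ℝ)) (n := L.length)
          (by norm_num) (by norm_num)) (norm_nonneg (B - A))
        have q2 : (2 : ℝ) ^ (N - K) ≤ 2 ^ (N - L.length) :=
          pow_le_pow_right₀ one_le_two (by omega)
        push_cast
        linarith
      have e8 := hg i hi _ _ _ (by positivity) e2 lm e4 e5
      have g1 : ‖ahU Ev (s ^ 2)⁻¹ N (A, B) L (g i)‖ ^ 2 ≤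
          3 * (C0 ^ 2 + 20 * CG * ((s ^ 2)⁻¹ * hh L) + C1 ^ 2) :=
        (sq_three _ _ _).trans (by
          linarith [pow_le_pow_left₀ (norm_nonneg _) e8 2, pow_le_pow_left₀ (norm_nonneg _) v0 2])
      have g2 := mul_le_mul_of_nonneg_left g1 s0.le
      have g3 : s * (3 * (C0 ^ 2 + 20 * CG * ((s ^ 2)⁻¹ * hh L) + C1 ^ 2)) =
          3 * (s * (C0 ^ 2 + C1 ^ 2)) + 60 * CG * (hh L / s) := by field_simp; ring
      obtain ⟨U, hU⟩ : ∃ U, U = log ‖B - A‖ - log (r i) := ⟨_, rfl⟩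
      have k0 : (L.length : ℝ) ≤ 7 * U := by
        have a := log_le_log (by linarith) (e2.trans e3)
        rw [log_mul (by positivity) (by linarith), log_pow] at a
        have b := log_le_sub_one_of_pos (x := 0.85) (by norm_num)
        nlinarith [Nat.cast_nonneg (α := ℝ) L.length]
      have U0 : 0 ≤ U / s := div_nonneg (by linarith [Nat.cast_nonneg (α := ℝ) L.length]) s0.le
      have g4 : hh L / s ≤ 434 * (U / s) + 85 * (s ^ 3 * Eh) := by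
        have : 434 * (U / s) + 85 * (s ^ 3 * Eh) = (434 * U + 85 * Eh / (s ^ 2)⁻¹ ^ 2) / s := by
          field_simp
        rw [this]
        exact div_le_div_of_nonneg_right (by linarith) s0.le
      have g5 := mul_le_mul_of_nonneg_left g4 (show 0 ≤ 30 * CG + 1 by positivity)
      have g6 : (hh L + L.length + tt i) / s ≤ hh L / s + t / s + 12 * (U / s) := by
        have : hh L / s + t / s + 12 * (U / s) = (hh L + t + 12 * U) / s := by ring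
        rw [this]
        exact div_le_div_of_nonneg_right (by linarith [ht i hi]) s0.le
      have g7 : 0 ≤ CG * (U / s) := by positivity
      have g8 : 0 ≤ s * (C0 ^ 2 + C1 ^ 2) := by positivity
      have g9 : CA * (6 / s) * log (r i) = CA * (6 / s * log ‖B - A‖) - 6 * CA * (U / s) := by
        rw [hU]; ring
      rw [map_neg, ahU] at g0
      rw [ahU] at g2
      rw [g9]
      unfold CA
      linarith) T 0 T [] 0 _ (by omega) (by omega) le_rfl (by simp [Ls]) rfl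
    (by simp [seg]) hA hB (by linarith) (by simpa [SS, hh] using inv_zero _) (by simp [hh])
    (fun i _ hi _ => by nlinarith [hr' i hi])
    (by rw [dist_comm, dist_eq_norm]; linarith)
  refine ⟨D, ρ, D0, ρ0, fun p ξ hξ => ?_⟩
  have a := h1 p ξ
  have b : log ‖B - A‖ - 1 ≤ log (dist (x 0) (x T)) := by
    have c := log_le_log (by linarith) (show ‖B - A‖ / 2 ≤ dist (x 0) (x T) by linarith)
    rw [log_div (by linarith) two_ne_zero] at c
    linarith [log_two_lt_d9]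
  simp only [SS, seg, add_zero, zero_add, List.length_nil, Nat.sub_zero] at a h2
  rw [Finset.range_eq_Ico]
  have c : 85 * (30 * CG + 1) * s ^ 3 * D ≤ CA * (s ^ 3 * D) := by
    rw [mul_assoc]
    exact mul_le_mul_of_nonneg_right (by unfold CA; norm_num) (by positivity)
  have d := mul_le_mul_of_nonneg_left b (show 0 ≤ 1 - 40 * δ ^ 2 by nlinarith)
  nlinarith [mul_le_mul_of_nonneg_left h2 hξ, mul_le_mul_of_nonneg_left c hξ]

theorem ah_union {Ω ι : Type*} [MeasurableSpace Ω] {P : Measure Ω} [IsProbabilityMeasure P]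
    {W : H →ₗ[ℝ] (Ω → ℝ)} (h : Iso P W) (u : List St → ι → H) (K : ℕ) (Z : ℤ) (J : Finset ι)
    (t : ι → ℝ) {s : ℝ} (hs : 0 < s) :
    P.real {ω | ∃ L : List St, ∃ j ∈ J, L ∈ Ls Z L.length ∧ L.length ≤ K ∧
      s * ‖u L j‖ ^ 2 / 2 + (hh L + L.length + t j) / s < W (-u L j) ω} ≤
      2 * ∑ j ∈ J, exp (-t j) := by
  have a := union_le h ((Finset.range (K + 1)).sigma fun k => Ls Z k ×ˢ J)
    (fun i => u i.2.1 i.2.2) (fun i => hh i.2.1 + i.1 + t i.2.2) hs 0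
  refine (measureReal_mono ?_).trans (a.trans ?_)
  · rintro ω ⟨L, j, hj, hL, hk, hω⟩
    exact ⟨⟨L.length, L, j⟩, Finset.mem_sigma.2 ⟨Finset.mem_range.2 (Nat.lt_succ_of_le hk),
      Finset.mem_product.2 ⟨hL, hj⟩⟩, by simpa using hω.le⟩
  · rw [neg_zero, exp_zero, one_mul, Finset.sum_sigma]
    have S0 : 0 ≤ ∑ j ∈ J, exp (-t j) := Finset.sum_nonneg fun _ _ => (exp_pos _).le
    have b : ∀ k ∈ Finset.range (K + 1), ∑ i ∈ Ls Z k ×ˢ J, exp (-(hh i.1 + k + t i.2)) ≤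
        exp (-1) ^ k * ∑ j ∈ J, exp (-t j) := by
      intro k _
      rw [Finset.sum_product]
      simp only [neg_add, exp_add, ← Finset.sum_mul, ← Finset.mul_sum]
      rw [← exp_nat_mul, mul_neg_one]
      exact mul_le_mul_of_nonneg_right (mul_le_of_le_one_left (exp_pos _).le (kraft Z k)) S0
    refine (Finset.sum_le_sum b).trans ?_
    rw [← Finset.sum_mul]
    have r1 : exp (-1) ≤ 1 / 2 := by
      rw [exp_neg, one_div]; exact inv_anti₀ two_pos (by linarith [add_one_le_exp 1])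
    refine mul_le_mul_of_nonneg_right ((geo_le (exp_pos _).le (by linarith) _ (g := id)
      (Set.injOn_id _)).trans ?_) S0
    rw [inv_le_comm₀ (by linarith) two_pos]
    linarith

end Pool.Agent.GLA
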