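import Pool.Agent.Lib.MP_438f30_pr.HAhC
import Pool.Agent.Lib.MP_438f30_pr.Base

/-! Chains of cells of several sizes cannot be both thin and cheap. -/

namespace Pool.Agent.GLA

open Real MeasureTheory Filter Topology Pool.Agent.Lib.MP_a0a493_pr Pool.Agent.GL

/-- the band field in units of the finest scale -/
noncomputable def ahE (β a : ℝ) (y : E 2) : HG 2 := EG (-β) (a - β) (exp (-β) • y)

theorem ah_ker (β : ℝ) {a : ℝ} (ha : 0 ≤ a) : Ker a (ahE β a) := fun x y => by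
  have := inner_EG_shift ha (-β) x y 0
  rw [zero_add, add_zero, add_zero, ← sub_eq_add_neg, inner_EG 0] at this
  exact this

theorem ah_cell {β κ R : ℝ} (h0 : 0 ≤ κ) (h1 : κ ≤ β) {m : ℕ} (hm : 0 < m) {A B y : E 2}
    (l1 : exp (β - κ) ≤ ‖B - A‖) (l2 : ‖B - A‖ ≤ m) (hA : ‖A - exp β • y‖ ≤ R * exp (β - κ))
    (hB : ‖B - exp β • y‖ ≤ R * exp (β - κ)) :
    ‖EG (-κ) 0 y - V (ahE β β) m A B‖ ≤ √CG + R := by
  refine ah_V (E2 := fun u => EG (-κ) 0 (exp (-β) • u)) (fun u => ?_)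
    (ah_ker β (sub_nonneg.2 h1)) hm l1 l2 _ fun i hi => ?_
  · rw [ahE, ahE, sub_self, show β - κ - β = -κ by ring, EG_add (by linarith) (by linarith)]
  · have a := norm_EG_sub (show -κ ≤ 0 by linarith) y (exp (-β) • sp m A B i)
    have b : ‖sp m A B i - exp β • y‖ ≤ R * exp (β - κ) := by
      simpa [sp] using sp_sub hi (A := exp β • y) (B := exp β • y) hA hB
    have c : y - exp (-β) • sp m A B i = exp (-β) • (exp β • y - sp m A B i) := by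
      rw [smul_sub, smul_smul, ← exp_add, neg_add_cancel, exp_zero, one_smul]
    rw [c, norm_smul, Real.norm_of_nonneg (exp_pos _).le, norm_sub_rev (exp β • y), neg_neg,
      ← mul_assoc, ← exp_add] at a
    have d := mul_le_mul_of_nonneg_left b (exp_pos (κ + -β)).le
    rw [mul_left_comm, ← exp_add, show κ + -β + (β - κ) = 0 by ring, exp_zero, mul_one] at d
    have R0 : 0 ≤ R := le_trans (by positivity) d
    refine abs_le_of_sq_le_sq' ?_ R0 |>.2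
    nlinarith [pow_le_pow_left₀ (by positivity) d 2, sq_nonneg R]

theorem ah_num {U D κ γ q a b m C2 C3 : ℝ} (U0 : 0 ≤ U) (D0 : 0 ≤ D) (b0 : 0 ≤ b) (m0 : 0 < m)
    (hm : 2 * m = 1 - q - (a + b * γ)) (hκ : κ * (1 + b) ≤ m)
    (h1 : (1 - κ) * U + D ≤ (1 + γ) * U + C2)
    (h2 : (1 - κ) * U + D - (a * U + b * D) ≤ q * U + C3) : U ≤ (C3 + b * C2) / m := by
  rw [le_div_iff₀ m0]
  nlinarith [mul_le_mul_of_nonneg_left h1 b0, mul_le_mul_of_nonneg_left hκ U0]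

theorem ah_det {s ξ q γ c : ℝ} (M : ℝ) {A B : E 2} (hs : 10 ≤ s) (hξ : 0 ≤ ξ) (hc : 1 ≤ c)
    (hAB : A ≠ B) (hq : ξ * CA * (6 / s + s ^ 3 * γ) < 1 - q) :
    ∃ ν0 : ℝ, ∀ ν β : ℝ, ν0 ≤ ν → ν ≤ β → ∃ N K : ℕ, ∀ (T : ℕ) (x y : ℕ → E 2) (κ : ℕ → ℝ)
      (w : HG 2 →ₗ[ℝ] ℝ), ‖x 0 - A‖ ≤ ‖B - A‖ / s ^ 2 → ‖x T - B‖ ≤ ‖B - A‖ / s ^ 2 →
      (∀ i < T, ν ≤ κ i ∧ κ i ≤ β ∧ dist (x i) (x (i + 1)) ≤ c * exp (-κ i) ∧
        dist (x i) (y i) ≤ c * exp (-κ i)) →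
      ∑ i ∈ Finset.range T, exp (-(1 + γ) * κ i) ≤ M →
      ∑ i ∈ Finset.range T, exp (-q * κ i + ξ * w (EG (-κ i) 0 (y i))) ≤ M →
      ∃ (L : List St) (i : ℕ), i < T ∧ L ∈ Ls ⌈9 * s ^ 2 + 5⌉ L.length ∧ L.length ≤ K ∧
        dist A (y i) ≤ 23 * ‖B - A‖ ∧
        s * ‖ahU (ahE β β) (s ^ 2)⁻¹ N (exp β • A, exp β • B) L (EG (-κ i) 0 (y i))‖ ^ 2 / 2 +
          (hh L + L.length + 3 * κ i) / s <
        w (-ahU (ahE β β) (s ^ 2)⁻¹ N (exp β • A, exp β • B) L (EG (-κ i) 0 (y i))) := by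
  have s0 : 0 < s := by linarith
  have C0 := CA_pos
  obtain ⟨l, hl⟩ : ∃ l, l = ‖B - A‖ := ⟨_, rfl⟩
  have l0 : 0 < l := hl ▸ norm_pos_iff.2 (sub_ne_zero.2 hAB.symm)
  obtain ⟨b, hb⟩ : ∃ b, b = ξ * CA * s ^ 3 := ⟨_, rfl⟩
  have b0 : 0 ≤ b := by rw [hb]; positivity
  obtain ⟨m, hm⟩ : ∃ m, 2 * m = 1 - q - (ξ * CA * (6 / s) + b * γ) := ⟨_, mul_div_cancel₀ _ two_ne_zero⟩
  have m0 : 0 < m := by rw [hb] at hm; linarith
  obtain ⟨δ, δ0, δ1, δ2⟩ : ∃ δ : ℝ, 0 < δ ∧ δ ≤ 1 / 100 ∧ 40 * δ ^ 2 * (1 + b) ≤ m := by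
    refine ⟨min (1 / 100) (m / (1 + b)), by positivity, min_le_left _ _, ?_⟩
    have a := min_le_left (1 / 100) (m / (1 + b))
    have a' := min_le_right (1 / 100) (m / (1 + b))
    have a0 : 0 < min (1 / 100) (m / (1 + b)) := by positivity
    rw [le_div_iff₀ (by positivity)] at a'
    nlinarith [mul_pos a0 (show 0 < 1 + b by positivity)]
  obtain ⟨C1, hC1⟩ : ∃ C1, C1 = 2 * s * ((‖EG (-|log l|) 0 A‖ + (√CG + l * exp |log l|)) ^ 2 +
    (√CG + 13 / δ * c) ^ 2) + 5 * (log c - log l) / s := ⟨_, rfl⟩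
  obtain ⟨C2, hC2⟩ : ∃ C2, C2 = 1 - 40 * δ ^ 2 - log δ + (1 + γ) * (log c - log l) + log M :=
    ⟨_, rfl⟩
  obtain ⟨C3, hC3⟩ : ∃ C3, C3 = 1 - 40 * δ ^ 2 - log δ + ξ * C1 + q * (log c - log l) + log M :=
    ⟨_, rfl⟩
  refine ⟨max (max |log l| (log c - log l - log δ)) ((C3 + b * C2) / m + log c - log l + 1),
    fun ν β hν hβ => ?_⟩
  simp only [max_le_iff] at hν
  obtain ⟨⟨ν1, ν2⟩, ν3⟩ := hν
  have ν0 : 0 ≤ ν := (abs_nonneg _).trans ν1
  have eβ := exp_pos β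
  have eN : ‖exp β • B - exp β • A‖ = exp β * l := by
    rw [← smul_sub, norm_smul, Real.norm_of_nonneg eβ.le, hl]
  obtain ⟨K, hK⟩ := exists_pow_lt_of_lt_one (show 0 < 39 / (exp β * l) by positivity)
    (show (0.85 : ℝ) < 1 by norm_num)
  rw [lt_div_iff₀ (by positivity)] at hK
  obtain ⟨j, hj⟩ := pow_unbounded_of_one_lt (exp β * l) (one_lt_two (α := ℝ))
  refine ⟨K + j, K, fun T x y κ w hA hB hx S1 S2 => ?_⟩
  by_contra hc'
  push Not at hc'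
  have c0 : 0 < c := by linarith
  have lc := log_nonneg hc
  have lδ : log δ ≤ 0 := log_nonpos δ0.le (by linarith)
  have k1 : c * exp (-ν) ≤ δ * l := by
    rw [← exp_log c0, ← exp_log δ0, ← exp_log l0, ← exp_add, ← exp_add]
    exact exp_le_exp.2 (by linarith)
  have k2 : ∀ i < T, c * exp (-κ i) ≤ δ * l := fun i hi =>
    (mul_le_mul_of_nonneg_left (exp_le_exp.2 (neg_le_neg (hx i hi).1)) c0.le).trans k1
  have k3 : 100 ≤ exp β * l := by
    have a : exp β * exp (-ν) = exp (β - ν) := by rw [← exp_add, sub_eq_add_neg]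
    have a1 := one_le_exp (sub_nonneg.2 hβ)
    nlinarith [mul_le_mul_of_nonneg_left k1 eβ.le, mul_le_mul_of_nonneg_left δ1 (mul_pos eβ l0).le]
  have k4 : ∀ i, log (c * exp (β - κ i)) = log c + (β - κ i) := fun i => by
    rw [log_mul c0.ne' (exp_pos _).ne', log_exp]
  have k5 : ∀ i, c * exp (β - κ i) = exp β * (c * exp (-κ i)) := fun i => by
    rw [sub_eq_add_neg, exp_add]; ring
  have k6 : ∀ u v : E 2, ‖exp β • u - exp β • v‖ = exp β * dist u v := fun u v => by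
    rw [← smul_sub, norm_smul, Real.norm_of_nonneg eβ.le, dist_eq_norm]
  have k7 : log (exp β * l) = β + log l := by rw [log_mul eβ.ne' l0.ne', log_exp]
  have k8 : ∀ u v : E 2, ‖u - v‖ ≤ ‖B - A‖ / s ^ 2 →
      ‖exp β • u - exp β • v‖ ≤ (s ^ 2)⁻¹ * ‖exp β • B - exp β • A‖ := fun u v h => by
    rw [k6, eN, dist_eq_norm, mul_left_comm, hl, ← div_eq_inv_mul]
    exact mul_le_mul_of_nonneg_left h eβ.le
  have lN : exp β * l ≤ ((2 ^ (K + j) : ℕ) : ℝ) := by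
    push_cast
    exact hj.le.trans (pow_le_pow_right₀ one_le_two (by omega))
  obtain ⟨D, ρ, D0, ρ0, hD⟩ := ah_trade (ah_ker β (ν0.trans hβ)) (s := s)
    (t := 5 * (log c - log l)) (C0 := ‖EG (-|log l|) 0 A‖ + (√CG + l * exp |log l|))
    (C1 := √CG + 13 / δ * c) (ρm := log c + (β - ν)) hs (Int.le_ceil _) (N := K + j) (K := K)
    (T := T) (by omega) (A := exp β • A) (B := exp β • B) (by rw [eN, Nat.add_sub_cancel_left]; exact hj.le)
    (by rw [eN]; exact hK.le) (by rw [eN]; linarith) (x := fun i => exp β • x i)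
    (r := fun i => c * exp (β - κ i)) (tt := fun i => 3 * κ i) (g := fun i => EG (-κ i) 0 (y i))
    δ0 δ1 (fun i hi => one_le_mul_of_one_le_of_one_le hc (one_le_exp (sub_nonneg.2 (hx i hi).2.1)))
    (fun i hi => by rw [k4]; linarith [(hx i hi).1])
    (fun i hi => by
      rw [dist_eq_norm, k6, k5]
      exact mul_le_mul_of_nonneg_left (hx i hi).2.2.1 eβ.le)
    (fun i hi => by
      rw [eN, k5, mul_left_comm δ]
      exact mul_le_mul_of_nonneg_left (k2 i hi) eβ.le)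
    (k8 _ _ hA) (k8 _ _ hB)
    (by
      have e : l * exp |log l| * exp (β - |log l|) = exp β * l := by
        rw [mul_assoc, ← exp_add, add_sub_cancel, mul_comm]
      have a := ah_cell (abs_nonneg (log l)) (ν1.trans hβ) (m := 2 ^ (K + j)) (by positivity)
        (A := exp β • A) (B := exp β • B) (y := A) (R := l * exp |log l|)
        (by
          rw [eN, ← exp_log l0, ← exp_add, log_exp]
          exact exp_le_exp.2 (by linarith [neg_abs_le (log l)]))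
        (by rw [eN]; exact lN) (by rw [sub_self, norm_zero]; positivity) (by rw [eN, e])
      have := norm_sub_le (EG (-|log l|) 0 A)
        (EG (-|log l|) 0 A - V (ahE β β) (2 ^ (K + j)) (exp β • A) (exp β • B))
      rw [sub_sub_cancel] at this
      linarith)
    (fun i hi m A' B' m1 e1 e2 e3 e4 => by
      have a : ‖exp β • x i - exp β • y i‖ ≤ c * exp (β - κ i) := by
        rw [k6, k5]
        exact mul_le_mul_of_nonneg_left (hx i hi).2.2.2 eβ.le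
      have r0 : 0 < c * exp (β - κ i) := by positivity
      have a1 : 12 / δ * (c * exp (β - κ i)) + c * exp (β - κ i) ≤ 13 / δ * c * exp (β - κ i) := by
        have : 1 ≤ 1 / δ := by rw [le_div_iff₀ δ0]; linarith
        have e : 13 / δ * c * exp (β - κ i) =
          12 / δ * (c * exp (β - κ i)) + 1 / δ * (c * exp (β - κ i)) := by ring
        nlinarith
      refine ah_cell (ν0.trans (hx i hi).1) (hx i hi).2.1 m1
        ((le_mul_of_one_le_left (exp_pos _).le hc).trans e1) e2 ?_ ?_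
      · linarith [norm_sub_le_norm_sub_add_norm_sub A' (exp β • x i) (exp β • y i)]
      · linarith [norm_sub_le_norm_sub_add_norm_sub B' (exp β • x i) (exp β • y i)])
    (fun i hi => by rw [eN, k4, k7]; linarith [(hx i hi).1]) w
    (fun L i hi hL hk hd => hc' L i hi hL hk (by
      rw [dist_eq_norm, k6, eN, mul_left_comm] at hd
      have a := le_of_mul_le_mul_left hd eβ
      rw [← hl]
      nlinarith [dist_triangle A (x i) (y i), (hx i hi).2.2.2, k2 i hi]))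
  have T0 : 0 < T := Nat.pos_of_ne_zero fun e => by
    have a := norm_sub_le_norm_sub_add_norm_sub B (x 0) A
    rw [e, norm_sub_rev] at hB
    have : ‖B - A‖ / s ^ 2 ≤ ‖B - A‖ / 100 :=
      div_le_div_of_nonneg_left (norm_nonneg _) (by norm_num) (by nlinarith)
    linarith
  have fin : ∀ (p : ℝ) (f : ℕ → ℝ), ∑ i ∈ Finset.range T, exp (-p * κ i + f i) ≤ M →
      log (∑ i ∈ Finset.range T, exp (p * log (c * exp (β - κ i)) + f i)) ≤
        p * (log c + β) + log M := fun p f h => by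
    have e : ∀ i, exp (p * log (c * exp (β - κ i)) + f i) =
        exp (p * (log c + β)) * exp (-p * κ i + f i) := fun i => by
      rw [k4, ← exp_add]; congr 1; ring
    have p0 := Finset.sum_pos (fun i _ => exp_pos (-p * κ i + f i))
      (Finset.nonempty_range_iff.2 T0.ne')
    simp only [e, ← Finset.mul_sum]
    rw [log_mul (exp_pos _).ne' p0.ne', log_exp]
    linarith [log_le_log p0 h]
  have a1 := (hD (1 + γ) 0 le_rfl).trans (fin (1 + γ) _ (by simpa using S1))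
  have a2 := (hD q ξ hξ).trans (fin q _ S2)
  rw [eN, k7] at a1 a2
  rw [← hC1] at a2
  have := ah_num (U := β + log l - ρ) (D := D) (κ := 40 * δ ^ 2) (γ := γ) (q := q) (C2 := C2)
    (C3 := C3) (by linarith) D0 b0 m0 hm δ2 (by rw [hC2]; linarith) (by rw [hC3, hb]; linarith)
  linarith

theorem ah_cells (R n J : ℕ) (hR : 1 ≤ R) :
    ∑ j ∈ (Finset.Icc n J).sigma fun k => box 2 (R * 2 ^ k), exp (-(3 * (j.1 * log 2))) ≤
      50 * R ^ 2 * (1 / 2) ^ n := by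
  rw [Finset.sum_sigma]
  have a : ∀ k ∈ Finset.Icc n J, ∑ _z ∈ box 2 (R * 2 ^ k), exp (-(3 * (k * log 2))) ≤
      25 * R ^ 2 * (1 / 2) ^ n * (1 / 2 : ℝ) ^ (k - n) := fun k hk => by
    have p2 : (1 : ℝ) ≤ 2 ^ k := one_le_pow₀ one_le_two
    have R1 : (1 : ℝ) ≤ R := by exact_mod_cast hR
    have e : exp (-(3 * (k * log 2))) = ((2 ^ k) ^ 3)⁻¹ := by
      rw [exp_neg, ← exp_jlog, ← exp_nat_mul]; norm_num
    rw [Finset.sum_const, card_box, nsmul_eq_mul, e, mul_assoc (25 * _), ← pow_add,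
      Nat.add_sub_cancel' (Finset.mem_Icc.1 hk).1, one_div, inv_pow]
    have c : (((4 * (R * 2 ^ k) + 1) ^ 2 : ℕ) : ℝ) ≤ (5 * (R * 2 ^ k)) ^ 2 := by
      push_cast
      exact pow_le_pow_left₀ (by positivity) (by nlinarith) 2
    refine (mul_le_mul_of_nonneg_right c (by positivity)).trans (le_of_eq ?_)
    field_simp
    norm_num
  refine (Finset.sum_le_sum a).trans ?_
  rw [← Finset.mul_sum]
  have g := geo_le (r := 1 / 2) (by norm_num) (by norm_num) (Finset.Icc n J) (g := fun k => k - n)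
    fun u hu v hv h => by
      have := (Finset.mem_Icc.1 hu).1
      have := (Finset.mem_Icc.1 hv).1
      simp only at h
      omega
  refine (mul_le_mul_of_nonneg_left g (by positivity)).trans (le_of_eq ?_)
  ring

theorem ah (s ξ q γ c M : ℝ) (A B : E 2) (hs : 10 ≤ s) (hξ : 0 ≤ ξ) (_hγ : 0 ≤ γ) (hc : 1 ≤ c)
    (hAB : A ≠ B) (hq : ξ * CA * (6 / s + s ^ 3 * γ) < 1 - q) {Ω : Type*} [MeasurableSpace Ω]
    {P : Measure Ω} [IsProbabilityMeasure P] {W : HG 2 →ₗ[ℝ] (Ω → ℝ)} (hW : Iso P W) :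
    Tendsto (fun n : ℕ => P {ω | ∃ (T : ℕ) (x : ℕ → E 2) (k : ℕ → ℕ) (z : ℕ → Zd 2),
      ‖x 0 - A‖ ≤ ‖B - A‖ / s ^ 2 ∧ ‖x T - B‖ ≤ ‖B - A‖ / s ^ 2 ∧
      (∀ i < T, n ≤ k i ∧ dist (x i) (x (i + 1)) ≤ c / 2 ^ k i ∧
        dist (x i) (((2 : ℝ) ^ k i)⁻¹ • pt (z i)) ≤ c / 2 ^ k i) ∧
      ∑ i ∈ Finset.range T, exp (-(1 + γ) * (k i * log 2)) ≤ M ∧
      ∑ i ∈ Finset.range T, exp (-q * (k i * log 2) +
        ξ * W (EG (-(k i * log 2)) 0 (((2 : ℝ) ^ k i)⁻¹ • pt (z i))) ω) ≤ M}) atTop (𝓝 0) := by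
  obtain ⟨ν0, h⟩ := ah_det (γ := γ) M hs hξ hc hAB hq
  have L0 := log_pos (one_lt_two (α := ℝ))
  obtain ⟨n0, hn0⟩ := exists_nat_ge (ν0 / log 2)
  obtain ⟨R, hR⟩ := exists_nat_ge (‖A‖ + 23 * ‖B - A‖ + 1)
  have R1 : 1 ≤ R := by
    have : (1 : ℝ) ≤ R := by linarith [norm_nonneg A, norm_nonneg (B - A)]
    exact_mod_cast this
  have lim : Tendsto (fun n : ℕ => ENNReal.ofReal (2 * (50 * (R : ℝ) ^ 2 * (1 / 2) ^ n))) atTop
      (𝓝 0) := by
    have := ENNReal.tendsto_ofReal (((tendsto_pow_atTop_nhds_zero_of_lt_one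
      (r := (1 / 2 : ℝ)) (by norm_num) (by norm_num)).const_mul (50 * (R : ℝ) ^ 2)).const_mul 2)
    rwa [mul_zero, mul_zero, ENNReal.ofReal_zero] at this
  refine tendsto_of_tendsto_of_tendsto_of_le_of_le' tendsto_const_nhds lim
    (Eventually.of_forall fun n => zero_le) ?_
  filter_upwards [eventually_ge_atTop n0] with n hn
  have n1 : ν0 ≤ n * log 2 := by
    rw [div_le_iff₀ L0] at hn0
    exact hn0.trans (mul_le_mul_of_nonneg_right (Nat.cast_le.2 hn) L0.le)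
  let S : ℕ → Set Ω := fun J => {ω | ∃ (T : ℕ) (x : ℕ → E 2) (k : ℕ → ℕ) (z : ℕ → Zd 2),
      ‖x 0 - A‖ ≤ ‖B - A‖ / s ^ 2 ∧ ‖x T - B‖ ≤ ‖B - A‖ / s ^ 2 ∧
      (∀ i < T, (n ≤ k i ∧ k i ≤ n + J) ∧ dist (x i) (x (i + 1)) ≤ c / 2 ^ k i ∧
        dist (x i) (((2 : ℝ) ^ k i)⁻¹ • pt (z i)) ≤ c / 2 ^ k i) ∧
      ∑ i ∈ Finset.range T, exp (-(1 + γ) * (k i * log 2)) ≤ M ∧
      ∑ i ∈ Finset.range T, exp (-q * (k i * log 2) +
        ξ * W (EG (-(k i * log 2)) 0 (((2 : ℝ) ^ k i)⁻¹ • pt (z i))) ω) ≤ M}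
  have mono : Monotone S := fun J J' hJ ω ⟨T, x, k, z, h1, h2, h3, h4⟩ =>
    ⟨T, x, k, z, h1, h2, fun i hi => ⟨⟨(h3 i hi).1.1, (h3 i hi).1.2.trans (by omega)⟩,
      (h3 i hi).2⟩, h4⟩
  refine (measure_mono (t := ⋃ J, S J) ?_).trans ?_
  · rintro ω ⟨T, x, k, z, h1, h2, h3, h4⟩
    refine Set.mem_iUnion.2 ⟨(Finset.range T).sup k, T, x, k, z, h1, h2,
      fun i hi => ⟨⟨(h3 i hi).1, ?_⟩, (h3 i hi).2⟩, h4⟩
    exact (Finset.le_sup (f := k) (Finset.mem_range.2 hi)).trans (Nat.le_add_left _ _)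
  rw [mono.measure_iUnion]
  refine iSup_le fun J => ?_
  obtain ⟨β, hβ⟩ : ∃ β : ℝ, β = (n + J : ℕ) * log 2 := ⟨_, rfl⟩
  obtain ⟨N, K, hd⟩ := h (n * log 2) β n1 (hβ ▸ mul_le_mul_of_nonneg_right (Nat.cast_le.2
    (Nat.le_add_right _ _)) L0.le)
  have u := ah_union hW (ι := Σ _ : ℕ, Zd 2) (fun L j => ahU (ahE β β) (s ^ 2)⁻¹ N
    (exp β • A, exp β • B) L (EG (-(j.1 * log 2)) 0 (((2 : ℝ) ^ j.1)⁻¹ • pt j.2))) K
    ⌈9 * s ^ 2 + 5⌉ ((Finset.Icc n (n + J)).sigma fun k => box 2 (R * 2 ^ k))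
    (fun j => 3 * (j.1 * log 2)) (s := s) (by linarith)
  rw [← ofReal_measureReal (measure_ne_top P _)]
  refine ENNReal.ofReal_le_ofReal ((measureReal_mono ?_).trans (u.trans
    (mul_le_mul_of_nonneg_left (ah_cells R n _ R1) two_pos.le)))
  rintro ω ⟨T, x, k, z, h1, h2, h3, h4, h5⟩
  have e : ∀ i, c / 2 ^ k i = c * exp (-(k i * log 2)) := fun i => by
    rw [exp_neg, exp_jlog, div_eq_mul_inv]
  obtain ⟨L, i, hi, hL, hk, hy, hw⟩ := hd T x (fun i => ((2 : ℝ) ^ k i)⁻¹ • pt (z i))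
    (fun i => k i * log 2) ((LinearMap.proj ω).comp W) h1 h2 (fun i hi =>
      ⟨mul_le_mul_of_nonneg_right (Nat.cast_le.2 (h3 i hi).1.1) L0.le,
        hβ ▸ mul_le_mul_of_nonneg_right (Nat.cast_le.2 (h3 i hi).1.2) L0.le,
        e i ▸ (h3 i hi).2.1, e i ▸ (h3 i hi).2.2⟩) h4 h5
  refine ⟨L, ⟨k i, z i⟩, Finset.mem_sigma.2 ⟨Finset.mem_Icc.2 (h3 i hi).1, mem_box.2 fun j => ?_⟩,
    hL, hk, hw⟩
  have p2 : (0 : ℝ) < 2 ^ k i := by positivity
  have a := norm_le_norm_add_norm_sub' (((2 : ℝ) ^ k i)⁻¹ • pt (z i)) A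
  rw [← dist_eq_norm, dist_comm, norm_smul, Real.norm_of_nonneg (by positivity),
    inv_mul_le_iff₀ p2] at a
  have b := abs_le_norm2 (pt (z i)) j
  rw [pt_apply] at b
  have : |(z i j : ℝ)| ≤ 2 * (R * 2 ^ k i) := by
    nlinarith [norm_nonneg A, norm_nonneg (B - A), mul_le_mul_of_nonneg_left hy p2.le]
  exact_mod_cast this

end Pool.Agent.GLA
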