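import Pool.Agent.Lib.MP_438f30_pr.HSt
import Pool.Agent.Lib.MP_438f30_pr.AInd

/-! Truncated chains and the field with a cutoff in lattice units. -/

namespace Pool.Agent.GL

open MeasureTheory Real Finset Metric Pool.Agent.Lib.MP_a0a493_pr Pool.Agent.GLA
open scoped InnerProductSpace

/-- a chain close to the segment `σ`, resolved at the level `J` -/
structure ChJ (ξ q : ℝ) (y : ℕ × Zd 2 → ℝ) (L j₀ J : ℕ) (ℓ δ θ : ℝ) (σ : E 2 × E 2) (T : ℕ)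
    (x : ℕ → E 2) (r t : ℕ → ℝ) : Prop where
  fst : ‖x 0 - σ.1‖ ≤ θ * ‖σ.2 - σ.1‖
  lst : ‖x T - σ.2‖ ≤ θ * ‖σ.2 - σ.1‖
  bdd : ∀ i ≤ T, ‖x i‖ ≤ L
  stp : ∀ i < T, dist (x i) (x (i + 1)) ≤ r i ∧ 0 < r i ∧ r i ≤ δ
  mono : Monotone t
  tot : t T - t 0 ≤ ℓ
  sep : ∀ a ≤ T, ∀ b ≤ T, x a ≠ x b → 40 ≤ 2 ^ J * dist (x a) (x b)
  cross : ∀ a b, a ≤ b → b ≤ T → ∀ j, j₀ ≤ j → j ≤ J → ∀ w ∈ box 2 ((L + 2) * 2 ^ j),
    x a ∈ ball (((2 : ℝ) ^ j)⁻¹ • pt w) (3 / 2 ^ j) →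
    x b ∉ closedBall (((2 : ℝ) ^ j)⁻¹ • pt w) (2 * (3 / 2 ^ j)) →
      exp (ξ * y (j, w) - q * j) < 2 * (t b - t a)

def sAH2 : Prop :=
  ∀ ξ lam : ℝ, 0 < lam → lam ≤ 1 → lam ≤ ξ → ∃ θ > (0 : ℝ),
    ∀ (Ω : Type) [MeasurableSpace Ω] (P : Measure Ω) [IsProbabilityMeasure P]
      (W : HG 2 →ₗ[ℝ] (Ω → ℝ)), Iso P W → ∀ ρ : E 2 → ℝ, Test ρ → ∫ x, ρ x = 1 →
      ∀ (L j₀ : ℕ) (ℓ : ℝ) (σ : E 2 × E 2), σ.1 ≠ σ.2 → ∀ ε > (0 : ℝ),
        ∃ a > (0 : ℝ), ∃ δ > (0 : ℝ), ∃ J₀ : ℕ, ∀ J, J₀ ≤ J →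
          P.real {ω | ∃ T x r t, ChJ ξ ((1 - lam) * log 2)
            (fun p => W (vG ρ p.1 (((2 : ℝ) ^ p.1)⁻¹ • pt p.2)) ω) L j₀ J ℓ δ θ σ T x r t ∧
            ∑ i ∈ range T, r i ^ (1 + 2 / 10 ^ 58 * (lam / ξ) ^ 4) < a} ≤ ε

/-- the scales between the levels `j` and `J`, in units of `2^(-J)` -/
noncomputable def EvJ (J j : ℕ) (X : E 2) : HG 2 :=
  EG (-(J * log 2)) (-(j * log 2)) (((2 : ℝ) ^ J)⁻¹ • X)

theorem ker_EvJ {J j n : ℕ} (h : J = j + n) : Ker (n * log 2) (EvJ J j) := fun X Y => by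
  have e := inner_EG_shift (d := 2) (jlog n) (-(J * log 2)) X Y 0
  rw [exp_neg, exp_jlog, add_zero, add_zero, zero_add,
    show n * log 2 + -(J * log 2) = -(j * log 2) by rw [h]; push_cast; ring] at e
  rw [EvJ, EvJ, e, inner_EG]

theorem EvJ_add {J j : ℕ} (h : j ≤ J) (X : E 2) :
    EvJ J 0 X = EvJ J j X + EG (-(j * log 2)) 0 (((2 : ℝ) ^ J)⁻¹ • X) := by
  have a : (j : ℝ) * log 2 ≤ J * log 2 :=
    mul_le_mul_of_nonneg_right (Nat.cast_le.2 h) (log_nonneg one_le_two)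
  rw [EvJ, EvJ, EG_add (by linarith) (by linarith [jlog j])]
  simp

/-- the average of the field over a segment of length about `2^n` is close to the field of the
scales above `2^n` -/
theorem EG_V {J j n m : ℕ} (h : J = j + n) (hm : 0 < m) {A B y : E 2} (h1 : 2 ^ n ≤ ‖B - A‖)
    (h2 : ‖B - A‖ ≤ m) (hA : ‖A - y‖ ≤ 200 * 2 ^ n) (hB : ‖B - y‖ ≤ 200 * 2 ^ n) :
    ‖EG (-(j * log 2)) 0 (((2 : ℝ) ^ J)⁻¹ • y) - V (EvJ J 0) m A B‖ ≤ √CG + 142 := by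
  have m0 : (0 : ℝ) < m := Nat.cast_pos.2 hm
  have a := V_sq (ker_EvJ h) hm (by rw [exp_jlog]; exact h1) h2
  have e : EG (-(j * log 2)) 0 (((2 : ℝ) ^ J)⁻¹ • y) - V (EvJ J 0) m A B =
      (m : ℝ)⁻¹ • ∑ i ∈ range m, (EG (-(j * log 2)) 0 (((2 : ℝ) ^ J)⁻¹ • y) -
        EG (-(j * log 2)) 0 (((2 : ℝ) ^ J)⁻¹ • sp m A B i)) - V (EvJ J j) m A B := by
    simp only [V, EvJ_add (show j ≤ J by omega), sum_add_distrib, sum_sub_distrib, sum_const,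
      card_range, smul_add, smul_sub, ← Nat.cast_smul_eq_nsmul ℝ, inv_smul_smul₀ m0.ne']
    abel
  have b : ∀ i ∈ range m, ‖EG (-(j * log 2)) 0 (((2 : ℝ) ^ J)⁻¹ • y) -
      EG (-(j * log 2)) 0 (((2 : ℝ) ^ J)⁻¹ • sp m A B i)‖ ≤ 142 := fun i hi => by
    have c := sp_sub (A := y) (B := y) hi hA hB
    have c1 : sp m y y i = y := by simp [sp]
    have c2 := norm_EG_sub (d := 2) (α := -(j * log 2)) (β := 0) (by linarith [jlog j])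
      (((2 : ℝ) ^ J)⁻¹ • y) (((2 : ℝ) ^ J)⁻¹ • sp m A B i)
    rw [c1, norm_sub_rev] at c
    rw [neg_neg, exp_jlog, ← smul_sub, norm_smul, Real.norm_of_nonneg (by positivity)] at c2
    have c3 : 2 ^ j * (((2 : ℝ) ^ J)⁻¹ * ‖y - sp m A B i‖) ≤ 200 := by
      refine (mul_le_mul_of_nonneg_left (mul_le_mul_of_nonneg_left c (by positivity))
        (by positivity)).trans (le_of_eq ?_)
      rw [h, pow_add]
      field_simp
    have c4 := pow_le_pow_left₀ (by positivity) c3 2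
    exact (pow_le_pow_iff_left₀ (norm_nonneg _) (by norm_num) two_ne_zero).1 (by linarith)
  rw [e]
  refine (norm_sub_le _ _).trans ?_
  have c := (norm_sum_le _ _).trans (sum_le_card_nsmul _ _ _ b)
  rw [card_range, nsmul_eq_mul] at c
  rw [norm_smul, Real.norm_of_nonneg (by positivity)]
  have c1 := mul_le_mul_of_nonneg_left c (show 0 ≤ (m : ℝ)⁻¹ by positivity)
  rw [inv_mul_cancel_left₀ m0.ne'] at c1
  linarith [le_sqrt_of_sq_le a]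

theorem V_root {J j n m : ℕ} (h : J = j + n) (hm : 0 < m) {A B : E 2} (h1 : 2 ^ n ≤ ‖B - A‖)
    (h2 : ‖B - A‖ ≤ m) : ‖V (EvJ J 0) m A B‖ ≤ √CG + √(j * log 2) := by
  have m0 : (0 : ℝ) < m := Nat.cast_pos.2 hm
  have a := V_sq (ker_EvJ h) hm (by rw [exp_jlog]; exact h1) h2
  have e : V (EvJ J 0) m A B = V (EvJ J j) m A B +
      (m : ℝ)⁻¹ • ∑ i ∈ range m, EG (-(j * log 2)) 0 (((2 : ℝ) ^ J)⁻¹ • sp m A B i) := by
    simp only [V, EvJ_add (show j ≤ J by omega), sum_add_distrib, smul_add]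
  have b : ∀ i ∈ range m, ‖EG (-(j * log 2)) 0 (((2 : ℝ) ^ J)⁻¹ • sp m A B i)‖ ≤ √(j * log 2) :=
    fun i _ => le_sqrt_of_sq_le (by rw [norm_EG (by linarith [jlog j])]; linarith)
  rw [e]
  refine (norm_add_le _ _).trans ?_
  have c := (norm_sum_le _ _).trans (sum_le_card_nsmul _ _ _ b)
  rw [card_range, nsmul_eq_mul] at c
  rw [norm_smul, Real.norm_of_nonneg (by positivity)]
  have c1 := mul_le_mul_of_nonneg_left c (show 0 ≤ (m : ℝ)⁻¹ by positivity)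
  rw [inv_mul_cancel_left₀ m0.ne'] at c1
  linarith [le_sqrt_of_sq_le a]

end Pool.Agent.GL
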