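import Pool.Agent.Lib.MP_438f30_pr.HAll0
import Pool.Agent.Lib.MP_438f30_pr.HAhM

/-! The dimension bound for curves of speed at most one. -/

namespace Pool.Agent.GL

theorem allHD : sHD :=
  allHD0 fun s ξ q γ c M A B a b d e f g _ _ _ _ _ hW => GLA.ah s ξ q γ c M A B a b d e f g hW

end Pool.Agent.GL
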