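import Pool.Agent.Lib.MP_a0a493_pr.Defs

/-! The axioms of the Liouville quantum gravity metric. -/

namespace Pool.Agent.GL

open MeasureTheory Pool.Agent.Lib.MP_a0a493_pr

/-- the plane -/
abbrev R2 : Type := EuclideanSpace ℝ (Fin 2)

/-- The σ-algebra generated by the pairings with test functions supported in `U`. -/
abbrev sig (U : Set R2) : MeasurableSpace ((R2 → ℝ) → ℝ) :=
  ⨆ (φ : R2 → ℝ) (_ : Test φ ∧ tsupport φ ⊆ U), (borel ℝ).comap fun h => h φ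

/-- `p : [0, l] → R2` has speed at most one for `D`. -/
def Lip (D : R2 → R2 → ℝ) (p : ℝ → R2) (l : ℝ) : Prop :=
  0 ≤ l ∧ ∀ s ∈ Set.Icc 0 l, ∀ t ∈ Set.Icc 0 l, D (p s) (p t) ≤ |s - t|

/-- The least `g`-weighted `D`-length of a path from `u` to `v` inside `U`. -/
noncomputable def wey (D : R2 → R2 → ℝ) (g : R2 → ℝ) (U : Set R2) (u v : R2) : ENNReal :=
  ⨅ (p : ℝ → R2) (l : ℝ) (_ : Lip D p l ∧ p 0 = u ∧ p l = v ∧ ∀ t ∈ Set.Icc 0 l, p t ∈ U),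
    ∫⁻ t in Set.Icc 0 l, ENNReal.ofReal (g (p t))

/-- A length metric that induces the Euclidean topology. -/
structure IsMet (D : R2 → R2 → ℝ) : Prop where
  self : ∀ u, D u u = 0
  symm : ∀ u v, D u v = D v u
  tri : ∀ u v w, D u w ≤ D u v + D v w
  cont : Continuous fun q : R2 × R2 => D q.1 q.2
  top : ∀ u, ∀ r > (0 : ℝ), ∃ s > (0 : ℝ), ∀ v, D u v < s → dist u v < r
  len : ∀ u v, ENNReal.ofReal (D u v) = wey D (fun _ => 1) Set.univ u v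

/-- A whole-plane Gaussian free field plus a random continuous function. -/
def IsFld {Ω : Type} [MeasurableSpace Ω] (P : Measure Ω) (Φ : (R2 → ℝ) → Ω → ℝ) : Prop :=
  (∀ φ, Test φ → Measurable (Φ φ)) ∧ ∃ f : Ω → R2 → ℝ, (∀ ω, Continuous (f ω)) ∧
    (∀ x, Measurable fun ω => f ω x) ∧ IsLGF P fun φ ω => Φ φ ω - ∫ x, φ x * f ω x

/-- The axioms of Gwynne and Miller with parameters `ξ` and `Q`. -/
structure IsLQG (ξ Q : ℝ) (D : ((R2 → ℝ) → ℝ) → R2 → R2 → ℝ) : Prop where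
  meas : ∀ u v, @Measurable _ _ (sig Set.univ) _ fun h => D h u v
  met : ∀ (Ω : Type) [MeasurableSpace Ω] (P : Measure Ω) [IsProbabilityMeasure P]
    (Φ : (R2 → ℝ) → Ω → ℝ), IsFld P Φ → ∀ᵐ ω ∂P, IsMet (D fun φ => Φ φ ω)
  loc : ∀ (Ω : Type) [MeasurableSpace Ω] (P : Measure Ω) [IsProbabilityMeasure P]
    (Φ : (R2 → ℝ) → Ω → ℝ), IsFld P Φ → ∀ U, IsOpen U → ∀ u v,
      ∃ G : ((R2 → ℝ) → ℝ) → ENNReal, @Measurable _ _ (sig U) _ G ∧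
        ∀ᵐ ω ∂P, wey (D fun φ => Φ φ ω) (fun _ => 1) U u v = G fun φ => Φ φ ω
  weyl : ∀ (Ω : Type) [MeasurableSpace Ω] (P : Measure Ω) [IsProbabilityMeasure P]
    (Φ : (R2 → ℝ) → Ω → ℝ), IsFld P Φ → ∀ᵐ ω ∂P, ∀ f : R2 → ℝ, Continuous f → ∀ u v,
      ENNReal.ofReal (D (fun φ => Φ φ ω + ∫ x, φ x * f x) u v) =
        wey (D fun φ => Φ φ ω) (fun x => Real.exp (ξ * f x)) Set.univ u v
  aff : ∀ (Ω : Type) [MeasurableSpace Ω] (P : Measure Ω) [IsProbabilityMeasure P]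
    (Φ : (R2 → ℝ) → Ω → ℝ), IsFld P Φ → ∀ r > (0 : ℝ), ∀ z : R2, ∀ᵐ ω ∂P, ∀ u v,
      D (fun φ => Φ φ ω) (r • u + z) (r • v + z) =
        D (fun φ => Φ (fun x => r⁻¹ ^ 2 * φ (r⁻¹ • (x - z))) ω + ∫ x, φ x * (Q * Real.log r)) u v

end Pool.Agent.GL
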