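import Pool.Agent.Lib.MP_438f30_pr.St
import Pool.Agent.Lib.MP_438f30_pr.HDefs

/-! The statements of the blocks for the Hausdorff dimension bound. -/

namespace Pool.Agent.GL

open MeasureTheory ProbabilityTheory Real Finset Filter Topology Metric
  Pool.Agent.Lib.MP_a0a493_pr
open scoped InnerProductSpace

/-- the annulus between the radii `R` and `2 R` is crossed at cost less than `s` -/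
def Crx (D : R2 → R2 → ℝ) (z : R2) (R s : ℝ) : Prop :=
  ∃ u ∈ ball z R, ∃ v, v ∉ closedBall z (2 * R) ∧ D u v < s

structure MG1 : Prop where
  nonneg : ∀ {D : R2 → R2 → ℝ}, IsMet D → ∀ u v, 0 ≤ D u v
  cont : ∀ {D : R2 → R2 → ℝ} {p : ℝ → R2} {l : ℝ}, IsMet D → Lip D p l →
    ContinuousOn p (Set.Icc 0 l)
  path : ∀ {D : R2 → R2 → ℝ} {U : Set R2} {u v : R2} {s : ℝ},
    wey D (fun _ => 1) U u v < ENNReal.ofReal s →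
      ∃ p l, Lip D p l ∧ p 0 = u ∧ p l = v ∧ (∀ t ∈ Set.Icc 0 l, p t ∈ U) ∧ l < s
  low : ∀ {D : R2 → R2 → ℝ} {z u v : R2} {R s m : ℝ} {g : R2 → ℝ}, IsMet D → ¬ Crx D z R s →
    0 ≤ m → (∀ x ∈ closedBall z (2 * R), m ≤ g x) → u ∈ ball z R → v ∉ closedBall z (2 * R) →
      ENNReal.ofReal (m * s) ≤ wey D g Set.univ u v
  up : ∀ {D : R2 → R2 → ℝ} {p : ℝ → R2} {l M : ℝ} {g : R2 → ℝ} {U : Set R2}, Lip D p l →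
    ∀ s t, 0 ≤ s → s ≤ t → t ≤ l → (∀ r ∈ Set.Icc s t, g (p r) ≤ M ∧ p r ∈ U) →
      wey D g U (p s) (p t) ≤ ENNReal.ofReal (M * (t - s))
  const : ∀ {D : R2 → R2 → ℝ} {c : ℝ}, IsMet D → 0 < c → ∀ u v,
    wey D (fun _ => c) Set.univ u v = ENNReal.ofReal (c * D u v)

structure MG2 : Prop where
  sub : ∀ {D : R2 → R2 → ℝ} {z : R2} {R s : ℝ}, IsMet D → 0 < R → Crx D z (20 * R) s →
    ∃ a ∈ box 2 61, ∃ b ∈ box 2 61, Crx D (z + (R / 4) • pt a) R s ∧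
      Crx D (z + (R / 4) • pt b) R s ∧ 8 * R ≤ dist (z + (R / 4) • pt a) (z + (R / 4) • pt b)
  small : ∀ {D : R2 → R2 → ℝ} (z : R2) {R : ℝ}, IsMet D → 0 < R → ∃ s > (0 : ℝ), ¬ Crx D z R s
  rat : ∀ {D : R2 → R2 → ℝ} {S : Set R2} (z : R2) (R s : ℝ),
    (Continuous fun q : R2 × R2 => D q.1 q.2) → Dense S →
      (Crx D z R s ↔ ∃ u ∈ S, ∃ v ∈ S, u ∈ ball z R ∧ v ∉ closedBall z (2 * R) ∧ D u v < s)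

def sMG3 : Prop :=
  ∀ (D : R2 → R2 → ℝ) (S : Set R2) (z : R2) (R s : ℝ), IsMet D → Dense S →
    (Crx D z R s ↔ ∃ u ∈ S, ∃ v ∈ S, u ∈ ball z R ∧ v ∉ closedBall z (2 * R) ∧
      wey D (fun _ => 1) (ball z (3 * R)) u v < ENNReal.ofReal s)

/-- the vector of the field normalised by `mol ρ 0 0` -/
noncomputable def gv0 (ρ φ : E 2 → ℝ) : HH 2 :=
  vec (Af ((1 : ℝ) • φ + (-∫ x, φ x) • mol ρ 0 0))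

/-- the scales below `exp α` -/
noncomputable def fn (α : ℝ) (φ : E 2 → ℝ) : HH 2 := vec fun p => if p.1 ≤ α then Af φ p else 0

/-- the scales above `exp α` -/
noncomputable def crs (ρ : E 2 → ℝ) (α : ℝ) (x : E 2) : HH 2 := -vec (Dv (mol ρ 0 0) x α)

theorem ok_Dv {φ : E 2 → ℝ} (h : Test φ) (z : E 2) (α : ℝ) : Ok (Dv φ z α) := by
  obtain ⟨B, R, hn⟩ := h.nice
  have hn' : Nice φ z B (R + ‖z‖) := ⟨hn.meas, hn.bd, fun y hy => by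
    have a := hn.sup y hy
    have b := dist_triangle z 0 y
    rw [dist_zero_right] at b
    linarith, by linarith [hn.pos, norm_nonneg z]⟩
  exact (norm_Dv one_le_two hn' α).1

theorem ok_fn {φ : E 2 → ℝ} (h : Test φ) (α : ℝ) :
    Ok fun p : ℝ × E 2 => if p.1 ≤ α then Af φ p else 0 := by
  have := (ok_Dv h 0 α).indicator (s := {p : ℝ × E 2 | p.1 ≤ α})
    (measurableSet_le measurable_fst measurable_const)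
  unfold Ok
  convert this using 1
  funext p
  by_cases hp : p.1 ≤ α
  · simp [Set.indicator, hp, Dv, not_lt.2 hp]
  · simp [Set.indicator, hp]

/-- finite families of pairings are Gaussian and represented by the vectors `v φ` -/
def GFa {Ω H : Type} [MeasurableSpace Ω] [NormedAddCommGroup H] [InnerProductSpace ℝ H]
    (P : Measure Ω) (Φ : (E 2 → ℝ) → Ω → ℝ) (v : (E 2 → ℝ) → H) : Prop :=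
  (∀ φ, Test φ → Measurable (Φ φ)) ∧ ∀ (J : Type) [Fintype J] (f : J → E 2 → ℝ),
    (∀ j, Test (f j)) → GF P (fun j => Φ (f j)) fun j => v (f j)

structure VF1 : Prop where
  lgf : ∀ {Ω : Type} [MeasurableSpace Ω] {P : Measure Ω} [IsProbabilityMeasure P]
    {W : HH 2 →ₗ[ℝ] (Ω → ℝ)} {ρ : E 2 → ℝ}, Iso P W → Test ρ → ∫ x, ρ x = 1 →
      IsLGF P (fun φ => W (gv0 ρ φ)) ∧ IsFld P (fun φ => W (gv0 ρ φ)) ∧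
        GFa P (fun φ => W (gv0 ρ φ)) (gv0 ρ)
  psi : ∀ {ρ : E 2 → ℝ}, ∫ x, ρ x = 1 → ∀ (n : ℕ) (w : Zd 2),
    gv0 ρ (mol ρ n (((2 : ℝ) ^ n)⁻¹ • pt w)) = vp ρ n w
  inc : ∀ {ρ : E 2 → ℝ}, Test ρ → ∫ x, ρ x = 1 → ∀ (α : ℝ) (x y : E 2),
    ‖crs ρ α x - crs ρ α y‖ ^ 2 ≤ 4 * exp (-α) * ‖x - y‖
  cut : ∀ {ρ : E 2 → ℝ}, Test ρ → ∫ x, ρ x = 1 → ∀ (α β : ℝ) (x : E 2), α ≤ β →
    crs ρ α x = Ev α β x + crs ρ β x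
  cmp : ∀ {ρ : E 2 → ℝ}, Test ρ → ∫ x, ρ x = 1 → ∃ V : ℝ, 0 ≤ V ∧ ∀ (n : ℕ) (w : Zd 2),
    ‖crs ρ (-(n * log 2)) (((2 : ℝ) ^ n)⁻¹ • pt w) - vp ρ n w‖ ^ 2 ≤ V

def sVF2 : Prop :=
  ∀ (ρ φ : E 2 → ℝ) (α : ℝ) (g : HH 2), Test ρ → ∫ x, ρ x = 1 → Test φ →
    ⟪gv0 ρ φ - fn α φ, g⟫_ℝ = ∫ x, φ x * ⟪crs ρ α x, g⟫_ℝ

structure VF3 : Prop where
  orth : ∀ (α : ℝ) (φ ψ : E 2 → ℝ), Test φ → Test ψ →
    (∀ x ∈ tsupport φ, ∀ y ∈ tsupport ψ, 2 * exp α ≤ dist x y) → ⟪fn α φ, fn α ψ⟫_ℝ = 0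
  test : ∀ (r : ℝ) (z : E 2) (φ : E 2 → ℝ), 0 < r → Test φ →
    Test fun x => r⁻¹ ^ 2 * φ (r⁻¹ • (x - z))
  int : ∀ (r : ℝ) (z : E 2) (φ : E 2 → ℝ), 0 < r →
    ∫ x, r⁻¹ ^ 2 * φ (r⁻¹ • (x - z)) = ∫ x, φ x
  scale : ∀ (r : ℝ) (z : E 2) (φ ψ : E 2 → ℝ), 0 < r → Test φ → Test ψ →
    ⟪fn (log r) fun x => r⁻¹ ^ 2 * φ (r⁻¹ • (x - z)),
      fn (log r) fun x => r⁻¹ ^ 2 * ψ (r⁻¹ • (x - z))⟫_ℝ = ⟪fn 0 φ, fn 0 ψ⟫_ℝ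

/-- `F` is a continuous version of `x ↦ W (v x)` -/
def Ver {Ω H : Type} [MeasurableSpace Ω] [NormedAddCommGroup H] [InnerProductSpace ℝ H]
    (P : Measure Ω) (W : H →ₗ[ℝ] (Ω → ℝ)) (v : E 2 → H) (F : Ω → E 2 → ℝ) : Prop :=
  (∀ ω, Continuous (F ω)) ∧ (∀ x, Measurable fun ω => F ω x) ∧
    ∀ x, (fun ω => F ω x) =ᵐ[P] W (v x)

/-- oscillation on the dyadic points of a cell -/
def sCel : Prop :=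
  ∀ (Ω : Type) [MeasurableSpace Ω] (P : Measure Ω) [IsProbabilityMeasure P] (H : Type)
    [NormedAddCommGroup H] [InnerProductSpace ℝ H] (W : H →ₗ[ℝ] (Ω → ℝ)), Iso P W →
    ∀ (v : E 2 → H) (z : E 2) (r V Λ u : ℝ), 0 < r → 0 ≤ V → 0 < Λ → 0 ≤ u →
      (∀ x ∈ closedBall z (4 * r), ‖v x‖ ^ 2 ≤ V) →
      (∀ x ∈ closedBall z (4 * r), ∀ y ∈ closedBall z (4 * r),
        ‖v x - v y‖ ^ 2 ≤ V / 8 * (‖x - y‖ / r)) →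
      P.real {ω | ∃ (n : ℕ), ∃ a ∈ box 2 (2 ^ n),
        2 * u + 21 / Λ ≤ W (v (z + (r / 2 ^ n) • pt a)) ω} ≤
        600 * exp (32 * V * Λ ^ 2) * exp (-Λ * u)

def sCM : Prop :=
  ∀ (Ω : Type) [MeasurableSpace Ω] (P : Measure Ω) [IsProbabilityMeasure P] (H : Type)
    [NormedAddCommGroup H] [InnerProductSpace ℝ H] (W : H →ₗ[ℝ] (Ω → ℝ)), Iso P W →
    ∀ (v : E 2 → H) (A : ℝ), (∀ x y, ‖v x - v y‖ ^ 2 ≤ A * ‖x - y‖) → ∃ F, Ver P W v F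

def sFub : Prop :=
  ∀ (Ω : Type) [MeasurableSpace Ω] (P : Measure Ω) [IsProbabilityMeasure P] (H : Type)
    [NormedAddCommGroup H] [InnerProductSpace ℝ H] (W : H →ₗ[ℝ] (Ω → ℝ)), Iso P W →
    ∀ (v : E 2 → H) (F : Ω → E 2 → ℝ) (φ : E 2 → ℝ) (u : H), Continuous v → Ver P W v F →
      Test φ → (∀ g, ⟪u, g⟫_ℝ = ∫ x, φ x * ⟪v x, g⟫_ℝ) →
      W u =ᵐ[P] fun ω => ∫ x, φ x * F ω x

def sEq : Prop :=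
  ∀ (Ω Ω' H H' : Type) [MeasurableSpace Ω] [MeasurableSpace Ω'] (P : Measure Ω) (P' : Measure Ω')
    [IsProbabilityMeasure P] [IsProbabilityMeasure P'] [NormedAddCommGroup H]
    [InnerProductSpace ℝ H] [NormedAddCommGroup H'] [InnerProductSpace ℝ H']
    (Φ : (E 2 → ℝ) → Ω → ℝ) (v : (E 2 → ℝ) → H) (Φ' : (E 2 → ℝ) → Ω' → ℝ) (v' : (E 2 → ℝ) → H'),
    GFa P Φ v → GFa P' Φ' v' →
    (∀ φ ψ, Test φ → Test ψ → ⟪v φ, v ψ⟫_ℝ = ⟪v' φ, v' ψ⟫_ℝ) →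
    ∀ A : Set ((E 2 → ℝ) → ℝ), @MeasurableSet _ (sig Set.univ) A →
      P {ω | (fun φ => Φ φ ω) ∈ A} = P' {ω | (fun φ => Φ' φ ω) ∈ A}

structure PL : Prop where
  gfa : ∀ {Ω H : Type} [MeasurableSpace Ω] {P : Measure Ω} [IsProbabilityMeasure P]
    [NormedAddCommGroup H] [InnerProductSpace ℝ H] {W : H →ₗ[ℝ] (Ω → ℝ)}
    {Φ : (E 2 → ℝ) → Ω → ℝ} {v : (E 2 → ℝ) → H}, Iso P W → (∀ φ, Test φ → Measurable (Φ φ)) →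
    (∀ φ, Test φ → Φ φ =ᵐ[P] W (v φ)) → GFa P Φ v
  ind : ∀ {Ω H : Type} [MeasurableSpace Ω] {P : Measure Ω} [IsProbabilityMeasure P]
    [NormedAddCommGroup H] [InnerProductSpace ℝ H] {W : H →ₗ[ℝ] (Ω → ℝ)}
    {Φ : (E 2 → ℝ) → Ω → ℝ} {v : (E 2 → ℝ) → H}, Iso P W → (∀ φ, Test φ → Measurable (Φ φ)) →
    (∀ φ, Test φ → Φ φ =ᵐ[P] W (v φ)) → ∀ U U' : Set (E 2),
    (∀ φ ψ, Test φ → Test ψ → tsupport φ ⊆ U → tsupport ψ ⊆ U' → ⟪v φ, v ψ⟫_ℝ = 0) →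
    ∀ A B : Set ((E 2 → ℝ) → ℝ), @MeasurableSet _ (sig U) A → @MeasurableSet _ (sig U') B →
      P {ω | (fun φ => Φ φ ω) ∈ A ∧ (fun φ => Φ φ ω) ∈ B} =
        P {ω | (fun φ => Φ φ ω) ∈ A} * P {ω | (fun φ => Φ φ ω) ∈ B}

/-- `Ψ` is a version of the field of the scales below `exp α` -/
def Fine {Ω : Type} [MeasurableSpace Ω] (P : Measure Ω) (W : HH 2 →ₗ[ℝ] (Ω → ℝ)) (α : ℝ)
    (Ψ : (E 2 → ℝ) → Ω → ℝ) : Prop :=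
  IsFld P Ψ ∧ ∀ φ, Test φ → Ψ φ =ᵐ[P] W (fn α φ)

def sMod : Prop :=
  ∀ (Ω : Type) [MeasurableSpace Ω] (P : Measure Ω) [IsProbabilityMeasure P]
    (W : HH 2 →ₗ[ℝ] (Ω → ℝ)), Iso P W → ∀ (ρ : E 2 → ℝ), Test ρ → ∫ x, ρ x = 1 → ∀ α : ℝ,
    ∃ F, Ver P W (crs ρ α) F ∧ Fine P W α fun φ ω => W (gv0 ρ φ) ω - ∫ x, φ x * F ω x

def sInv : Prop :=
  ∀ (ξ Q : ℝ) (D : ((R2 → ℝ) → ℝ) → R2 → R2 → ℝ), IsLQG ξ Q D →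
    ∀ (Ω : Type) [MeasurableSpace Ω] (P : Measure Ω) [IsProbabilityMeasure P]
      (W : HH 2 →ₗ[ℝ] (Ω → ℝ)), Iso P W → ∀ (r : ℝ) (Ψ Ψ₁ : (E 2 → ℝ) → Ω → ℝ), 0 < r →
      Fine P W (log r) Ψ → Fine P W 0 Ψ₁ → ∀ (z : E 2) (R s : ℝ),
        P {ω | Crx (D fun φ => Ψ φ ω) z (r * R) (exp (ξ * Q * log r) * s)} =
          P {ω | Crx (D fun φ => Ψ₁ φ ω) 0 R s}

def sRen : Prop :=
  ∀ (ξ Q : ℝ) (D : ((R2 → ℝ) → ℝ) → R2 → R2 → ℝ), IsLQG ξ Q D →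
    ∀ (Ω : Type) [MeasurableSpace Ω] (P : Measure Ω) [IsProbabilityMeasure P]
      (W : HH 2 →ₗ[ℝ] (Ω → ℝ)), Iso P W → ∀ Ψ₁ : (E 2 → ℝ) → Ω → ℝ, Fine P W 0 Ψ₁ →
      ∃ s > (0 : ℝ), ∀ k : ℕ,
        P.real {ω | Crx (D fun φ => Ψ₁ φ ω) 0 (20 ^ k) s} ≤ (1 / 2) ^ 2 ^ k

def kk (j : ℕ) : ℕ := Nat.clog 2 (3 * j + 3)

/-- the fine scale used at level `j` -/
noncomputable def ee (j : ℕ) : ℝ := 3 / 2 ^ j / 20 ^ kk j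

structure KK : Prop where
  lo : ∀ j, 3 * j + 3 ≤ 2 ^ kk j
  two : ∀ j, 2 ≤ kk j
  lim : ∀ ζ : ℝ, 0 < ζ → ∀ᶠ j : ℕ in atTop, (kk j : ℝ) ≤ ζ * j

def sOsc : Prop :=
  ∀ (Ω : Type) [MeasurableSpace Ω] (P : Measure Ω) [IsProbabilityMeasure P]
    (W : HH 2 →ₗ[ℝ] (Ω → ℝ)), Iso P W → ∀ (ρ : E 2 → ℝ), Test ρ → ∫ x, ρ x = 1 →
    ∀ F : ℕ → Ω → E 2 → ℝ, (∀ j, Ver P W (crs ρ (log (ee j))) (F j)) → ∀ (L : ℕ) (ζ : ℝ), 0 < ζ →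
      ∀ᵐ ω ∂P, ∀ᶠ j : ℕ in atTop, ∀ w ∈ box 2 (L * 2 ^ j),
        ∀ x ∈ closedBall (((2 : ℝ) ^ j)⁻¹ • pt w) (2 * (3 / 2 ^ j)),
          W (vp ρ j w) ω - ζ * j ≤ F j ω x

/-- crossings of small annuli are expensive -/
def LBd (ξ q : ℝ) (L : ℕ) (d : R2 → R2 → ℝ) (y : ℕ → Zd 2 → ℝ) : Prop :=
  ∀ᶠ j : ℕ in atTop, ∀ w ∈ box 2 (L * 2 ^ j),
    ¬ Crx d (((2 : ℝ) ^ j)⁻¹ • pt w) (3 / 2 ^ j) (exp (ξ * y j w - q * j))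

def sLB : Prop :=
  ∀ (ξ Q : ℝ) (D : ((R2 → ℝ) → ℝ) → R2 → R2 → ℝ), 0 < ξ → IsLQG ξ Q D →
    ∀ (Ω : Type) [MeasurableSpace Ω] (P : Measure Ω) [IsProbabilityMeasure P]
      (W : HH 2 →ₗ[ℝ] (Ω → ℝ)), Iso P W → ∀ (ρ : E 2 → ℝ), Test ρ → ∫ x, ρ x = 1 →
      ∀ (L : ℕ) (ζ : ℝ), 0 < ζ → ∀ᵐ ω ∂P,
        LBd ξ (ξ * Q * log 2 + ζ) L (D fun φ => W (gv0 ρ φ) ω) fun j w => W (vp ρ j w) ω

def sLT : Prop :=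
  ∀ (ξ Q : ℝ) (D : ((R2 → ℝ) → ℝ) → R2 → R2 → ℝ), 0 < ξ → IsLQG ξ Q D →
    ∀ (Ω : Type) [MeasurableSpace Ω] (P : Measure Ω) [IsProbabilityMeasure P]
      (Φ : (E 2 → ℝ) → Ω → ℝ) (ρ : E 2 → ℝ), Test ρ → ∫ x, ρ x = 1 → IsFld P Φ →
      GFa P Φ (gv0 ρ) → ∀ (L : ℕ) (ζ : ℝ), 0 < ζ → ∀ᵐ ω ∂P,
        LBd ξ (ξ * Q * log 2 + ζ) L (D fun φ => Φ φ ω) fun j w => phi Φ ρ j ω w

def sNorm : Prop :=
  ∀ (Ω : Type) [MeasurableSpace Ω] (P : Measure Ω) [IsProbabilityMeasure P]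
    (Φ : (E 2 → ℝ) → Ω → ℝ) (ρ : E 2 → ℝ), Test ρ → ∫ x, ρ x = 1 → IsFld P Φ →
    ∃ g : Ω → E 2 → ℝ, (∀ ω, Continuous (g ω)) ∧
      IsFld P (fun φ ω => Φ φ ω + ∫ x, φ x * g ω x) ∧
      IsLGF P (fun φ ω => Φ φ ω + ∫ x, φ x * g ω x) ∧
      GFa P (fun φ ω => Φ φ ω + ∫ x, φ x * g ω x) (gv0 ρ) ∧
      ∀ ω, Φ (mol ρ 0 0) ω + ∫ x, mol ρ 0 0 x * g ω x = 0

/-- a chain from `u` to `v` with steps at most `r i ≤ δ` and times `t i`, such that crossings of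
annuli of level at least `j₀` take a long time -/
structure Chain (ξ q : ℝ) (y : ℕ → Zd 2 → ℝ) (L j₀ : ℕ) (ℓ δ : ℝ) (u v : E 2) (T : ℕ)
    (x : ℕ → E 2) (r t : ℕ → ℝ) : Prop where
  fst : x 0 = u
  lst : x T = v
  bdd : ∀ i ≤ T, ‖x i‖ ≤ L
  stp : ∀ i < T, dist (x i) (x (i + 1)) ≤ r i ∧ 0 < r i ∧ r i ≤ δ
  mono : Monotone t
  tot : t T - t 0 ≤ ℓ
  cross : ∀ a b, a ≤ b → b ≤ T → ∀ j, j₀ ≤ j → ∀ w ∈ box 2 ((L + 2) * 2 ^ j),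
    x a ∈ ball (((2 : ℝ) ^ j)⁻¹ • pt w) (3 / 2 ^ j) →
    x b ∉ closedBall (((2 : ℝ) ^ j)⁻¹ • pt w) (2 * (3 / 2 ^ j)) →
      exp (ξ * y j w - q * j) ≤ t b - t a

def sAH : Prop :=
  ∀ ξ lam : ℝ, 0 < lam → lam ≤ 1 → lam ≤ ξ →
    ∀ (Ω : Type) [MeasurableSpace Ω] (P : Measure Ω) [IsProbabilityMeasure P]
      (Φ : (E 2 → ℝ) → Ω → ℝ) (ρ : E 2 → ℝ), IsLGF P Φ → Test ρ → ∫ x, ρ x = 1 →
      ∀ᵐ ω ∂P, ∀ (L j₀ : ℕ) (ℓ : ℝ) (u v : E 2), u ≠ v → ∃ a > (0 : ℝ), ∃ δ > (0 : ℝ),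
        ∀ T x r t, Chain ξ ((1 - lam) * log 2) (fun j w => psi Φ ρ j ω w) L j₀ ℓ δ u v T x r t →
          a ≤ ∑ i ∈ range T, r i ^ (1 + 2 / 10 ^ 58 * (lam / ξ) ^ 4)

def sCov : Prop :=
  ∀ (p : ℝ → E 2) (l s a δ : ℝ), 0 ≤ l → ContinuousOn p (Set.Icc 0 l) → 0 < s → 0 < a → 0 < δ →
    (∀ (T : ℕ) (τ r : ℕ → ℝ), τ 0 = 0 → τ T = l → Monotone τ → (∀ i, τ i ∈ Set.Icc 0 l) →
      (∀ i < T, dist (p (τ i)) (p (τ (i + 1))) ≤ r i ∧ 0 < r i ∧ r i ≤ δ) →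
      a ≤ ∑ i ∈ range T, r i ^ s) →
    ENNReal.ofReal s ≤ dimH (p '' Set.Icc 0 l)

def sHD : Prop :=
  ∀ (ξ Q : ℝ) (D : ((R2 → ℝ) → ℝ) → R2 → R2 → ℝ), 0 < ξ → 0 ≤ Q → ξ * Q < 1 → IsLQG ξ Q D →
    ∀ (Ω : Type) [MeasurableSpace Ω] (P : Measure Ω) [IsProbabilityMeasure P]
      (Φ : (R2 → ℝ) → Ω → ℝ), IsFld P Φ →
      ∀ᵐ ω ∂P, ∀ (p : ℝ → R2) (l : ℝ), Lip (D fun φ => Φ φ ω) p l → p 0 ≠ p l →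
        ENNReal.ofReal (1 + min 1 ((1 - ξ * Q) / ξ) ^ 4 / 10 ^ 58) ≤ dimH (p '' Set.Icc 0 l)

/-- from the metric `D` to its Weyl scalings on open sets -/
def sLoc : Prop :=
  ∀ (D : R2 → R2 → ℝ) (c : ENNReal), IsMet D →
    (∀ (p : ℝ → R2) (l : ℝ), Lip D p l → p 0 ≠ p l → c ≤ dimH (p '' Set.Icc 0 l)) →
    ∀ (U : Set R2) (g : R2 → ℝ), IsOpen U → ContinuousOn g U → (∀ x ∈ U, 0 < g x) →
      ∀ (p : ℝ → R2) (l : ℝ), 0 ≤ l → p 0 ≠ p l →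
        (∀ s ∈ Set.Icc 0 l, ∀ t ∈ Set.Icc 0 l, wey D g U (p s) (p t) ≤ ENNReal.ofReal |s - t|) →
        c ≤ dimH (p '' Set.Icc 0 l)

end Pool.Agent.GL
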