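import Pool.Agent.Lib.MP_438f30_pr.St

/-! Laws of the cheap-walk events, comparison, crossing, loop erasure. -/

namespace Pool.Agent.GL

open MeasureTheory ProbabilityTheory Real Finset Filter Topology Pool.Agent.Lib.MP_a0a493_pr
open scoped InnerProductSpace

theorem lw_mem {n T : ℕ} {x : ℕ → Zd 2} (h : InBox n T x) {i : ℕ} (hi : i ≤ T) :
    x i ∈ box 2 (2 ^ n) := by
  rw [mem_box]
  intro j
  have := h i hi j
  push_cast
  rwa [pow_succ, mul_comm] at this

theorem lw_congr {n : ℕ} {q : ℕ → (ℕ → Zd 2) → Prop} {b : ℝ} {f f' : Zd 2 → ℝ}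
    (h : ∀ v ∈ box 2 (2 ^ n), f v = f' v) : Chp n q b f ↔ Chp n q b f' := by
  refine exists_congr fun T => exists_congr fun x => and_congr_right fun hb => ?_
  have e : cost f T x = cost f' T x :=
    sum_congr rfl fun i hi => by rw [h _ (lw_mem hb (Nat.lt_succ_iff.1 (mem_range.1 hi)))]
  rw [e]

theorem lw_open (n : ℕ) (q : ℕ → (ℕ → Zd 2) → Prop) (b ξ : ℝ) :
    IsOpen {y : box 2 (2 ^ n) → ℝ | Chp n q b fun z => ξ * ext y z} := by
  have e : {y : box 2 (2 ^ n) → ℝ | Chp n q b fun z => ξ * ext y z} =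
      ⋃ (T : ℕ) (x : ℕ → Zd 2) (_ : InBox n T x ∧ q T x),
        {y | cost (fun z => ξ * ext y z) T x < b} := by
    ext y
    simp only [Chp, Set.mem_ofPred_eq, Set.mem_iUnion, exists_prop, and_assoc]
  rw [e]
  refine isOpen_iUnion fun T => isOpen_iUnion fun x => isOpen_iUnion fun _ => ?_
  refine isOpen_lt (continuous_finsetSum _ fun i _ => ?_) continuous_const
  refine continuous_exp.comp (continuous_const.mul ?_)
  unfold Lib.MP_a0a493_pr.ext
  split_ifs
  · exact continuous_apply _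
  · exact continuous_const

theorem lw_ext {Ω : Type} (n : ℕ) (q : ℕ → (ℕ → Zd 2) → Prop) (b ξ : ℝ) (X : Zd 2 → Ω → ℝ)
    (ω : Ω) : (Chp n q b fun z => ξ * X z ω) ↔
      Chp n q b fun z => ξ * ext (fun j : box 2 (2 ^ n) => X j ω) z :=
  lw_congr fun v hv => by rw [Lib.MP_a0a493_pr.ext, dif_pos hv]

theorem lw_cost_mono (f : Zd 2 → ℝ) (x : ℕ → Zd 2) {T T' : ℕ} (h : T' ≤ T) :
    cost f T' x ≤ cost f T x :=
  sum_le_sum_of_subset_of_nonneg (range_mono (by omega)) fun _ _ _ => (exp_pos _).le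

theorem lw_cost_add (f : Zd 2 → ℝ) (e : ℝ) (T : ℕ) (x : ℕ → Zd 2) :
    cost (fun v => f v + e) T x = cost f T x * exp e := by
  simp only [cost, exp_add, sum_mul]

theorem lw_step {T : ℕ} {x : ℕ → Zd 2} (h : ∀ i < T, ∑ j, |x (i + 1) j - x i j| = 1) {i : ℕ}
    (hi : i < T) (j : Fin 2) : |x (i + 1) j - x i j| ≤ 1 := by
  rw [← h i hi]
  exact single_le_sum (f := fun j => |x (i + 1) j - x i j|) (fun _ _ => abs_nonneg _) (mem_univ j)

theorem lw_small {n : ℕ} {v : Zd 2} (h : ¬ (2 : ℝ) ^ n ≤ ‖pt v‖) (j : Fin 2) : |v j| ≤ 2 ^ n := by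
  have a := abs_le_norm2 (pt v) j
  rw [pt_apply] at a
  have b : |(v j : ℝ)| ≤ 2 ^ n := a.trans (not_le.1 h).le
  exact_mod_cast b

theorem lw : LW where
  law n X v X' v' h h' hg ξ b q := by
    have m := (lw_open n q b ξ).measurableSet
    have e1 := h.prob_eq h' (fun i j => hg i j) m
    have e2 := h.prob_eq h' (fun i j => hg i j) m.compl
    simp only [Set.mem_compl_iff, Set.mem_ofPred_eq, ← lw_ext] at e1 e2
    exact ⟨by rw [measureReal_def, measureReal_def, e1],
      by rw [measureReal_def, measureReal_def, e2]⟩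
  cmp n q b e f f' h := by
    rintro ⟨T, x, hb, hq, hc⟩
    refine ⟨T, x, hb, hq, lt_of_le_of_lt (b := cost (fun v => f v + e) T x) ?_ ?_⟩
    · exact sum_le_sum fun i hi =>
        exp_le_exp.2 (h _ (lw_mem hb (Nat.lt_succ_iff.1 (mem_range.1 hi))))
    · rw [lw_cost_add, exp_add]
      exact mul_lt_mul_of_pos_right hc (exp_pos _)
  crs n T x t b f hw ht hc := by
    classical
    have hT : (2 : ℝ) ^ n ≤ ‖pt (x T)‖ := by
      have a := abs_le_norm2 (pt (x T)) 0
      rw [pt_apply, hw.2.1] at a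
      rw [hw.2.1]
      simpa using a
    have ex : ∃ i, (2 : ℝ) ^ n ≤ ‖pt (x i)‖ := ⟨T, hT⟩
    have le : Nat.find ex ≤ T := Nat.find_min' ex hT
    have p : (1 : ℤ) ≤ 2 ^ n := one_le_pow₀ (by norm_num)
    refine ⟨Nat.find ex, x, fun i hi j => ?_, ⟨hw.1, Nat.find_spec ex,
      fun i hi => hw.2.2 i (by omega), le_trans (by exact_mod_cast le) ht⟩,
      (lw_cost_mono f x le).trans_lt hc⟩
    rw [pow_succ]
    rcases i with _ | k
    · rw [hw.1]
      simp
    · have a := abs_le.1 (lw_small (Nat.find_min ex (show k < Nat.find ex by omega)) j)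
      have c := abs_le.1 (lw_step hw.2.2 (show k < T by omega) j)
      rw [abs_le]
      constructor <;> linarith [a.1, a.2, c.1, c.2]
  add n T x f e h := ⟨h.1, fun T' x' a b => by
    rw [lw_cost_add, lw_cost_add]
    exact mul_le_mul_of_nonneg_right (h.2 T' x' a b) (exp_pos _).le⟩

theorem era : sEra := by
  intro n T
  induction T using Nat.strong_induction_on with
  | _ T ih =>
  intro x hw
  by_cases hl : ∃ i j, i < j ∧ j ≤ T ∧ x i = x j
  · obtain ⟨i, j, hij, hj, e⟩ := hl
    obtain ⟨k, rfl⟩ : ∃ k, j = i + k := ⟨j - i, by omega⟩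
    obtain ⟨S, rfl⟩ : ∃ S, T = S + k := ⟨T - k, by omega⟩
    let g : ℕ → ℕ := fun t => if t ≤ i then t else t + k
    have gi : ∀ t, i ≤ t → x (g t) = x (t + k) := fun t ht => by
      by_cases h : t ≤ i
      · obtain rfl : t = i := by omega
        simp only [g, le_refl, if_true, e]
      · simp only [g, h, if_false]
    have gl : ∀ t, t ≤ i → g t = t := fun t ht => if_pos ht
    have gm : ∀ t ∈ range (S + 1), g t ∈ range (S + k + 1) := fun t ht => by
      rw [mem_range] at ht ⊢
      simp only [g]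
      split_ifs <;> omega
    have gj : Function.Injective g := fun a b h => by
      simp only [g] at h
      split_ifs at h <;> omega
    have w : IsWalk n S fun t => x (g t) := by
      refine ⟨by rw [← hw.1]; exact congrArg x (gl 0 (by omega)), ?_, fun t ht => ?_⟩
      · rw [← hw.2.1]; exact gi S (by omega)
      · by_cases h : t < i
        · simp only [gl t h.le, gl (t + 1) h]
          exact hw.2.2 t (by omega)
        · simp only [gi t (by omega), gi (t + 1) (by omega), Nat.add_right_comm t 1 k]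
          exact hw.2.2 (t + k) (by omega)
    obtain ⟨T', x', a, b, c⟩ := ih S (by omega) _ w
    refine ⟨T', x', a, b.trans (card_le_card fun v hv => ?_), fun f => (c f).trans ?_⟩
    · obtain ⟨t, ht, rfl⟩ := mem_image.1 hv
      exact mem_image_of_mem _ (gm t ht)
    · unfold cost
      rw [← sum_image (f := fun t => exp (f (x t))) (g := g) fun a _ b _ h => gj h]
      refine sum_le_sum_of_subset_of_nonneg (fun v hv => ?_) fun _ _ _ => (exp_pos _).le
      obtain ⟨t, ht, rfl⟩ := mem_image.1 hv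
      exact gm t ht
  · refine ⟨T, x, hw, ?_, fun f => le_rfl⟩
    rw [card_image_of_injOn, card_range]
    intro a ha b hb e
    rw [coe_range, Set.mem_Iio] at ha hb
    rcases lt_trichotomy a b with h | h | h
    · exact absurd ⟨a, b, h, by omega, e⟩ hl
    · exact h
    · exact absurd ⟨b, a, h, by omega, e.symm⟩ hl

end Pool.Agent.GL
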