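import Pool.Agent.Lib.MP_438f30_pr.St

/-! The main theorem from the two estimates. -/

namespace Pool.Agent.GL

open MeasureTheory ProbabilityTheory Real Finset Filter Topology Pool.Agent.Lib.MP_a0a493_pr
open scoped InnerProductSpace

theorem mn_det (hl : LW) (he : sEra) {n T : ℕ} {x : ℕ → Zd 2} {f : Zd 2 → ℝ} {t a b : ℝ}
    (hg : IsGeo n f T x) (ht : (((range (T + 1)).image x).card : ℝ) ≤ t) (hab : b ≤ a)
    (hB : Chp n (IsWalk n) b f) : Chp n (Crs n t) a f := by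
  obtain ⟨T₁, x₁, h1, h2, h3⟩ := hB
  obtain ⟨T', x', k1, k2, k3⟩ := he n T x hg.1
  have k4 : (T' : ℝ) + 1 ≤ ((range (T + 1)).image x).card := by exact_mod_cast k2
  exact hl.crs n T' x' t a f k1 (by linarith) (by linarith [k3 f, hg.2 T₁ x₁ h2 h1])

theorem mn_par {C c₁ x : ℝ} (hC : 0 ≤ C) (hc : 0 < c₁) (hx : 0 < x) :
    C * (x ^ 3 / (4 * (C + 1) / c₁ / x) + x ^ 3 * (4 * (C + 1) / c₁ / x) ^ 3 *
      (c₁ / (4 * (C + 1) * (4 * (C + 1) / c₁) ^ 3) * x ^ 4)) + c₁ * x ^ 4 / 4 ≤ c₁ * x ^ 4 := by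
  have h1 : 0 < C + 1 := by linarith
  have e : C * (x ^ 3 / (4 * (C + 1) / c₁ / x) + x ^ 3 * (4 * (C + 1) / c₁ / x) ^ 3 *
      (c₁ / (4 * (C + 1) * (4 * (C + 1) / c₁) ^ 3) * x ^ 4)) =
        C / (C + 1) * (c₁ * x ^ 4 / 2) := by
    field_simp
    ring
  have h2 : C / (C + 1) ≤ 1 := (div_le_one h1).2 (by linarith)
  have h3 : 0 < c₁ * x ^ 4 := by positivity
  rw [e]
  nlinarith

theorem mainOf (hA : sTA) (hB : sTB) (hl : LW) (he : sEra) : sMain := by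
  obtain ⟨C, hC, hA⟩ := hA
  obtain ⟨c₁, x₀, hc, hx₀, hB⟩ := hB
  have h1 : 0 < C + 1 := by linarith
  set M : ℝ := 4 * (C + 1) / c₁ with hM
  have hM0 : 0 < M := by positivity
  set c : ℝ := c₁ / (4 * (C + 1) * M ^ 3) with hcd
  have hc0 : 0 < c := by positivity
  have hm : 0 < min x₀ (M / 10) := lt_min hx₀ (by positivity)
  refine ⟨c, min x₀ (M / 10) ^ 3, hc0, by positivity, ?_⟩
  intro Ω _ P _ Φ ρ hΦ hρ hρ1 ξ hξ hξ0
  obtain ⟨x, hx, rfl⟩ : ∃ x : ℝ, 0 < x ∧ ξ = x ^ 3 :=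
    ⟨ξ ^ ((3 : ℕ)⁻¹ : ℝ), by positivity, (rpow_inv_natCast_pow hξ.le three_ne_zero).symm⟩
  have hx1 : x ≤ min x₀ (M / 10) := le_of_pow_le_pow_left₀ three_ne_zero hm.le hξ0
  have e4 : (x ^ 3) ^ (4 / 3 : ℝ) = x ^ 4 := by
    rw [← rpow_natCast, ← rpow_mul hx.le, ← rpow_natCast]
    norm_num
  have hθ : 10 ≤ M / x := by
    rw [le_div_iff₀ hx]
    linarith [hx1.trans (min_le_right _ _)]
  have tA := hA (M / x) (x ^ 3) (c * x ^ 4) (c₁ * x ^ 4 / 4) hθ hξ.le (by positivity)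
    (by positivity) Ω P Φ ρ hΦ hρ hρ1
  have tB := hB x hx (hx1.trans (min_le_left _ _)) Ω P Φ ρ hΦ hρ hρ1
  have tS := tA.add tB
  rw [add_zero] at tS
  rw [e4, ← ENNReal.tendsto_toReal_iff (fun n => measure_ne_top _ _) ENNReal.zero_ne_top,
    ENNReal.toReal_zero]
  refine squeeze_zero (fun n => ENNReal.toReal_nonneg) (fun n => ?_) tS
  refine le_trans (measureReal_mono ?_) (measureReal_union_le _ _)
  rintro ω ⟨T, y, hg, ht⟩
  by_cases hb : Chp n (IsWalk n) (exp ((log 2 - c₁ * x ^ 4) * n)) fun v => x ^ 3 * psi Φ ρ n ω v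
  · refine Or.inl (mn_det hl he (T := T) (x := y) ?_ (ht.le.trans ?_) ?_ hb)
    · have := hl.add n T y _ (-(x ^ 3 * Φ (mol ρ 0 0) ω)) hg
      simpa only [psi, mul_sub, sub_eq_add_neg, mul_add, mul_neg] using this
    · rw [rpow_def_of_pos two_pos]
      refine exp_le_exp.2 ?_
      have a : log 2 ≤ 1 := by linarith [log_two_lt_d9]
      have b : 0 ≤ c * x ^ 4 * n := by positivity
      nlinarith
    · refine exp_le_exp.2 (mul_le_mul_of_nonneg_right ?_ (Nat.cast_nonneg _))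
      have := mn_par hC hc hx
      rw [← hM, ← hcd] at this
      linarith
  · exact Or.inr hb

end Pool.Agent.GL
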