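import Pool.Agent.Lib.MP_438f30_pr.NSt
import Pool.Agent.Lib.MP_438f30_pr.HRen
import Pool.Agent.Lib.MP_438f30_pr.GBdd

/-! The base of the renormalisation: a cell of level zero is good with high probability. -/

namespace Pool.Agent.GL

open MeasureTheory ProbabilityTheory Real Finset Filter Topology Metric
  Pool.Agent.Lib.MP_a0a493_pr
open scoped InnerProductSpace

namespace NBase

variable {Ω : Type} [MeasurableSpace Ω] {P : Measure Ω} [IsProbabilityMeasure P]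
  {ξ Q : ℝ} {D : ((R2 → ℝ) → ℝ) → R2 → R2 → ℝ} {Ψ : (E 2 → ℝ) → Ω → ℝ}

theorem nm (hD : IsLQG ξ Q D) (hΨ : IsFld P Ψ) (z : R2) (R s : ℝ) (u v : R2) :
    NullMeasurableSet {ω | ¬ Lnk (D fun φ => Ψ φ ω) z R s u v} P := by
  obtain ⟨G, hG, hG'⟩ := hD.loc Ω P Ψ hΨ (ball z R) isOpen_ball u v
  have m : MeasurableSet {ω | (G fun φ => Ψ φ ω) < ENNReal.ofReal s} :=
    measurableSet_lt (hG.comp (HRen.meas hΨ.1 _)) measurable_const
  refine m.compl.nullMeasurableSet.congr ?_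
  filter_upwards [hG'] with ω h
  refine propext ?_
  change ¬ (G fun φ => Ψ φ ω) < ENNReal.ofReal s ↔ ¬ Lnk (D fun φ => Ψ φ ω) z R s u v
  rw [Lnk, h]

theorem mem {a : Zd 2} (h : ∑ j, |a j| = 1) :
    a ∈ box 2 1 ∧ (1 / 3 : ℝ) • pt a ∈ closedBall (0 : R2) (1 / 3) := by
  rw [Fin.sum_univ_two] at h
  have a0 := abs_nonneg (a 0)
  have a1 := abs_nonneg (a 1)
  refine ⟨mem_box.2 (Fin.forall_fin_two.2 ⟨by omega, by omega⟩), ?_⟩
  have h' : |(a 0 : ℝ)| + |(a 1 : ℝ)| = 1 := by exact_mod_cast h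
  have b0 := abs_nonneg (a 0 : ℝ)
  have b1 := abs_nonneg (a 1 : ℝ)
  have n : ‖pt a‖ ≤ 1 := by
    rw [EuclideanSpace.norm_eq, Fin.sum_univ_two, pt_apply, pt_apply, Real.norm_eq_abs,
      Real.norm_eq_abs]
    exact sqrt_le_one.2 (by nlinarith [mul_nonneg b0 b1])
  rw [mem_closedBall_zero_iff, norm_smul, Real.norm_of_nonneg (by norm_num)]
  linarith

theorem base (hD : IsLQG ξ Q D) (hΨ : IsFld P Ψ) {ε : ℝ} (hε : 0 < ε) :
    ∃ s > (0 : ℝ), ∀ a : Zd 2, ∑ j, |a j| = 1 →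
      P.real {ω | ¬ Lnk (D fun φ => Ψ φ ω) 0 (2 / 3) s 0 ((1 / 3 : ℝ) • pt a)} ≤ ε := by
  have mono : ∀ {d : R2 → R2 → ℝ} {s t : ℝ} {v : R2}, s ≤ t → Lnk d 0 (2 / 3) s 0 v →
      Lnk d 0 (2 / 3) t 0 v := fun h a => lt_of_lt_of_le a (ENNReal.ofReal_le_ofReal h)
  have t := tendsto_measure_iInter_atTop (μ := P)
    (s := fun n : ℕ => ⋃ a : {a : Zd 2 // ∑ j, |a j| = 1},
      {ω | ¬ Lnk (D fun φ => Ψ φ ω) 0 (2 / 3) ((n : ℝ) + 1) 0 ((1 / 3 : ℝ) • pt a.1)})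
    (fun n => NullMeasurableSet.iUnion fun a => nm hD hΨ _ _ _ _ _)
    (fun m n h => Set.iUnion_mono fun a ω hω c => hω (mono (by gcongr) c)) ⟨0, measure_ne_top _ _⟩
  have z : P (⋂ n : ℕ, ⋃ a : {a : Zd 2 // ∑ j, |a j| = 1},
      {ω | ¬ Lnk (D fun φ => Ψ φ ω) 0 (2 / 3) ((n : ℝ) + 1) 0 ((1 / 3 : ℝ) • pt a.1)}) = 0 := by
    refine measure_eq_zero_iff_ae_notMem.2 ?_
    filter_upwards [hD.met Ω P Ψ hΨ] with ω m h
    obtain ⟨S, hS⟩ := GBdd.bd m isOpen_ball (convex_ball (0 : R2) (2 / 3)).isPreconnected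
      (isCompact_closedBall (0 : R2) (1 / 3)) (closedBall_subset_ball (by norm_num))
    obtain ⟨n, hn⟩ := exists_nat_ge S
    obtain ⟨a, ha⟩ := Set.mem_iUnion.1 (Set.mem_iInter.1 h n)
    exact ha ((hS 0 (mem_closedBall_self (by norm_num)) _ (mem a.2).2).trans_lt
      ((ENNReal.ofReal_lt_ofReal_iff (by positivity)).2 (by linarith)))
  rw [z] at t
  obtain ⟨n, hn⟩ := (t.eventually (gt_mem_nhds (ENNReal.ofReal_pos.2 hε))).exists
  refine ⟨(n : ℝ) + 1, by positivity, fun a ha => ENNReal.toReal_le_of_le_ofReal hε.le ?_⟩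
  exact (measure_mono (Set.subset_iUnion (fun a : {a : Zd 2 // ∑ j, |a j| = 1} =>
    {ω | ¬ Lnk (D fun φ => Ψ φ ω) 0 (2 / 3) ((n : ℝ) + 1) 0 ((1 / 3 : ℝ) • pt a.1)})
      ⟨a, ha⟩)).trans hn.le

end NBase

theorem nbase (h : sLnkI) : sBase := by
  intro ξ Q D hD Ω _ P _ W hW Ψ₁ hΨ₁ ε hε
  obtain ⟨s, hs, hb⟩ := NBase.base hD hΨ₁.1 (ε := ε / 25) (by positivity)
  refine ⟨s, hs, fun r Ψ hr hΨ w => ?_⟩
  have u := union_le (P := P) ((box 2 1).filter fun a => ∑ j, |a j| = 1)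
    (fun a => {ω | ¬ Lnk (D fun φ => Ψ φ ω) ((r / 3) • pt w) (r * (2 / 3))
      (exp (ξ * Q * log r) * s) (r • (0 : R2) + (r / 3) • pt w)
        (r • ((1 / 3 : ℝ) • pt a) + (r / 3) • pt w)}) (c := ε / 25) fun a ha => by
      rw [measureReal_def, h ξ Q D hD Ω P W hW r Ψ Ψ₁ hr hΨ hΨ₁]
      exact hb a (mem_filter.1 ha).2
  have c : (((box 2 1).filter fun a => ∑ j, |a j| = 1).card : ℝ) ≤ 25 := by
    have := card_filter_le (box 2 1) fun a => ∑ j, |a j| = 1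
    rw [card_box] at this
    exact_mod_cast this
  refine le_trans (measureReal_mono ?_) (u.trans ?_)
  · intro ω hω
    simp only [Gdc, Set.mem_ofPred_eq, not_forall] at hω
    obtain ⟨w', n, hω⟩ := hω
    have n' : ∑ j, |(w' - w) j| = 1 := n
    refine ⟨w' - w, mem_filter.2 ⟨(NBase.mem n').1, n'⟩, ?_⟩
    have e1 : r * (2 / 3) = 2 * (r / 3) := by ring
    have e2 : r • ((1 / 3 : ℝ) • pt (w' - w)) + (r / 3) • pt w = (r / 3) • pt w' := by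
      rw [smul_smul, mul_one_div, ← smul_add, ← pt_add, sub_add_cancel]
    rw [Set.mem_ofPred_eq, e1, e2, smul_zero, zero_add]
    exact hω
  · nlinarith

end Pool.Agent.GL
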