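import Pool.Agent.Lib.MP_438f30_pr.NSt

/-! Good cells depend only on the field near the cell. -/

namespace Pool.Agent.GL

open MeasureTheory ProbabilityTheory Real Finset Filter Topology Metric
  Pool.Agent.Lib.MP_a0a493_pr
open scoped InnerProductSpace

namespace NGdL

theorem mono {U V : Set R2} (h : U ⊆ V) : sig U ≤ sig V :=
  iSup_mono fun _ => iSup_mono' fun hφ => ⟨⟨hφ.1, hφ.2.trans h⟩, le_rfl⟩

theorem nrm {a : Zd 2} (ha : ∀ i, |a i| ≤ 2 * (15 : ℕ)) : ‖pt a‖ ≤ 57 := by
  have b : ∀ i, (a i : ℝ) ^ 2 ≤ 900 := fun i => by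
    have c : |a i| ≤ 30 := ha i
    have e : |(a i : ℝ)| ≤ 30 := by exact_mod_cast c
    have := abs_le.1 e
    nlinarith
  refine abs_le_of_sq_le_sq' ?_ (by norm_num) |>.2
  rw [EuclideanSpace.real_norm_sq_eq, Fin.sum_univ_two, pt_apply, pt_apply]
  linarith [b 0, b 1]

theorem sub {T : ℝ} (hT : 0 < T) (w : Zd 2) {a : Zd 2} (ha : ∀ i, |a i| ≤ 2 * (15 : ℕ)) :
    ball (T • pt fun i => 20 * w i + a i) (3 * T) ⊆ ball ((20 * T) • pt w) (3 * (20 * T)) := by
  refine ball_subset_ball' ?_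
  have e : (T • pt fun i => 20 * w i + a i) - (20 * T) • pt w = T • pt a := by
    ext i
    simp only [PiLp.sub_apply, PiLp.smul_apply, pt_apply, smul_eq_mul]
    push_cast
    ring
  rw [dist_eq_norm, e, norm_smul, Real.norm_of_nonneg hT.le]
  nlinarith [nrm ha]

end NGdL

theorem gdL : sGdL := by
  intro ξ Q D hD Ω _ P _ Ψ hΨ R s hR k
  suffices h : ∀ w : Zd 2, ∃ B : Set ((E 2 → ℝ) → ℝ),
      @MeasurableSet _ (sig (ball ((20 ^ k * R) • pt w) (3 * (20 ^ k * R)))) B ∧
      ∀ᵐ ω ∂P, Gdc (D fun φ => Ψ φ ω) R s k w ↔ (fun φ => Ψ φ ω) ∈ B by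
    intro w
    obtain ⟨B, a, b⟩ := h w
    refine ⟨Bᶜ, a.compl, ?_⟩
    filter_upwards [b] with ω b
    exact propext (not_congr b)
  induction k with
  | zero =>
    intro w
    choose G hG hG' using hD.loc Ω P Ψ hΨ (ball (R • pt w) (2 * R)) isOpen_ball (R • pt w)
    refine ⟨{h | ∀ w', Nb w w' → G (R • pt w') h < ENNReal.ofReal s}, ?_, ?_⟩
    · rw [pow_zero, one_mul]
      refine NGdL.mono (ball_subset_ball (by linarith : 2 * R ≤ 3 * R)) _ ?_
      let := sig (ball (R • pt w) (2 * R))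
      exact measurableSet_setOfPred.2 (Measurable.forall fun w' => Measurable.forall fun _ =>
        measurableSet_setOfPred.1 (measurableSet_lt (hG _) measurable_const))
    · filter_upwards [ae_all_iff.2 fun w' : Zd 2 => hG' (R • pt w')] with ω a
      exact forall₂_congr fun w' _ => by rw [Lnk, a w']
  | succ k ih =>
    intro w
    choose B hB hB' using ih
    have hT : 0 < 20 ^ k * R := by positivity
    have g : ∀ d : R2 → R2 → ℝ, Gdc d R s (k + 1) w ↔ ∀ a ∈ box 2 15, ∀ b ∈ box 2 15,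
        ¬ Gdc d R s k (fun i => 20 * w i + a i) → ¬ Gdc d R s k (fun i => 20 * w i + b i) →
          ∀ i, |a i - b i| ≤ 11 := fun _ => Iff.rfl
    have mb := fun a => (@mem_box 2 15 a).1
    generalize box 2 15 = S at g mb
    refine ⟨{h | ∀ a ∈ S, ∀ b ∈ S, h ∉ B (fun i => 20 * w i + a i) →
      h ∉ B (fun i => 20 * w i + b i) → ∀ i, |a i - b i| ≤ 11}, ?_, ?_⟩
    · rw [pow_succ', mul_assoc]
      have m := fun a ha => NGdL.mono (NGdL.sub hT w (mb a ha)) _ (hB _)
      let := sig (ball ((20 * (20 ^ k * R)) • pt w) (3 * (20 * (20 ^ k * R))))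
      exact measurableSet_setOfPred.2 (Measurable.forall fun a => Measurable.forall fun ha =>
        Measurable.forall fun b => Measurable.forall fun hb =>
          (m a ha).mem.not.imp ((m b hb).mem.not.imp measurable_const))
    · filter_upwards [ae_all_iff.2 hB'] with ω c
      exact (g _).trans (forall₄_congr fun a _ b _ => by rw [c, c])

end Pool.Agent.GL
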