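import Pool.Agent.Lib.MP_438f30_pr.NSt
import Pool.Agent.Lib.MP_438f30_pr.AllB
import Pool.Agent.Lib.MP_438f30_pr.HFin
import Pool.Agent.Lib.MP_438f30_pr.HV1
import Pool.Agent.Lib.MP_438f30_pr.HLT
import Pool.Agent.Lib.MP_438f30_pr.HMG1
import Pool.Agent.Lib.MP_438f30_pr.HMG2

/-! An upper bound for the product of the two exponents. -/

namespace Pool.Agent.GL

open MeasureTheory Real Finset Filter Topology Metric Pool.Agent.Lib.MP_a0a493_pr

namespace NLam

theorem freq {Ω : Type} [MeasurableSpace Ω] {P : Measure Ω} [IsProbabilityMeasure P]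
    {B : ℕ → Ω → Prop} (h : Tendsto (fun n => P.real {ω | ¬ B n ω}) atTop (𝓝 0)) :
    ∀ᵐ ω ∂P, ∃ᶠ n in atTop, B n ω := by
  simp only [frequently_atTop]
  refine ae_all_iff.2 fun N => ?_
  rw [ae_iff, ← measureReal_eq_zero_iff (measure_ne_top _ _)]
  refine le_antisymm (ge_of_tendsto h ?_) measureReal_nonneg
  filter_upwards [eventually_ge_atTop N] with n hn
  exact measureReal_mono (fun ω hω e => hω ⟨n, hn, e⟩) (measure_ne_top _ _)

theorem det {d : R2 → R2 → ℝ} {y : ℕ → Zd 2 → ℝ} {ξ q b c : ℝ} (hd : IsMet d)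
    (h1 : UBd ξ q 1 d y) (hb : b < q)
    (h2 : ∃ᶠ n : ℕ in atTop, Chp n (IsWalk n) (exp (b * n)) fun v => ξ * (y n v - c)) : False := by
  obtain ⟨s, s0, hs⟩ := (mg2 mg1).small (0 : R2) (R := 1 / 4) hd (by norm_num)
  have t : Tendsto (fun n : ℕ => exp (ξ * c + (b - q) * n)) atTop (𝓝 0) :=
    tendsto_exp_atBot.comp (tendsto_atBot_add_const_left _ _
      (tendsto_natCast_atTop_atTop.const_mul_atTop_of_neg (by linarith)))
  obtain ⟨n, ⟨T, x, hB, ⟨x0, xT, hx⟩, hc⟩, ⟨rep, r1, r2⟩, n1, n2⟩ :=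
    (h2.and_eventually (h1.and ((t.eventually (gt_mem_nhds s0)).and
      (eventually_ge_atTop 3)))).exists
  have bx : ∀ i ≤ T, x i ∈ box 2 (1 * 2 ^ n) := fun i hi => mem_box.2 fun j =>
    (hB i hi j).trans (by push_cast; rw [pow_succ]; linarith)
  have key : ∀ i ≤ T, d (rep (x 0)) (rep (x i)) ≤ ∑ k ∈ range i, exp (ξ * y n (x k) - q * n) := by
    intro i
    induction i with
    | zero => intro _; simp [hd.self]
    | succ i ih =>
      intro hi
      rw [sum_range_succ]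
      exact (hd.tri _ _ _).trans (add_le_add (ih (by omega))
        (r2 _ (bx i (by omega)) _ (bx _ hi) (hx i hi)))
  have k2 : d (rep (x 0)) (rep (x T)) < s := by
    refine (key T le_rfl).trans_lt (lt_of_le_of_lt ?_ (((mul_lt_mul_of_pos_left hc
      (exp_pos (ξ * c - q * n))).trans_eq ?_).trans n1))
    · rw [cost, mul_sum, sum_range_succ]
      refine le_add_of_le_of_nonneg (sum_le_sum fun k _ => le_of_eq ?_) (by positivity)
      rw [← exp_add]
      congr 1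
      ring
    · rw [← exp_add]
      congr 1
      ring
  have p : ((2 : ℝ) ^ n)⁻¹ ≤ 1 / 8 := by
    rw [one_div]
    exact inv_anti₀ (by norm_num) ((by norm_num : (8 : ℝ) ≤ 2 ^ 3).trans
      (pow_le_pow_right₀ one_le_two n2))
  refine hs ⟨rep (x 0), ?_, rep (x T), ?_, k2⟩
  · have a := r1 (x 0)
    have e : pt (x 0) = 0 := by
      rw [x0]
      ext j
      simp [pt_apply]
    rw [e, smul_zero] at a
    exact mem_ball.2 (by linarith)
  · have a := r1 (x T)
    have e : (1 : ℝ) ≤ dist (((2 : ℝ) ^ n)⁻¹ • pt (x T)) 0 := by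
      have := PiLp.norm_apply_le (((2 : ℝ) ^ n)⁻¹ • pt (x T)) 0
      rw [dist_zero_right]
      refine le_trans (le_of_eq ?_) this
      simp [xT, pt_apply]
    have := dist_triangle_left (((2 : ℝ) ^ n)⁻¹ • pt (x T)) 0 (rep (x T))
    rw [mem_closedBall, not_le]
    linarith

end NLam

open NLam in
theorem lam (h : sUB) : sLam := by
  obtain ⟨c₁, x₀, c0, x0, hT⟩ := allTB
  have L0 : 0 < log 2 := log_pos one_lt_two
  refine ⟨c₁ / log 2, x₀, div_pos c0 L0, x0, fun x hx hx' Q D hD => ?_⟩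
  by_contra! hc
  obtain ⟨Ω, _, P, _, W, hW⟩ := exists_iso (HH 2)
  obtain ⟨ρ, hρ, h1⟩ := HFin.ex_rho
  obtain ⟨l1, l2, -⟩ := vf1.lgf hW hρ h1
  have e : log 2 - c₁ * x ^ 4 < x ^ 3 * Q * log 2 := by
    have := mul_lt_mul_of_pos_right hc L0
    rwa [sub_mul, one_mul, mul_right_comm, div_mul_cancel₀ _ L0.ne'] at this
  obtain ⟨ω, a1, a2, a3⟩ := ((hD.met Ω P _ l2).and ((h _ Q D (by positivity) hD Ω P W hW ρ hρ h1 1
    ((x ^ 3 * Q * log 2 - (log 2 - c₁ * x ^ 4)) / 2) (by linarith)).and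
    (freq (hT x hx hx' Ω P _ ρ l1 hρ h1)))).exists
  refine det (b := log 2 - c₁ * x ^ 4) (c := W (gv0 ρ (mol ρ 0 0)) ω) a1 a2 (by linarith) ?_
  simpa only [psi, phi, HLT.pt_eq, vf1.psi h1] using a3

end Pool.Agent.GL
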