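import Pool.Agent.Lib.MP_438f30_pr.NSt
import Pool.Agent.Lib.MP_438f30_pr.G4

/-! Scale and translation invariance of the probability of a link for the fine field. -/

namespace Pool.Agent.GL

open MeasureTheory ProbabilityTheory Real Finset Filter Topology Metric
  Pool.Agent.Lib.MP_a0a493_pr
open scoped InnerProductSpace

open HInv G4 in
theorem lnkI (h1 : sLnkM) (h2 : Scl) : sLnkI := by
  intro ξ Q D hD Ω _ P _ W hW r Ψ Ψ₁ hr hΨ hΨ₁ z R s u₀ v₀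
  obtain ⟨A, hAm, hAe⟩ := h1 0 R s u₀ v₀
  have hA := meas_D hD.meas hAm.compl
  have f' := fld_const hΨ.1 (-(Q * log r))
  have g1 : GFa P (fun φ => Ψ fun x => r⁻¹ ^ 2 * φ (r⁻¹ • (x - z)))
      fun φ => fn (log r) fun x => r⁻¹ ^ 2 * φ (r⁻¹ • (x - z)) :=
    pl.gfa hW (fun φ hφ => hΨ.1.1 _ (vf3.test r z φ hr hφ))
      fun φ hφ => hΨ.2 _ (vf3.test r z φ hr hφ)
  have g2 : GFa P Ψ₁ (fn 0) := pl.gfa hW hΨ₁.1.1 hΨ₁.2
  have key := leq Ω Ω (HH 2) (HH 2) P P _ _ _ _ g1 g2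
    (fun φ ψ hφ hψ => vf3.scale r z φ ψ hr hφ hψ) _ hA
  have e2 : P {ω | ¬ Lnk (D fun φ => Ψ₁ φ ω) 0 R s u₀ v₀} =
      P {ω | (fun φ => Ψ₁ φ ω) ∈ {h | D h ∈ Aᶜ}} := by
    refine measure_congr (eventuallyEq_set.2 ?_)
    filter_upwards [hD.met Ω P Ψ₁ hΨ₁.1] with ω hω
    exact not_congr (hAe _ hω)
  rw [e2, ← key]
  refine measure_congr (eventuallyEq_set.2 ?_)
  filter_upwards [hD.met Ω P Ψ hΨ.1, hD.met Ω P _ f', hD.weyl Ω P Ψ hΨ.1,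
    hD.aff Ω P _ f' r hr z] with ω m1 m2 hw ha
  have w1 : ∀ u v, D (fun φ => Ψ φ ω + ∫ x, φ x * -(Q * log r)) u v =
      exp (ξ * -(Q * log r)) * D (fun φ => Ψ φ ω) u v := fun u v => by
    have a := hw (fun _ => -(Q * log r)) continuous_const u v
    rw [mg1.const m1 (exp_pos _)] at a
    exact (ENNReal.ofReal_eq_ofReal_iff (mg1.nonneg m2 u v)
      (mul_nonneg (exp_pos _).le (mg1.nonneg m1 u v))).1 a
  have fe : (fun φ : R2 → ℝ => (Ψ (fun x => r⁻¹ ^ 2 * φ (r⁻¹ • (x - z))) ω +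
      ∫ x, r⁻¹ ^ 2 * φ (r⁻¹ • (x - z)) * -(Q * log r)) + ∫ x, φ x * (Q * log r)) =
      fun φ => Ψ (fun x => r⁻¹ ^ 2 * φ (r⁻¹ • (x - z))) ω := by
    funext φ
    rw [integral_mul_const, integral_mul_const, vf3.int r z φ hr]
    ring
  have e : ∀ u v, D (fun φ => Ψ φ ω) (r • u + z) (r • v + z) = exp (ξ * Q * log r) *
      D (fun φ => Ψ (fun x => r⁻¹ ^ 2 * φ (r⁻¹ • (x - z))) ω) u v := fun u v => by
    have a := ha u v
    rw [fe, w1] at a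
    rw [← a, ← mul_assoc, ← exp_add]
    simp [mul_assoc]
  exact not_congr ((h2.lnk hr (exp_pos _) e R s u₀ v₀).trans
    (hAe _ (h2.met hr (exp_pos _) e m1)))

end Pool.Agent.GL
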