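import Pool.Agent.Lib.MP_438f30_pr.HSt

/-! The statements of the blocks for the upper bounds of distances at small scales. -/

namespace Pool.Agent.GL

open MeasureTheory ProbabilityTheory Real Finset Filter Topology Metric
  Pool.Agent.Lib.MP_a0a493_pr
open scoped InnerProductSpace

/-- nearest neighbours -/
def Nb (a b : Zd 2) : Prop := ∑ j, |b j - a j| = 1

/-- `u` is joined to `v` inside the ball at cost less than `s` -/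
def Lnk (d : R2 → R2 → ℝ) (z : R2) (R s : ℝ) (u v : R2) : Prop :=
  wey d (fun _ => 1) (ball z R) u v < ENNReal.ofReal s

/-- good cells of level `k` for the grid of mesh `R` -/
def Gdc (d : R2 → R2 → ℝ) (R s : ℝ) : ℕ → Zd 2 → Prop
  | 0, w => ∀ w', Nb w w' → Lnk d (R • pt w) (2 * R) s (R • pt w) (R • pt w')
  | k + 1, w => ∀ a ∈ box 2 15, ∀ b ∈ box 2 15, ¬ Gdc d R s k (fun i => 20 * w i + a i) →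
      ¬ Gdc d R s k (fun i => 20 * w i + b i) → ∀ i, |a i - b i| ≤ 11

def sLnkM : Prop :=
  ∀ (z : R2) (R s : ℝ) (u v : R2), ∃ A : Set (R2 → R2 → ℝ), MeasurableSet A ∧
    ∀ d : R2 → R2 → ℝ, IsMet d → (Lnk d z R s u v ↔ d ∈ A)

structure Scl : Prop where
  met : ∀ {d d' : R2 → R2 → ℝ} {r k : ℝ} {z : R2}, 0 < r → 0 < k →
    (∀ u v, d (r • u + z) (r • v + z) = k * d' u v) → IsMet d → IsMet d'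
  lnk : ∀ {d d' : R2 → R2 → ℝ} {r k : ℝ} {z : R2}, 0 < r → 0 < k →
    (∀ u v, d (r • u + z) (r • v + z) = k * d' u v) → ∀ (R s : ℝ) (u v : R2),
      (Lnk d z (r * R) (k * s) (r • u + z) (r • v + z) ↔ Lnk d' 0 R s u v)

def sLnkI : Prop :=
  ∀ (ξ Q : ℝ) (D : ((R2 → ℝ) → ℝ) → R2 → R2 → ℝ), IsLQG ξ Q D →
    ∀ (Ω : Type) [MeasurableSpace Ω] (P : Measure Ω) [IsProbabilityMeasure P]
      (W : HH 2 →ₗ[ℝ] (Ω → ℝ)), Iso P W → ∀ (r : ℝ) (Ψ Ψ₁ : (E 2 → ℝ) → Ω → ℝ), 0 < r →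
      Fine P W (log r) Ψ → Fine P W 0 Ψ₁ → ∀ (z : E 2) (R s : ℝ) (u v : E 2),
        P {ω | ¬ Lnk (D fun φ => Ψ φ ω) z (r * R) (exp (ξ * Q * log r) * s)
            (r • u + z) (r • v + z)} =
          P {ω | ¬ Lnk (D fun φ => Ψ₁ φ ω) 0 R s u v}

def sNetD : Prop :=
  ∀ (d : R2 → R2 → ℝ) (R s : ℝ), IsMet d → 0 < R → 0 < s → ∀ k : ℕ, ∃ rep : Zd 2 → R2,
    (∀ w, dist (rep w) ((20 ^ k * R) • pt w) ≤ 20 ^ k * R) ∧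
      ∀ w w', Nb w w' → Gdc d R s k w → Gdc d R s k w' →
        Lnk d ((20 ^ k * R) • pt w) (5 * (20 ^ k * R)) (60 ^ k * s) (rep w) (rep w')

def sGdL : Prop :=
  ∀ (ξ Q : ℝ) (D : ((R2 → ℝ) → ℝ) → R2 → R2 → ℝ), IsLQG ξ Q D →
    ∀ (Ω : Type) [MeasurableSpace Ω] (P : Measure Ω) [IsProbabilityMeasure P]
      (Ψ : (E 2 → ℝ) → Ω → ℝ), IsFld P Ψ → ∀ (R s : ℝ), 0 < R → ∀ (k : ℕ) (w : Zd 2),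
      ∃ A : Set ((E 2 → ℝ) → ℝ),
        @MeasurableSet _ (sig (ball ((20 ^ k * R) • pt w) (3 * (20 ^ k * R)))) A ∧
        {ω | ¬ Gdc (D fun φ => Ψ φ ω) R s k w} =ᵐ[P] {ω | (fun φ => Ψ φ ω) ∈ A}

def sBase : Prop :=
  ∀ (ξ Q : ℝ) (D : ((R2 → ℝ) → ℝ) → R2 → R2 → ℝ), IsLQG ξ Q D →
    ∀ (Ω : Type) [MeasurableSpace Ω] (P : Measure Ω) [IsProbabilityMeasure P]
      (W : HH 2 →ₗ[ℝ] (Ω → ℝ)), Iso P W → ∀ Ψ₁ : (E 2 → ℝ) → Ω → ℝ, Fine P W 0 Ψ₁ →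
      ∀ ε : ℝ, 0 < ε → ∃ s > (0 : ℝ), ∀ (r : ℝ) (Ψ : (E 2 → ℝ) → Ω → ℝ), 0 < r →
        Fine P W (log r) Ψ → ∀ w : Zd 2,
          P.real {ω | ¬ Gdc (D fun φ => Ψ φ ω) (r / 3) (exp (ξ * Q * log r) * s) 0 w} ≤ ε

def sRenU : Prop :=
  ∀ (ξ Q : ℝ) (D : ((R2 → ℝ) → ℝ) → R2 → R2 → ℝ), IsLQG ξ Q D →
    ∀ (Ω : Type) [MeasurableSpace Ω] (P : Measure Ω) [IsProbabilityMeasure P]
      (W : HH 2 →ₗ[ℝ] (Ω → ℝ)), Iso P W → ∀ Ψ₁ : (E 2 → ℝ) → Ω → ℝ, Fine P W 0 Ψ₁ →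
      ∃ s > (0 : ℝ), ∀ (r : ℝ) (Ψ : (E 2 → ℝ) → Ω → ℝ), 0 < r → Fine P W (log r) Ψ →
        ∀ (k : ℕ) (w : Zd 2),
          P.real {ω | ¬ Gdc (D fun φ => Ψ φ ω) (r / 3) (exp (ξ * Q * log r) * s) k w} ≤
            (1 / 2) ^ 2 ^ k

def sOscU : Prop :=
  ∀ (Ω : Type) [MeasurableSpace Ω] (P : Measure Ω) [IsProbabilityMeasure P]
    (W : HH 2 →ₗ[ℝ] (Ω → ℝ)), Iso P W → ∀ (ρ : E 2 → ℝ), Test ρ → ∫ x, ρ x = 1 →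
    ∀ F : ℕ → Ω → E 2 → ℝ, (∀ j, Ver P W (crs ρ (log (ee j))) (F j)) → ∀ (L : ℕ) (ζ : ℝ), 0 < ζ →
      ∀ᵐ ω ∂P, ∀ᶠ j : ℕ in atTop, ∀ w ∈ box 2 (L * 2 ^ j),
        ∀ x ∈ closedBall (((2 : ℝ) ^ j)⁻¹ • pt w) (2 * (3 / 2 ^ j)),
          F j ω x ≤ W (vp ρ j w) ω + ζ * j

/-- neighbouring small cells are joined cheaply -/
def UBd (ξ q : ℝ) (L : ℕ) (d : R2 → R2 → ℝ) (y : ℕ → Zd 2 → ℝ) : Prop :=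
  ∀ᶠ j : ℕ in atTop, ∃ rep : Zd 2 → R2,
    (∀ w, dist (rep w) (((2 : ℝ) ^ j)⁻¹ • pt w) ≤ ((2 : ℝ) ^ j)⁻¹) ∧
      ∀ w ∈ box 2 (L * 2 ^ j), ∀ w' ∈ box 2 (L * 2 ^ j), Nb w w' →
        d (rep w) (rep w') ≤ exp (ξ * y j w - q * j)

def sUB : Prop :=
  ∀ (ξ Q : ℝ) (D : ((R2 → ℝ) → ℝ) → R2 → R2 → ℝ), 0 < ξ → IsLQG ξ Q D →
    ∀ (Ω : Type) [MeasurableSpace Ω] (P : Measure Ω) [IsProbabilityMeasure P]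
      (W : HH 2 →ₗ[ℝ] (Ω → ℝ)), Iso P W → ∀ (ρ : E 2 → ℝ), Test ρ → ∫ x, ρ x = 1 →
      ∀ (L : ℕ) (ζ : ℝ), 0 < ζ → ∀ᵐ ω ∂P,
        UBd ξ (ξ * Q * log 2 - ζ) L (D fun φ => W (gv0 ρ φ) ω) fun j w => W (vp ρ j w) ω

def sLam : Prop :=
  ∃ c x₀ : ℝ, 0 < c ∧ 0 < x₀ ∧ ∀ x : ℝ, 0 < x → x ≤ x₀ →
    ∀ (Q : ℝ) (D : ((R2 → ℝ) → ℝ) → R2 → R2 → ℝ), IsLQG (x ^ 3) Q D → x ^ 3 * Q ≤ 1 - c * x ^ 4

def sLowC : Prop :=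
  ∃ c ξ₀ : ℝ, 0 < c ∧ 0 < ξ₀ ∧ ∀ (ξ Q : ℝ) (D : ((R2 → ℝ) → ℝ) → R2 → R2 → ℝ), 0 < ξ → ξ ≤ ξ₀ →
    0 ≤ Q → IsLQG ξ Q D → ∀ (Ω : Type) [MeasurableSpace Ω] (P : Measure Ω)
      [IsProbabilityMeasure P] (Φ : (R2 → ℝ) → Ω → ℝ), IsFld P Φ →
      ∀ᵐ ω ∂P, ∀ (U : Set R2) (f : R2 → ℝ), IsOpen U → ContinuousOn f U →
        ∀ (p : ℝ → R2) (l : ℝ), 0 ≤ l → p 0 ≠ p l →
          (∀ s ∈ Set.Icc 0 l, ∀ t ∈ Set.Icc 0 l,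
            wey (D fun φ => Φ φ ω) (fun x => exp (ξ * f x)) U (p s) (p t) ≤
              ENNReal.ofReal |s - t|) →
          ENNReal.ofReal (1 + c * ξ ^ (4 / 3 : ℝ)) ≤ dimH (p '' Set.Icc 0 l)

end Pool.Agent.GL
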