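import Pool.Agent.Lib.MP_438f30_pr.HAll
import Pool.Agent.Lib.MP_438f30_pr.NSt

/-! The lower bound `1 + c ξ ^ (4 / 3)` for the dimension of curves, for small `ξ`. -/

namespace Pool.Agent.GL

open MeasureTheory Real

namespace NLow

theorem num {c x Q : ℝ} (hc : 0 < c) (hx : 0 < x) (h1 : c * x ≤ 1)
    (h : x ^ 3 * Q ≤ 1 - c * x ^ 4) :
    c ^ 4 / 10 ^ 58 * x ^ 4 ≤ min 1 ((1 - x ^ 3 * Q) / x ^ 3) ^ 4 / 10 ^ 58 := by
  have h3 : 0 < x ^ 3 := by positivity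
  have a : c * x ≤ min 1 ((1 - x ^ 3 * Q) / x ^ 3) := by
    refine le_min h1 ?_
    rw [le_div_iff₀ h3]
    have : c * x * x ^ 3 = c * x ^ 4 := by ring
    linarith
  have b : (c * x) ^ 4 ≤ min 1 ((1 - x ^ 3 * Q) / x ^ 3) ^ 4 :=
    pow_le_pow_left₀ (by positivity) a 4
  have e : c ^ 4 / 10 ^ 58 * x ^ 4 = (c * x) ^ 4 / 10 ^ 58 := by ring
  rw [e]
  exact div_le_div_of_nonneg_right b (by positivity)

end NLow

theorem lowC (h : sLam) : sLowC := by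
  obtain ⟨c, x₀, hc, hx₀, h⟩ := h
  have hm : 0 < min x₀ c⁻¹ := lt_min hx₀ (inv_pos.2 hc)
  refine ⟨c ^ 4 / 10 ^ 58, min x₀ c⁻¹ ^ 3, by positivity, by positivity, ?_⟩
  intro ξ Q D hξ hξ₀ hQ hD Ω _ P _ Φ hΦ
  obtain ⟨x, hx, rfl⟩ : ∃ x : ℝ, 0 < x ∧ x ^ 3 = ξ :=
    ⟨ξ ^ ((3 : ℕ)⁻¹ : ℝ), rpow_pos_of_pos hξ _, rpow_inv_natCast_pow hξ.le (by norm_num)⟩
  have hx1 : x ≤ min x₀ c⁻¹ := le_of_not_gt fun hl =>
    absurd hξ₀ (not_le.2 (pow_lt_pow_left₀ hl hm.le (by norm_num)))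
  have hcx : c * x ≤ 1 := by
    have := mul_le_mul_of_nonneg_left (hx1.trans (min_le_right _ _)) hc.le
    rwa [mul_inv_cancel₀ hc.ne'] at this
  have hb := h x hx (hx1.trans (min_le_left _ _)) Q D hD
  have h1 : x ^ 3 * Q < 1 := by
    have : 0 < c * x ^ 4 := by positivity
    linarith
  have e : (x ^ 3) ^ (4 / 3 : ℝ) = x ^ 4 := by
    rw [← rpow_natCast x 3, ← rpow_mul hx.le, ← rpow_natCast x 4]
    norm_num
  filter_upwards [allHD _ Q D hξ hQ h1 hD Ω P Φ hΦ, hD.met Ω P Φ hΦ] with ω a b U f hU hf p l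
    hl hp hs
  refine le_trans (ENNReal.ofReal_le_ofReal ?_) (loc mg1 (mg2 mg1) _ _ b a U _ hU
    (Real.continuous_exp.comp_continuousOn (continuousOn_const.mul hf))
    (fun _ _ => Real.exp_pos _) p l hl hp hs)
  rw [e]
  have := NLow.num hc hx hcx hb
  linarith

end Pool.Agent.GL
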