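import Pool.Agent.Lib.MP_438f30_pr.NBase
import Pool.Agent.Lib.MP_438f30_pr.HMG1
import Pool.Agent.Lib.MP_438f30_pr.HMG3

/-! Neighbouring good cells are joined cheaply. -/

namespace Pool.Agent.GL

open Metric Pool.Agent.Lib.MP_a0a493_pr

namespace NNetD

variable {d : R2 → R2 → ℝ}

theorem anti {U V : Set R2} (h : U ⊆ V) (u v : R2) :
    wey d (fun _ => 1) V u v ≤ wey d (fun _ => 1) U u v :=
  le_iInf fun p => le_iInf fun l => le_iInf fun hp => iInf_le_of_le p (iInf_le_of_le l
    (iInf_le_of_le ⟨hp.1, hp.2.1, hp.2.2.1, fun t ht => h (hp.2.2.2 t ht)⟩ le_rfl))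

theorem start (hd : IsMet d) {U : Set R2} {u : R2} {s : ℝ} (hu : u ∈ U) (hs : 0 < s) :
    wey d (fun _ => 1) U u u < ENNReal.ofReal s :=
  HMG3.lt_of mg1 (p := fun _ => u) (l := 0)
    ⟨le_rfl, fun _ _ _ _ => by rw [hd.self]; exact abs_nonneg _⟩ 0 le_rfl le_rfl (fun _ _ => hu) hs

theorem chain (hd : IsMet d) {U : Set R2} {u : R2} {c t : ℝ} (g : ℕ → R2) (n : ℕ)
    (h0 : wey d (fun _ => 1) U u (g 0) < ENNReal.ofReal c)
    (h : ∀ m < n, wey d (fun _ => 1) U (g m) (g (m + 1)) < ENNReal.ofReal t) :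
    wey d (fun _ => 1) U u (g n) < ENNReal.ofReal (c + n * t) := by
  induction n with
  | zero => simpa using h0
  | succ n ih =>
    have := HMG3.tri mg1 hd (ih fun m hm => h m (by omega)) (h n (by omega))
    rwa [show c + n * t + t = c + ((n + 1 : ℕ) : ℝ) * t by push_cast; ring] at this

/-- walk along a line indexed by the integers -/
theorem line (hd : IsMet d) {U : Set R2} {u : R2} {c t : ℝ} (f : ℤ → R2) (p q : ℤ)
    (h0 : wey d (fun _ => 1) U u (f p) < ENNReal.ofReal c)
    (h : ∀ m m', min p q ≤ m → m ≤ max p q → min p q ≤ m' → m' ≤ max p q → |m' - m| = 1 →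
      wey d (fun _ => 1) U (f m) (f m') < ENNReal.ofReal t) :
    wey d (fun _ => 1) U u (f q) < ENNReal.ofReal (c + (|q - p| : ℤ) * t) := by
  rcases le_total p q with e | e
  · obtain ⟨n, rfl⟩ := Int.le.dest e
    have := chain hd (fun m : ℕ => f (p + m)) n (by simpa using h0) fun m hm =>
      h _ _ (by omega) (by omega) (by omega) (by omega) (by push_cast; simp)
    simpa using this
  · obtain ⟨n, rfl⟩ := Int.le.dest e
    have := chain hd (fun m : ℕ => f (q + n - m)) n (by simpa using h0) fun m hm =>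
      h _ _ (by omega) (by omega) (by omega) (by omega) (by push_cast; simp)
    simpa using this

theorem near {ρ r : ℝ} (hρ : 0 < ρ) (hr : 0 ≤ r) {x w : Zd 2}
    (h : ∀ i, ((|x i - 20 * w i| : ℤ) : ℝ) ≤ r) :
    dist (ρ • pt x) ((20 * ρ) • pt w) ≤ 2 * (r * ρ) := by
  have := dist_le_of (u := ρ • pt x) (v := (20 * ρ) • pt w) (r := r * ρ) (by positivity) fun i => by
    have e : (ρ • pt x) i - ((20 * ρ) • pt w) i = ((x i - 20 * w i : ℤ) : ℝ) * ρ := by
      simp only [PiLp.smul_apply, pt_apply, smul_eq_mul]; push_cast; ring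
    rw [e, abs_mul, abs_of_pos hρ, ← Int.cast_abs]
    exact mul_le_mul_of_nonneg_right (h i) hρ.le
  simpa using this

theorem inb (n : ℕ) (hn : n = 15) (b : Zd 2) (h : ∀ i, |b i| ≤ 30) : b ∈ box 2 n :=
  mem_box.mpr fun i => (h i).trans (by omega)

theorem pick (R s : ℝ) (k : ℕ) (w : Zd 2) (i : Fin 2) : ∃ c : ℤ, |c| ≤ 9 ∧
    (Gdc d R s (k + 1) w → ∀ b : Zd 2, (∀ j, |b j| ≤ 30) → b i = c →
      Gdc d R s k fun j => 20 * w j + b j) := by
  by_contra hc
  push Not at hc
  obtain ⟨hg, a, ha, a1, a2⟩ := hc 9 (by norm_num)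
  obtain ⟨-, b, hb, b1, b2⟩ := hc (-9) (by norm_num)
  rw [Gdc] at hg
  generalize hn : (15 : ℕ) = n at hg
  have := hg a (inb n hn.symm a ha) b (inb n hn.symm b hb) a2 b2 i
  rw [a1, b1] at this
  norm_num at this

end NNetD

open NNetD in
theorem netD : sNetD := by
  intro d R s hd hR hs k
  induction k with
  | zero =>
    refine ⟨fun w => R • pt w, fun w => by simp [hR.le], fun w w' h hw _ => ?_⟩
    simp only [pow_zero, one_mul]
    exact (anti (ball_subset_ball (by linarith)) _ _).trans_lt (hw w' h)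
  | succ k ih =>
    obtain ⟨rep, h1, h2⟩ := ih
    choose a ha hg using pick (d := d) R s k
    have e1 : (20 : ℝ) ^ (k + 1) * R = 20 * (20 ^ k * R) := by ring
    have e2 : (60 : ℝ) ^ (k + 1) * s = 60 * (60 ^ k * s) := by ring
    rw [e1, e2]
    have hρ : 0 < (20 : ℝ) ^ k * R := by positivity
    have ht : 0 < (60 : ℝ) ^ k * s := by positivity
    generalize (20 : ℝ) ^ k * R = ρ at h1 h2 hρ
    generalize (60 : ℝ) ^ k * s = t at h2 ht
    have hr : ∀ w, dist (rep fun j => 20 * w j + a w j) ((20 * ρ) • pt w) ≤ 19 * ρ := fun w => by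
      have b1 := near hρ (r := 9) (by norm_num) (x := fun j => 20 * w j + a w j) (w := w) fun i => by
        have := ha w i
        rw [add_sub_cancel_left]
        exact_mod_cast this
      linarith [dist_triangle (rep fun j => 20 * w j + a w j)
        (ρ • pt fun j => 20 * w j + a w j) ((20 * ρ) • pt w), h1 fun j => 20 * w j + a w j]
    refine ⟨fun w => rep fun j => 20 * w j + a w j, fun w => by linarith [hr w],
      fun w w' h hw hw' => ?_⟩
    have step : ∀ x y : Zd 2, Nb x y → Gdc d R s k x → Gdc d R s k y →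
        (∀ i, |x i - 20 * w i| ≤ 29) →
        wey d (fun _ => 1) (ball ((20 * ρ) • pt w) (5 * (20 * ρ))) (rep x) (rep y) <
          ENNReal.ofReal t := fun x y n gx gy hx => by
      have b1 := near hρ (r := 29) (by norm_num) (x := x) (w := w) fun i => by exact_mod_cast hx i
      exact (anti (ball_subset_ball' (by linarith)) _ _).trans_lt (h2 x y n gx gy)
    have n0 : |w' 0 - w 0| + |w' 1 - w 1| = 1 := by simpa [Nb] using h
    have p0 := abs_nonneg (w' 0 - w 0)
    have p1 := abs_nonneg (w' 1 - w 1)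
    obtain ⟨u0, v0⟩ := abs_le.mp (show |w' 0 - w 0| ≤ 1 by omega)
    obtain ⟨u1, v1⟩ := abs_le.mp (show |w' 1 - w 1| ≤ 1 by omega)
    obtain ⟨a0, b0⟩ := abs_le.mp (ha w 0)
    obtain ⟨a1, b1⟩ := abs_le.mp (ha w 1)
    obtain ⟨c0, d0⟩ := abs_le.mp (ha w' 0)
    obtain ⟨c1, d1⟩ := abs_le.mp (ha w' 1)
    have g0 : ∀ m, |m - 20 * w 0| ≤ 29 → Gdc d R s k ![m, 20 * w 1 + a w 1] := fun m hm => by
      have := hg w 1 hw ![m - 20 * w 0, a w 1] (fun i => by
        fin_cases i
        · simpa using hm.trans (by norm_num)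
        · simpa using (ha w 1).trans (by norm_num)) rfl
      convert this using 1
      ext j; fin_cases j <;> simp
    have g1 : ∀ m, |m - 20 * w' 1| ≤ 29 → Gdc d R s k ![20 * w' 0 + a w' 0, m] := fun m hm => by
      have := hg w' 0 hw' ![a w' 0, m - 20 * w' 1] (fun i => by
        fin_cases i
        · simpa using (ha w' 0).trans (by norm_num)
        · simpa using hm.trans (by norm_num)) rfl
      convert this using 1
      ext j; fin_cases j <;> simp
    have x0 : (fun j => 20 * w j + a w j) = ![20 * w 0 + a w 0, 20 * w 1 + a w 1] := by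
      ext j; fin_cases j <;> simp
    have x1 : (fun j => 20 * w' j + a w' j) = ![20 * w' 0 + a w' 0, 20 * w' 1 + a w' 1] := by
      ext j; fin_cases j <;> simp
    have s0 := start hd (U := ball ((20 * ρ) • pt w) (5 * (20 * ρ)))
      (u := rep fun j => 20 * w j + a w j) (mem_ball.mpr (by linarith [hr w])) ht
    have s1 := line hd (fun m => rep ![m, 20 * w 1 + a w 1]) (20 * w 0 + a w 0)
      (20 * w' 0 + a w' 0) (by rw [← x0]; exact s0) fun m m' i1 i2 i3 i4 i5 =>
        step _ _ (by simpa [Nb] using i5) (g0 m (abs_le.mpr ⟨by omega, by omega⟩))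
          (g0 m' (abs_le.mpr ⟨by omega, by omega⟩)) fun i => by
            fin_cases i
            · exact abs_le.mpr ⟨by simp; omega, by simp; omega⟩
            · exact abs_le.mpr ⟨by simp; omega, by simp; omega⟩
    have s2 := line hd (fun m => rep ![20 * w' 0 + a w' 0, m]) (20 * w 1 + a w 1)
      (20 * w' 1 + a w' 1) s1 fun m m' i1 i2 i3 i4 i5 =>
        step _ _ (by simpa [Nb] using i5) (g1 m (abs_le.mpr ⟨by omega, by omega⟩))
          (g1 m' (abs_le.mpr ⟨by omega, by omega⟩)) fun i => by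
            fin_cases i
            · exact abs_le.mpr ⟨by simp; omega, by simp; omega⟩
            · exact abs_le.mpr ⟨by simp; omega, by simp; omega⟩
    rw [← x1] at s2
    refine s2.trans_le (ENNReal.ofReal_le_ofReal ?_)
    have z : |20 * w' 0 + a w' 0 - (20 * w 0 + a w 0)| +
        |20 * w' 1 + a w' 1 - (20 * w 1 + a w 1)| ≤ 59 := by
      simp only [Int.abs_eq_natAbs] at n0 ⊢
      omega
    have z' : ((|20 * w' 0 + a w' 0 - (20 * w 0 + a w 0)| : ℤ) : ℝ) +
        ((|20 * w' 1 + a w' 1 - (20 * w 1 + a w 1)| : ℤ) : ℝ) ≤ 59 := by exact_mod_cast z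
    nlinarith [mul_le_mul_of_nonneg_right z' ht.le]

end Pool.Agent.GL
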