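import Pool.Agent.Lib.MP_438f30_pr.NSt
import Pool.Agent.Lib.MP_438f30_pr.HOsc
import Pool.Agent.Lib.MP_438f30_pr.HCel
import Pool.Agent.Lib.MP_438f30_pr.HKK
import Pool.Agent.Lib.MP_438f30_pr.HV1

/-! The upper bound for the oscillation of the coarse field on small cells. -/

namespace Pool.Agent.GL

open MeasureTheory ProbabilityTheory Real Finset Filter Topology Metric
  Pool.Agent.Lib.MP_a0a493_pr
open scoped InnerProductSpace

theorem oscU : sOscU := by
  intro Ω _ P _ W hW ρ hρ hi F hF L ζ hζ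
  have e : ∀ h, (-W) h = W (-h) := fun h => by rw [LinearMap.neg_apply, map_neg]
  have hW' : Iso P (-W) := ⟨fun h => e h ▸ hW.meas (-h), fun h => by
    rw [e, hW.law, norm_neg]⟩
  have hF' : ∀ j, Ver P (-W) (crs ρ (log (ee j))) fun ω x => -F j ω x := fun j =>
    ⟨fun ω => ((hF j).1 ω).neg, fun x => ((hF j).2.1 x).neg, fun x => ((hF j).2.2 x).neg⟩
  filter_upwards [osc cel vf1 kkf Ω P (-W) hW' ρ hρ hi _ hF' L ζ hζ] with ω h
  filter_upwards [h] with j hj w hw x hx
  have := hj w hw x hx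
  simp only [LinearMap.neg_apply, Pi.neg_apply] at this
  linarith

end Pool.Agent.GL
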