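import Pool.Agent.Lib.MP_438f30_pr.NSt
import Pool.Agent.Lib.MP_438f30_pr.HV3
import Pool.Agent.Lib.MP_438f30_pr.HPL

/-! Renormalisation: bad cells of high level are doubly exponentially unlikely. -/

namespace Pool.Agent.GL

open MeasureTheory ProbabilityTheory Real Finset Filter Topology Metric
  Pool.Agent.Lib.MP_a0a493_pr
open scoped InnerProductSpace

namespace NRenU

theorem far {M : ℝ} (hM : 0 ≤ M) {c c' : Zd 2} {i : Fin 2} (h : 12 ≤ |c i - c' i|) :
    12 * M ≤ dist (M • pt c) (M • pt c') := by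
  have a := PiLp.dist_apply_le (pt c) (pt c') i
  rw [pt_apply, pt_apply, Real.dist_eq] at a
  have b : (12 : ℝ) ≤ |(c i : ℝ) - c' i| := by exact_mod_cast h
  rw [dist_smul₀, Real.norm_of_nonneg hM, mul_comm]
  exact mul_le_mul_of_nonneg_left (b.trans a) hM

end NRenU

theorem renU (h1 : sGdL) (h2 : sBase) : sRenU := by
  intro ξ Q D hD Ω _ P _ W hW Ψ₁ hΨ₁
  obtain ⟨s, hs, hb⟩ := h2 ξ Q D hD Ω P W hW Ψ₁ hΨ₁ (1 / 2 / 61 ^ 4) (by positivity)
  refine ⟨s, hs, fun r Ψ hr hΨ => ?_⟩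
  replace hb := hb r Ψ hr hΨ
  generalize exp (ξ * Q * log r) * s = t at hb ⊢
  have hR : 0 < r / 3 := by positivity
  have ind : ∀ (k : ℕ) (c c' : Zd 2) (i : Fin 2), 12 ≤ |c i - c' i| →
      P.real {ω | ¬ Gdc (D fun φ => Ψ φ ω) (r / 3) t k c ∧
        ¬ Gdc (D fun φ => Ψ φ ω) (r / 3) t k c'} =
      P.real {ω | ¬ Gdc (D fun φ => Ψ φ ω) (r / 3) t k c} *
        P.real {ω | ¬ Gdc (D fun φ => Ψ φ ω) (r / 3) t k c'} := fun k c c' i hc => by
    obtain ⟨A, a, a'⟩ := h1 ξ Q D hD Ω P Ψ hΨ.1 (r / 3) t hR k c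
    obtain ⟨B, b, b'⟩ := h1 ξ Q D hD Ω P Ψ hΨ.1 (r / 3) t hR k c'
    have hM : r / 3 ≤ 20 ^ k * (r / 3) :=
      le_mul_of_one_le_left hR.le (one_le_pow₀ (by norm_num))
    have hf := NRenU.far (hR.le.trans hM) hc
    generalize 20 ^ k * (r / 3) = M at a b hM hf
    have j := pl.ind hW hΨ.1.1 hΨ.2 (ball (M • pt c) (3 * M)) (ball (M • pt c') (3 * M))
      (fun φ ψ hφ hψ sφ sψ => vf3.orth (log r) φ ψ hφ hψ fun x hx y hy => by
        have e1 := mem_ball'.1 (sφ hx)
        have e2 := mem_ball.1 (sψ hy)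
        have e3 := dist_triangle4 (M • pt c) x y (M • pt c')
        rw [exp_log hr]
        linarith) A B a b
    rw [← measure_congr a', ← measure_congr b'] at j
    rw [measureReal_def, measureReal_def, measureReal_def, ← ENNReal.toReal_mul, ← j]
    exact congrArg _ (measure_congr (a'.inter b'))
  have st : ∀ (k : ℕ) (p : ℝ), 0 ≤ p →
      (∀ w, P.real {ω | ¬ Gdc (D fun φ => Ψ φ ω) (r / 3) t k w} ≤ p) →
      ∀ w, P.real {ω | ¬ Gdc (D fun φ => Ψ φ ω) (r / 3) t (k + 1) w} ≤ 61 ^ 4 * p ^ 2 :=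
    fun k p hp h w => by
    have cb := card_box (d := 2) 15
    have df : ∀ d : R2 → R2 → ℝ, (∀ a ∈ box 2 15, ∀ b ∈ box 2 15,
        ¬ Gdc d (r / 3) t k (fun i => 20 * w i + a i) →
        ¬ Gdc d (r / 3) t k (fun i => 20 * w i + b i) → ∀ i, |a i - b i| ≤ 11) →
        Gdc d (r / 3) t (k + 1) w := fun d h => h
    generalize box 2 15 = B at cb df
    have u := Pool.Agent.Lib.MP_a0a493_pr.union_le (P := P)
      ((B ×ˢ B).filter fun q => ∃ i, 12 ≤ |q.1 i - q.2 i|)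
      (fun q => {ω | ¬ Gdc (D fun φ => Ψ φ ω) (r / 3) t k (fun i => 20 * w i + q.1 i) ∧
        ¬ Gdc (D fun φ => Ψ φ ω) (r / 3) t k (fun i => 20 * w i + q.2 i)}) (c := p ^ 2)
      fun q hq => by
        obtain ⟨i, hi⟩ := (mem_filter.1 hq).2
        rw [ind k _ _ i (by simpa using hi), sq]
        exact mul_le_mul (h _) (h _) measureReal_nonneg hp
    refine le_trans (measureReal_mono fun ω hω => ?_)
      (u.trans (mul_le_mul_of_nonneg_right ?_ (sq_nonneg _)))
    · by_contra hn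
      refine hω (df _ fun a ha b hb x y i => ?_)
      by_contra hi
      exact hn ⟨(a, b), mem_filter.2 ⟨mem_product.2 ⟨ha, hb⟩, i, by simp only; omega⟩, x, y⟩
    · have := card_filter_le (B ×ˢ B) fun q => ∃ i, 12 ≤ |q.1 i - q.2 i|
      rw [card_product, cb] at this
      exact_mod_cast this
  have q : ∀ (k : ℕ) (w : Zd 2), P.real {ω | ¬ Gdc (D fun φ => Ψ φ ω) (r / 3) t k w} ≤
      (1 / 2) ^ 2 ^ k / 61 ^ 4 := fun k => by
    induction k with
    | zero =>
      intro w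
      rw [pow_zero, pow_one]
      exact hb w
    | succ k ih =>
      intro w
      refine (st k _ (by positivity) ih w).trans (le_of_eq ?_)
      rw [pow_succ 2 k, pow_mul]
      field_simp
  exact fun k w => (q k w).trans (div_le_self (by positivity) (by norm_num))

end Pool.Agent.GL
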