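import Pool.Agent.Lib.MP_438f30_pr.NSt
import Pool.Agent.Lib.MP_438f30_pr.HAll0
import Pool.Agent.Lib.MP_438f30_pr.HLB

/-! Neighbouring small cells are joined cheaply. -/

namespace Pool.Agent.GL

open MeasureTheory ProbabilityTheory Real Finset Filter Topology Metric
  Pool.Agent.Lib.MP_a0a493_pr

namespace NUB

theorem up {d : R2 → R2 → ℝ} {z u v : R2} {R s M : ℝ} {g : R2 → ℝ} (h : Lnk d z R s u v)
    (hM : 0 ≤ M) (hg : ∀ x ∈ ball z R, g x ≤ M) :
    wey d g Set.univ u v ≤ ENNReal.ofReal (M * s) := by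
  obtain ⟨p, l, hp, rfl, rfl, hb, hl⟩ := mg1.path h
  refine (mg1.up (M := M) hp 0 l le_rfl hp.1 le_rfl fun r hr =>
    ⟨hg _ (hb r hr), Set.mem_univ _⟩).trans (ENNReal.ofReal_le_ofReal ?_)
  exact mul_le_mul_of_nonneg_left (by linarith) hM

theorem mesh (j : ℕ) : 20 ^ kk j * (ee j / 3) = ((2 : ℝ) ^ j)⁻¹ := by
  unfold ee
  field_simp

end NUB

theorem ubd (h1 : sRenU) (h2 : sNetD) (h3 : sOscU) : sUB := by
  intro ξ Q D hξ hD Ω _ P _ W hW ρ hρ hi L ζ hζ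
  choose F hV hF using fun j => allMod Ω P W hW ρ hρ hi (log (ee j))
  obtain ⟨F₁, -, hF₁⟩ := allMod Ω P W hW ρ hρ hi 0
  obtain ⟨s, hs, hk⟩ := h1 ξ Q D hD Ω P W hW _ hF₁
  have bc := ae_eventually_notMem (μ := P) (s := fun j => ⋃ w ∈ box 2 (L * 2 ^ j),
    {ω | ¬ Gdc (D fun φ => W (gv0 ρ φ) ω - ∫ x, φ x * F j ω x) (ee j / 3)
      (exp (ξ * Q * log (ee j)) * s) (kk j) w}) (by
    have sm : Summable fun j : ℕ => (4 * (L : ℝ) + 1) ^ 2 * (1 / 2) ^ j :=
      summable_geometric_two.mul_left _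
    refine ne_top_of_le_ne_top (sm.tsum_ofReal_ne_top) (ENNReal.tsum_le_tsum fun j => ?_)
    refine (measure_biUnion_finset_le _ _).trans ((sum_le_card_nsmul _ _
      (ENNReal.ofReal ((1 / 2) ^ 2 ^ kk j)) fun w _ => ?_).trans ?_)
    · rw [← ofReal_measureReal]
      exact ENNReal.ofReal_le_ofReal (hk _ _ (HLB.ee_pos j) (hF j) _ w)
    · rw [nsmul_eq_mul, ← ENNReal.ofReal_natCast, ← ENNReal.ofReal_mul (Nat.cast_nonneg _)]
      exact ENNReal.ofReal_le_ofReal (HLB.cnt L j _ (kkf.lo j)))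
  filter_upwards [bc, h3 Ω P W hW ρ hρ hi F hV L (ζ / 2 / ξ) (by positivity),
    ae_all_iff.2 fun j => hD.met Ω P _ (hF j).1, ae_all_iff.2 fun j => hD.weyl Ω P _ (hF j).1]
    with ω a b c d
  filter_upwards [a, b, HLB.num kkf (log 60 - ξ * Q * log 20) (ξ * Q * log 3 + log s)
    (half_pos hζ)] with j a b e
  simp only [Set.mem_iUnion, not_exists, Set.mem_ofPred_eq, not_not] at a
  obtain ⟨rep, r1, r2⟩ := h2 _ (ee j / 3) (exp (ξ * Q * log (ee j)) * s) (c j)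
    (div_pos (HLB.ee_pos j) three_pos) (by positivity) (kk j)
  rw [NUB.mesh] at r1 r2
  refine ⟨rep, r1, fun w hw w' hw' hn => ?_⟩
  have k := NUB.up (M := exp (ξ * (W (vp ρ j w) ω + ζ / 2 / ξ * j)))
    (g := fun x => exp (ξ * F j ω x)) (r2 w w' hn (a w hw) (a w' hw')) (exp_pos _).le
    fun x hx => exp_le_exp.2 (mul_le_mul_of_nonneg_left (b w hw x
      (ball_subset_closedBall.trans (closedBall_subset_closedBall (by
        have : (0 : ℝ) < (2 ^ j)⁻¹ := by positivity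
        rw [div_eq_mul_inv]
        linarith)) hx)) hξ.le)
  rw [← d j _ ((hV j).1 ω)] at k
  simp only [sub_add_cancel] at k
  refine ((ENNReal.ofReal_le_ofReal_iff (by positivity)).1 k).trans ?_
  rw [← exp_log hs, ← exp_log (show (0 : ℝ) < 60 ^ kk j by positivity), ← exp_add, ← exp_add,
    ← exp_add, exp_le_exp, HLB.log_ee, log_pow, mul_add ξ, ← mul_assoc ξ, mul_div_cancel₀ _ hξ.ne']
  linarith

end Pool.Agent.GL
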