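import Pool.Agent.Lib.MP_438f30_pr.NLnkM
import Pool.Agent.Lib.MP_438f30_pr.NScl
import Pool.Agent.Lib.MP_438f30_pr.NLnkI
import Pool.Agent.Lib.MP_438f30_pr.NNetD
import Pool.Agent.Lib.MP_438f30_pr.NGdL
import Pool.Agent.Lib.MP_438f30_pr.NBase
import Pool.Agent.Lib.MP_438f30_pr.NRenU
import Pool.Agent.Lib.MP_438f30_pr.NOscU
import Pool.Agent.Lib.MP_438f30_pr.NUB
import Pool.Agent.Lib.MP_438f30_pr.NLam
import Pool.Agent.Lib.MP_438f30_pr.NLow

/-! The lower bound for small parameters, assembled. -/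

namespace Pool.Agent.GL

theorem allRenU : sRenU := renU gdL (nbase (lnkI lnkM scl))

theorem allUB : sUB := ubd allRenU netD oscU

theorem allLam : sLam := lam allUB

theorem allLowC : sLowC := lowC allLam

end Pool.Agent.GL
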