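import Pool.Agent.Lib.MP_438f30_pr.Base

/-! The statements of the blocks. -/

namespace Pool.Agent.GL

open MeasureTheory ProbabilityTheory Real Finset Filter Topology Pool.Agent.Lib.MP_a0a493_pr
open scoped InnerProductSpace

/-- some walk in the box with the property `q` costs less than `b` -/
def Chp (n : ℕ) (q : ℕ → (ℕ → Zd 2) → Prop) (b : ℝ) (f : Zd 2 → ℝ) : Prop :=
  ∃ T x, InBox n T x ∧ q T x ∧ cost f T x < b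

/-- a walk from the origin to distance `2^n` with at most `t` steps -/
def Crs (n : ℕ) (t : ℝ) (T : ℕ) (x : ℕ → Zd 2) : Prop :=
  x 0 = 0 ∧ 2 ^ n ≤ ‖pt (x T)‖ ∧ (∀ i < T, ∑ j, |x (i + 1) j - x i j| = 1) ∧ (T : ℝ) ≤ t

/-- Part A: short walks are expensive. -/
def sA : Prop :=
  ∃ C : ℝ, 0 ≤ C ∧ ∀ θ ξ γ ε : ℝ, 10 ≤ θ → 0 ≤ ξ → 0 ≤ γ → 0 < ε →
    ∀ (Ω : Type) [MeasurableSpace Ω] (P : Measure Ω) [IsProbabilityMeasure P]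
      (W : HG 2 →ₗ[ℝ] (Ω → ℝ)), Iso P W →
      Tendsto (fun n : ℕ => P.real {ω | Chp n (Crs n (exp ((log 2 + γ) * n)))
        (exp ((log 2 - C * (ξ / θ + ξ * θ ^ 3 * γ) - ε) * n))
        fun v => ξ * W (EG 0 (n * log 2) (pt v)) ω}) atTop (𝓝 0)

/-- Part B: there is a cheap walk. -/
def sB : Prop :=
  ∃ c₁ x₀ : ℝ, 0 < c₁ ∧ 0 < x₀ ∧ ∀ x : ℝ, 0 < x → x ≤ x₀ →
    ∀ (Ω : Type) [MeasurableSpace Ω] (P : Measure Ω) [IsProbabilityMeasure P]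
      (W : HH 2 →ₗ[ℝ] (Ω → ℝ)), Iso P W →
      Tendsto (fun n : ℕ => P.real {ω | ¬ Chp n (IsWalk n) (exp ((log 2 - c₁ * x ^ 4) * n))
        fun v => x ^ 3 * W (Ev 0 (n * log 2) (pt v)) ω}) atTop (𝓝 0)

def sGF : Prop :=
  ∀ (Ω : Type) [MeasurableSpace Ω] (P : Measure Ω) [IsProbabilityMeasure P] (H : Type)
    [NormedAddCommGroup H] [InnerProductSpace ℝ H] (W : H →ₗ[ℝ] (Ω → ℝ)), Iso P W →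
    ∀ (g : H) (j : ℕ) (σ : ℕ → ℝ) (z : ℕ → H),
      (∀ i < j, ∀ i' < j, i ≠ i' → ⟪z i, z i'⟫_ℝ = 0) →
      Integrable (fun ω => exp (W g ω) * ∏ i ∈ range j, (1 - σ i * sin (W (z i) ω))) P ∧
      ∫ ω, exp (W g ω) * ∏ i ∈ range j, (1 - σ i * sin (W (z i) ω)) ∂P =
        exp (‖g‖ ^ 2 / 2) * ∏ i ∈ range j, (1 - σ i * exp (-‖z i‖ ^ 2 / 2) * sin ⟪z i, g⟫_ℝ)

/-- a point of the plane as a complex number -/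
noncomputable def ce (u : E 2) : ℂ := (u 0 : ℂ) + (u 1 : ℂ) * Complex.I

theorem ce_re (u : E 2) : (ce u).re = u 0 := by simp [ce]

theorem ce_im (u : E 2) : (ce u).im = u 1 := by simp [ce]

theorem norm_ce_sub (u v : E 2) : ‖ce u - ce v‖ = dist u v := by
  rw [EuclideanSpace.dist_eq, Complex.norm_eq_sqrt_sq_add_sq]
  simp [ce_re, ce_im, Fin.sum_univ_two, Real.dist_eq]

theorem continuous_ce : Continuous ce := by unfold ce; fun_prop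

/-- ratio of the lengths of a child and its parent -/
noncomputable def th (a : ℝ) : ℝ := √(1 + 4 * a ^ 2) / 8

noncomputable def sn (σ : Bool) : ℝ := if σ then 1 else -1

/-- the vertices of the tent -/
noncomputable def tau (a : ℝ) (σ : Bool) (c : ℕ) : ℂ :=
  (c : ℂ) / 8 + ((sn σ * a * (min c (8 - c) : ℕ) / 4 : ℝ) : ℂ) * Complex.I

/-- a node `(p, v)` is the segment from `p` to `p + v`; these are its children -/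
noncomputable def chd (a : ℝ) (N : ℂ × ℂ) (σ : Bool) (c : ℕ) : ℂ × ℂ :=
  (N.1 + N.2 * tau a σ c, N.2 * (tau a σ (c + 1) - tau a σ c))

/-- lattice points near the segment -/
def Tb (r : ℝ) (N : ℂ × ℂ) : Set (Zd 2) :=
  {y | ∃ t : ℝ, 0 ≤ t ∧ t ≤ 1 ∧ ‖ce (pt y) - (N.1 + t * N.2)‖ ≤ r}

def RegZ (a : ℝ) (N : ℂ × ℂ) : Set (Zd 2) := Tb (2 * a * ‖N.2‖) N

noncomputable def rnd (p : ℂ) : Zd 2 := ![⌊p.re⌋, ⌊p.im⌋]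

def Wk (S : Set (Zd 2)) (p q : Zd 2) (T : ℕ) (x : ℕ → Zd 2) : Prop :=
  x 0 = p ∧ x T = q ∧ (∀ i < T, ∑ j, |x (i + 1) j - x i j| = 1) ∧ ∀ i ≤ T, x i ∈ S

theorem Wk.mono {S S' : Set (Zd 2)} {p q : Zd 2} {T : ℕ} {x : ℕ → Zd 2} (h : Wk S p q T x)
    (hS : S ⊆ S') : Wk S' p q T x := ⟨h.1, h.2.1, h.2.2.1, fun i hi => hS (h.2.2.2 i hi)⟩

def sWk : Prop :=
  ∀ (S : Set (Zd 2)) (p q r : Zd 2) (T T' : ℕ) (x x' : ℕ → Zd 2), Wk S p q T x → Wk S q r T' x' →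
    ∃ x'', Wk S p r (T + T') x'' ∧ ∀ f, cost f (T + T') x'' ≤ cost f T x + cost f T' x'

def sSeg : Prop :=
  ∀ N : ℂ × ℂ, ∃ (T : ℕ) (x : ℕ → Zd 2), Wk (Tb 3 N) (rnd N.1) (rnd (N.1 + N.2)) T x ∧
    (T : ℝ) ≤ 2 * ‖N.2‖ + 2

/-- normalised coordinate -/
noncomputable def zt (N : ℂ × ℂ) (u : E 2) : ℂ := (ce u - N.1) / N.2

structure CH : Prop where
  th1 : ∀ a : ℝ, 0 < a → a ≤ 1 / 10 → 1 / 8 ≤ th a ∧ th a ≤ 13 / 100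
  len : ∀ (a : ℝ) (N : ℂ × ℂ) (σ : Bool), ∀ c < 8, ‖(chd a N σ c).2‖ = th a * ‖N.2‖
  fst : ∀ (a : ℝ) (N : ℂ × ℂ) (σ : Bool), (chd a N σ 0).1 = N.1 ∧ (chd a N σ 8).1 = N.1 + N.2
  nxt : ∀ (a : ℝ) (N : ℂ × ℂ) (σ : Bool) (c : ℕ),
    (chd a N σ c).1 + (chd a N σ c).2 = (chd a N σ (c + 1)).1
  sub : ∀ (a : ℝ) (N : ℂ × ℂ) (σ : Bool), 0 < a → a ≤ 1 / 10 → ∀ c < 8,
    RegZ a (chd a N σ c) ⊆ RegZ a N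
  crd : ∀ (a : ℝ) (N : ℂ × ℂ) (σ : Bool), 0 < a → a ≤ 1 / 10 → N.2 ≠ 0 → ∀ c < 8,
    ∀ y ∈ RegZ a (chd a N σ c), ∃ t : ℝ, c / 8 ≤ t ∧ t ≤ (c + 1) / 8 ∧
      |(zt N (pt y)).re - t| ≤ 26 / 100 * a ∧
      |sn σ * (zt N (pt y)).im - 2 * a * min t (1 - t)| ≤ 26 / 100 * a
  dst : ∀ (N : ℂ × ℂ) (u v : E 2), N.2 ≠ 0 → ‖zt N u - zt N v‖ = dist u v / ‖N.2‖
  root : ∀ (a : ℝ) (n : ℕ), 0 < a → a ≤ 1 / 10 → ∀ (T : ℕ) (x : ℕ → Zd 2),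
    Wk (RegZ a (0, 2 ^ n)) (rnd 0) (rnd (0 + 2 ^ n)) T x → IsWalk n T x ∧ InBox n T x

/-- the weighted cost of the tree -/
noncomputable def Cst (a : ℝ) (s lf : ℂ × ℂ → ℝ) : ℕ → ℂ × ℂ → ℝ
  | 0, N => lf N
  | m + 1, N => ∑ σ : Bool, (1 - sn σ * s N) / 2 * ∑ c ∈ range 8, Cst a s lf m (chd a N σ c)

def sB4 : Prop :=
  ∀ (a l₀ : ℝ) (f : Zd 2 → ℝ) (s : ℂ × ℂ → ℝ) (T : ℂ × ℂ → ℕ) (x : ℂ × ℂ → ℕ → Zd 2),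
    0 < a → a ≤ 1 / 10 → (∀ N, |s N| ≤ 1) →
    (∀ N, ‖N.2‖ = l₀ → Wk (RegZ a N) (rnd N.1) (rnd (N.1 + N.2)) (T N) (x N)) →
    ∀ (m : ℕ) (N : ℂ × ℂ), l₀ = th a ^ m * ‖N.2‖ →
      ∃ T' x', Wk (RegZ a N) (rnd N.1) (rnd (N.1 + N.2)) T' x' ∧
        cost f T' x' ≤ Cst a s (fun N' => cost f (T N') (x N')) m N

def sB2 : Prop :=
  ∀ (Ω : Type) [MeasurableSpace Ω] (P : Measure Ω) [IsProbabilityMeasure P] (H : Type)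
    [NormedAddCommGroup H] [InnerProductSpace ℝ H] (W : H →ₗ[ℝ] (Ω → ℝ)), Iso P W →
    ∀ (a l₀ l₁ V Λ : ℝ) (z : ℂ × ℂ → H) (g : Zd 2 → H) (b : ℕ → ℝ) (T : ℂ × ℂ → ℕ)
      (x : ℂ × ℂ → ℕ → Zd 2), 0 < a → a ≤ 1 / 10 → 0 ≤ Λ → (∀ c, 0 ≤ b c) →
      (∀ y, ‖g y‖ ^ 2 ≤ V) →
      (∀ N N', ‖N'.2‖ ≤ th a * ‖N.2‖ → ⟪z N, z N'⟫_ℝ = 0) →
      (∀ N, l₀ ≤ th a * ‖N.2‖ → ‖N.2‖ ≤ l₁ → ∀ σ, ∀ c < 8, ∀ y ∈ RegZ a (chd a N σ c),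
        1 - sn σ * exp (-‖z N‖ ^ 2 / 2) * sin ⟪z N, g y⟫_ℝ ≤ b c) →
      (∀ N, ‖N.2‖ = l₀ → (T N : ℝ) + 1 ≤ Λ ∧ ∀ i ≤ T N, x N i ∈ RegZ a N) →
      ∀ (m : ℕ) (N : ℂ × ℂ), l₀ = th a ^ m * ‖N.2‖ → ‖N.2‖ ≤ l₁ →
        Integrable (fun ω => Cst a (fun N' => sin (W (z N') ω))
          (fun N' => cost (fun y => W (g y) ω) (T N') (x N')) m N) P ∧
        ∫ ω, Cst a (fun N' => sin (W (z N') ω))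
          (fun N' => cost (fun y => W (g y) ω) (T N') (x N')) m N ∂P ≤
          (∑ c ∈ range 8, b c) ^ m * Λ * exp (V / 2)

/-- the test direction of a node -/
noncomputable def Uf (a : ℝ) (N : ℂ × ℂ) (p : ℝ × E 2) : ℝ :=
  if log (th a * a * ‖N.2‖ / 5) < p.1 ∧ p.1 ≤ log (a * ‖N.2‖ / 5) ∧ 5 / 16 ≤ (zt N p.2).re ∧
      (zt N p.2).re ≤ 11 / 16 ∧ |(zt N p.2).im| ≤ 2 * a then
    (if 0 ≤ (zt N p.2).im then 1 else -1) else 0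

noncomputable def zN (a : ℝ) (N : ℂ × ℂ) : HH 2 := (√a / 50) • vec (Uf a N)

def sAr : Prop :=
  ∀ (a : ℝ) (N : ℂ × ℂ), 0 < a → N.2 ≠ 0 →
    volume {u : E 2 | 5 / 16 ≤ (zt N u).re ∧ (zt N u).re ≤ 11 / 16 ∧ |(zt N u).im| ≤ 2 * a} ≤
      ENNReal.ofReal (3 / 2 * a * ‖N.2‖ ^ 2)

def sB3a : Prop :=
  ∀ (a : ℝ) (N : ℂ × ℂ), 0 < a → a ≤ 1 / 10 → Measurable (Uf a N) ∧ Ok (Uf a N) ∧ ‖zN a N‖ ≤ 1 ∧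
    ∀ N' : ℂ × ℂ, ‖N'.2‖ ≤ th a * ‖N.2‖ → ⟪zN a N, zN a N'⟫_ℝ = 0

def sB3b : Prop :=
  ∀ (a β : ℝ) (N : ℂ × ℂ) (σ : Bool), 0 < a → a ≤ 1 / 10 → 5 ≤ th a * a * ‖N.2‖ →
    a * ‖N.2‖ / 5 ≤ exp β → ∀ c < 8, ∀ y ∈ RegZ a (chd a N σ c),
      0 ≤ sn σ * ⟪vec (Uf a N), Ev 0 β (pt y)⟫_ℝ ∧ sn σ * ⟪vec (Uf a N), Ev 0 β (pt y)⟫_ℝ ≤ 3 ∧
      (c = 3 ∨ c = 4 → 2 ≤ sn σ * ⟪vec (Uf a N), Ev 0 β (pt y)⟫_ℝ)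

def sB5 : Prop :=
  ∀ (x : ℝ) (n m : ℕ), 0 < x → x ≤ 1 → 5 ≤ (x / 12) ^ 2 * (th ((x / 12) ^ 2) ^ m * 2 ^ n) →
    ∀ (Ω : Type) [MeasurableSpace Ω] (P : Measure Ω) [IsProbabilityMeasure P]
      (W : HH 2 →ₗ[ℝ] (Ω → ℝ)), Iso P W → ∃ Z : Ω → ℝ, Integrable Z P ∧
        (∀ ω, ∃ T y, IsWalk n T y ∧ InBox n T y ∧
          cost (fun v => x ^ 3 * W (Ev 0 (n * log 2) (pt v)) ω) T y ≤ Z ω) ∧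
        ∫ ω, Z ω ∂P ≤ 3 * 2 ^ n * exp (-(x ^ 4 * m / 9000) + x ^ 6 * n / 2)

def sTr : Prop :=
  ∀ (Ω : Type) [MeasurableSpace Ω] (P : Measure Ω) [IsProbabilityMeasure P] (H : Type)
    [NormedAddCommGroup H] [InnerProductSpace ℝ H] (W : H →ₗ[ℝ] (Ω → ℝ)), Iso P W →
    ∀ (u u' : ℕ → Zd 2 → H) (V ε : ℝ), 0 < ε →
      (∀ n, ∀ v ∈ box 2 (2 ^ n), ‖u n v - u' n v‖ ^ 2 ≤ V) →
      Tendsto (fun n : ℕ => P.real {ω | ∃ v ∈ box 2 (2 ^ n),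
        ε * n < |W (u n v) ω - W (u' n v) ω|}) atTop (𝓝 0)

structure LW : Prop where
  law : ∀ {Ω Ω' : Type} [MeasurableSpace Ω] [MeasurableSpace Ω'] {P : Measure Ω} {P' : Measure Ω'}
    [IsProbabilityMeasure P] [IsProbabilityMeasure P'] {H H' : Type} [NormedAddCommGroup H]
    [InnerProductSpace ℝ H] [NormedAddCommGroup H'] [InnerProductSpace ℝ H'] (n : ℕ)
    (X : Zd 2 → Ω → ℝ) (v : Zd 2 → H) (X' : Zd 2 → Ω' → ℝ) (v' : Zd 2 → H'),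
    GF P (fun j : box 2 (2 ^ n) => X j) (fun j => v j) →
    GF P' (fun j : box 2 (2 ^ n) => X' j) (fun j => v' j) →
    (∀ i j, ⟪v i, v j⟫_ℝ = ⟪v' i, v' j⟫_ℝ) → ∀ (ξ b : ℝ) (q : ℕ → (ℕ → Zd 2) → Prop),
      P.real {ω | Chp n q b fun z => ξ * X z ω} = P'.real {ω | Chp n q b fun z => ξ * X' z ω} ∧
      P.real {ω | ¬ Chp n q b fun z => ξ * X z ω} =
        P'.real {ω | ¬ Chp n q b fun z => ξ * X' z ω}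
  cmp : ∀ (n : ℕ) (q : ℕ → (ℕ → Zd 2) → Prop) (b e : ℝ) (f f' : Zd 2 → ℝ),
    (∀ v ∈ box 2 (2 ^ n), f' v ≤ f v + e) → Chp n q (exp b) f → Chp n q (exp (b + e)) f'
  crs : ∀ (n T : ℕ) (x : ℕ → Zd 2) (t b : ℝ) (f : Zd 2 → ℝ), IsWalk n T x → (T : ℝ) ≤ t →
    cost f T x < b → Chp n (Crs n t) b f
  add : ∀ (n T : ℕ) (x : ℕ → Zd 2) (f : Zd 2 → ℝ) (e : ℝ), IsGeo n f T x →
    IsGeo n (fun v => f v + e) T x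

/-- loop erasure -/
def sEra : Prop :=
  ∀ (n T : ℕ) (x : ℕ → Zd 2), IsWalk n T x → ∃ T' x', IsWalk n T' x' ∧
    T' + 1 ≤ ((range (T + 1)).image x).card ∧ ∀ f, cost f T' x' ≤ cost f T x

/-- the field with its additive constant fixed -/
noncomputable def psi {Ω : Type} (Φ : (E 2 → ℝ) → Ω → ℝ) (ρ : E 2 → ℝ) (n : ℕ) (ω : Ω)
    (v : Zd 2) : ℝ := phi Φ ρ n ω v - Φ (mol ρ 0 0) ω

/-- the vector that represents `psi` -/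
noncomputable def vp (ρ : E 2 → ℝ) (n : ℕ) (v : Zd 2) : HH 2 :=
  vec (Af (dm ρ n (((2 : ℝ) ^ n)⁻¹ • pt v)))

def sPs : Prop :=
  ∀ (Ω : Type) [MeasurableSpace Ω] (P : Measure Ω) [IsProbabilityMeasure P]
    (Φ : (E 2 → ℝ) → Ω → ℝ) (ρ : E 2 → ℝ), IsLGF P Φ → Test ρ → ∫ x, ρ x = 1 →
    (∀ n : ℕ, GF P (fun (j : box 2 (2 ^ n)) ω => psi Φ ρ n ω j) fun j => vp ρ n j) ∧
    (∃ V : ℝ, ∀ n : ℕ, ∀ v ∈ box 2 (2 ^ n),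
      ‖Ev (-(n * log 2)) 0 (((2 : ℝ) ^ n)⁻¹ • pt v) - vp ρ n v‖ ^ 2 ≤ V ∧
      ‖EG (-(n * log 2)) 0 (((2 : ℝ) ^ n)⁻¹ • pt v) - vG ρ n (((2 : ℝ) ^ n)⁻¹ • pt v)‖ ^ 2 ≤ V) ∧
    (∀ (n : ℕ) (v v' : Zd 2), ⟪vp ρ n v, vp ρ n v'⟫_ℝ =
      ⟪vG ρ n (((2 : ℝ) ^ n)⁻¹ • pt v), vG ρ n (((2 : ℝ) ^ n)⁻¹ • pt v')⟫_ℝ) ∧
    (∀ (n : ℕ) (v v' : Zd 2),
      ⟪Ev (-(n * log 2)) 0 (((2 : ℝ) ^ n)⁻¹ • pt v), Ev (-(n * log 2)) 0 (((2 : ℝ) ^ n)⁻¹ • pt v')⟫_ℝ =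
        ⟪Ev 0 (n * log 2) (pt v), Ev 0 (n * log 2) (pt v')⟫_ℝ) ∧
    ∀ (n : ℕ) (v v' : Zd 2),
      ⟪EG (-(n * log 2)) 0 (((2 : ℝ) ^ n)⁻¹ • pt v), EG (-(n * log 2)) 0 (((2 : ℝ) ^ n)⁻¹ • pt v')⟫_ℝ =
        ⟪EG 0 (n * log 2) (pt v), EG 0 (n * log 2) (pt v')⟫_ℝ

def sTA : Prop :=
  ∃ C : ℝ, 0 ≤ C ∧ ∀ θ ξ γ ε : ℝ, 10 ≤ θ → 0 ≤ ξ → 0 ≤ γ → 0 < ε →
    ∀ (Ω : Type) [MeasurableSpace Ω] (P : Measure Ω) [IsProbabilityMeasure P]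
      (Φ : (E 2 → ℝ) → Ω → ℝ) (ρ : E 2 → ℝ), IsLGF P Φ → Test ρ → ∫ x, ρ x = 1 →
      Tendsto (fun n : ℕ => P.real {ω | Chp n (Crs n (exp ((log 2 + γ) * n)))
        (exp ((log 2 - C * (ξ / θ + ξ * θ ^ 3 * γ) - ε) * n))
        fun v => ξ * psi Φ ρ n ω v}) atTop (𝓝 0)

def sTB : Prop :=
  ∃ c₁ x₀ : ℝ, 0 < c₁ ∧ 0 < x₀ ∧ ∀ x : ℝ, 0 < x → x ≤ x₀ →
    ∀ (Ω : Type) [MeasurableSpace Ω] (P : Measure Ω) [IsProbabilityMeasure P]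
      (Φ : (E 2 → ℝ) → Ω → ℝ) (ρ : E 2 → ℝ), IsLGF P Φ → Test ρ → ∫ x, ρ x = 1 →
      Tendsto (fun n : ℕ => P.real {ω | ¬ Chp n (IsWalk n) (exp ((log 2 - c₁ * x ^ 4) * n))
        fun v => x ^ 3 * psi Φ ρ n ω v}) atTop (𝓝 0)

def sMain : Prop :=
  ∃ c ξ₀ : ℝ, 0 < c ∧ 0 < ξ₀ ∧ ∀ (Ω : Type) [MeasurableSpace Ω] (P : Measure Ω)
    [IsProbabilityMeasure P] (Φ : (EuclideanSpace ℝ (Fin 2) → ℝ) → Ω → ℝ)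
    (ρ : EuclideanSpace ℝ (Fin 2) → ℝ), IsLGF P Φ → Test ρ → ∫ x, ρ x = 1 →
    ∀ ξ : ℝ, 0 < ξ → ξ ≤ ξ₀ →
      Tendsto (fun n : ℕ => P {ω | ∃ T x, IsGeo n (fun v => ξ * phi Φ ρ n ω v) T x ∧
        (((range (T + 1)).image x).card : ℝ) < 2 ^ ((1 + c * ξ ^ (4 / 3 : ℝ)) * n)}) atTop (𝓝 0)

end Pool.Agent.GL
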