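import Pool.Agent.Lib.MP_438f30_pr.AInd
import Pool.Agent.Lib.MP_438f30_pr.St

/-! Part A: short walks are expensive. -/

namespace Pool.Agent.GL

open MeasureTheory Real Filter Topology Pool.Agent.Lib.MP_a0a493_pr Pool.Agent.GLA

theorem partA : sA := by
  classical
  have C0 := CA_pos
  refine ⟨11 * CA, by positivity, fun θ ξ γ ε hθ hξ hγ hε Ω _ P _ W hW => ?_⟩
  have lim : Tendsto (fun n : ℕ => (3750 : ℝ) * (1 / 2) ^ n) atTop (𝓝 0) := by
    simpa using (tendsto_pow_atTop_nhds_zero_of_lt_one (r := (1 / 2 : ℝ)) (by norm_num)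
      (by norm_num)).const_mul 3750
  refine squeeze_zero' (Eventually.of_forall fun n => measureReal_nonneg) ?_ lim
  obtain ⟨n0, hn0⟩ := exists_nat_ge ((6 + ξ * CA * (θ + 6 * θ ^ 3)) / ε)
  filter_upwards [eventually_ge_atTop n0, eventually_ge_atTop 6] with n hn hn6
  have θ0 : 0 < θ := by linarith
  have n1 : 6 + ξ * CA * (θ + 6 * θ ^ 3) ≤ ε * n := by
    rw [div_le_iff₀ hε] at hn0
    nlinarith [mul_le_mul_of_nonneg_left (Nat.cast_le (α := ℝ).2 hn) hε.le]
  have p2 : (0 : ℝ) < 2 ^ n := by positivity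
  refine (measureReal_mono ?_).trans ((prob_good hW (EG 0 (n * log 2)) (θ ^ 2)⁻¹ (6 * n + 2) (5 * n)
    ⌈9 * θ ^ 2 + 5⌉ ((box 2 (2 ^ n)).image pt) 0 θ0 (6 * n)).trans ?_)
  · rintro ω ⟨T, x, hb, ⟨x0, xT, hs, hT⟩, hc⟩
    have hG : ∀ i ≤ T, pt (x i) ∈ (box 2 (2 ^ n)).image pt := fun i hi =>
      Finset.mem_image_of_mem _ (mem_box.2 fun j => by
        have := hb i hi j
        push_cast
        rwa [pow_succ'] at this)
    refine ⟨_, hG T le_rfl, fun hw => ?_⟩
    have e0 : pt (x 0) = 0 := by rw [x0, pt_zero]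
    have ed : dist (pt (x 0)) (pt (x T)) = ‖pt (x T)‖ := by rw [e0, dist_comm, dist_zero_right]
    have u1 : ‖pt (x T)‖ ≤ 2 * 2 ^ (n + 1) := norm_le_two (by positivity) fun j => by
      have := (Int.cast_le (R := ℝ)).2 (hb T le_rfl j)
      push_cast at this
      exact this
    have u2 : (64 : ℝ) ≤ 2 ^ n := le_trans (by norm_num) (pow_le_pow_right₀ one_le_two hn6)
    have T0 : 0 < T := Nat.pos_of_ne_zero fun e => by
      rw [e, e0, norm_zero] at xT; linarith
    obtain ⟨D, D0, hD⟩ := trade (β := n * log 2) (Ev := EG 0 (n * log 2)) (fun x y => inner_EG ..)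
      hθ (t := 6 * n) (by positivity) (Int.le_ceil _) (N := 6 * n + 2) (K := 5 * n) (by omega)
      (x := fun i => pt (x i)) (T := T) (fun i hi => by
        rw [dist_comm, dist_eq_norm, ← pt_sub]
        refine (norm_pt _).trans (le_of_eq ?_)
        exact_mod_cast hs i hi) hG (by rw [ed]; linarith) (by rw [ed, exp_jlog]; exact xT)
      (by rw [ed, show 6 * n + 2 - 5 * n = n + 1 + 1 by omega, pow_succ' _ (n + 1)]; exact u1)
      (by
        have a : (0.85 : ℝ) ^ (5 * n) * 2 ^ n ≤ 1 := by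
          rw [pow_mul, ← mul_pow]; exact pow_le_one₀ (by norm_num) (by norm_num)
        have b := mul_le_mul_of_nonneg_left u1 (show (0 : ℝ) ≤ 0.85 ^ (5 * n) by positivity)
        rw [ed, pow_succ] at *
        linarith) ((LinearMap.proj ω).comp W) (by rw [e0]; exact hw)
    have a0 := hD 0 le_rfl
    simp only [zero_mul, exp_zero, Finset.sum_const, Finset.card_range, nsmul_eq_mul, mul_one,
      sub_zero] at a0
    have a1 : log T ≤ (log 2 + γ) * n := (log_le_iff_le_exp (Nat.cast_pos.2 T0)).2 hT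
    have a2 : D ≤ γ * n + 6 := by linarith
    have a3 := hD ξ hξ
    have a4 : ∑ i ∈ Finset.range T, exp (ξ * W (EG 0 (n * log 2) (pt (x i))) ω) ≤
        cost (fun v => ξ * W (EG 0 (n * log 2) (pt v)) ω) T x := by
      rw [cost, Finset.sum_range_succ]
      exact le_add_of_nonneg_right (exp_pos _).le
    have a5 := (log_lt_iff_lt_exp (Finset.sum_pos (fun i _ => exp_pos _)
      (Finset.nonempty_range_iff.2 T0.ne'))).2 (a4.trans_lt hc)
    have a6 := a3.trans_lt a5
    have a7 := mul_le_mul_of_nonneg_left a2 (show 0 ≤ ξ * CA * θ ^ 3 by positivity)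
    have a8 : 0 ≤ ξ * CA * θ ^ 3 * (γ * n) := by positivity
    have a9 : (6 * (n : ℝ) + ((5 * n : ℕ) : ℝ)) / θ = 11 * (n / θ) := by push_cast; ring
    rw [a9] at a6
    have : ξ / θ * n = ξ * (n / θ) := by ring
    nlinarith
  · have c1 : (((box 2 (2 ^ n)).image pt).card : ℝ) ≤ (5 * 2 ^ n) ^ 2 := by
      refine (Nat.cast_le.2 Finset.card_image_le).trans ?_
      rw [card_box]
      push_cast
      exact pow_le_pow_left₀ (by positivity) (by linarith [one_le_pow₀ (n := n) (one_le_two (α := ℝ))]) 2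
    have c2 : ((5 * n : ℕ) : ℝ) + 1 ≤ 6 * 2 ^ n := by
      have : (n : ℝ) ≤ 2 ^ n := by exact_mod_cast Nat.lt_two_pow_self.le
      push_cast
      linarith [one_le_pow₀ (n := n) (one_le_two (α := ℝ))]
    have c3 : exp (-(6 * n)) ≤ ((2 ^ n) ^ 6)⁻¹ := by
      rw [exp_neg, ← pow_mul, show 6 * (n : ℝ) = (n * 6 : ℕ) * 1 by push_cast; ring, exp_nat_mul]
      exact inv_anti₀ (by positivity) (pow_le_pow_left₀ two_pos.le (by linarith [add_one_le_exp 1]) _)
    refine (mul_le_mul c3 (mul_le_mul c2 (pow_le_pow_left₀ (by positivity) c1 2) (by positivity)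
      (by positivity)) (by positivity) (by positivity)).trans (le_of_eq ?_)
    rw [one_div, inv_pow]
    field_simp
    norm_num

end Pool.Agent.GL
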