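import Pool.Agent.Lib.MP_438f30_pr.St

/-! Transfer of part A to the mollified field. -/

namespace Pool.Agent.GL

open MeasureTheory ProbabilityTheory Real Finset Filter Topology Pool.Agent.Lib.MP_a0a493_pr
open scoped InnerProductSpace

theorem ta_cmp (hl : LW) {Ω : Type} [MeasurableSpace Ω] (P : Measure Ω) [IsProbabilityMeasure P]
    (n : ℕ) (q : ℕ → (ℕ → Zd 2) → Prop) (b e ξ δ : ℝ) (hξ : 0 ≤ ξ) (hδ : ξ * δ ≤ e)
    (X Y : Zd 2 → Ω → ℝ) :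
    P.real {ω | Chp n q (exp b) fun z => ξ * X z ω} ≤
      P.real {ω | Chp n q (exp (b + e)) fun z => ξ * Y z ω} +
        P.real {ω | ∃ v ∈ box 2 (2 ^ n), δ < |Y v ω - X v ω|} := by
  refine le_trans (measureReal_mono ?_) (measureReal_union_le _ _)
  intro ω hω
  by_cases h : ∃ v ∈ box 2 (2 ^ n), δ < |Y v ω - X v ω|
  · exact Or.inr h
  · left
    refine hl.cmp n q b e _ _ (fun v hv => ?_) hω
    have h1 : |Y v ω - X v ω| ≤ δ := le_of_not_gt fun h2 => h ⟨v, hv, h2⟩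
    have h2 := mul_le_mul_of_nonneg_left ((le_abs_self _).trans h1) hξ
    linarith [mul_sub ξ (Y v ω) (X v ω)]

theorem ta (hA : sA) (ht : sTr) (hl : LW) (hp : sPs) : sTA := by
  obtain ⟨C, hC, hA⟩ := hA
  refine ⟨C, hC, fun θ ξ γ ε hθ hξ hγ hε Ω _ P _ Φ ρ hΦ hρ h1 => ?_⟩
  obtain ⟨Ω', _, P', _, W, hW⟩ := exists_iso (HG 2)
  obtain ⟨hg, ⟨V, hV⟩, hi, -, hE⟩ := hp Ω P Φ ρ hΦ hρ h1
  have hδ : 0 < ε / (2 * (ξ + 1)) := by positivity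
  have t1 := hA θ ξ γ (ε / 2) hθ hξ hγ (by positivity) Ω' P' W hW
  have t2 := ht Ω' P' (HG 2) W hW (fun n v => EG (-(n * log 2)) 0 (((2 : ℝ) ^ n)⁻¹ • pt v))
    (fun n v => vG ρ n (((2 : ℝ) ^ n)⁻¹ • pt v)) V _ hδ (fun n v hv => (hV n v hv).2)
  have t3 := t1.add t2
  rw [add_zero] at t3
  refine squeeze_zero (fun n => measureReal_nonneg) (fun n => ?_) t3
  rw [(hl.law n (fun v ω => psi Φ ρ n ω v) (vp ρ n)
    (fun v => W (vG ρ n (((2 : ℝ) ^ n)⁻¹ • pt v))) (fun v => vG ρ n (((2 : ℝ) ^ n)⁻¹ • pt v))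
    (hg n) (hW.gf _) (hi n) ξ _ _).1,
    ← (hl.law n (fun v => W (EG (-(n * log 2)) 0 (((2 : ℝ) ^ n)⁻¹ • pt v)))
    (fun v => EG (-(n * log 2)) 0 (((2 : ℝ) ^ n)⁻¹ • pt v))
    (fun v => W (EG 0 (n * log 2) (pt v))) (fun v => EG 0 (n * log 2) (pt v))
    (hW.gf _) (hW.gf _) (hE n) ξ _ _).1,
    show (log 2 - C * (ξ / θ + ξ * θ ^ 3 * γ) - ε / 2) * n =
      (log 2 - C * (ξ / θ + ξ * θ ^ 3 * γ) - ε) * n + ε / 2 * n by ring]
  refine ta_cmp hl P' n _ _ _ ξ _ hξ ?_ _ _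
  rw [← mul_assoc]
  refine mul_le_mul_of_nonneg_right ?_ (Nat.cast_nonneg n)
  rw [← mul_div_assoc, div_le_div_iff₀ (by positivity) (by positivity)]
  nlinarith

end Pool.Agent.GL
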